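import Pool.Agent.helper50.Zono.Defs

/-!
# Maximizers of linear functionals over a finite set
-/

open scoped RealInnerProductSpace

namespace Pool.Agent.helper50.Zono

open Classical in
/-- maximizers of `⟪u, ·⟫` over `V` -/
noncomputable def M (V : Finset E3) (u : E3) : Finset E3 :=
  V.filter (fun v => ∀ w ∈ V, ⟪u, w⟫ ≤ ⟪u, v⟫)

theorem mem_M {V : Finset E3} {u v : E3} : v ∈ M V u ↔ v ∈ V ∧ ∀ w ∈ V, ⟪u, w⟫ ≤ ⟪u, v⟫ := by
  classical
  simp [M]

theorem M_subset (V : Finset E3) (u : E3) : M V u ⊆ V := fun _ h => (mem_M.1 h).1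

theorem M_nonempty {V : Finset E3} (hV : V.Nonempty) (u : E3) : (M V u).Nonempty := by
  obtain ⟨v, hv, h⟩ := V.exists_max_image (fun v => ⟪u, v⟫) hV
  exact ⟨v, mem_M.2 ⟨hv, h⟩⟩

theorem M_eq_val {V : Finset E3} {u v w : E3} (hv : v ∈ M V u) (hw : w ∈ M V u) :
    ⟪u, v⟫ = ⟪u, w⟫ :=
  le_antisymm ((mem_M.1 hw).2 v (mem_M.1 hv).1) ((mem_M.1 hv).2 w (mem_M.1 hw).1)

theorem lt_of_mem_of_not_mem {V : Finset E3} {u v w : E3} (hv : v ∈ M V u) (hw : w ∈ V)
    (hw' : w ∉ M V u) : ⟪u, w⟫ < ⟪u, v⟫ := by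
  by_contra h
  push Not at h
  exact hw' (mem_M.2 ⟨hw, fun z hz => ((mem_M.1 hv).2 z hz).trans h⟩)

/-- if `M V u' ⊆ M V u` then `M V u'` are the maximizers over `M V u` -/
theorem M_M {V : Finset E3} (hV : V.Nonempty) {u u' : E3} (h : M V u' ⊆ M V u) :
    M (M V u) u' = M V u' := by
  ext v
  constructor
  · intro hv
    obtain ⟨h1, h2⟩ := mem_M.1 hv
    refine mem_M.2 ⟨M_subset _ _ h1, fun w hw => ?_⟩
    obtain ⟨z, hz⟩ := M_nonempty hV u'
    exact ((mem_M.1 hz).2 w hw).trans (h2 z (h hz))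
  · intro hv
    exact mem_M.2 ⟨h hv, fun w hw => (mem_M.1 hv).2 w (M_subset _ _ hw)⟩

/-- near `u` the maximizers are maximizers for `u` -/
theorem M_near {V : Finset E3} (hV : V.Nonempty) (u : E3) :
    ∀ᶠ u' in nhds u, M V u' ⊆ M V u := by
  obtain ⟨v, hv⟩ := M_nonempty hV u
  have h1 : ∀ w ∈ V, w ∉ M V u → ∀ᶠ u' in nhds u, ⟪u', w⟫ < ⟪u', v⟫ := by
    intro w hw hw'
    have hlt := lt_of_mem_of_not_mem hv hw hw'
    have c1 : Continuous fun u' : E3 => ⟪u', w⟫ := by fun_prop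
    have c2 : Continuous fun u' : E3 => ⟪u', v⟫ := by fun_prop
    exact c1.continuousAt.eventually_lt c2.continuousAt hlt
  have h2 : ∀ᶠ u' in nhds u, ∀ w ∈ V, w ∉ M V u → ⟪u', w⟫ < ⟪u', v⟫ := by
    rw [Filter.eventually_all_finset]
    intro w hw
    by_cases hw' : w ∈ M V u
    · simp [hw']
    · filter_upwards [h1 w hw hw'] with u' hu' _ using hu'
  filter_upwards [h2] with u' hu' w hw
  by_contra hw'
  have := hu' w (M_subset _ _ hw) hw'
  exact absurd ((mem_M.1 hw).2 v (M_subset _ _ hv)) (not_le.2 this)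

theorem M_smul {V : Finset E3} (u : E3) {t : ℝ} (ht : 0 < t) : M V (t • u) = M V u := by
  ext v
  simp only [mem_M, inner_smul_left, RCLike.conj_to_real]
  constructor
  · rintro ⟨h1, h2⟩
    exact ⟨h1, fun w hw => le_of_mul_le_mul_left (h2 w hw) ht⟩
  · rintro ⟨h1, h2⟩
    exact ⟨h1, fun w hw => mul_le_mul_of_nonneg_left (h2 w hw) ht.le⟩

/-- the set of `u` for which a given `v` is a maximizer is closed -/
theorem isClosed_mem_M (V : Finset E3) (v : E3) : IsClosed {u : E3 | v ∈ M V u} := by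
  by_cases hv : v ∈ V
  · have : {u : E3 | v ∈ M V u} = ⋂ w ∈ V, {u : E3 | ⟪u, w⟫ ≤ ⟪u, v⟫} := by
      ext u
      simp [mem_M, hv]
    rw [this]
    refine isClosed_biInter fun w _ => isClosed_le (by fun_prop) (by fun_prop)
  · have : {u : E3 | v ∈ M V u} = ∅ := by
      ext u
      simp [mem_M, hv]
    rw [this]
    exact isClosed_empty

theorem isOpen_M_eq_singleton (V : Finset E3) (hV : V.Nonempty) (v : E3) :
    IsOpen {u : E3 | M V u = {v}} := by
  rw [isOpen_iff_mem_nhds]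
  intro u hu
  simp only [Set.mem_ofPred_eq] at hu
  filter_upwards [M_near hV u] with u' hu'
  rw [hu] at hu'
  have := M_nonempty hV u'
  exact (Finset.subset_singleton_iff.1 hu').resolve_left this.ne_empty

/-- the maximizers on a segment between two functionals with the same unique maximizer -/
theorem M_singleton_combo {V : Finset E3} {u u' v : E3} (h : M V u = {v}) (h' : M V u' = {v})
    {s t : ℝ} (hs : 0 ≤ s) (ht : 0 ≤ t) (hst : 0 < s + t) : M V (s • u + t • u') = {v} := by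
  have hv : v ∈ V := M_subset V u (by rw [h]; simp)
  have k1 : ∀ w ∈ V, w ≠ v → ⟪u, w⟫ < ⟪u, v⟫ := fun w hw hne =>
    lt_of_mem_of_not_mem (by rw [h]; simp) hw (by rw [h]; simpa using hne)
  have k2 : ∀ w ∈ V, w ≠ v → ⟪u', w⟫ < ⟪u', v⟫ := fun w hw hne =>
    lt_of_mem_of_not_mem (by rw [h']; simp) hw (by rw [h']; simpa using hne)
  have key : ∀ w ∈ V, w ≠ v → ⟪s • u + t • u', w⟫ < ⟪s • u + t • u', v⟫ := by
    intro w hw hne
    simp only [inner_add_left, inner_smul_left, RCLike.conj_to_real]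
    have h1 := k1 w hw hne
    have h2 := k2 w hw hne
    rcases hs.eq_or_lt with h0 | h0
    · rw [← h0] at hst ⊢
      have : 0 < t := by linarith
      nlinarith
    · nlinarith
  ext w
  rw [mem_M, Finset.mem_singleton]
  constructor
  · rintro ⟨h1, h2⟩
    by_contra hne
    exact absurd (h2 v hv) (not_le.2 (key w h1 hne))
  · rintro rfl
    refine ⟨hv, fun z hz => ?_⟩
    by_cases hne : z = w
    · rw [hne]
    · exact (key z hz hne).le

/-- Convex position. -/
def ConvPos (V : Finset E3) : Prop := ∀ v ∈ V, v ∉ convexHull ℝ ((V : Set E3) \ {v})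

/-- the face cut out by `u` is the convex hull of the maximizers -/
theorem face_eq (V : Finset E3) (u : E3) :
    {x | x ∈ convexHull ℝ (V : Set E3) ∧ ∀ y ∈ convexHull ℝ (V : Set E3), ⟪u, y⟫ ≤ ⟪u, x⟫} =
      convexHull ℝ (M V u : Set E3) := by
  have hub : ∀ c : ℝ, (∀ v ∈ V, ⟪u, v⟫ ≤ c) → ∀ y ∈ convexHull ℝ (V : Set E3), ⟪u, y⟫ ≤ c := by
    intro c hc y hy
    have hconv : Convex ℝ {y : E3 | ⟪u, y⟫ ≤ c} :=
      convex_halfSpace_le (f := fun y : E3 => ⟪u, y⟫)
        ⟨fun x y => inner_add_right u x y, fun c x => by rw [inner_smul_right]; rfl⟩ c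
    exact convexHull_min (fun v hv => hc v hv) hconv hy
  apply Set.Subset.antisymm
  · rintro x ⟨hx, hmax⟩
    rw [Finset.mem_convexHull'] at hx
    obtain ⟨w, hw0, hw1, hwx⟩ := hx
    have hV : V.Nonempty := by
      rcases V.eq_empty_or_nonempty with h | h
      · rw [h] at hw1; simp at hw1
      · exact h
    obtain ⟨z, hz⟩ := M_nonempty hV u
    have hval : ⟪u, x⟫ = ⟪u, z⟫ := by
      apply le_antisymm
      · exact hub _ (mem_M.1 hz).2 x (by rw [Finset.mem_convexHull']; exact ⟨w, hw0, hw1, hwx⟩)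
      · exact hmax z (subset_convexHull _ _ (M_subset _ _ hz))
    have hsum : ∑ y ∈ V, w y * (⟪u, z⟫ - ⟪u, y⟫) = 0 := by
      have : ∑ y ∈ V, w y * ⟪u, y⟫ = ⟪u, x⟫ := by
        rw [← hwx, inner_sum]
        refine Finset.sum_congr rfl fun y _ => ?_
        rw [inner_smul_right]
      simp only [mul_sub, Finset.sum_sub_distrib]
      rw [← Finset.sum_mul, hw1, this, hval]; ring
    have hzero : ∀ y ∈ V, w y * (⟪u, z⟫ - ⟪u, y⟫) = 0 := by
      refine (Finset.sum_eq_zero_iff_of_nonneg fun y hy => ?_).1 hsum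
      exact mul_nonneg (hw0 y hy) (sub_nonneg.2 ((mem_M.1 hz).2 y hy))
    have hw2 : ∀ y ∈ V, y ∉ M V u → w y = 0 := by
      intro y hy hy'
      have := hzero y hy
      have h2 := lt_of_mem_of_not_mem hz hy hy'
      rcases mul_eq_zero.1 this with h | h
      · exact h
      · linarith
    rw [Finset.mem_convexHull']
    refine ⟨w, fun y hy => hw0 y (M_subset _ _ hy), ?_, ?_⟩
    · rw [← hw1]
      exact Finset.sum_subset (M_subset _ _) fun y hy hy' => hw2 y hy hy'
    · rw [← hwx]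
      exact Finset.sum_subset (M_subset _ _) fun y hy hy' => by rw [hw2 y hy hy', zero_smul]
  · intro x hx
    rcases (M V u).eq_empty_or_nonempty with h | ⟨z, hz⟩
    · rw [h] at hx; simp at hx
    · have hval : ⟪u, x⟫ = ⟪u, z⟫ := by
        have hconv : Convex ℝ {y : E3 | ⟪u, y⟫ = ⟪u, z⟫} :=
          convex_hyperplane (f := fun y : E3 => ⟪u, y⟫)
            ⟨fun x y => inner_add_right u x y, fun c x => by rw [inner_smul_right]; rfl⟩ _
        exact convexHull_min (fun v hv => M_eq_val hv hz) hconv hx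
      refine ⟨convexHull_mono (M_subset _ _) hx, fun y hy => ?_⟩
      rw [hval]
      exact hub _ (mem_M.1 hz).2 y hy

end Pool.Agent.helper50.Zono
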