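import Pool.Agent.helper50.Zono.EdgeLemma

/-!
# The belt lemma

If all facets of a polytope are centrally symmetric, then for every edge direction `a` and every
nonzero `u` orthogonal to `a` the face in direction `u` contains an edge parallel to `a`.
-/

open scoped RealInnerProductSpace

namespace Pool.Agent.helper50.Zono

/-- All facets are centrally symmetric, in terms of the vertex set. -/
def FacetSymm (V : Finset E3) : Prop :=
  ∀ u, Module.finrank ℝ (vectorSpan ℝ (M V u : Set E3)) = 2 →
    ∃ c : E3, ∀ x ∈ M V u, (2 : ℝ) • c - x ∈ M V u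

theorem facetSymm_of {V : Finset E3} (hc : ConvPos V) (hV : V.Nonempty)
    (h : ∀ F, IsFace (convexHull ℝ (V : Set E3)) F 2 → CentrallySymmetric F) : FacetSymm V := by
  intro u hu
  obtain ⟨c, hcs⟩ := h _ ((isFace_iff hV _ 2).2 ⟨u, rfl, hu⟩)
  refine ⟨c, fun x hx => ?_⟩
  have hcW : ConvPos (M V u) := convPos_mono hc (M_subset _ _)
  have hmem : ∀ y, y ∈ convexHull ℝ (M V u : Set E3) →
      (2 : ℝ) • c - y ∈ convexHull ℝ (M V u : Set E3) := by
    intro y hy
    have : (fun x => (2 : ℝ) • c - x) y ∈ (fun x => (2 : ℝ) • c - x) ''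
      convexHull ℝ (M V u : Set E3) := ⟨y, hy, rfl⟩
    rw [hcs] at this
    exact this
  have hext : x ∈ (convexHull ℝ (M V u : Set E3)).extremePoints ℝ := by
    rw [extremePoints_hull hcW]; exact hx
  have hext' : (2 : ℝ) • c - x ∈ (convexHull ℝ (M V u : Set E3)).extremePoints ℝ := by
    rw [mem_extremePoints] at hext ⊢
    refine ⟨hmem x hext.1, ?_⟩
    intro y hy z hz hyz
    have h1 := hext.2 _ (hmem y hy) _ (hmem z hz) ?_
    · constructor
      · rw [← h1.1]; abel
      · rw [← h1.2]; abel
    · obtain ⟨s, t, hs, ht, hst, hsum⟩ := hyz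
      refine ⟨s, t, hs, ht, hst, ?_⟩
      have : s • ((2 : ℝ) • c - y) + t • ((2 : ℝ) • c - z) =
          (s + t) • ((2 : ℝ) • c) - (s • y + t • z) := by
        simp only [smul_sub, add_smul]; abel
      rw [this, hst, one_smul, hsum]; abel
  rw [extremePoints_hull hcW] at hext'
  exact hext'

theorem isPreconnected_orth {a : E3} (ha : a ≠ 0) : IsPreconnected {u : E3 | ⟪u, a⟫ = 0 ∧ u ≠ 0} := by
  set U := (Submodule.span ℝ {a})ᗮ with hU
  have hfin : Module.finrank ℝ U = 2 := by
    have h1 := (Submodule.span ℝ {a}).finrank_add_finrank_orthogonal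
    rw [finrank_span_singleton ha, ← hU] at h1
    simp only [finrank_euclideanSpace, Fintype.card_fin] at h1
    omega
  have hrank : 1 < Module.rank ℝ U := by
    rw [← Module.finrank_eq_rank, hfin]
    exact_mod_cast (by norm_num : (1 : ℕ) < 2)
  have h1 := (isConnected_compl_singleton_of_one_lt_rank hrank (0 : U)).isPreconnected
  have h2 := h1.image (Subtype.val : U → E3) continuous_subtype_val.continuousOn
  convert h2 using 1
  ext u
  simp only [Set.mem_ofPred_eq, Set.mem_image, Set.mem_compl_iff, Set.mem_singleton_iff]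
  constructor
  · rintro ⟨h3, h4⟩
    refine ⟨⟨u, ?_⟩, ?_, rfl⟩
    · rw [hU, Submodule.mem_orthogonal_singleton_iff_inner_left]; exact h3
    · intro h5; exact h4 (congrArg Subtype.val h5)
  · rintro ⟨⟨x, hx⟩, hx0, rfl⟩
    refine ⟨?_, ?_⟩
    · rw [hU, Submodule.mem_orthogonal_singleton_iff_inner_left] at hx; exact hx
    · intro h5; exact hx0 (Subtype.ext h5)

theorem finrank_M_le {V : Finset E3} (hV : V.Nonempty) {u : E3} (hu : u ≠ 0) :
    Module.finrank ℝ (vectorSpan ℝ (M V u : Set E3)) ≤ 2 := by
  have h1 : vectorSpan ℝ (M V u : Set E3) ≤ (Submodule.span ℝ {u})ᗮ := by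
    have h2 : u ∈ (vectorSpan ℝ (M V u : Set E3))ᗮ := by
      rw [mem_orth_vectorSpan (M_nonempty hV u)]
      exact fun x hx y hy => M_eq_val hx hy
    intro x hx
    rw [Submodule.mem_orthogonal_singleton_iff_inner_left]
    exact (Submodule.mem_orthogonal _ _).1 h2 x hx
  have h3 := (Submodule.span ℝ {u}).finrank_add_finrank_orthogonal
  rw [finrank_span_singleton hu] at h3
  simp only [finrank_euclideanSpace, Fintype.card_fin] at h3
  have := Submodule.finrank_mono h1
  omega

theorem belt_local {V : Finset E3} (hc : ConvPos V) (hs : FacetSymm V) (hV : V.Nonempty)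
    {p q u : E3} (hE : Edge V p q) (hu : u ≠ 0) (hp : p ∈ M V u) (hq : q ∈ M V u) :
    ∀ᶠ u' in nhds u, ⟪u', p - q⟫ = 0 →
      ∃ p' q', Edge V p' q' ∧ p' ∈ M V u' ∧ q' ∈ M V u' ∧ ∃ t : ℝ, p' - q' = t • (p - q) := by
  filter_upwards [M_near hV u] with u' hsub hperp
  obtain ⟨hpq, u₁, hM₁⟩ := hE
  set W := M V u with hW
  have hMW : M W u' = M V u' := M_M hV hsub
  have hpW : p ∈ W := hp
  have hqW : q ∈ W := hq
  have hWV : W ⊆ V := M_subset _ _
  have heq : ⟪u', p⟫ = ⟪u', q⟫ := by rw [inner_sub_right] at hperp; linarith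
  have hWne : W.Nonempty := ⟨p, hpW⟩
  by_cases hfin : Module.finrank ℝ (vectorSpan ℝ (W : Set E3)) ≤ 1
  · -- `W = {p, q}`
    have hcard := card_le_two_of_finrank (convPos_mono hc hWV) hfin
    have hWeq : W = {p, q} := by
      symm
      apply Finset.eq_of_subset_of_card_le
      · intro x hx
        rw [Finset.mem_insert, Finset.mem_singleton] at hx
        rcases hx with rfl | rfl
        · exact hpW
        · exact hqW
      · rw [Finset.card_pair hpq]; exact hcard
    refine ⟨p, q, ⟨hpq, u₁, hM₁⟩, ?_, ?_, 1, by rw [one_smul]⟩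
    · rw [← hMW, mem_M]
      refine ⟨hpW, fun w hw => ?_⟩
      rw [hWeq, Finset.mem_insert, Finset.mem_singleton] at hw
      rcases hw with rfl | rfl
      · exact le_refl _
      · exact heq.ge
    · rw [← hMW, mem_M]
      refine ⟨hqW, fun w hw => ?_⟩
      rw [hWeq, Finset.mem_insert, Finset.mem_singleton] at hw
      rcases hw with rfl | rfl
      · exact heq.le
      · exact le_refl _
  · have hfin2 : Module.finrank ℝ (vectorSpan ℝ (W : Set E3)) = 2 := by
      have := finrank_M_le hV hu
      rw [← hW] at this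
      omega
    obtain ⟨c, hcc⟩ := hs u (by rw [← hW]; exact hfin2)
    rw [← hW] at hcc
    have hM₁W : M W u₁ = {p, q} := by
      rw [M_M hV (u' := u₁) (by
        rw [hM₁]
        intro x hx
        rw [Finset.mem_insert, Finset.mem_singleton] at hx
        rcases hx with rfl | rfl
        · exact hpW
        · exact hqW), hM₁]
    -- a point of `W` off the line
    obtain ⟨z, hzW, hz⟩ : ∃ z ∈ W, ⟪u₁, z - p⟫ ≠ 0 := by
      by_contra hcon
      push Not at hcon
      have : W ⊆ {p, q} := by
        intro x hx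
        rw [← hM₁W, mem_M]
        refine ⟨hx, fun w hw => ?_⟩
        have h1 := hcon x hx
        have h2 := hcon w hw
        rw [inner_sub_right] at h1 h2
        linarith
      have h3 : Module.finrank ℝ (vectorSpan ℝ (W : Set E3)) ≤
          Module.finrank ℝ (vectorSpan ℝ ({p, q} : Set E3)) := by
        apply Submodule.finrank_mono
        apply vectorSpan_mono
        intro x hx
        have := this hx
        simpa using this
      rw [finrank_pair hpq] at h3
      omega
    have hpM₁ : p ∈ M W u₁ := by rw [hM₁W]; simp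
    have hqM₁ : q ∈ M W u₁ := by rw [hM₁W]; simp
    have hval₁ : ⟪u₁, p - q⟫ = 0 := by
      rw [inner_sub_right, M_eq_val hpM₁ hqM₁, sub_self]
    -- the plane of `W`
    have hplane : ∀ x ∈ W, ∃ α β : ℝ, x - p = α • (p - q) + β • (z - p) := by
      have hlin : LinearIndependent ℝ ![p - q, z - p] := by
        rw [LinearIndependent.pair_iff]
        intro s t hst
        have h1 : ⟪u₁, s • (p - q) + t • (z - p)⟫ = 0 := by rw [hst, inner_zero_right]
        rw [inner_add_right, inner_smul_right, inner_smul_right, hval₁, mul_zero, zero_add] at h1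
        have ht : t = 0 := (mul_eq_zero.1 h1).resolve_right hz
        rw [ht, zero_smul, add_zero] at hst
        exact ⟨(smul_eq_zero.1 hst).resolve_right (sub_ne_zero.2 hpq), ht⟩
      have hle : Submodule.span ℝ (Set.range ![p - q, z - p]) ≤ vectorSpan ℝ (W : Set E3) := by
        rw [Submodule.span_le]
        rintro _ ⟨i, rfl⟩
        fin_cases i
        · exact vsub_mem_vectorSpan ℝ (by exact_mod_cast hpW) (by exact_mod_cast hqW)
        · exact vsub_mem_vectorSpan ℝ (by exact_mod_cast hzW) (by exact_mod_cast hpW)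
      have heq2 : Submodule.span ℝ (Set.range ![p - q, z - p]) = vectorSpan ℝ (W : Set E3) := by
        apply Submodule.eq_of_le_of_finrank_eq hle
        rw [finrank_span_eq_card hlin, hfin2]; simp
      intro x hx
      have hxm : x - p ∈ Submodule.span ℝ (Set.range ![p - q, z - p]) := by
        rw [heq2]
        exact vsub_mem_vectorSpan ℝ (by exact_mod_cast hx) (by exact_mod_cast hpW)
      rw [Matrix.range_cons, Matrix.range_cons, Matrix.range_empty, Set.union_empty,
        Set.singleton_union] at hxm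
      obtain ⟨α, β, h⟩ := Submodule.mem_span_pair.1 hxm
      exact ⟨α, β, h.symm⟩
    set lam : ℝ := ⟪u', z - p⟫ / ⟪u₁, z - p⟫ with hlam
    have hprop : ∀ x ∈ W, ⟪u', x - p⟫ = lam * ⟪u₁, x - p⟫ := by
      intro x hx
      obtain ⟨α, β, hx'⟩ := hplane x hx
      rw [hx', inner_add_right, inner_add_right, inner_smul_right, inner_smul_right,
        inner_smul_right, inner_smul_right, hperp, hval₁, hlam, mul_zero, zero_add, zero_add]
      field_simp
    rcases le_or_gt 0 lam with hl | hl
    · refine ⟨p, q, ⟨hpq, u₁, hM₁⟩, ?_, ?_, 1, by rw [one_smul]⟩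
      · rw [← hMW, mem_M]
        refine ⟨hpW, fun w hw => ?_⟩
        have h1 := hprop w hw
        have h2 := (mem_M.1 hpM₁).2 w hw
        rw [inner_sub_right, inner_sub_right] at h1
        nlinarith
      · rw [← hMW, mem_M]
        refine ⟨hqW, fun w hw => ?_⟩
        have h1 := hprop w hw
        have h2 := (mem_M.1 hpM₁).2 w hw
        rw [inner_sub_right, inner_sub_right] at h1
        nlinarith
    · have hp'W : (2 : ℝ) • c - p ∈ W := hcc p hpW
      have hq'W : (2 : ℝ) • c - q ∈ W := hcc q hqW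
      have hinv : ∀ x, x ∈ W → (2 : ℝ) • c - x ∈ W := hcc
      -- minimizers
      have hmin : ∀ x, x ∈ M W (-u₁) ↔ (2 : ℝ) • c - x ∈ M W u₁ := by
        intro x
        rw [mem_M (V := W), mem_M (V := W)]
        constructor
        · rintro ⟨hx, hx2⟩
          refine ⟨hinv x hx, fun w hw => ?_⟩
          have := hx2 _ (hinv w hw)
          rw [inner_neg_left, inner_neg_left, inner_sub_right] at this
          rw [inner_sub_right]
          linarith
        · rintro ⟨hx, hx2⟩
          have hxW : x ∈ W := by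
            have := hinv _ hx
            rwa [sub_sub_cancel] at this
          refine ⟨hxW, fun w hw => ?_⟩
          have := hx2 _ (hinv w hw)
          rw [inner_sub_right, inner_sub_right] at this
          rw [inner_neg_left, inner_neg_left]
          linarith
      have hMneg : M W (-u₁) = {(2 : ℝ) • c - p, (2 : ℝ) • c - q} := by
        ext x
        rw [hmin, hM₁W, Finset.mem_insert, Finset.mem_singleton, Finset.mem_insert,
          Finset.mem_singleton]
        constructor
        · rintro (h | h)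
          · left; rw [← h]; abel
          · right; rw [← h]; abel
        · rintro (h | h)
          · left; rw [h]; abel
          · right; rw [h]; abel
      obtain ⟨ε, hε, hMε⟩ := exists_perturb hV u (-u₁)
      rw [← hW, hMneg] at hMε
      have hne : (2 : ℝ) • c - p ≠ (2 : ℝ) • c - q := by
        intro h
        exact hpq (by simpa using h)
      refine ⟨(2 : ℝ) • c - p, (2 : ℝ) • c - q, ⟨hne, _, hMε⟩, ?_, ?_, -1, ?_⟩
      · rw [← hMW, mem_M]
        refine ⟨hp'W, fun w hw => ?_⟩
        have h1 := hprop w hw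
        have h2 := hprop _ hp'W
        have h3 := (mem_M.1 hpM₁).2 _ (hinv w hw)
        rw [inner_sub_right] at h3
        simp only [inner_sub_right] at h1 h2 ⊢
        nlinarith
      · rw [← hMW, mem_M]
        refine ⟨hq'W, fun w hw => ?_⟩
        have h1 := hprop w hw
        have h2 := hprop _ hq'W
        have h3 := (mem_M.1 hqM₁).2 _ (hinv w hw)
        have h4 := M_eq_val hpM₁ hqM₁
        rw [inner_sub_right] at h3
        simp only [inner_sub_right] at h1 h2 ⊢
        nlinarith
      · rw [neg_one_smul]; abel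

/-- **Belt lemma.** -/
theorem belt {V : Finset E3} (hc : ConvPos V) (hs : FacetSymm V)
    (hfull : Module.finrank ℝ (vectorSpan ℝ (V : Set E3)) = 3) {v w : E3} (hE : Edge V v w)
    {u : E3} (hu : u ≠ 0) (hperp : ⟪u, v - w⟫ = 0) :
    ∃ p q, Edge V p q ∧ p ∈ M V u ∧ q ∈ M V u ∧ ∃ t : ℝ, p - q = t • (v - w) := by
  have hvw : v ≠ w := hE.1
  have ha : v - w ≠ 0 := sub_ne_zero.2 hvw
  have hV : V.Nonempty := by
    rcases V.eq_empty_or_nonempty with h | h
    · rw [h, Finset.coe_empty, vectorSpan_empty, finrank_bot] at hfull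
      omega
    · exact h
  set S : Set E3 := {u : E3 | ⟪u, v - w⟫ = 0 ∧ u ≠ 0} with hS
  set K : Set E3 := {u : E3 | ∃ p q, Edge V p q ∧ p ∈ M V u ∧ q ∈ M V u ∧
    ∃ t : ℝ, p - q = t • (v - w)} with hK
  have hKcl : IsClosed K := by
    have : K = ⋃ p ∈ V, ⋃ q ∈ V, {u | Edge V p q ∧ p ∈ M V u ∧ q ∈ M V u ∧
        ∃ t : ℝ, p - q = t • (v - w)} := by
      ext u
      simp only [hK, Set.mem_ofPred_eq, Set.mem_iUnion, exists_prop]
      constructor
      · rintro ⟨p, q, h1, h2, h3, h4⟩
        exact ⟨p, M_subset _ _ h2, q, M_subset _ _ h3, h1, h2, h3, h4⟩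
      · rintro ⟨p, _, q, _, h⟩
        exact ⟨p, q, h⟩
    rw [this]
    refine Set.Finite.isClosed_biUnion V.finite_toSet fun p _ =>
      Set.Finite.isClosed_biUnion V.finite_toSet fun q _ => ?_
    by_cases h1 : Edge V p q ∧ ∃ t : ℝ, p - q = t • (v - w)
    · have h2 : {u | Edge V p q ∧ p ∈ M V u ∧ q ∈ M V u ∧ ∃ t : ℝ, p - q = t • (v - w)} =
          {u | p ∈ M V u} ∩ {u | q ∈ M V u} := by
        ext u
        simp only [Set.mem_ofPred_eq, Set.mem_inter_iff]
        tauto
      rw [h2]
      exact (isClosed_mem_M V p).inter (isClosed_mem_M V q)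
    · have h2 : {u | Edge V p q ∧ p ∈ M V u ∧ q ∈ M V u ∧ ∃ t : ℝ, p - q = t • (v - w)} = ∅ := by
        ext u
        simp only [Set.mem_ofPred_eq, Set.mem_empty_iff_false]
        tauto
      rw [h2]; exact isClosed_empty
  have hpre : IsPreconnected S := isPreconnected_orth ha
  rw [isPreconnected_iff_subset_of_disjoint] at hpre
  have hopen : ∀ u ∈ S, u ∈ K → u ∈ interior {u' | u' ∈ S → u' ∈ K} := by
    rintro u ⟨hu1, hu2⟩ ⟨p, q, hE', hp, hq, t, ht⟩
    rw [mem_interior_iff_mem_nhds]
    filter_upwards [belt_local hc hs hV hE' hu2 hp hq] with u' h' hu'S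
    have ht0 : t ≠ 0 := by
      rintro rfl
      rw [zero_smul, sub_eq_zero] at ht
      exact hE'.1 ht
    obtain ⟨p', q', hE'', hp', hq', t', ht'⟩ := h' (by
      rw [ht, inner_smul_right, hu'S.1, mul_zero])
    exact ⟨p', q', hE'', hp', hq', t' * t, by rw [ht', ht, smul_smul]⟩
  obtain ⟨hne, u₀, hM₀⟩ := hE
  have hu₀ : u₀ ≠ 0 := by
    rintro rfl
    have : M V 0 = V := by
      ext x
      rw [mem_M]
      simp
    rw [this] at hM₀
    have h1 : (V : Set E3) = {v, w} := by rw [hM₀]; simp
    rw [h1, finrank_pair hvw] at hfull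
    omega
  have hu₀S : u₀ ∈ S := by
    refine ⟨?_, hu₀⟩
    rw [inner_sub_right, M_eq_val (V := V) (u := u₀) (v := v) (w := w) (by rw [hM₀]; simp)
      (by rw [hM₀]; simp), sub_self]
  have hu₀K : u₀ ∈ K := by
    refine ⟨v, w, ⟨hne, u₀, hM₀⟩, by rw [hM₀]; simp, by rw [hM₀]; simp, 1, by rw [one_smul]⟩
  have hcov := hpre (interior {u' | u' ∈ S → u' ∈ K}) Kᶜ isOpen_interior hKcl.isOpen_compl
    (by
      intro x hx
      by_cases hxK : x ∈ K
      · exact Or.inl (hopen x hx hxK)
      · exact Or.inr hxK)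
    (by
      ext x
      simp only [Set.mem_inter_iff, Set.mem_compl_iff, Set.mem_empty_iff_false, iff_false]
      rintro ⟨hxS, hxi, hxK⟩
      exact hxK (interior_subset hxi hxS))
  rcases hcov with h | h
  · have huS : u ∈ S := ⟨hperp, hu⟩
    exact interior_subset (h huS) huS
  · exact absurd hu₀K (h hu₀S)

end Pool.Agent.helper50.Zono
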