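import Pool.Agent.helper50.Zono.Trans1

/-!
# From arrangements to zonotopes
-/

open scoped RealInnerProductSpace

namespace Pool.Agent.helper50.Zono

variable {N : ℕ} {a : Fin N → E3}

/-- the vertex of the zonotope belonging to `S` -/
noncomputable def z (a : Fin N → E3) (S : Finset (Fin N)) : E3 :=
  ∑ i, (if i ∈ S then a i else -a i)

/-- the sign vector of `S` is compatible with `u` -/
def Compat (a : Fin N → E3) (u : E3) (S : Finset (Fin N)) : Prop :=
  ∀ i, (0 < ⟪a i, u⟫ → i ∈ S) ∧ (⟪a i, u⟫ < 0 → i ∉ S)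

theorem inner_z (u : E3) (S : Finset (Fin N)) :
    ⟪u, z a S⟫ = ∑ i, (if i ∈ S then ⟪a i, u⟫ else -⟪a i, u⟫) := by
  unfold z
  rw [inner_sum]
  refine Finset.sum_congr rfl fun i _ => ?_
  split_ifs
  · rw [real_inner_comm]
  · rw [inner_neg_right, real_inner_comm]

theorem term_le (u : E3) (S : Finset (Fin N)) (i : Fin N) :
    (if i ∈ S then ⟪a i, u⟫ else -⟪a i, u⟫) ≤ |⟪a i, u⟫| := by
  split_ifs
  · exact le_abs_self _
  · exact neg_le_abs _

theorem inner_z_le (u : E3) (S : Finset (Fin N)) : ⟪u, z a S⟫ ≤ ∑ i, |⟪a i, u⟫| := by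
  rw [inner_z]
  exact Finset.sum_le_sum fun i _ => term_le u S i

theorem inner_z_eq_iff (u : E3) (S : Finset (Fin N)) :
    ⟪u, z a S⟫ = ∑ i, |⟪a i, u⟫| ↔ Compat a u S := by
  rw [inner_z, Finset.sum_eq_sum_iff_of_le fun i _ => term_le u S i]
  refine ⟨fun h i => ?_, fun h i _ => ?_⟩
  · have h1 := h i (Finset.mem_univ _)
    constructor
    · intro hpos
      by_contra hn
      rw [if_neg hn, abs_of_pos hpos] at h1
      linarith
    · intro hneg hn
      rw [if_pos hn, abs_of_neg hneg] at h1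
      linarith
  · split_ifs with hi
    · by_contra hne
      have : ⟪a i, u⟫ < 0 := by
        by_contra hn
        exact hne (abs_of_nonneg (not_lt.1 hn)).symm
      exact (h i).2 this hi
    · by_contra hne
      have : 0 < ⟪a i, u⟫ := by
        by_contra hn
        exact hne (abs_of_nonpos (not_lt.1 hn)).symm
      exact hi ((h i).1 this)

open Setup (pos mem_pos)

theorem compat_self {u : E3} {S : Finset (Fin N)} (h1 : ∀ i ∈ S, 0 < ⟪a i, u⟫)
    (h2 : ∀ i ∉ S, ⟪a i, u⟫ < 0) : Compat a u S := by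
  intro i
  constructor
  · intro h
    by_contra hn
    exact absurd h (not_lt.2 (h2 i hn).le)
  · intro h hn
    exact absurd h (not_lt.2 (h1 i hn).le)

theorem compat_generic {u : E3} {S T : Finset (Fin N)} (h1 : ∀ i ∈ S, 0 < ⟪a i, u⟫)
    (h2 : ∀ i ∉ S, ⟪a i, u⟫ < 0) (hT : Compat a u T) : T = S := by
  ext i
  constructor
  · intro hi
    by_contra hn
    exact (hT i).2 (h2 i hn) hi
  · intro hi
    exact (hT i).1 (h1 i hi)

/-- perturbing `u` by a vector `y`: signs -/
theorem eventually_sign (a : Fin N → E3) (u y : E3) :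
    ∀ᶠ ε in nhdsWithin (0 : ℝ) (Set.Ioi 0), ∀ i,
      (0 < ⟪a i, u⟫ → 0 < ⟪a i, u + ε • y⟫) ∧ (⟪a i, u⟫ < 0 → ⟪a i, u + ε • y⟫ < 0) := by
  rw [Filter.eventually_all]
  intro i
  have hcont : Filter.Tendsto (fun ε : ℝ => ⟪a i, u + ε • y⟫) (nhdsWithin 0 (Set.Ioi 0))
      (nhds ⟪a i, u⟫) := by
    have : Filter.Tendsto (fun ε : ℝ => ⟪a i, u + ε • y⟫) (nhds 0)
        (nhds ⟪a i, u + (0:ℝ) • y⟫) := by
      apply Continuous.tendsto
      fun_prop
    rw [zero_smul, add_zero] at this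
    exact this.mono_left nhdsWithin_le_nhds
  rcases lt_trichotomy ⟪a i, u⟫ 0 with h3 | h3 | h3
  · filter_upwards [hcont.eventually (gt_mem_nhds h3)] with ε hε
    exact ⟨fun h4 => absurd h4 (not_lt.2 h3.le), fun _ => hε⟩
  · rw [h3]
    exact Filter.Eventually.of_forall fun ε => ⟨fun h => absurd h (lt_irrefl _),
      fun h => absurd h (lt_irrefl _)⟩
  · filter_upwards [hcont.eventually (lt_mem_nhds h3)] with ε hε
    exact ⟨fun _ => hε, fun h4 => absurd h4 (not_lt.2 h3.le)⟩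

/-- the tope of `u + ε y` for `y` generic on the indices orthogonal to `u` -/
theorem exists_tope_near (u y : E3) (hy : ∀ i, ⟪a i, u⟫ = 0 → ⟪a i, y⟫ ≠ 0) :
    ∃ S, IsTope a S ∧ Compat a u S ∧ ∀ i, ⟪a i, u⟫ = 0 → (i ∈ S ↔ 0 < ⟪a i, y⟫) := by
  obtain ⟨ε, h1, h2⟩ := ((eventually_sign a u y).and self_mem_nhdsWithin).exists
  have hε : 0 < ε := h2
  have hgen : ∀ i, ⟪a i, u + ε • y⟫ ≠ 0 := by
    intro i
    rcases lt_trichotomy ⟪a i, u⟫ 0 with h3 | h3 | h3
    · exact ((h1 i).2 h3).ne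
    · rw [inner_add_right, h3, inner_smul_right, zero_add]
      exact mul_ne_zero hε.ne' (hy i h3)
    · exact ((h1 i).1 h3).ne'
  refine ⟨pos a (u + ε • y), ⟨u + ε • y, fun i hi => mem_pos.1 hi, fun i hi => ?_⟩, ?_, ?_⟩
  · rw [mem_pos, not_lt] at hi
    exact lt_of_le_of_ne hi (hgen i)
  · intro i
    constructor
    · intro h; rw [mem_pos]; exact (h1 i).1 h
    · intro h; rw [mem_pos, not_lt]; exact ((h1 i).2 h).le
  · intro i hi
    rw [mem_pos, inner_add_right, hi, inner_smul_right, zero_add]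
    constructor
    · intro h
      by_contra hn
      exact absurd h (not_lt.2 (mul_nonpos_of_nonneg_of_nonpos hε.le (not_lt.1 hn)))
    · exact fun h => mul_pos hε h

section

variable (ha : IsArr a)
include ha

theorem a_ne_zero (hN : 2 ≤ N) (i : Fin N) : a i ≠ 0 := by
  obtain ⟨j, hj⟩ : ∃ j : Fin N, j ≠ i := by
    have : Nontrivial (Fin N) := Fin.nontrivial_iff_two_le.2 hN
    exact exists_ne i
  have := (ha.indep i j hj.symm).ne_zero 0
  simpa using this

theorem two_le : 2 ≤ N := by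
  by_contra hlt
  push Not at hlt
  have h1 : Module.finrank ℝ (Submodule.span ℝ (Set.range a)) ≤ Fintype.card (Fin N) :=
    finrank_range_le_card a
  rw [ha.span, finrank_top] at h1
  simp only [finrank_euclideanSpace, Fintype.card_fin] at h1
  omega

theorem inner_self_pos (i : Fin N) : 0 < ⟪a i, a i⟫ := by
  rw [real_inner_self_eq_norm_sq]
  have : 0 < ‖a i‖ := norm_pos_iff.2 (a_ne_zero ha (two_le ha) i)
  positivity

theorem exists_generic : ∃ y : E3, ∀ i, ⟪a i, y⟫ ≠ 0 := by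
  obtain ⟨x, hx⟩ := Module.Dual.exists_forall_ne_zero_of_forall_exists
    (fun i : Fin N => (innerₗ E3 (a i))) (fun i => ⟨a i, by
      simpa using (inner_self_pos ha i).ne'⟩)
  exact ⟨x, fun i => by simpa using hx i⟩

theorem exists_compat_tope (u : E3) : ∃ S, IsTope a S ∧ Compat a u S := by
  obtain ⟨y, hy⟩ := exists_generic ha
  obtain ⟨S, h1, h2, -⟩ := exists_tope_near (a := a) u y (fun i _ => hy i)
  exact ⟨S, h1, h2⟩

/-- a vector orthogonal to `a k` only -/
theorem exists_generic_wall (k : Fin N) : ∃ y : E3, ⟪a k, y⟫ = 0 ∧ ∀ i, i ≠ k → ⟪a i, y⟫ ≠ 0 := by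
  classical
  have hex : ∀ i : Fin N, ∃ x ∈ (Submodule.span ℝ {a k})ᗮ, i ≠ k → ⟪a i, x⟫ ≠ 0 := by
    intro i
    by_cases hik : i = k
    · exact ⟨0, Submodule.zero_mem _, fun h => absurd hik h⟩
    · -- otherwise `a i` is in the span of `a k`
      by_contra hcon
      push Not at hcon
      have h1 : a i ∈ ((Submodule.span ℝ {a k})ᗮ)ᗮ := by
        rw [Submodule.mem_orthogonal]
        intro x hx
        rw [real_inner_comm]
        exact (hcon x hx).2
      rw [Submodule.orthogonal_orthogonal, Submodule.mem_span_singleton] at h1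
      obtain ⟨t, ht⟩ := h1
      have h2 := ha.indep i k hik
      rw [LinearIndependent.pair_iff] at h2
      have := h2 1 (-t) (by rw [one_smul, neg_smul, ht]; abel)
      exact one_ne_zero this.1
  obtain ⟨x, hxp, hx⟩ := Module.Dual.exists_forall_mem_ne_zero_of_forall_exists
    ((Submodule.span ℝ {a k})ᗮ) (fun i : {i : Fin N // i ≠ k} => (innerₗ E3 (a i.1)))
    (fun i => by
      obtain ⟨x, hx, h⟩ := hex i.1
      exact ⟨x, hx, by simpa using h i.2⟩)
  refine ⟨x, ?_, fun i hi => by simpa using hx ⟨i, hi⟩⟩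
  rw [Submodule.mem_orthogonal_singleton_iff_inner_right] at hxp
  exact hxp

/-- for `a k ⟂ u` there are two topes compatible with `u` that differ exactly at `k` -/
theorem exists_wall_pair (u : E3) {k : Fin N} (hk : ⟪a k, u⟫ = 0) :
    ∃ (S : Finset (Fin N)) (u' : E3), IsTope a S ∧ IsTope a (symmDiff S {k}) ∧ Compat a u S ∧
      Compat a u (symmDiff S {k}) ∧ ⟪a k, u'⟫ = 0 ∧
      (∀ i, i ≠ k → ((i ∈ S ↔ 0 < ⟪a i, u'⟫) ∧ (i ∉ S ↔ ⟪a i, u'⟫ < 0))) ∧
      (∀ i, (0 < ⟪a i, u⟫ → 0 < ⟪a i, u'⟫) ∧ (⟪a i, u⟫ < 0 → ⟪a i, u'⟫ < 0)) := by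
  classical
  obtain ⟨y, hy0, hy⟩ := exists_generic_wall ha k
  obtain ⟨ε, h1, h2⟩ := ((eventually_sign a u y).and self_mem_nhdsWithin).exists
  have hε : 0 < ε := h2
  set u' := u + ε • y with hu'
  have hku' : ⟪a k, u'⟫ = 0 := by
    rw [hu', inner_add_right, hk, inner_smul_right, hy0, mul_zero, add_zero]
  have hgen : ∀ i, i ≠ k → ⟪a i, u'⟫ ≠ 0 := by
    intro i hi
    rcases lt_trichotomy ⟪a i, u⟫ 0 with h3 | h3 | h3
    · exact ((h1 i).2 h3).ne
    · rw [hu', inner_add_right, h3, inner_smul_right, zero_add]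
      exact mul_ne_zero hε.ne' (hy i hi)
    · exact ((h1 i).1 h3).ne'
  have haux : ∀ i, ⟪a i, u'⟫ = 0 → ⟪a i, a k⟫ ≠ 0 := by
    intro i hi
    by_cases hik : i = k
    · rw [hik]; exact (inner_self_pos ha k).ne'
    · exact absurd hi (hgen i hik)
  obtain ⟨S, hS1, hS2, hS3⟩ := exists_tope_near (a := a) u' (a k) haux
  obtain ⟨T, hT1, hT2, hT3⟩ := exists_tope_near (a := a) u' (-a k) (fun i hi => by
    rw [inner_neg_right]; exact neg_ne_zero.2 (haux i hi))
  have hkS : k ∈ S := (hS3 k hku').2 (inner_self_pos ha k)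
  have hkT : k ∉ T := by
    rw [hT3 k hku', inner_neg_right, not_lt]
    linarith [inner_self_pos ha k]
  have hTS : T = symmDiff S {k} := by
    ext i
    rw [Finset.mem_symmDiff, Finset.mem_singleton]
    by_cases hik : i = k
    · subst hik
      constructor
      · intro h; exact absurd h hkT
      · rintro (⟨_, h⟩ | ⟨_, h⟩)
        · exact absurd rfl h
        · exact absurd hkS h
    · have : i ∈ T ↔ i ∈ S := by
        rcases lt_or_gt_of_ne (hgen i hik) with h3 | h3
        · exact ⟨fun h => absurd h ((hT2 i).2 h3), fun h => absurd h ((hS2 i).2 h3)⟩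
        · exact ⟨fun _ => (hS2 i).1 h3, fun _ => (hT2 i).1 h3⟩
      rw [this]; simp [hik]
  have hcomp : ∀ R, Compat a u' R → Compat a u R := by
    intro R hR i
    exact ⟨fun h => (hR i).1 ((h1 i).1 h), fun h => (hR i).2 ((h1 i).2 h)⟩
  refine ⟨S, u', hS1, hTS ▸ hT1, hcomp S hS2, hTS ▸ hcomp T hT2, hku', ?_, h1⟩
  intro i hi
  rcases lt_or_gt_of_ne (hgen i hi) with h3 | h3
  · have h4 := (hS2 i).2 h3
    exact ⟨⟨fun h => absurd h h4, fun h => absurd h (not_lt.2 h3.le)⟩, ⟨fun _ => h3, fun _ => h4⟩⟩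
  · have h4 := (hS2 i).1 h3
    exact ⟨⟨fun _ => h3, fun _ => h4⟩, ⟨fun h => absurd h4 h, fun h => absurd h (not_lt.2 h3.le)⟩⟩

end

/-- the vertex set of the zonotope -/
noncomputable def VV (a : Fin N → E3) : Finset E3 := (topes a).image (z a)

theorem mem_topes {S : Finset (Fin N)} : S ∈ topes a ↔ IsTope a S := by
  classical
  simp [topes]

section

variable (ha : IsArr a)
include ha

theorem mem_M_VV {u x : E3} :
    x ∈ M (VV a) u ↔ ∃ S, IsTope a S ∧ Compat a u S ∧ z a S = x := by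
  classical
  obtain ⟨S₀, h1, h2⟩ := exists_compat_tope ha u
  have h3 := (inner_z_eq_iff u S₀).2 h2
  rw [mem_M]
  constructor
  · rintro ⟨hx, hmax⟩
    rw [VV, Finset.mem_image] at hx
    obtain ⟨S, hS, rfl⟩ := hx
    refine ⟨S, mem_topes.1 hS, ?_, rfl⟩
    rw [← inner_z_eq_iff]
    apply le_antisymm (inner_z_le u S)
    rw [← h3]
    exact hmax _ (Finset.mem_image_of_mem _ (mem_topes.2 h1))
  · rintro ⟨S, hS, hc, rfl⟩
    refine ⟨Finset.mem_image_of_mem _ (mem_topes.2 hS), ?_⟩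
    intro w hw
    rw [VV, Finset.mem_image] at hw
    obtain ⟨T, _, rfl⟩ := hw
    rw [(inner_z_eq_iff u S).2 hc]
    exact inner_z_le u T

omit ha in
theorem z_inj {S T : Finset (Fin N)} (hS : IsTope a S) (h : z a S = z a T) : T = S := by
  obtain ⟨x, h1, h2⟩ := hS
  have h3 := (inner_z_eq_iff x S).2 (compat_self h1 h2)
  rw [h, inner_z_eq_iff] at h3
  exact compat_generic h1 h2 h3

omit ha in
theorem convPos_VV : ConvPos (VV a) := by
  classical
  intro v hv hmem
  rw [VV, Finset.mem_image] at hv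
  obtain ⟨S, hS, rfl⟩ := hv
  obtain ⟨x, h1, h2⟩ := mem_topes.1 hS
  have hSt : IsTope a S := ⟨x, h1, h2⟩
  have hmax := (inner_z_eq_iff x S).2 (compat_self h1 h2)
  have hconv : Convex ℝ {y : E3 | ⟪x, y⟫ < ⟪x, z a S⟫} :=
    convex_halfSpace_lt (f := fun y : E3 => ⟪x, y⟫)
      ⟨fun y y' => inner_add_right x y y', fun c y => by rw [inner_smul_right]; rfl⟩ _
  have : z a S ∈ {y : E3 | ⟪x, y⟫ < ⟪x, z a S⟫} := by
    refine convexHull_min ?_ hconv hmem
    rintro w ⟨hw, hne⟩
    rw [Finset.mem_coe, VV, Finset.mem_image] at hw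
    obtain ⟨T, hT, rfl⟩ := hw
    have hle : ⟪x, z a T⟫ ≤ ⟪x, z a S⟫ := by rw [hmax]; exact inner_z_le x T
    refine lt_of_le_of_ne (α := ℝ) hle ?_
    intro heq
    have heq : ⟪x, z a T⟫ = ⟪x, z a S⟫ := heq
    rw [hmax, inner_z_eq_iff] at heq
    have := compat_generic h1 h2 heq
    rw [this] at hne
    exact hne rfl
  exact lt_irrefl (⟪x, z a S⟫ : ℝ) this

omit ha in
/-- reflect the signs on the indices orthogonal to `u` -/
theorem reflect {u : E3} {S : Finset (Fin N)} (hS : IsTope a S) (hc : Compat a u S) :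
    ∃ T, IsTope a T ∧ Compat a u T ∧
      z a T = (2 : ℝ) • (∑ i, (SignType.sign ⟪a i, u⟫ : ℝ) • a i) - z a S := by
  classical
  obtain ⟨x, h1, h2⟩ := hS
  have hx : ∀ i, ⟪a i, x⟫ ≠ 0 := by
    intro i
    by_cases hi : i ∈ S
    · exact (h1 i hi).ne'
    · exact (h2 i hi).ne
  obtain ⟨T, hT1, hT2, hT3⟩ := exists_tope_near (a := a) u (-x) (fun i _ => by
    rw [inner_neg_right]; exact neg_ne_zero.2 (hx i))
  refine ⟨T, hT1, hT2, ?_⟩
  unfold z
  rw [Finset.smul_sum, ← Finset.sum_sub_distrib]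
  refine Finset.sum_congr rfl fun i _ => ?_
  rcases lt_trichotomy ⟪a i, u⟫ 0 with h3 | h3 | h3
  · rw [if_neg ((hT2 i).2 h3), if_neg ((hc i).2 h3), sign_neg h3]
    simp only [SignType.coe_neg_one, neg_smul, one_smul]
    module
  · rw [h3, sign_zero]
    have h4 : i ∈ T ↔ i ∉ S := by
      rw [hT3 i h3, inner_neg_right, Left.neg_pos_iff]
      exact ⟨fun h hi => absurd h (not_lt.2 (h1 i hi).le), fun h => h2 i h⟩
    by_cases hi : i ∈ S
    · rw [if_neg (fun h => (h4.1 h) hi), if_pos hi]; simp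
    · rw [if_pos (h4.2 hi), if_neg hi]; simp
  · rw [if_pos ((hT2 i).1 h3), if_pos ((hc i).1 h3), sign_pos h3]
    simp only [SignType.coe_one, one_smul]
    module

theorem facetSymm_VV (u : E3) : ∃ c : E3, ∀ x ∈ M (VV a) u, (2 : ℝ) • c - x ∈ M (VV a) u := by
  refine ⟨∑ i, (SignType.sign ⟪a i, u⟫ : ℝ) • a i, fun x hx => ?_⟩
  rw [mem_M_VV ha] at hx ⊢
  obtain ⟨S, hS, hc, rfl⟩ := hx
  obtain ⟨T, h1, h2, h3⟩ := reflect hS hc
  exact ⟨T, h1, h2, h3⟩

omit ha in
theorem z_symmDiff {S : Finset (Fin N)} {k : Fin N} :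
    ∃ t : ℝ, t ≠ 0 ∧ z a S - z a (symmDiff S {k}) = t • a k := by
  classical
  unfold z
  rw [← Finset.sum_sub_distrib]
  by_cases hk : k ∈ S
  · refine ⟨2, two_ne_zero, ?_⟩
    rw [Finset.sum_eq_single k]
    · rw [if_pos hk, if_neg]
      · module
      · rw [Finset.mem_symmDiff, Finset.mem_singleton]
        tauto
    · intro j _ hj
      have : j ∈ symmDiff S {k} ↔ j ∈ S := by
        rw [Finset.mem_symmDiff, Finset.mem_singleton]
        tauto
      by_cases hjS : j ∈ S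
      · rw [if_pos hjS, if_pos (this.2 hjS), sub_self]
      · rw [if_neg hjS, if_neg (fun h => hjS (this.1 h)), sub_self]
    · intro h; exact absurd (Finset.mem_univ k) h
  · refine ⟨-2, by norm_num, ?_⟩
    rw [Finset.sum_eq_single k]
    · rw [if_neg hk, if_pos]
      · module
      · rw [Finset.mem_symmDiff, Finset.mem_singleton]
        tauto
    · intro j _ hj
      have : j ∈ symmDiff S {k} ↔ j ∈ S := by
        rw [Finset.mem_symmDiff, Finset.mem_singleton]
        tauto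
      by_cases hjS : j ∈ S
      · rw [if_pos hjS, if_pos (this.2 hjS), sub_self]
      · rw [if_neg hjS, if_neg (fun h => hjS (this.1 h)), sub_self]
    · intro h; exact absurd (Finset.mem_univ k) h

/-- each direction is the direction of an edge -/
theorem M_pair {S : Finset (Fin N)} {k : Fin N} {u : E3} (hS : IsTope a S)
    (hS' : IsTope a (symmDiff S {k})) (hk : ⟪a k, u⟫ = 0)
    (hi : ∀ i, i ≠ k → ((i ∈ S ↔ 0 < ⟪a i, u⟫) ∧ (i ∉ S ↔ ⟪a i, u⟫ < 0))) :
    M (VV a) u = {z a S, z a (symmDiff S {k})} := by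
  classical
  ext x
  rw [mem_M_VV ha, Finset.mem_insert, Finset.mem_singleton]
  have hcS : Compat a u S := by
    intro i
    by_cases hik : i = k
    · rw [hik, hk]
      exact ⟨fun h => absurd h (lt_irrefl _), fun h => absurd h (lt_irrefl _)⟩
    · exact ⟨(hi i hik).1.2, (hi i hik).2.2⟩
  have hcS' : Compat a u (symmDiff S {k}) := by
    intro i
    by_cases hik : i = k
    · rw [hik, hk]
      exact ⟨fun h => absurd h (lt_irrefl _), fun h => absurd h (lt_irrefl _)⟩
    · have : i ∈ symmDiff S {k} ↔ i ∈ S := by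
        rw [Finset.mem_symmDiff, Finset.mem_singleton]
        tauto
      rw [this]
      exact ⟨(hi i hik).1.2, (hi i hik).2.2⟩
  constructor
  · rintro ⟨T, hT, hc, rfl⟩
    by_cases hkk : (k ∈ T ↔ k ∈ S)
    · left
      have : T = S := by
        ext i
        by_cases hik : i = k
        · rw [hik]; exact hkk
        · constructor
          · intro h
            by_contra hn
            exact (hc i).2 ((hi i hik).2.1 hn) h
          · intro h
            exact (hc i).1 ((hi i hik).1.1 h)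
      rw [this]
    · right
      have : T = symmDiff S {k} := by
        ext i
        rw [Finset.mem_symmDiff, Finset.mem_singleton]
        by_cases hik : i = k
        · rw [hik]; tauto
        · have : i ∈ T ↔ i ∈ S := by
            constructor
            · intro h
              by_contra hn
              exact (hc i).2 ((hi i hik).2.1 hn) h
            · intro h
              exact (hc i).1 ((hi i hik).1.1 h)
          rw [this]; simp [hik]
      rw [this]
  · rintro (rfl | rfl)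
    · exact ⟨S, hS, hcS, rfl⟩
    · exact ⟨_, hS', hcS', rfl⟩

theorem setup_VV : Setup (VV a) a := by
  classical
  have hpair : ∀ u : E3, ∀ k, ⟪a k, u⟫ = 0 → ∃ v w, Edge (VV a) v w ∧ v ∈ M (VV a) u ∧
      w ∈ M (VV a) u ∧ ∃ t : ℝ, t ≠ 0 ∧ v - w = t • a k := by
    intro u k hk
    obtain ⟨S, u', hS, hS', hc, hc', hk', hi, -⟩ := exists_wall_pair ha u hk
    obtain ⟨t, ht, htt⟩ := z_symmDiff (a := a) (S := S) (k := k)
    refine ⟨z a S, z a (symmDiff S {k}), ⟨?_, u', M_pair ha hS hS' hk' hi⟩, ?_, ?_, t, ht, htt⟩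
    · intro h
      rw [h, sub_self] at htt
      exact (smul_ne_zero ht (a_ne_zero ha (two_le ha) k)) htt.symm
    · rw [mem_M_VV ha]; exact ⟨S, hS, hc, rfl⟩
    · rw [mem_M_VV ha]; exact ⟨_, hS', hc', rfl⟩
  have hspan : vectorSpan ℝ (VV a : Set E3) = ⊤ := by
    rw [eq_top_iff, ← ha.span, Submodule.span_le]
    rintro _ ⟨k, rfl⟩
    obtain ⟨y, hy, -⟩ := exists_generic_wall ha k
    obtain ⟨v, w, -, hv, hw, t, ht, htt⟩ := hpair y k hy
    have h1 : v - w ∈ vectorSpan ℝ (VV a : Set E3) :=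
      vsub_mem_vectorSpan ℝ (by exact_mod_cast M_subset _ _ hv) (by exact_mod_cast M_subset _ _ hw)
    rw [htt] at h1
    have := Submodule.smul_mem _ t⁻¹ h1
    rw [smul_smul, inv_mul_cancel₀ ht, one_smul] at this
    exact this
  refine ⟨convPos_VV, fun u _ => facetSymm_VV ha u, ?_, ?_, ?_, ha.indep⟩
  · rw [hspan, finrank_top]; simp
  · intro k
    obtain ⟨y, hy, -⟩ := exists_generic_wall ha k
    obtain ⟨v, w, hE, -, -, t, ht, htt⟩ := hpair y k hy
    exact ⟨v, w, hE, t⁻¹, inv_ne_zero ht, by rw [htt, smul_smul, inv_mul_cancel₀ ht, one_smul]⟩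
  · rintro v w ⟨hvw, u, hM⟩
    obtain ⟨k, hk⟩ : ∃ k, ⟪a k, u⟫ = 0 := by
      by_contra hcon
      push Not at hcon
      have hv : v ∈ M (VV a) u := by rw [hM]; simp
      have hw : w ∈ M (VV a) u := by rw [hM]; simp
      rw [mem_M_VV ha] at hv hw
      obtain ⟨S, hS, hc, rfl⟩ := hv
      obtain ⟨T, hT, hc', rfl⟩ := hw
      apply hvw
      have : S = T := by
        ext i
        rcases lt_or_gt_of_ne (hcon i) with h3 | h3
        · exact ⟨fun h => absurd h ((hc i).2 h3), fun h => absurd h ((hc' i).2 h3)⟩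
        · exact ⟨fun _ => (hc' i).1 h3, fun _ => (hc i).1 h3⟩
      rw [this]
    obtain ⟨p, q, hE, hp, hq, t, ht, htt⟩ := hpair u k hk
    rw [hM, Finset.mem_insert, Finset.mem_singleton] at hp hq
    rcases hp with rfl | rfl
    · rcases hq with rfl | rfl
      · exact absurd rfl hE.1
      · exact ⟨k, t, ht, htt⟩
    · rcases hq with rfl | rfl
      · exact ⟨k, -t, neg_ne_zero.2 ht, by rw [neg_smul, ← htt]; abel⟩
      · exact absurd rfl hE.1

end

/-- **Translation, second half.** -/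
theorem exists_mem_of_arr (ha : IsArr a) :
    ∃ P ∈ ZClass (topes a).card, deg3 P = tri a := by
  classical
  have hS := setup_VV ha
  refine ⟨convexHull ℝ (VV a : Set E3), ⟨⟨VV a, rfl, ?_⟩, ?_, ?_⟩, hS.tri_eq.symm⟩
  · rw [interior_convexHull_nonempty_iff_affineSpan_eq_top,
      AffineSubspace.affineSpan_eq_top_iff_vectorSpan_eq_top_of_nonempty]
    · apply Submodule.eq_top_of_finrank_eq
      rw [hS.full]; simp
    · exact_mod_cast hS.ne
  · intro F hF
    obtain ⟨u, rfl, -⟩ := (isFace_iff hS.ne _ 2).1 hF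
    obtain ⟨c, hc⟩ := facetSymm_VV ha u
    refine ⟨c, ?_⟩
    have himg : (fun x : E3 => (2 : ℝ) • c - x) '' (M (VV a) u : Set E3) = M (VV a) u := by
      apply Set.Subset.antisymm
      · rintro _ ⟨x, hx, rfl⟩
        exact hc x hx
      · intro x hx
        exact ⟨(2 : ℝ) • c - x, hc x hx, by simp⟩
    have h2 : (fun x : E3 => (2 : ℝ) • c - x) =
        ⇑(AffineEquiv.constVSub ℝ ((2 : ℝ) • c)).toAffineMap := by
      ext x; simp
    rw [h2, AffineMap.image_convexHull, ← h2, himg]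
  · rw [extremePoints_hull hS.conv, Set.ncard_coe_finset, hS.card_topes]

/-- `m n` in terms of arrangements. -/
theorem m_eq (n : ℕ) :
    m n = sInf {k | ∃ (N : ℕ) (a : Fin N → E3), IsArr a ∧ (topes a).card = n ∧ tri a = k} := by
  unfold m
  congr 1
  ext k
  constructor
  · rintro ⟨P, hP, rfl⟩
    exact exists_arr_of_mem hP
  · rintro ⟨N, a, ha, hn, hk⟩
    obtain ⟨P, hP, hd⟩ := exists_mem_of_arr ha
    exact ⟨P, hn ▸ hP, hd.trans hk⟩

theorem zclass_nonempty_iff (n : ℕ) :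
    (ZClass n).Nonempty ↔ ∃ (N : ℕ) (a : Fin N → E3), IsArr a ∧ (topes a).card = n := by
  constructor
  · rintro ⟨P, hP⟩
    obtain ⟨N, a, ha, hn, -⟩ := exists_arr_of_mem hP
    exact ⟨N, a, ha, hn⟩
  · rintro ⟨N, a, ha, rfl⟩
    obtain ⟨P, hP, -⟩ := exists_mem_of_arr ha
    exact ⟨P, hP⟩

end Pool.Agent.helper50.Zono
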