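import Pool.Agent.helper50.Zono.Vertex
import Pool.Agent.helper89.Zono.Final

/-!
# The two-sided bound for all `n`
-/

open scoped RealInnerProductSpace

set_option linter.unusedSectionVars false

namespace Pool.Agent.helper50.Zono

open Pool.Agent.helper89.Zono (C1 sD sR card_add_sD euler_le N_le cases_N)

theorem c1_holds : C1 := by
  intro N a h q hq
  have h2 := two_le_mult hq
  rcases Nat.eq_or_lt_of_le h2 with h3 | h3
  · have h4 := levi h
    rw [Fintype.card_fin] at h4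
    omega
  · have h4 := c1' h hq h3
    rwa [Fintype.card_fin] at h4

section

variable {N : ℕ} {a : Fin N → E3}

theorem sD_eq (a : Fin N → E3) :
    sD a = ∑ q ∈ planes a Finset.univ, (mult a Finset.univ q - 2) * (mult a Finset.univ q - 3) +
      2 * sR a Finset.univ := by
  unfold sD sR
  rw [Finset.mul_sum, ← Finset.sum_add_distrib]
  refine Finset.sum_congr rfl fun q hq => ?_
  obtain ⟨r, hr⟩ : ∃ r, mult a Finset.univ q = r + 2 :=
    ⟨_, (Nat.sub_add_cancel (two_le_mult hq)).symm⟩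
  rw [hr]
  have e1 : r + 2 - 1 = r + 1 := by omega
  have e2 : r + 2 - 2 = r := by omega
  have e3 : r + 2 - 3 = r - 1 := by omega
  rw [e1, e2, e3]
  rcases Nat.eq_zero_or_pos r with h0 | h0
  · subst h0; rfl
  · obtain ⟨s, rfl⟩ : ∃ s, r = s + 1 := ⟨r - 1, by omega⟩
    have e4 : s + 1 - 1 = s := by omega
    rw [e4]; ring

theorem two_sided_arr (h : IsArr a) {g : ℕ} (hg : tri a = 2 * (N + g)) :
    sD a + 4 + 2 * g ≤ N + 9 * g * g ∨ (N ≤ 3 * g + 2 ∧ sD a + 4 ≤ N + 9 * g * g + 4 * g) := by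
  have h1 := heavy_le h
  have h2 := sum_heavy h
  have h3 := euler_le h
  have h4 := sD_eq a
  rw [Fintype.card_fin] at h1
  rw [hg] at h1 h3
  obtain ⟨H, hH⟩ : ∃ H, H = (heavy a).card := ⟨_, rfl⟩
  rw [← hH] at h1 h2
  rcases h1 with h1 | ⟨h1, h1'⟩
  · left
    have h5 : H ≤ 3 * g := by omega
    have h6 : H * (H - 1) ≤ 3 * g * (3 * g - 1) := Nat.mul_le_mul h5 (by omega)
    have h7 : 3 * g * (3 * g - 1) + 3 * g = 9 * g * g := by
      rw [Nat.mul_sub_one]
      have : 3 * g ≤ 3 * g * (3 * g) := by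
        rcases Nat.eq_zero_or_pos g with h0 | h0
        · subst h0; simp
        · nlinarith
      rw [Nat.sub_add_cancel this]; ring
    omega
  · right
    have h5 : H ≤ 3 * g + 1 := by omega
    have h6 : H * (H - 1) ≤ (3 * g + 1) * (3 * g) := Nat.mul_le_mul h5 (by omega)
    have h7 : (3 * g + 1) * (3 * g) = 9 * g * g + 3 * g := by ring
    refine ⟨by omega, by omega⟩

/-- **The lower bound for every `n`.** -/
theorem two_sided {N D N' : ℕ} {a : Fin N' → E3} (h : IsArr a) (hD : D + 2 ≤ N)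
    (hn : (topes a).card = N * (N - 1) + 2 - 2 * D) :
    ∃ g, tri a = 2 * (N + g) ∧ 2 * D + 4 + 2 * g ≤ N + 9 * g * g := by
  have hN' := h.three_le
  rw [Fintype.card_fin] at hN'
  have h2 := levi h
  rw [Fintype.card_fin] at h2
  obtain ⟨s, hs⟩ := even_tri a (by rw [Fintype.card_fin]; omega)
  obtain ⟨g', hg'⟩ : ∃ g', s = N' + g' := ⟨s - N', by omega⟩
  have h3 : tri a = 2 * (N' + g') := by omega
  have h4 := two_sided_arr h h3
  rcases cases_N h hD hn with ⟨rfl, h5⟩ | ⟨h5, h6⟩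
  · refine ⟨g', h3, ?_⟩
    rcases h4 with h4 | ⟨h4, -⟩
    · omega
    · have h7 : 1 ≤ g' := by omega
      have h8 : 9 * g' ≤ 9 * g' * g' := by nlinarith
      omega
  · obtain ⟨δ, hδ⟩ : ∃ δ, N' = N + δ := ⟨N' - N, by omega⟩
    refine ⟨g' + δ, by omega, ?_⟩
    have h9 : 9 * (g' + δ) * (g' + δ) = 9 * g' * g' + 18 * (g' * δ) + 9 * (δ * δ) := by ring
    have h10 : δ ≤ δ * δ := by nlinarith [show 1 ≤ δ by omega]
    have h11 : g' ≤ g' * δ := by nlinarith [show 1 ≤ δ by omega]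
    rw [h9]
    rcases h4 with h4 | ⟨-, h4⟩ <;> omega

/-- every even `n ≥ 8` is of the form `N (N - 1) + 2 - 2 D` with `D + 2 ≤ N` -/
theorem form_of_even {n : ℕ} (heven : Even n) (h8 : 8 ≤ n) :
    ∃ N D, D + 2 ≤ N ∧ n = N * (N - 1) + 2 - 2 * D := by
  obtain ⟨s, hs⟩ := heven
  -- the least `N` with `n ≤ N (N - 1) + 2`
  have hex : ∃ N, n ≤ N * (N - 1) + 2 := by
    refine ⟨n + 1, ?_⟩
    have e : n + 1 - 1 = n := by omega
    rw [e]
    nlinarith
  classical
  obtain ⟨N, hN1, hN2⟩ : ∃ N, n ≤ N * (N - 1) + 2 ∧ ∀ k < N, ¬ n ≤ k * (k - 1) + 2 :=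
    ⟨Nat.find hex, Nat.find_spec hex, fun k hk => Nat.find_min hex hk⟩
  have hN3 : 3 ≤ N := by
    by_contra hcon
    interval_cases N <;> omega
  obtain ⟨k, rfl⟩ : ∃ k, N = k + 2 := ⟨N - 2, by omega⟩
  have h4 := hN2 (k + 1) (by omega)
  push Not at h4
  have e1 : k + 1 - 1 = k := by omega
  have e2 : k + 2 - 1 = k + 1 := by omega
  rw [e1] at h4
  rw [e2] at hN1
  have e3 : (k + 2) * (k + 1) = (k + 1) * k + 2 * (k + 1) := by ring
  obtain ⟨t, ht⟩ : Even ((k + 1) * k) := by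
    rw [mul_comm]; exact Nat.even_mul_succ_self k
  refine ⟨k + 2, ((k + 2) * (k + 1) + 2 - n) / 2, ?_, ?_⟩
  · omega
  · rw [e2]
    omega

/-- every `n` with `ZClass n` nonempty is of the form `N (N - 1) + 2 - 2 D` with `D + 2 ≤ N` -/
theorem form_of_ne {n : ℕ} (hn : (ZClass n).Nonempty) :
    ∃ N D, D + 2 ≤ N ∧ n = N * (N - 1) + 2 - 2 * D := by
  obtain ⟨N', a, h, hc⟩ := (zclass_nonempty_iff n).1 hn
  refine form_of_even ?_ ?_
  · rw [← hc, card_topes h.indep (by have := h.three_le; omega)]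
    exact ⟨_, two_mul _⟩
  · rw [← hc]
    have := euler_le h
    have h3 : tri a ≤ (topes a).card := Finset.card_filter_le _ _
    omega

end

end Pool.Agent.helper50.Zono
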