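import Pool.Agent.helper50.Zono.Defs

/-!
# Counting cells: deletion and restriction
-/

open scoped RealInnerProductSpace

namespace Pool.Agent.helper50.Zono

set_option linter.unusedSectionVars false

variable {ι : Type*} [DecidableEq ι]

/-- `S` is the positive part of a cell of the arrangement of the hyperplanes with indices in `I`,
restricted to the subspace `U` -/
def Cell (a : ι → E3) (U : Submodule ℝ E3) (I S : Finset ι) : Prop :=
  S ⊆ I ∧ ∃ x ∈ U, (∀ i ∈ S, 0 < ⟪a i, x⟫) ∧ ∀ i ∈ I, i ∉ S → ⟪a i, x⟫ < 0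

open Classical in
/-- all cells -/
noncomputable def tp (a : ι → E3) (U : Submodule ℝ E3) (I : Finset ι) : Finset (Finset ι) :=
  I.powerset.filter (Cell a U I)

theorem mem_tp {a : ι → E3} {U : Submodule ℝ E3} {I S : Finset ι} :
    S ∈ tp a U I ↔ Cell a U I S := by
  classical
  rw [tp, Finset.mem_filter, Finset.mem_powerset]
  exact ⟨fun h => h.2, fun h => ⟨h.1, h⟩⟩

/-- the open conditions defining a cell -/
def InCell (a : ι → E3) (I S : Finset ι) (x : E3) : Prop :=
  (∀ i ∈ S, 0 < ⟪a i, x⟫) ∧ ∀ i ∈ I, i ∉ S → ⟪a i, x⟫ < 0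

theorem isOpen_inCell (a : ι → E3) (I S : Finset ι) : IsOpen {x | InCell a I S x} := by
  have : {x | InCell a I S x} = (⋂ i ∈ S, {x | 0 < ⟪a i, x⟫}) ∩
      ⋂ i ∈ I.filter (fun i => i ∉ S), {x | ⟪a i, x⟫ < 0} := by
    ext x
    simp [InCell]
  rw [this]
  refine IsOpen.inter ?_ ?_
  · exact isOpen_biInter_finset fun i _ => isOpen_lt continuous_const (by fun_prop)
  · exact isOpen_biInter_finset fun i _ => isOpen_lt (by fun_prop) continuous_const

theorem InCell.combo {a : ι → E3} {I S : Finset ι} {x y : E3} (hx : InCell a I S x)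
    (hy : InCell a I S y) {s t : ℝ} (hs : 0 < s) (ht : 0 < t) : InCell a I S (s • x + t • y) := by
  constructor
  · intro i hi
    rw [inner_add_right, inner_smul_right, inner_smul_right]
    have h1 := mul_pos hs (hx.1 i hi)
    have h2 := mul_pos ht (hy.1 i hi)
    linarith
  · intro i hi hi'
    rw [inner_add_right, inner_smul_right, inner_smul_right]
    have h1 := mul_neg_of_pos_of_neg hs (hx.2 i hi hi')
    have h2 := mul_neg_of_pos_of_neg ht (hy.2 i hi hi')
    linarith

theorem InCell.perturb {a : ι → E3} {I S : Finset ι} {x : E3} (hx : InCell a I S x) (y : E3) :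
    ∃ ε : ℝ, 0 < ε ∧ InCell a I S (x + ε • y) ∧ InCell a I S (x - ε • y) := by
  have hopen := isOpen_inCell a I S
  have h1 : ∀ y : E3, ∀ᶠ ε in nhdsWithin (0 : ℝ) (Set.Ioi 0), InCell a I S (x + ε • y) := by
    intro y
    have ht : Filter.Tendsto (fun ε : ℝ => x + ε • y) (nhdsWithin 0 (Set.Ioi 0)) (nhds x) := by
      have : Filter.Tendsto (fun ε : ℝ => x + ε • y) (nhds 0) (nhds (x + (0:ℝ) • y)) := by
        apply Continuous.tendsto
        fun_prop
      rw [zero_smul, add_zero] at this
      exact this.mono_left nhdsWithin_le_nhds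
    exact ht.eventually (hopen.mem_nhds hx)
  obtain ⟨ε, ⟨h2, h3⟩, h4⟩ := (((h1 y).and (h1 (-y))).and self_mem_nhdsWithin).exists
  refine ⟨ε, h4, h2, ?_⟩
  rw [smul_neg, ← sub_eq_add_neg] at h3
  exact h3

theorem InCell.mono {a : ι → E3} {I I' S S' : Finset ι} {x : E3} (hx : InCell a I' S' x)
    (hI : I ⊆ I') (hS : ∀ i ∈ I, i ∈ S ↔ i ∈ S') (hSI : S ⊆ I) : InCell a I S x :=
  ⟨fun i hi => hx.1 i ((hS i (hSI hi)).1 hi),
    fun i hi hi' => hx.2 i (hI hi) (fun h => hi' ((hS i hi).2 h))⟩

/-- **Deletion-restriction.** -/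
theorem card_tp_insert (a : ι → E3) (U : Submodule ℝ E3) {I : Finset ι} {i : ι} (hi : i ∉ I)
    (hU : ∃ y ∈ U, ⟪a i, y⟫ ≠ 0) :
    (tp a U (insert i I)).card =
      (tp a U I).card + (tp a (U ⊓ (Submodule.span ℝ {a i})ᗮ) I).card := by
  classical
  set P := (tp a U I).filter (fun S => ∃ x ∈ U, InCell a I S x ∧ 0 < ⟪a i, x⟫) with hP
  set Q := (tp a U I).filter (fun S => ∃ x ∈ U, InCell a I S x ∧ ⟪a i, x⟫ < 0) with hQ
  obtain ⟨y, hyU, hy⟩ := hU
  have hsub : ∀ S ∈ tp a U I, S ⊆ I := fun S hS => (mem_tp.1 hS).1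
  have hunion : P ∪ Q = tp a U I := by
    ext S
    rw [Finset.mem_union, hP, hQ, Finset.mem_filter, Finset.mem_filter]
    constructor
    · rintro (h | h) <;> exact h.1
    · intro hS
      obtain ⟨hSI, x, hxU, h1, h2⟩ := mem_tp.1 hS
      have hx : InCell a I S x := ⟨h1, h2⟩
      rcases lt_trichotomy ⟪a i, x⟫ 0 with h3 | h3 | h3
      · exact Or.inr ⟨hS, x, hxU, hx, h3⟩
      · obtain ⟨ε, hε, h4, -⟩ := hx.perturb y
        have h5 : ⟪a i, x + ε • y⟫ = ε * ⟪a i, y⟫ := by
          rw [inner_add_right, h3, inner_smul_right, zero_add]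
        have h6 : x + ε • y ∈ U := U.add_mem hxU (U.smul_mem _ hyU)
        rcases lt_or_gt_of_ne hy with h7 | h7
        · exact Or.inr ⟨hS, _, h6, h4, by rw [h5]; exact mul_neg_of_pos_of_neg hε h7⟩
        · exact Or.inl ⟨hS, _, h6, h4, by rw [h5]; exact mul_pos hε h7⟩
      · exact Or.inl ⟨hS, x, hxU, hx, h3⟩
  have hinter : P ∩ Q = tp a (U ⊓ (Submodule.span ℝ {a i})ᗮ) I := by
    ext S
    rw [Finset.mem_inter, hP, hQ, Finset.mem_filter, Finset.mem_filter, mem_tp, mem_tp]
    constructor
    · rintro ⟨⟨⟨hSI, -⟩, x, hxU, hx, hxp⟩, ⟨-, x', hxU', hx', hxn⟩⟩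
      refine ⟨hSI, (-⟪a i, x'⟫) • x + ⟪a i, x⟫ • x', ?_, ?_⟩
      · refine ⟨U.add_mem (U.smul_mem _ hxU) (U.smul_mem _ hxU'), ?_⟩
        rw [SetLike.mem_coe, Submodule.mem_orthogonal_singleton_iff_inner_right]
        rw [inner_add_right, inner_smul_right, inner_smul_right]; ring
      · exact hx.combo hx' (by linarith) hxp
    · rintro ⟨hSI, x, ⟨hxU, hxi⟩, hx⟩
      rw [SetLike.mem_coe, Submodule.mem_orthogonal_singleton_iff_inner_right] at hxi
      have hx' : InCell a I S x := hx
      obtain ⟨ε, hε, h4, h4'⟩ := hx'.perturb y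
      have h5 : ⟪a i, x + ε • y⟫ = ε * ⟪a i, y⟫ := by
        rw [inner_add_right, hxi, inner_smul_right, zero_add]
      have h5' : ⟪a i, x - ε • y⟫ = -(ε * ⟪a i, y⟫) := by
        rw [inner_sub_right, hxi, inner_smul_right, zero_sub]
      have h6 : x + ε • y ∈ U := U.add_mem hxU (U.smul_mem _ hyU)
      have h6' : x - ε • y ∈ U := U.sub_mem hxU (U.smul_mem _ hyU)
      have hc : Cell a U I S := ⟨hSI, x, hxU, hx⟩
      rcases lt_or_gt_of_ne hy with h7 | h7
      · have := mul_neg_of_pos_of_neg hε h7
        exact ⟨⟨hc, _, h6', h4', by rw [h5']; linarith⟩, ⟨hc, _, h6, h4, by rw [h5]; linarith⟩⟩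
      · have := mul_pos hε h7
        exact ⟨⟨hc, _, h6, h4, by rw [h5]; linarith⟩, ⟨hc, _, h6', h4', by rw [h5']; linarith⟩⟩
  have hmain : tp a U (insert i I) = P.image (fun S => insert i S) ∪ Q := by
    ext S
    rw [Finset.mem_union, Finset.mem_image, mem_tp]
    constructor
    · rintro ⟨hSI, x, hxU, h1, h2⟩
      by_cases hiS : i ∈ S
      · left
        refine ⟨S.erase i, ?_, Finset.insert_erase hiS⟩
        have hx : InCell a I (S.erase i) x := by
          constructor
          · intro j hj; exact h1 j (Finset.mem_of_mem_erase hj)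
          · intro j hj hj'
            refine h2 j (Finset.mem_insert_of_mem hj) fun h => hj' ?_
            exact Finset.mem_erase.2 ⟨fun h' => hi (h' ▸ hj), h⟩
        have hsub' : S.erase i ⊆ I := by
          intro j hj
          have := hSI (Finset.mem_of_mem_erase hj)
          exact (Finset.mem_insert.1 this).resolve_left (Finset.ne_of_mem_erase hj)
        rw [hP, Finset.mem_filter, mem_tp]
        exact ⟨⟨hsub', x, hxU, hx⟩, x, hxU, hx, h1 i hiS⟩
      · right
        have hx : InCell a I S x := ⟨h1, fun j hj hj' => h2 j (Finset.mem_insert_of_mem hj) hj'⟩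
        have hsub' : S ⊆ I := by
          intro j hj
          have := hSI hj
          exact (Finset.mem_insert.1 this).resolve_left (fun h => hiS (h ▸ hj))
        rw [hQ, Finset.mem_filter, mem_tp]
        exact ⟨⟨hsub', x, hxU, hx⟩, x, hxU, hx, h2 i (Finset.mem_insert_self _ _) hiS⟩
    · rintro (⟨T, hT, rfl⟩ | hS)
      · rw [hP, Finset.mem_filter, mem_tp] at hT
        obtain ⟨⟨hTI, -⟩, x, hxU, hx, hpos⟩ := hT
        refine ⟨Finset.insert_subset_insert _ hTI, x, hxU, ?_, ?_⟩
        · intro j hj
          rcases Finset.mem_insert.1 hj with rfl | hj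
          · exact hpos
          · exact hx.1 j hj
        · intro j hj hj'
          rcases Finset.mem_insert.1 hj with rfl | hj
          · exact absurd (Finset.mem_insert_self _ _) hj'
          · exact hx.2 j hj (fun h => hj' (Finset.mem_insert_of_mem h))
      · rw [hQ, Finset.mem_filter, mem_tp] at hS
        obtain ⟨⟨hSI, -⟩, x, hxU, hx, hneg⟩ := hS
        refine ⟨hSI.trans (Finset.subset_insert _ _), x, hxU, hx.1, ?_⟩
        intro j hj hj'
        rcases Finset.mem_insert.1 hj with rfl | hj
        · exact hneg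
        · exact hx.2 j hj hj'
  have hdisj : Disjoint (P.image (fun S => insert i S)) Q := by
    rw [Finset.disjoint_left]
    intro S hS hS'
    rw [Finset.mem_image] at hS
    obtain ⟨T, -, rfl⟩ := hS
    rw [hQ, Finset.mem_filter] at hS'
    exact hi (hsub _ hS'.1 (Finset.mem_insert_self _ _))
  have hinj : Set.InjOn (fun S : Finset ι => insert i S) (P : Set (Finset ι)) := by
    intro S hS T hT hST
    have h1 : i ∉ S := fun h => hi (hsub S (Finset.mem_filter.1 hS).1 h)
    have h2 : i ∉ T := fun h => hi (hsub T (Finset.mem_filter.1 hT).1 h)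
    have hST : insert i S = insert i T := hST
    rw [← Finset.erase_insert h1, ← Finset.erase_insert h2, hST]
  rw [hmain, Finset.card_union_of_disjoint hdisj, Finset.card_image_of_injOn hinj, ← hinter,
    ← hunion, Finset.card_union_add_card_inter]

theorem card_tp_empty (a : ι → E3) (U : Submodule ℝ E3) : (tp a U ∅).card = 1 := by
  have : tp a U ∅ = {∅} := by
    ext S
    rw [mem_tp, Finset.mem_singleton]
    constructor
    · rintro ⟨h, -⟩
      exact Finset.subset_empty.1 h
    · rintro rfl
      exact ⟨subset_rfl, 0, U.zero_mem, by simp, by simp⟩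
  rw [this, Finset.card_singleton]

/-- if one of the vectors vanishes on `U` there is no cell -/
theorem card_tp_zero {a : ι → E3} {U : Submodule ℝ E3} {I : Finset ι} {k : ι} (hk : k ∈ I)
    (h : ∀ x ∈ U, ⟪a k, x⟫ = 0) : (tp a U I).card = 0 := by
  rw [Finset.card_eq_zero, Finset.eq_empty_iff_forall_notMem]
  intro S hS
  obtain ⟨_, x, hx, h1, h2⟩ := mem_tp.1 hS
  by_cases hkS : k ∈ S
  · have := h1 k hkS
    rw [h x hx] at this
    exact lt_irrefl _ this
  · have := h2 k hk hkS
    rw [h x hx] at this
    exact lt_irrefl _ this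

/-- a line -/
theorem card_tp_line {a : ι → E3} {U : Submodule ℝ E3} {I : Finset ι} (hU : Module.finrank ℝ U = 1)
    (hI : I.Nonempty) (h : ∀ k ∈ I, ∃ x ∈ U, ⟪a k, x⟫ ≠ 0) : (tp a U I).card = 2 := by
  classical
  obtain ⟨⟨v, hv⟩, hv0, hspan⟩ := finrank_eq_one_iff'.1 hU
  have hgen : ∀ x ∈ U, ∃ c : ℝ, x = c • v := by
    intro x hx
    obtain ⟨c, hc⟩ := hspan ⟨x, hx⟩
    exact ⟨c, by simpa using (congrArg Subtype.val hc).symm⟩
  have hne : ∀ k ∈ I, ⟪a k, v⟫ ≠ 0 := by
    intro k hk h0
    obtain ⟨x, hx, hx0⟩ := h k hk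
    obtain ⟨c, rfl⟩ := hgen x hx
    rw [inner_smul_right, h0, mul_zero] at hx0
    exact hx0 rfl
  have : tp a U I = {I.filter (fun k => 0 < ⟪a k, v⟫), I.filter (fun k => ⟪a k, v⟫ < 0)} := by
    ext S
    rw [mem_tp, Finset.mem_insert, Finset.mem_singleton]
    constructor
    · rintro ⟨hSI, x, hx, h1, h2⟩
      obtain ⟨c, rfl⟩ := hgen x hx
      simp only [inner_smul_right] at h1 h2
      obtain ⟨k₀, hk₀⟩ := hI
      have hc : c ≠ 0 := by
        rintro rfl
        by_cases hk : k₀ ∈ S
        · have := h1 k₀ hk; simp at this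
        · have := h2 k₀ hk₀ hk; simp at this
      rcases lt_or_gt_of_ne hc with hc | hc
      · right
        ext k
        rw [Finset.mem_filter]
        constructor
        · intro hk
          refine ⟨hSI hk, ?_⟩
          have := h1 k hk
          nlinarith
        · rintro ⟨hk, hneg⟩
          by_contra hkS
          have := h2 k hk hkS
          nlinarith
      · left
        ext k
        rw [Finset.mem_filter]
        constructor
        · intro hk
          refine ⟨hSI hk, ?_⟩
          have := h1 k hk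
          nlinarith
        · rintro ⟨hk, hneg⟩
          by_contra hkS
          have := h2 k hk hkS
          nlinarith
    · rintro (rfl | rfl)
      · refine ⟨Finset.filter_subset _ _, v, hv, fun k hk => (Finset.mem_filter.1 hk).2, ?_⟩
        intro k hk hk'
        refine lt_of_le_of_ne (not_lt.1 fun h' => hk' (Finset.mem_filter.2 ⟨hk, h'⟩)) (hne k hk)
      · refine ⟨Finset.filter_subset _ _, -v, U.neg_mem hv, fun k hk => ?_, ?_⟩
        · rw [inner_neg_right]
          have := (Finset.mem_filter.1 hk).2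
          linarith
        · intro k hk hk'
          rw [inner_neg_right]
          have : 0 < ⟪a k, v⟫ := lt_of_le_of_ne
            (not_lt.1 fun h' => hk' (Finset.mem_filter.2 ⟨hk, h'⟩)) (hne k hk).symm
          linarith
  rw [this, Finset.card_pair]
  intro heq
  obtain ⟨k, hk⟩ := hI
  rcases lt_or_gt_of_ne (hne k hk) with h3 | h3
  · have : k ∈ I.filter (fun k => 0 < ⟪a k, v⟫) := by
      rw [heq]; exact Finset.mem_filter.2 ⟨hk, h3⟩
    have := (Finset.mem_filter.1 this).2
    linarith
  · have : k ∈ I.filter (fun k => ⟪a k, v⟫ < 0) := by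
      rw [← heq]; exact Finset.mem_filter.2 ⟨hk, h3⟩
    have := (Finset.mem_filter.1 this).2
    linarith

/-- pairwise independence -/
def PI (a : ι → E3) : Prop := ∀ i j, i ≠ j → LinearIndependent ℝ ![a i, a j]

/-- the plane spanned by `a i` and `a j` (a vertex of the projective arrangement) -/
noncomputable def pl (a : ι → E3) (i j : ι) : Submodule ℝ E3 := Submodule.span ℝ {a i, a j}

theorem finrank_pl {a : ι → E3} (h : PI a) {i j : ι} (hij : i ≠ j) :
    Module.finrank ℝ (pl a i j) = 2 := by
  have h2 : pl a i j = Submodule.span ℝ (Set.range ![a i, a j]) := by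
    rw [pl, Matrix.range_cons, Matrix.range_cons, Matrix.range_empty, Set.union_empty,
      Set.singleton_union]
  rw [h2, finrank_span_eq_card (h i j hij)]
  simp

theorem mem_pl_left (a : ι → E3) (i j : ι) : a i ∈ pl a i j := Submodule.subset_span (by simp)

theorem mem_pl_right (a : ι → E3) (i j : ι) : a j ∈ pl a i j := Submodule.subset_span (by simp)

theorem pl_le {a : ι → E3} {i j : ι} {q : Submodule ℝ E3} (h1 : a i ∈ q) (h2 : a j ∈ q) :
    pl a i j ≤ q := by
  rw [pl, Submodule.span_le]
  intro x hx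
  rcases hx with rfl | hx
  · exact h1
  · rw [Set.mem_singleton_iff] at hx; rw [hx]; exact h2

theorem pl_comm (a : ι → E3) (i j : ι) : pl a i j = pl a j i := by
  rw [pl, pl, Set.pair_comm]

/-- a plane spanned by two of the vectors is determined by any two vectors in it -/
theorem pl_eq {a : ι → E3} (h : PI a) {i j k l : ι} (hij : i ≠ j) (hkl : k ≠ l)
    (hk : a k ∈ pl a i j) (hl : a l ∈ pl a i j) : pl a k l = pl a i j :=
  Submodule.eq_of_le_of_finrank_eq (pl_le hk hl) (by rw [finrank_pl h hij, finrank_pl h hkl])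

open Classical in
/-- the number of vertices on the line `i` of the projective arrangement formed with `I` -/
noncomputable def vtx (a : ι → E3) (i : ι) (I : Finset ι) : ℕ := (I.image (fun j => pl a i j)).card

theorem finrank_orth {a : ι → E3} (h : PI a) {i j : ι} (hij : i ≠ j) :
    Module.finrank ℝ ((Submodule.span ℝ {a i})ᗮ ⊓ (Submodule.span ℝ {a j})ᗮ : Submodule ℝ E3) = 1 := by
  have h1 : ((Submodule.span ℝ {a i})ᗮ ⊓ (Submodule.span ℝ {a j})ᗮ : Submodule ℝ E3) =
      (pl a i j)ᗮ := by
    rw [Submodule.inf_orthogonal, pl, Submodule.span_insert]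
  rw [h1]
  have h2 := (pl a i j).finrank_add_finrank_orthogonal
  rw [finrank_pl h hij] at h2
  simp only [finrank_euclideanSpace, Fintype.card_fin] at h2
  omega

/-- the restriction to a plane `(a i)^⊥` -/
theorem card_tp_plane {a : ι → E3} (h : PI a) (i : ι) {I : Finset ι} (hi : i ∉ I)
    (hI : I.Nonempty) : (tp a (Submodule.span ℝ {a i})ᗮ I).card = 2 * vtx a i I := by
  classical
  induction I using Finset.induction_on with
  | empty => exact absurd rfl hI.ne_empty
  | insert j I hj ih =>
    have hij : i ≠ j := fun h => hi (h ▸ Finset.mem_insert_self _ _)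
    have hiI : i ∉ I := fun h => hi (Finset.mem_insert_of_mem h)
    have hU : ∃ y ∈ (Submodule.span ℝ {a i})ᗮ, ⟪a j, y⟫ ≠ 0 := by
      by_contra hcon
      push Not at hcon
      have h1 : a j ∈ ((Submodule.span ℝ {a i})ᗮ)ᗮ := by
        rw [Submodule.mem_orthogonal]
        intro x hx
        rw [real_inner_comm]
        exact hcon x hx
      rw [Submodule.orthogonal_orthogonal, Submodule.mem_span_singleton] at h1
      obtain ⟨t, ht⟩ := h1
      have h2 := h j i hij.symm
      rw [LinearIndependent.pair_iff] at h2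
      have := h2 1 (-t) (by rw [one_smul, neg_smul, ht]; abel)
      exact one_ne_zero this.1
    rw [card_tp_insert a _ hj hU]
    rcases I.eq_empty_or_nonempty with rfl | hIne
    · rw [card_tp_empty, card_tp_empty]
      simp [vtx]
    · rw [ih hiI hIne]
      by_cases hex : ∃ k ∈ I, a k ∈ pl a i j
      · obtain ⟨k, hk, hkp⟩ := hex
        have hik : i ≠ k := fun h => hiI (h ▸ hk)
        have h0 : (tp a ((Submodule.span ℝ {a i})ᗮ ⊓ (Submodule.span ℝ {a j})ᗮ) I).card = 0 := by
          refine card_tp_zero hk fun x hx => ?_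
          have h1 : ((Submodule.span ℝ {a i})ᗮ ⊓ (Submodule.span ℝ {a j})ᗮ : Submodule ℝ E3) =
              (pl a i j)ᗮ := by
            rw [Submodule.inf_orthogonal, pl, Submodule.span_insert]
          rw [h1] at hx
          exact (Submodule.mem_orthogonal _ _).1 hx _ hkp
        rw [h0, add_zero]
        have h2 : pl a i k = pl a i j := pl_eq h hij hik (mem_pl_left _ _ _) hkp
        have h3 : vtx a i (insert j I) = vtx a i I := by
          rw [vtx, vtx, Finset.image_insert, Finset.insert_eq_of_mem]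
          rw [← h2]
          exact Finset.mem_image_of_mem _ hk
        rw [h3]
      · push Not at hex
        have h1 : (tp a ((Submodule.span ℝ {a i})ᗮ ⊓ (Submodule.span ℝ {a j})ᗮ) I).card = 2 := by
          refine card_tp_line (finrank_orth h hij) hIne fun k hk => ?_
          by_contra hcon
          push Not at hcon
          have h1 : ((Submodule.span ℝ {a i})ᗮ ⊓ (Submodule.span ℝ {a j})ᗮ : Submodule ℝ E3) =
              (pl a i j)ᗮ := by
            rw [Submodule.inf_orthogonal, pl, Submodule.span_insert]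
          rw [h1] at hcon
          apply hex k hk
          rw [← Submodule.orthogonal_orthogonal (pl a i j), Submodule.mem_orthogonal]
          intro x hx
          rw [real_inner_comm]
          exact hcon x hx
        rw [h1]
        have h3 : vtx a i (insert j I) = vtx a i I + 1 := by
          rw [vtx, vtx, Finset.image_insert, Finset.card_insert_of_notMem]
          intro hmem
          rw [Finset.mem_image] at hmem
          obtain ⟨k, hk, hkk⟩ := hmem
          exact hex k hk (hkk ▸ mem_pl_right a i k)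
        rw [h3]; ring

end Pool.Agent.helper50.Zono
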