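import Pool.Agent.helper50.Zono.Count

/-!
# Counting cells and walls
-/

open scoped RealInnerProductSpace

set_option linter.unusedSectionVars false

namespace Pool.Agent.helper50.Zono

variable {ι : Type*} [DecidableEq ι]

open Classical in
/-- the planes spanned by two of the vectors with index in `I`: the vertices of the projective
arrangement -/
noncomputable def planes (a : ι → E3) (I : Finset ι) : Finset (Submodule ℝ E3) :=
  I.offDiag.image (fun p => pl a p.1 p.2)

open Classical in
/-- the multiplicity of a vertex -/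
noncomputable def mult (a : ι → E3) (I : Finset ι) (q : Submodule ℝ E3) : ℕ :=
  (I.filter (fun k => a k ∈ q)).card

theorem mem_planes {a : ι → E3} {I : Finset ι} {q : Submodule ℝ E3} :
    q ∈ planes a I ↔ ∃ i ∈ I, ∃ j ∈ I, i ≠ j ∧ q = pl a i j := by
  classical
  rw [planes, Finset.mem_image]
  constructor
  · rintro ⟨⟨i, j⟩, hij, rfl⟩
    rw [Finset.mem_offDiag] at hij
    exact ⟨i, hij.1, j, hij.2.1, hij.2.2, rfl⟩
  · rintro ⟨i, hi, j, hj, hij, rfl⟩
    exact ⟨(i, j), Finset.mem_offDiag.2 ⟨hi, hj, hij⟩, rfl⟩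

theorem two_le_mult {a : ι → E3} {I : Finset ι} {q : Submodule ℝ E3} (hq : q ∈ planes a I) :
    2 ≤ mult a I q := by
  classical
  obtain ⟨i, hi, j, hj, hij, rfl⟩ := mem_planes.1 hq
  have : ({i, j} : Finset ι) ⊆ I.filter (fun k => a k ∈ pl a i j) := by
    intro x hx
    rw [Finset.mem_insert, Finset.mem_singleton] at hx
    rcases hx with rfl | rfl
    · exact Finset.mem_filter.2 ⟨hi, mem_pl_left _ _ _⟩
    · exact Finset.mem_filter.2 ⟨hj, mem_pl_right _ _ _⟩
  calc 2 = ({i, j} : Finset ι).card := (Finset.card_pair hij).symm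
    _ ≤ _ := Finset.card_le_card this

/-- the vertices on the line `i` -/
theorem mem_image_pl_iff {a : ι → E3} (h : PI a) {I : Finset ι} {i : ι} (hi : i ∉ I)
    {q : Submodule ℝ E3} (hq : q ∈ planes a I) :
    (∃ j ∈ I, pl a i j = q) ↔ a i ∈ q := by
  constructor
  · rintro ⟨j, _, rfl⟩
    exact mem_pl_left _ _ _
  · intro hiq
    obtain ⟨k, hk, l, hl, hkl, rfl⟩ := mem_planes.1 hq
    refine ⟨k, hk, pl_eq h hkl ?_ hiq (mem_pl_left _ _ _)⟩
    rintro rfl
    exact hi hk

theorem sum_insert {a : ι → E3} (h : PI a) {I : Finset ι} {i : ι} (hi : i ∉ I) :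
    ∑ q ∈ planes a (insert i I), (mult a (insert i I) q - 1) =
      ∑ q ∈ planes a I, (mult a I q - 1) + vtx a i I := by
  classical
  have hplanes : planes a (insert i I) = planes a I ∪ I.image (fun j => pl a i j) := by
    ext q
    rw [Finset.mem_union, mem_planes, mem_planes, Finset.mem_image]
    constructor
    · rintro ⟨k, hk, l, hl, hkl, rfl⟩
      rcases Finset.mem_insert.1 hk with rfl | hk'
      · rcases Finset.mem_insert.1 hl with rfl | hl'
        · exact absurd rfl hkl
        · exact Or.inr ⟨l, hl', rfl⟩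
      · rcases Finset.mem_insert.1 hl with rfl | hl'
        · exact Or.inr ⟨k, hk', pl_comm _ _ _⟩
        · exact Or.inl ⟨k, hk', l, hl', hkl, rfl⟩
    · rintro (⟨k, hk, l, hl, hkl, rfl⟩ | ⟨j, hj, rfl⟩)
      · exact ⟨k, Finset.mem_insert_of_mem hk, l, Finset.mem_insert_of_mem hl, hkl, rfl⟩
      · exact ⟨i, Finset.mem_insert_self _ _, j, Finset.mem_insert_of_mem hj,
          fun h => hi (h ▸ hj), rfl⟩
  have hmult : ∀ q, mult a (insert i I) q = mult a I q + if a i ∈ q then 1 else 0 := by
    intro q
    unfold mult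
    rw [Finset.filter_insert]
    split_ifs with hq
    · rw [Finset.card_insert_of_notMem]
      intro hmem
      exact hi (Finset.mem_filter.1 hmem).1
    · rw [add_zero]
  have hterm : ∀ q ∈ planes a I ∪ I.image (fun j => pl a i j),
      mult a (insert i I) q - 1 = (if q ∈ planes a I then mult a I q - 1 else 0) +
        if q ∈ I.image (fun j => pl a i j) then 1 else 0 := by
    intro q hq
    rw [hmult]
    by_cases hqI : q ∈ planes a I
    · rw [if_pos hqI]
      have h1 := mem_image_pl_iff h hi hqI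
      have h2 := two_le_mult hqI
      by_cases hiq : a i ∈ q
      · rw [if_pos hiq, if_pos (Finset.mem_image.2 (h1.2 hiq))]
        omega
      · rw [if_neg hiq, if_neg (fun hmem => hiq (h1.1 (Finset.mem_image.1 hmem)))]
        omega
    · rw [if_neg hqI]
      have hqim : q ∈ I.image (fun j => pl a i j) := by
        rcases Finset.mem_union.1 hq with h' | h'
        · exact absurd h' hqI
        · exact h'
      rw [if_pos hqim]
      obtain ⟨j, hj, rfl⟩ := Finset.mem_image.1 hqim
      rw [if_pos (mem_pl_left _ _ _)]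
      have hij : i ≠ j := fun h => hi (h ▸ hj)
      have h1 : mult a I (pl a i j) = 1 := by
        unfold mult
        rw [Finset.card_eq_one]
        refine ⟨j, ?_⟩
        ext k
        rw [Finset.mem_filter, Finset.mem_singleton]
        constructor
        · rintro ⟨hk, hkq⟩
          by_contra hkj
          exact hqI (mem_planes.2 ⟨j, hj, k, hk, Ne.symm hkj,
            (pl_eq h hij (Ne.symm hkj) (mem_pl_right _ _ _) hkq).symm⟩)
        · rintro rfl
          exact ⟨hj, mem_pl_right _ _ _⟩
      rw [h1]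
  rw [hplanes, Finset.sum_congr rfl hterm, Finset.sum_add_distrib]
  congr 1
  · rw [← Finset.sum_filter]
    congr 1
    ext q
    rw [Finset.mem_filter, Finset.mem_union]
    tauto
  · rw [← Finset.sum_filter, Finset.sum_const, smul_eq_mul, mul_one, vtx]
    congr 1
    ext q
    rw [Finset.mem_filter, Finset.mem_union]
    tauto

theorem PI.ne_zero {a : ι → E3} (h : PI a) {i j : ι} (hij : i ≠ j) : a i ≠ 0 := by
  simpa using (h i j hij).ne_zero 0

/-- **Number of cells.** -/
theorem card_tp_top {a : ι → E3} (h : PI a) {I : Finset ι} (hI : I.Nonempty)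
    (h0 : ∀ i ∈ I, a i ≠ 0) :
    (tp a ⊤ I).card = 2 * (1 + ∑ q ∈ planes a I, (mult a I q - 1)) := by
  classical
  induction I using Finset.induction_on with
  | empty => exact absurd rfl hI.ne_empty
  | insert i I hi ih =>
    have hai : a i ≠ 0 := h0 i (Finset.mem_insert_self _ _)
    have hU : ∃ y ∈ (⊤ : Submodule ℝ E3), ⟪a i, y⟫ ≠ 0 := by
      refine ⟨a i, Submodule.mem_top, ?_⟩
      rw [real_inner_self_eq_norm_sq]
      have : ‖a i‖ ≠ 0 := norm_ne_zero_iff.2 hai
      positivity
    rw [card_tp_insert a _ hi hU, top_inf_eq, sum_insert h hi]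
    rcases I.eq_empty_or_nonempty with rfl | hIne
    · rw [card_tp_empty, card_tp_empty]
      simp [vtx, planes]
    · rw [ih hIne (fun j hj => h0 j (Finset.mem_insert_of_mem hj)), card_tp_plane h i hi hIne]
      ring

variable [Fintype ι]

theorem topes_eq_tp (a : ι → E3) : topes a = tp a ⊤ Finset.univ := by
  classical
  ext S
  rw [mem_tp]
  unfold topes
  rw [Finset.mem_filter]
  constructor
  · rintro ⟨-, x, h1, h2⟩
    exact ⟨Finset.subset_univ _, x, Submodule.mem_top, h1, fun i _ hi => h2 i hi⟩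
  · rintro ⟨-, x, -, h1, h2⟩
    exact ⟨Finset.mem_univ _, x, h1, fun i hi => h2 i (Finset.mem_univ _) hi⟩

theorem mem_topes' {a : ι → E3} {S : Finset ι} : S ∈ topes a ↔ IsTope a S := by
  classical
  simp [topes]

/-- `T` is a cell of the restriction to `(a i)^⊥` iff both `T` and `T ∪ {i}` are cells. -/
theorem mem_tp_orth_iff {a : ι → E3} {i : ι} (hai : a i ≠ 0) {T : Finset ι} (hT : i ∉ T) :
    T ∈ tp a (Submodule.span ℝ {a i})ᗮ (Finset.univ.erase i) ↔
      IsTope a T ∧ IsTope a (insert i T) := by
  classical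
  have haa : 0 < ⟪a i, a i⟫ := by
    rw [real_inner_self_eq_norm_sq]
    have : 0 < ‖a i‖ := norm_pos_iff.2 hai
    positivity
  rw [mem_tp]
  constructor
  · rintro ⟨hTI, x, hx, h1, h2⟩
    rw [Submodule.mem_orthogonal_singleton_iff_inner_right] at hx
    have hcell : InCell a (Finset.univ.erase i) T x := ⟨h1, h2⟩
    obtain ⟨ε, hε, h3, h4⟩ := hcell.perturb (a i)
    have e1 : ⟪a i, x + ε • a i⟫ = ε * ⟪a i, a i⟫ := by
      rw [inner_add_right, hx, inner_smul_right, zero_add]
    have e2 : ⟪a i, x - ε • a i⟫ = -(ε * ⟪a i, a i⟫) := by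
      rw [inner_sub_right, hx, inner_smul_right, zero_sub]
    have hpos := mul_pos hε haa
    constructor
    · refine ⟨x - ε • a i, h4.1, fun j hj => ?_⟩
      by_cases hji : j = i
      · rw [hji, e2]; linarith
      · exact h4.2 j (Finset.mem_erase.2 ⟨hji, Finset.mem_univ _⟩) hj
    · refine ⟨x + ε • a i, fun j hj => ?_, fun j hj => ?_⟩
      · rcases Finset.mem_insert.1 hj with hji | hj
        · rw [hji, e1]; exact hpos
        · exact h3.1 j hj
      · have hji : j ≠ i := fun h' => hj (h' ▸ Finset.mem_insert_self _ _)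
        exact h3.2 j (Finset.mem_erase.2 ⟨hji, Finset.mem_univ _⟩)
          (fun h' => hj (Finset.mem_insert_of_mem h'))
  · rintro ⟨⟨x, h1, h2⟩, ⟨y, h3, h4⟩⟩
    refine ⟨fun j hj => Finset.mem_erase.2 ⟨fun h' => hT (h' ▸ hj), Finset.mem_univ _⟩, ?_⟩
    have hx : InCell a (Finset.univ.erase i) T x := ⟨h1, fun j _ hj => h2 j hj⟩
    have hy : InCell a (Finset.univ.erase i) T y := by
      refine ⟨fun j hj => h3 j (Finset.mem_insert_of_mem hj), fun j hj hj' => h4 j ?_⟩
      rw [Finset.mem_insert, not_or]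
      exact ⟨Finset.ne_of_mem_erase hj, hj'⟩
    have hxi := h2 i hT
    have hyi := h3 i (Finset.mem_insert_self _ _)
    refine ⟨⟪a i, y⟫ • x + (-⟪a i, x⟫) • y, ?_, ?_⟩
    · rw [Submodule.mem_orthogonal_singleton_iff_inner_right]
      rw [inner_add_right, inner_smul_right, inner_smul_right]; ring
    · exact hx.combo hy hyi (by linarith)

/-- number of cells that have `i` as a wall -/
theorem card_wall {a : ι → E3} {i : ι} (hai : a i ≠ 0) :
    ((topes a).filter (fun S => i ∈ walls a S)).card =
      2 * (tp a (Submodule.span ℝ {a i})ᗮ (Finset.univ.erase i)).card := by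
  classical
  set R := tp a (Submodule.span ℝ {a i})ᗮ (Finset.univ.erase i) with hR
  have hRi : ∀ T ∈ R, i ∉ T := by
    intro T hT hi
    have := (mem_tp.1 hT).1 hi
    exact (Finset.mem_erase.1 this).1 rfl
  have hsd1 : ∀ T : Finset ι, i ∉ T → symmDiff T {i} = insert i T := by
    intro T hT
    ext j
    rw [Finset.mem_symmDiff, Finset.mem_singleton, Finset.mem_insert]
    by_cases hj : j = i
    · rw [hj]; tauto
    · tauto
  have hsd2 : ∀ T : Finset ι, i ∉ T → symmDiff (insert i T) {i} = T := by
    intro T hT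
    rw [← hsd1 T hT, symmDiff_symmDiff_cancel_right]
  have hset : (topes a).filter (fun S => i ∈ walls a S) = R ∪ R.image (fun T => insert i T) := by
    ext S
    rw [Finset.mem_filter, Finset.mem_union, Finset.mem_image, mem_topes']
    have hw : i ∈ walls a S ↔ IsTope a (symmDiff S {i}) := by
      unfold walls
      rw [Finset.mem_filter]
      simp
    rw [hw]
    constructor
    · rintro ⟨h1, h2⟩
      by_cases hiS : i ∈ S
      · right
        have hni : i ∉ S.erase i := fun h => (Finset.mem_erase.1 h).1 rfl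
        have hins : insert i (S.erase i) = S := Finset.insert_erase hiS
        refine ⟨S.erase i, ?_, hins⟩
        rw [hR, mem_tp_orth_iff hai hni, hins]
        refine ⟨?_, h1⟩
        rw [← hins, hsd2 _ hni] at h2
        exact h2
      · left
        rw [hR, mem_tp_orth_iff hai hiS]
        rw [hsd1 _ hiS] at h2
        exact ⟨h1, h2⟩
    · rintro (hS | ⟨T, hT, rfl⟩)
      · have hiS := hRi S hS
        rw [hR, mem_tp_orth_iff hai hiS] at hS
        rw [hsd1 _ hiS]
        exact hS
      · have hiT := hRi T hT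
        rw [hR, mem_tp_orth_iff hai hiT] at hT
        rw [hsd2 _ hiT]
        exact ⟨hT.2, hT.1⟩
  have hdisj : Disjoint R (R.image (fun T => insert i T)) := by
    rw [Finset.disjoint_left]
    intro S hS hS'
    rw [Finset.mem_image] at hS'
    obtain ⟨T, -, rfl⟩ := hS'
    exact hRi _ hS (Finset.mem_insert_self _ _)
  have hinj : Set.InjOn (fun T : Finset ι => insert i T) (R : Set (Finset ι)) := by
    intro S hS T hT hST
    have hST : insert i S = insert i T := hST
    rw [← Finset.erase_insert (hRi S hS), ← Finset.erase_insert (hRi T hT), hST]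
  rw [hset, Finset.card_union_of_disjoint hdisj, Finset.card_image_of_injOn hinj]
  ring

open Classical in
theorem vtx_eq {a : ι → E3} (h : PI a) (i : ι) :
    vtx a i (Finset.univ.erase i) = ((planes a Finset.univ).filter (fun q => a i ∈ q)).card := by
  unfold vtx
  congr 1
  ext q
  rw [Finset.mem_image, Finset.mem_filter, mem_planes]
  constructor
  · rintro ⟨j, hj, rfl⟩
    exact ⟨⟨i, Finset.mem_univ _, j, Finset.mem_univ _, (Finset.ne_of_mem_erase hj).symm, rfl⟩,
      mem_pl_left _ _ _⟩
  · rintro ⟨⟨k, -, l, -, hkl, rfl⟩, hi⟩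
    by_cases hik : i = k
    · subst hik
      exact ⟨l, Finset.mem_erase.2 ⟨hkl.symm, Finset.mem_univ _⟩, rfl⟩
    · exact ⟨k, Finset.mem_erase.2 ⟨Ne.symm hik, Finset.mem_univ _⟩,
        pl_eq h hkl hik hi (mem_pl_left _ _ _)⟩

/-- **Sum of the numbers of walls.** -/
theorem sum_walls {a : ι → E3} (h : PI a) (hc : 2 ≤ Fintype.card ι) :
    ∑ S ∈ topes a, (walls a S).card =
      4 * ∑ q ∈ planes a Finset.univ, mult a Finset.univ q := by
  classical
  have hnt : Nontrivial ι := Fintype.one_lt_card_iff_nontrivial.1 (by omega)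
  have hne : ∀ i : ι, a i ≠ 0 := by
    intro i
    obtain ⟨j, hj⟩ := exists_ne i
    exact h.ne_zero hj.symm
  have h1 : ∑ S ∈ topes a, (walls a S).card =
      ∑ i : ι, ((topes a).filter (fun S => i ∈ walls a S)).card := by
    simp_rw [Finset.card_eq_sum_ones, Finset.sum_filter]
    rw [Finset.sum_comm]
    refine Finset.sum_congr rfl fun S _ => ?_
    rw [← Finset.sum_filter]
    congr 1
    ext i
    simp
  have h2 : ∀ i : ι, ((topes a).filter (fun S => i ∈ walls a S)).card =
      4 * ((planes a Finset.univ).filter (fun q => a i ∈ q)).card := by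
    intro i
    have hIne : (Finset.univ.erase i : Finset ι).Nonempty := by
      obtain ⟨j, hj⟩ := exists_ne i
      exact ⟨j, Finset.mem_erase.2 ⟨hj, Finset.mem_univ _⟩⟩
    rw [card_wall (hne i), card_tp_plane h i (fun h' => (Finset.mem_erase.1 h').1 rfl) hIne,
      vtx_eq h]
    ring
  rw [h1, Finset.sum_congr rfl fun i _ => h2 i, ← Finset.mul_sum]
  congr 1
  unfold mult
  simp_rw [Finset.card_eq_sum_ones, Finset.sum_filter]
  rw [Finset.sum_comm]

/-- **Number of cells**, in terms of the vertices of the projective arrangement. -/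
theorem card_topes {a : ι → E3} (h : PI a) (hc : 2 ≤ Fintype.card ι) :
    (topes a).card = 2 * (1 + ∑ q ∈ planes a Finset.univ, (mult a Finset.univ q - 1)) := by
  classical
  have hnt : Nontrivial ι := Fintype.one_lt_card_iff_nontrivial.1 (by omega)
  have hne : ∀ i : ι, a i ≠ 0 := by
    intro i
    obtain ⟨j, hj⟩ := exists_ne i
    exact h.ne_zero hj.symm
  rw [topes_eq_tp]
  exact card_tp_top h Finset.univ_nonempty fun i _ => hne i

/-- pairs of lines meet in exactly one vertex -/
theorem sum_choose_two {a : ι → E3} (h : PI a) :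
    ∑ q ∈ planes a Finset.univ, (mult a Finset.univ q) * (mult a Finset.univ q - 1) =
      Fintype.card ι * (Fintype.card ι - 1) := by
  classical
  have h1 : (Finset.univ : Finset ι).offDiag.card = Fintype.card ι * (Fintype.card ι - 1) := by
    rw [Finset.offDiag_card, Finset.card_univ, Nat.mul_sub_one]
  rw [← h1]
  rw [Finset.card_eq_sum_card_fiberwise (f := fun p : ι × ι => pl a p.1 p.2)
    (t := planes a Finset.univ) (s := (Finset.univ : Finset ι).offDiag)
    (fun p hp => Finset.mem_image_of_mem _ hp)]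
  refine Finset.sum_congr rfl fun q hq => ?_
  have h2 : (Finset.univ : Finset ι).offDiag.filter (fun p => pl a p.1 p.2 = q) =
      ((Finset.univ : Finset ι).filter (fun k => a k ∈ q)).offDiag := by
    ext ⟨k, l⟩
    rw [Finset.mem_filter, Finset.mem_offDiag, Finset.mem_offDiag, Finset.mem_filter,
      Finset.mem_filter]
    constructor
    · rintro ⟨⟨hk, hl, hkl⟩, rfl⟩
      exact ⟨⟨hk, mem_pl_left _ _ _⟩, ⟨hl, mem_pl_right _ _ _⟩, hkl⟩
    · rintro ⟨⟨hk, hkq⟩, ⟨hl, hlq⟩, hkl⟩
      refine ⟨⟨hk, hl, hkl⟩, ?_⟩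
      obtain ⟨i, -, j, -, hij, rfl⟩ := mem_planes.1 hq
      exact pl_eq h hij hkl hkq hlq
  rw [h2, Finset.offDiag_card, mult, Nat.mul_sub_one]

end Pool.Agent.helper50.Zono
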