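import Mathlib

/-!
# Polyhedra with centrally symmetric faces and their vertices of degree 3: definitions

* `ZClass n` is the class of convex polyhedra in `ℝ³` with exactly `n` vertices all of whose
  2-dimensional faces are centrally symmetric.
* `deg3 P` is the number of vertices of `P` of degree 3.
* `m n` is the least value of `deg3 P` for `P` in `ZClass n`.
* `topes a`, `walls a S`, `tri a`: cells, walls of a cell, and number of cells with exactly three
  walls, of the central arrangement of the planes orthogonal to the vectors `a i`.
-/

open scoped RealInnerProductSpace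

namespace Pool.Agent.helper50.Zono

/-- Euclidean 3-space. -/
abbrev E3 := EuclideanSpace ℝ (Fin 3)

/-- A convex polyhedron: the convex hull of a finite set, of dimension 3. -/
def IsPolyhedron (P : Set E3) : Prop :=
  ∃ V : Finset E3, P = convexHull ℝ (V : Set E3) ∧ (interior P).Nonempty

/-- `F` is a `d`-dimensional face of `P`: a nonempty set of the form
`{x ∈ P | ∀ y ∈ P, l y ≤ l x}` with `l` a linear functional, whose affine span has dimension `d`. -/
def IsFace (P F : Set E3) (d : ℕ) : Prop :=
  F.Nonempty ∧ IsExposed ℝ P F ∧ Module.finrank ℝ (vectorSpan ℝ F) = d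

/-- `G` is centrally symmetric: `2 c - G = G` for some point `c`. -/
def CentrallySymmetric (G : Set E3) : Prop :=
  ∃ c : E3, (fun x => (2 : ℝ) • c - x) '' G = G

/-- The degree of `v`: the number of edges (1-dimensional faces) of `P` that contain `v`. -/
noncomputable def degree (P : Set E3) (v : E3) : ℕ := {E | IsFace P E 1 ∧ v ∈ E}.ncard

/-- Convex polyhedra with exactly `n` vertices all of whose 2-dimensional faces are centrally
symmetric. -/
def ZClass (n : ℕ) : Set (Set E3) :=
  {P | IsPolyhedron P ∧ (∀ F, IsFace P F 2 → CentrallySymmetric F) ∧
    (P.extremePoints ℝ).ncard = n}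

/-- The number of vertices of degree 3. -/
noncomputable def deg3 (P : Set E3) : ℕ := {v | v ∈ P.extremePoints ℝ ∧ degree P v = 3}.ncard

/-- `m n = min {deg3 P | P ∈ ZClass n}`. -/
noncomputable def m (n : ℕ) : ℕ := sInf {k | ∃ P ∈ ZClass n, deg3 P = k}

section Topes

variable {ι : Type*}

/-- `S` is (the positive part of the sign vector of) a cell of the central arrangement of the
planes orthogonal to the vectors `a i`. -/
def IsTope (a : ι → E3) (S : Finset ι) : Prop :=
  ∃ x : E3, (∀ i ∈ S, 0 < ⟪a i, x⟫) ∧ ∀ i ∉ S, ⟪a i, x⟫ < 0

variable [Fintype ι] [DecidableEq ι]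

open Classical in
/-- The cells of the arrangement. -/
noncomputable def topes (a : ι → E3) : Finset (Finset ι) := Finset.univ.filter (IsTope a)

open Classical in
/-- The walls of the cell `S`: the indices `i` such that changing the sign at `i` gives a cell. -/
noncomputable def walls (a : ι → E3) (S : Finset ι) : Finset ι :=
  Finset.univ.filter (fun i => IsTope a (symmDiff S {i}))

/-- The number of cells with exactly three walls. -/
noncomputable def tri (a : ι → E3) : ℕ :=
  ((topes a).filter (fun S => (walls a S).card = 3)).card

/-- Pairwise non-parallel vectors that span the space. -/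
structure IsArr (a : ι → E3) : Prop where
  indep : ∀ i j, i ≠ j → LinearIndependent ℝ ![a i, a j]
  span : Submodule.span ℝ (Set.range a) = ⊤

end Topes

end Pool.Agent.helper50.Zono
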