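import Pool.Agent.helper50.Zono.Faces

/-!
# Every face with at least two vertices contains an edge
-/

open scoped RealInnerProductSpace

namespace Pool.Agent.helper50.Zono

/-- small perturbations -/
theorem eventually_perturb {V : Finset E3} (hV : V.Nonempty) (u w : E3) :
    ∀ᶠ ε in nhdsWithin (0 : ℝ) (Set.Ioi 0), M V (u + ε • w) = M (M V u) w := by
  have h1 : Filter.Tendsto (fun ε : ℝ => u + ε • w) (nhdsWithin 0 (Set.Ioi 0)) (nhds u) := by
    have : Filter.Tendsto (fun ε : ℝ => u + ε • w) (nhds 0) (nhds (u + (0:ℝ) • w)) := by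
      apply Continuous.tendsto
      fun_prop
    rw [zero_smul, add_zero] at this
    exact this.mono_left nhdsWithin_le_nhds
  have h2 := h1.eventually (M_near hV u)
  filter_upwards [h2, self_mem_nhdsWithin] with ε hsub hε
  have hε : 0 < ε := hε
  rw [← M_M hV hsub]
  ext v
  rw [mem_M (V := M V u), mem_M (V := M V u)]
  refine and_congr_right fun hv => ?_
  refine forall_congr' fun z => forall_congr' fun hz => ?_
  have := M_eq_val hv hz
  simp only [inner_add_left, inner_smul_left, RCLike.conj_to_real]
  rw [this]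
  constructor
  · intro h
    have : ε * ⟪w, z⟫ ≤ ε * ⟪w, v⟫ := by linarith
    exact le_of_mul_le_mul_left this hε
  · intro h
    have : ε * ⟪w, z⟫ ≤ ε * ⟪w, v⟫ := mul_le_mul_of_nonneg_left h (le_of_lt hε)
    linarith

theorem exists_perturb {V : Finset E3} (hV : V.Nonempty) (u w : E3) :
    ∃ ε : ℝ, 0 < ε ∧ M V (u + ε • w) = M (M V u) w := by
  obtain ⟨ε, h1, h2⟩ := ((eventually_perturb hV u w).and self_mem_nhdsWithin).exists
  exact ⟨ε, h2, h1⟩

theorem const_of_singletons {W : Finset E3} (hW : W.Nonempty) {S : Set E3} (hS : IsPreconnected S)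
    (h : ∀ w ∈ S, ∃ v, M W w = {v}) {w : E3} (hw : w ∈ S) {v : E3} (hv : M W w = {v}) :
    ∀ w' ∈ S, M W w' = {v} := by
  have hA : IsOpen {w | M W w = {v}} := isOpen_M_eq_singleton W hW v
  have hB : IsOpen (⋃ v' ∈ ({v}ᶜ : Set E3), {w | M W w = {v'}}) :=
    isOpen_biUnion fun v' _ => isOpen_M_eq_singleton W hW v'
  have hdisj : Disjoint {w | M W w = {v}} (⋃ v' ∈ ({v}ᶜ : Set E3), {w | M W w = {v'}}) := by
    rw [Set.disjoint_left]
    intro x hx hx'
    simp only [Set.mem_iUnion, Set.mem_ofPred_eq, Set.mem_compl_iff, Set.mem_singleton_iff] at hx hx'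
    obtain ⟨v', hv', h'⟩ := hx'
    rw [hx] at h'
    exact hv' (Finset.singleton_injective h').symm
  have hcov : S ⊆ {w | M W w = {v}} ∪ (⋃ v' ∈ ({v}ᶜ : Set E3), {w | M W w = {v'}}) := by
    intro x hx
    obtain ⟨v', hv'⟩ := h x hx
    by_cases hvv : v' = v
    · left; simpa [hvv] using hv'
    · right
      simp only [Set.mem_iUnion, Set.mem_ofPred_eq, Set.mem_compl_iff, Set.mem_singleton_iff]
      exact ⟨v', hvv, hv'⟩
  have := hS.subset_left_of_subset_union hA hB hdisj hcov ⟨w, hw, hv⟩
  exact fun w' hw' => this hw'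

theorem one_lt_rank_of_finrank {U : Submodule ℝ E3} (h : 2 ≤ Module.finrank ℝ U) :
    1 < Module.rank ℝ (E3 ⧸ Uᗮ) := by
  have h1 := Submodule.finrank_quotient_add_finrank Uᗮ
  have h2 := U.finrank_add_finrank_orthogonal
  have h3 : Module.finrank ℝ (E3 ⧸ Uᗮ) = Module.finrank ℝ U := by omega
  rw [← Module.finrank_eq_rank, h3]
  have : (1 : ℕ) < Module.finrank ℝ U := h
  exact_mod_cast this

theorem mem_orth_vectorSpan {W : Finset E3} (_hW : W.Nonempty) {w : E3} :
    w ∈ (vectorSpan ℝ (W : Set E3))ᗮ ↔ ∀ x ∈ W, ∀ y ∈ W, ⟪w, x⟫ = ⟪w, y⟫ := by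
  rw [Submodule.mem_orthogonal]
  constructor
  · intro h x hx y hy
    have := h (x - y) (vsub_mem_vectorSpan ℝ (by exact_mod_cast hx) (by exact_mod_cast hy))
    rw [real_inner_comm, inner_sub_right] at this
    linarith
  · intro h u hu
    rw [vectorSpan_def] at hu
    induction hu using Submodule.span_induction with
    | mem x hx =>
      obtain ⟨a, ha, b, hb, rfl⟩ := hx
      have := h a (by exact_mod_cast ha) b (by exact_mod_cast hb)
      simp only [vsub_eq_sub]
      rw [real_inner_comm, inner_sub_right]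
      linarith
    | zero => simp
    | add x y _ _ hx hy => rw [inner_add_left, hx, hy, add_zero]
    | smul c x _ hx => rw [inner_smul_left, hx, mul_zero]

/-- Every face with at least two vertices contains an edge. -/
theorem exists_edge {V : Finset E3} (hc : ConvPos V) (u : E3) (h2 : 2 ≤ (M V u).card) :
    ∃ u' v w, Edge V v w ∧ M V u' = {v, w} ∧ M V u' ⊆ M V u := by
  have hV : V.Nonempty := by
    rcases V.eq_empty_or_nonempty with h | h
    · rw [h] at h2; simp [M] at h2
    · exact h
  obtain ⟨n, hn⟩ : ∃ n, (M V u).card = n := ⟨_, rfl⟩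
  induction n using Nat.strong_induction_on generalizing u with
  | _ n ih =>
    rcases h2.eq_or_lt with h2' | h3
    · obtain ⟨x, y, hxy, hM⟩ := Finset.card_eq_two.1 h2'.symm
      exact ⟨u, x, y, ⟨hxy, u, hM⟩, hM, subset_rfl⟩
    · by_contra hcon
      set W := M V u with hWdef
      have hWne : W.Nonempty := M_nonempty hV u
      have hWV : W ⊆ V := M_subset _ _
      have hfin : 2 ≤ Module.finrank ℝ (vectorSpan ℝ (W : Set E3)) := by
        by_contra hlt
        push Not at hlt
        have := card_le_two_of_finrank (convPos_mono hc hWV) (by omega)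
        omega
      have hpre : IsPreconnected (((vectorSpan ℝ (W : Set E3))ᗮ : Submodule ℝ E3)ᶜ : Set E3) :=
        (isConnected_compl_of_one_lt_codim (one_lt_rank_of_finrank hfin)).isPreconnected
      have hsing : ∀ w ∈ (((vectorSpan ℝ (W : Set E3))ᗮ : Submodule ℝ E3)ᶜ : Set E3),
          ∃ v, M W w = {v} := by
        intro w hw
        obtain ⟨ε, hε, hM⟩ := exists_perturb hV u w
        rw [← hWdef] at hM
        have hne : M W w ≠ W := by
          intro heq
          apply hw
          rw [SetLike.mem_coe, mem_orth_vectorSpan hWne]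
          intro x hx y hy
          rw [← heq] at hx hy
          exact M_eq_val hx hy
        have hlt : (M W w).card < W.card :=
          Finset.card_lt_card (lt_of_le_of_ne (M_subset _ _) hne)
        by_contra hns
        have hcard2 : 2 ≤ (M W w).card := by
          by_contra hlt2
          push Not at hlt2
          have h1 : 0 < (M W w).card := Finset.card_pos.2 (M_nonempty hWne w)
          have : (M W w).card = 1 := by omega
          exact hns (Finset.card_eq_one.1 this)
        obtain ⟨u', v', w', hE, hM', hsub⟩ := ih _ (by rw [← hn]; exact hM ▸ hlt) (u + ε • w)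
          (by rw [hM]; exact hcard2) rfl
        refine hcon ⟨u', v', w', hE, hM', hsub.trans ?_⟩
        rw [hM]
        exact M_subset _ _
      obtain ⟨w, hw⟩ : ∃ w, w ∈ (((vectorSpan ℝ (W : Set E3))ᗮ : Submodule ℝ E3)ᶜ : Set E3) :=
        (isConnected_compl_of_one_lt_codim (one_lt_rank_of_finrank hfin)).nonempty
      have hw' : -w ∈ (((vectorSpan ℝ (W : Set E3))ᗮ : Submodule ℝ E3)ᶜ : Set E3) := by
        intro h
        apply hw
        have := Submodule.neg_mem _ h
        rwa [neg_neg] at this
      obtain ⟨v, hv⟩ := hsing w hw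
      have h5 := const_of_singletons hWne hpre hsing hw hv (-w) hw'
      apply hw
      rw [SetLike.mem_coe, mem_orth_vectorSpan hWne]
      have key : ∀ x ∈ W, ⟪w, x⟫ = ⟪w, v⟫ := by
        intro x hx
        have h6 := (mem_M.1 (show v ∈ M W w by rw [hv]; simp)).2 x hx
        have h7 := (mem_M.1 (show v ∈ M W (-w) by rw [h5]; simp)).2 x hx
        rw [inner_neg_left, inner_neg_left] at h7
        linarith
      intro x hx y hy
      rw [key x hx, key y hy]

/-- If all edges of a face with at least two vertices are parallel to `a`, then it has exactly two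
vertices. -/
theorem card_eq_two_of_edges_parallel {V : Finset E3} (hc : ConvPos V) (u a : E3)
    (h2 : 2 ≤ (M V u).card)
    (hpar : ∀ v w, Edge V v w → v ∈ M V u → w ∈ M V u → ∃ t : ℝ, v - w = t • a) :
    (M V u).card = 2 := by
  have hV : V.Nonempty := by
    rcases V.eq_empty_or_nonempty with h | h
    · rw [h] at h2; simp [M] at h2
    · exact h
  refine le_antisymm ?_ h2
  set W := M V u with hWdef
  have hWne : W.Nonempty := M_nonempty hV u
  have hWV : W ⊆ V := M_subset _ _
  have ha : a ≠ 0 := by
    rintro rfl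
    obtain ⟨u', v, w, hE, hM, hsub⟩ := exists_edge hc u h2
    obtain ⟨t, ht⟩ := hpar v w hE (hsub (by rw [hM]; simp)) (hsub (by rw [hM]; simp))
    rw [smul_zero, sub_eq_zero] at ht
    exact hE.1 ht
  have hpre : IsPreconnected {w : E3 | 0 < ⟪a, w⟫} := by
    apply Convex.isPreconnected
    exact convex_halfSpace_gt (f := fun y : E3 => ⟪a, y⟫)
        ⟨fun x y => inner_add_right a x y, fun c x => by rw [inner_smul_right]; rfl⟩ 0
  have hsing : ∀ w ∈ {w : E3 | 0 < ⟪a, w⟫}, ∃ v, M W w = {v} := by
    intro w hw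
    by_contra hns
    have hcard2 : 2 ≤ (M W w).card := by
      by_contra hlt2
      push Not at hlt2
      have h1 : 0 < (M W w).card := Finset.card_pos.2 (M_nonempty hWne w)
      have : (M W w).card = 1 := by omega
      exact hns (Finset.card_eq_one.1 this)
    obtain ⟨ε, hε, hM⟩ := exists_perturb hV u w
    rw [← hWdef] at hM
    rw [← hM] at hcard2
    obtain ⟨u', p, q, hE, hM', hsub⟩ := exists_edge hc _ hcard2
    have hp : p ∈ M W w := by rw [← hM]; exact hsub (by rw [hM']; simp)
    have hq : q ∈ M W w := by rw [← hM]; exact hsub (by rw [hM']; simp)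
    obtain ⟨t, ht⟩ := hpar p q hE (M_subset _ _ hp) (M_subset _ _ hq)
    have h3 := M_eq_val hp hq
    have h4 : ⟪w, p - q⟫ = 0 := by rw [inner_sub_right]; linarith
    rw [ht, inner_smul_right, real_inner_comm] at h4
    rcases mul_eq_zero.1 h4 with h5 | h5
    · rw [h5, zero_smul, sub_eq_zero] at ht
      exact hE.1 ht
    · have : 0 < ⟪a, w⟫ := hw
      linarith
  have haa : 0 < ⟪a, a⟫ := by
    rw [real_inner_self_eq_norm_sq]
    positivity
  obtain ⟨v, hv⟩ := hsing a haa
  have hall := const_of_singletons hWne hpre hsing (show a ∈ {w : E3 | 0 < ⟪a, w⟫} from haa) hv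
  have hlim : ∀ w : E3, ⟪a, w⟫ = 0 → v ∈ M W w := by
    intro w hw
    have hcl := isClosed_mem_M W v
    have ht : Filter.Tendsto (fun ε : ℝ => w + ε • a) (nhdsWithin 0 (Set.Ioi 0)) (nhds w) := by
      have : Filter.Tendsto (fun ε : ℝ => w + ε • a) (nhds 0) (nhds (w + (0:ℝ) • a)) := by
        apply Continuous.tendsto
        fun_prop
      rw [zero_smul, add_zero] at this
      exact this.mono_left nhdsWithin_le_nhds
    refine hcl.mem_of_tendsto ht ?_
    filter_upwards [self_mem_nhdsWithin] with ε hε
    have : w + ε • a ∈ {w : E3 | 0 < ⟪a, w⟫} := by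
      simp only [Set.mem_ofPred_eq, inner_add_right, inner_smul_right, hw, zero_add]
      exact mul_pos hε haa
    have := hall _ this
    simp only [this]
    simp
  apply card_le_two_of_finrank (convPos_mono hc hWV)
  have hle : vectorSpan ℝ (W : Set E3) ≤ Submodule.span ℝ {a} := by
    rw [← Submodule.orthogonal_orthogonal (Submodule.span ℝ {a}),
      ← Submodule.orthogonal_orthogonal (vectorSpan ℝ (W : Set E3))]
    apply Submodule.orthogonal_le
    intro w hw
    rw [Submodule.mem_orthogonal_singleton_iff_inner_right] at hw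
    rw [mem_orth_vectorSpan hWne]
    have key : ∀ x ∈ W, ⟪w, x⟫ = ⟪w, v⟫ := by
      intro x hx
      have h6 := (mem_M.1 (hlim w hw)).2 x hx
      have h7 := (mem_M.1 (hlim (-w) (by rw [inner_neg_right, hw, neg_zero]))).2 x hx
      rw [inner_neg_left, inner_neg_left] at h7
      linarith
    intro x hx y hy
    rw [key x hx, key y hy]
  calc Module.finrank ℝ (vectorSpan ℝ (W : Set E3))
      ≤ Module.finrank ℝ (Submodule.span ℝ {a}) := Submodule.finrank_mono hle
    _ = 1 := finrank_span_singleton ha

end Pool.Agent.helper50.Zono
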