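import Pool.Agent.helper50.Zono.Arg

/-!
# Faces of a polytope given by its vertex set
-/

open scoped RealInnerProductSpace

namespace Pool.Agent.helper50.Zono

theorem convPos_mono {V W : Finset E3} (h : ConvPos V) (hW : W ⊆ V) : ConvPos W := by
  intro v hv hc
  refine h v (hW hv) (convexHull_mono ?_ hc)
  exact Set.sdiff_subset_sdiff_left (by exact_mod_cast hW)

theorem ConvPos.mem_of_mem_hull {V W : Finset E3} (h : ConvPos V) (hW : W ⊆ V) {v : E3}
    (hv : v ∈ V) (hc : v ∈ convexHull ℝ (W : Set E3)) : v ∈ W := by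
  by_contra hn
  refine h v hv (convexHull_mono ?_ hc)
  intro x hx
  refine ⟨hW hx, ?_⟩
  rintro rfl
  exact hn hx

theorem extremePoints_hull {V : Finset E3} (h : ConvPos V) :
    (convexHull ℝ (V : Set E3)).extremePoints ℝ = V := by
  apply Set.Subset.antisymm extremePoints_convexHull_subset
  intro v hv
  have hfin : (V : Set E3).Finite := V.finite_toSet
  -- `v` is the unique maximizer of some functional
  have hcomp : IsCompact (convexHull ℝ ((V : Set E3) \ {v})) :=
    Set.Finite.isCompact_convexHull (𝕜 := ℝ) (hfin.subset Set.sdiff_subset)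
  have hdisj : v ∉ convexHull ℝ ((V : Set E3) \ {v}) := h v hv
  obtain ⟨f, s, h1, h2⟩ := geometric_hahn_banach_closed_point (convex_convexHull ℝ _)
    hcomp.isClosed hdisj
  have hexp : IsExposed ℝ (convexHull ℝ (V : Set E3)) {v} := by
    intro _
    refine ⟨f, ?_⟩
    have hle : ∀ y ∈ convexHull ℝ (V : Set E3), f y ≤ f v := by
      intro y hy
      have hconv : Convex ℝ {y : E3 | f y ≤ f v} := convex_halfSpace_le f.isBoundedLinearMap.toIsLinearMap _
      refine convexHull_min (fun w hw => ?_) hconv hy
      by_cases hne : w = v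
      · rw [hne]; exact le_refl (f v)
      · exact (h1 w (subset_convexHull _ _ ⟨hw, hne⟩)).le.trans h2.le
    ext x
    constructor
    · rintro rfl
      exact ⟨subset_convexHull _ _ hv, hle⟩
    · rintro ⟨hx, hmax⟩
      rw [Set.mem_singleton_iff]
      have hxV : (V : Set E3) = insert v ((V : Set E3) \ {v}) := by
        rw [Set.insert_sdiff_singleton, Set.insert_eq_of_mem hv]
      by_cases hne : ((V : Set E3) \ {v}).Nonempty
      · rw [hxV, convexHull_insert hne, mem_convexJoin] at hx
        obtain ⟨a, ha, b, hb, hab⟩ := hx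
        rw [Set.mem_singleton_iff] at ha
        subst ha
        obtain ⟨s', t, hs, ht, hst, rfl⟩ := hab
        have hb' := h1 b hb
        have := hmax a (subset_convexHull _ _ hv)
        simp only [map_add, map_smul, smul_eq_mul] at this
        have ht0 : t = 0 := by
          by_contra h0
          have ht' : 0 < t := lt_of_le_of_ne ht (Ne.symm h0)
          have : s' = 1 - t := by linarith
          subst this
          nlinarith
        have hs1 : s' = 1 := by linarith
        rw [ht0, hs1]; simp
      · rw [Set.not_nonempty_iff_eq_empty] at hne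
        rw [hxV, hne] at hx
        simpa using hx
  exact (isExtreme_singleton.1 hexp.isExtreme)

theorem exists_M_eq_singleton {V : Finset E3} (h : ConvPos V) {v : E3} (hv : v ∈ V) :
    ∃ u, M V u = {v} := by
  have hfin : (V : Set E3).Finite := V.finite_toSet
  have hcomp : IsCompact (convexHull ℝ ((V : Set E3) \ {v})) :=
    Set.Finite.isCompact_convexHull (𝕜 := ℝ) (hfin.subset Set.sdiff_subset)
  obtain ⟨f, s, h1, h2⟩ := geometric_hahn_banach_closed_point (convex_convexHull ℝ _)
    hcomp.isClosed (h v hv)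
  refine ⟨(InnerProductSpace.toDual ℝ E3).symm f, ?_⟩
  ext w
  rw [mem_M, Finset.mem_singleton]
  simp only [InnerProductSpace.toDual_symm_apply]
  constructor
  · rintro ⟨hw, hmax⟩
    by_contra hne
    have h3 := h1 w (subset_convexHull _ _ ⟨hw, hne⟩)
    have h4 := hmax v hv
    linarith
  · rintro rfl
    refine ⟨hv, fun z hz => ?_⟩
    by_cases hne : z = w
    · rw [hne]
    · exact (h1 z (subset_convexHull _ _ ⟨hz, hne⟩)).le.trans h2.le

theorem vectorSpan_hull (s : Set E3) : vectorSpan ℝ (convexHull ℝ s) = vectorSpan ℝ s := by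
  rw [← direction_affineSpan, ← direction_affineSpan, affineSpan_convexHull]

theorem isFace_iff {V : Finset E3} (hV : V.Nonempty) (F : Set E3) (d : ℕ) :
    IsFace (convexHull ℝ (V : Set E3)) F d ↔
      ∃ u : E3, F = convexHull ℝ (M V u : Set E3) ∧
        Module.finrank ℝ (vectorSpan ℝ (M V u : Set E3)) = d := by
  constructor
  · rintro ⟨hne, hexp, hd⟩
    obtain ⟨l, hl⟩ := hexp hne
    have hF : F = convexHull ℝ (M V ((InnerProductSpace.toDual ℝ E3).symm l) : Set E3) := by
      rw [← face_eq, hl]
      simp only [InnerProductSpace.toDual_symm_apply]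
    refine ⟨(InnerProductSpace.toDual ℝ E3).symm l, hF, ?_⟩
    rw [← vectorSpan_hull, ← hF, hd]
  · rintro ⟨u, rfl, hd⟩
    refine ⟨?_, ?_, ?_⟩
    · rw [convexHull_nonempty_iff]
      exact M_nonempty hV u
    · intro _
      refine ⟨InnerProductSpace.toDual ℝ E3 u, ?_⟩
      rw [← face_eq]
      rfl
    · rw [vectorSpan_hull, hd]

theorem not_collinear_triple {V : Finset E3} (h : ConvPos V) {a b c : E3} (ha : a ∈ V) (hb : b ∈ V)
    (hc : c ∈ V) (hab : a ≠ b) (hbc : b ≠ c) (hac : a ≠ c) : ¬ Collinear ℝ {a, b, c} := by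
  have key : ∀ a b c : E3, a ∈ V → b ∈ V → c ∈ V → a ≠ b → b ≠ c → ¬ Wbtw ℝ a b c := by
    intro a b c ha hb hc hab hbc hw
    refine h b hb ?_
    have : segment ℝ a c ⊆ convexHull ℝ ((V : Set E3) \ {b}) :=
      (convex_convexHull ℝ _).segment_subset (subset_convexHull _ _ ⟨ha, hab⟩)
        (subset_convexHull _ _ ⟨hc, hbc.symm⟩)
    exact this (mem_segment_iff_wbtw.2 hw)
  intro hcol
  rcases hcol.wbtw_or_wbtw_or_wbtw with h1 | h1 | h1
  · exact key a b c ha hb hc hab hbc h1
  · exact key b c a hb hc ha hbc hac.symm h1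
  · exact key c a b hc ha hb hac.symm hab h1

theorem card_le_two_of_finrank {V : Finset E3} (h : ConvPos V)
    (hd : Module.finrank ℝ (vectorSpan ℝ (V : Set E3)) ≤ 1) : V.card ≤ 2 := by
  by_contra hcard
  push Not at hcard
  obtain ⟨a, b, c, ha, hb, hc, hab, hac, hbc⟩ := Finset.two_lt_card_iff.1 hcard
  refine not_collinear_triple h ha hb hc hab hbc hac ?_
  have hcol : Collinear ℝ (V : Set E3) := collinear_iff_finrank_le_one.2 hd
  refine hcol.subset ?_
  intro x hx
  simp only [Set.mem_insert_iff, Set.mem_singleton_iff] at hx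
  rcases hx with rfl | rfl | rfl
  · exact ha
  · exact hb
  · exact hc

theorem finrank_pair {v w : E3} (h : v ≠ w) :
    Module.finrank ℝ (vectorSpan ℝ ({v, w} : Set E3)) = 1 := by
  rw [vectorSpan_pair]
  exact finrank_span_singleton (vsub_ne_zero.2 h)

/-- `v` and `w` are joined by an edge -/
def Edge (V : Finset E3) (v w : E3) : Prop := v ≠ w ∧ ∃ u, M V u = {v, w}

theorem Edge.symm {V : Finset E3} {v w : E3} (h : Edge V v w) : Edge V w v := by
  obtain ⟨h1, u, hu⟩ := h
  exact ⟨h1.symm, u, by rw [hu, Finset.pair_comm]⟩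

open Classical in
theorem degree_eq {V : Finset E3} (h : ConvPos V) {v : E3} (hv : v ∈ V) :
    degree (convexHull ℝ (V : Set E3)) v = (V.filter (fun w => Edge V v w)).card := by
  have hne : V.Nonempty := ⟨v, hv⟩
  unfold degree
  have himg : {E | IsFace (convexHull ℝ (V : Set E3)) E 1 ∧ v ∈ E} =
      (fun w => convexHull ℝ ({v, w} : Set E3)) '' (V.filter (fun w => Edge V v w) : Finset E3) := by
    ext E
    constructor
    · rintro ⟨hE, hvE⟩
      obtain ⟨u, rfl, hd⟩ := (isFace_iff hne E 1).1 hE
      have hvM : v ∈ M V u := h.mem_of_mem_hull (M_subset _ _) hv hvE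
      have hcard : (M V u).card ≤ 2 :=
        card_le_two_of_finrank (convPos_mono h (M_subset _ _)) hd.le
      have hcard2 : 2 ≤ (M V u).card := by
        by_contra hlt
        push Not at hlt
        have : (M V u : Set E3).Subsingleton := by
          have := Finset.card_le_one.1 (Nat.lt_succ_iff.1 hlt)
          intro x hx y hy
          exact this x hx y hy
        rw [vectorSpan_of_subsingleton ℝ this] at hd
        simp at hd
      have h2 : (M V u).card = 2 := le_antisymm hcard hcard2
      obtain ⟨x, y, hxy, hM⟩ := Finset.card_eq_two.1 h2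
      rw [hM] at hvM
      rw [Finset.mem_insert, Finset.mem_singleton] at hvM
      rcases hvM with rfl | rfl
      · refine ⟨y, ?_, ?_⟩
        · rw [Finset.mem_coe, Finset.mem_filter]
          refine ⟨M_subset V u (by rw [hM]; simp), hxy, u, hM⟩
        · simp only [hM]; simp
      · refine ⟨x, ?_, ?_⟩
        · rw [Finset.mem_coe, Finset.mem_filter]
          refine ⟨M_subset V u (by rw [hM]; simp), hxy.symm, u, by rw [hM, Finset.pair_comm]⟩
        · simp only [hM, Finset.pair_comm x v]; simp
    · rintro ⟨w, hw, rfl⟩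
      rw [Finset.mem_coe, Finset.mem_filter] at hw
      obtain ⟨hwV, hvw, u, hM⟩ := hw
      refine ⟨(isFace_iff hne _ 1).2 ⟨u, ?_, ?_⟩, ?_⟩
      · rw [hM]; simp
      · have hco : ((({v, w} : Finset E3)) : Set E3) = {v, w} := by simp
        rw [hM, hco]
        exact finrank_pair hvw
      · exact subset_convexHull _ _ (by simp)
  rw [himg, Set.InjOn.ncard_image, Set.ncard_coe_finset]
  intro w hw w' hw' heq
  rw [Finset.mem_coe, Finset.mem_filter] at hw hw'
  have heq : convexHull ℝ ({v, w} : Set E3) = convexHull ℝ ({v, w'} : Set E3) := heq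
  have h1 : w ∈ convexHull ℝ (({v, w'} : Finset E3) : Set E3) := by
    have : w ∈ convexHull ℝ ({v, w} : Set E3) := subset_convexHull _ _ (by simp)
    rw [heq] at this
    simpa using this
  have h2 : ({v, w'} : Finset E3) ⊆ V := by
    intro x hx
    rw [Finset.mem_insert, Finset.mem_singleton] at hx
    rcases hx with rfl | rfl
    · exact hv
    · exact hw'.1
  have h3 := h.mem_of_mem_hull h2 hw.1 h1
  rw [Finset.mem_insert, Finset.mem_singleton] at h3
  rcases h3 with h3 | h3
  · exact absurd h3.symm hw.2.1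
  · exact h3

end Pool.Agent.helper50.Zono
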