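import Pool.Agent.helper50.Zono.Defs

/-!
# The kinetic lemma

Continuous paths `n i t` of nonzero vectors in `ℝ³`.  If every triangular cell of the arrangement
at time `0` keeps a nonempty region for all times in `[0,1]`, then no triple of vectors that is
linearly independent at time `0` ever becomes dependent.
-/

open scoped RealInnerProductSpace

namespace Pool.Agent.helper50.Zono

/-- determinant of three vectors -/
def det3 (x y z : E3) : ℝ :=
  x 0 * (y 1 * z 2 - y 2 * z 1) - x 1 * (y 0 * z 2 - y 2 * z 0) + x 2 * (y 0 * z 1 - y 1 * z 0)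

theorem inner3 (x y : E3) : ⟪x, y⟫ = x 0 * y 0 + x 1 * y 1 + x 2 * y 2 := by
  rw [PiLp.inner_apply, Fin.sum_univ_three]
  simp only [RCLike.inner_apply, conj_trivial]
  ring

theorem cramer (x y z d : E3) :
    det3 x y z • d = det3 d y z • x + det3 x d z • y + det3 x y d • z := by
  ext i
  simp only [PiLp.add_apply, PiLp.smul_apply, smul_eq_mul, det3]
  fin_cases i <;> simp <;> ring

theorem det3_smul_left (c : ℝ) (x y z : E3) : det3 (c • x) y z = c * det3 x y z := by
  simp only [det3, PiLp.smul_apply, smul_eq_mul]; ring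

theorem det3_smul_mid (c : ℝ) (x y z : E3) : det3 x (c • y) z = c * det3 x y z := by
  simp only [det3, PiLp.smul_apply, smul_eq_mul]; ring

theorem det3_smul_right (c : ℝ) (x y z : E3) : det3 x y (c • z) = c * det3 x y z := by
  simp only [det3, PiLp.smul_apply, smul_eq_mul]; ring

theorem det3_swap12 (x y z : E3) : det3 y x z = - det3 x y z := by
  simp only [det3]; ring

theorem det3_swap23 (x y z : E3) : det3 x z y = - det3 x y z := by
  simp only [det3]; ring

theorem det3_swap13 (x y z : E3) : det3 z y x = - det3 x y z := by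
  simp only [det3]; ring

theorem det3_self12 (x z : E3) : det3 x x z = 0 := by
  simp only [det3]; ring

theorem det3_self23 (x z : E3) : det3 x z z = 0 := by
  simp only [det3]; ring

theorem det3_self13 (x z : E3) : det3 x z x = 0 := by
  simp only [det3]; ring

/-- dependency from a vanishing determinant -/
theorem exists_dep {x y z : E3} (h : det3 x y z = 0) :
    ∃ a b c : ℝ, (a ≠ 0 ∨ b ≠ 0 ∨ c ≠ 0) ∧ a • x + b • y + c • z = 0 := by
  set M : Matrix (Fin 3) (Fin 3) ℝ := !![x 0, x 1, x 2; y 0, y 1, y 2; z 0, z 1, z 2] with hM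
  have hdet : M.det = 0 := by
    rw [hM, Matrix.det_fin_three]
    simp only [Matrix.of_apply, Matrix.cons_val', Matrix.cons_val_zero, Matrix.cons_val_one,
      Matrix.cons_val_two, Matrix.head_cons, Matrix.tail_cons]
    rw [← h, det3]; ring
  obtain ⟨v, hv, hvM⟩ := Matrix.exists_vecMul_eq_zero_iff.2 hdet
  refine ⟨v 0, v 1, v 2, ?_, ?_⟩
  · by_contra hcon
    push Not at hcon
    apply hv
    ext i
    fin_cases i
    · exact hcon.1
    · exact hcon.2.1
    · exact hcon.2.2
  · ext i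
    have := congrFun hvM i
    simp only [Matrix.vecMul, dotProduct, Fin.sum_univ_three, Pi.zero_apply] at this
    simp only [PiLp.add_apply, PiLp.smul_apply, smul_eq_mul, PiLp.zero_apply]
    rw [hM] at this
    fin_cases i <;> simpa using this

/-- if the determinant is nonzero one can prescribe the values of the three functionals -/
theorem exists_point {x y z : E3} (h : det3 x y z ≠ 0) (a b c : ℝ) :
    ∃ p, ⟪x, p⟫ = a ∧ ⟪y, p⟫ = b ∧ ⟪z, p⟫ = c := by
  set M : Matrix (Fin 3) (Fin 3) ℝ := !![x 0, x 1, x 2; y 0, y 1, y 2; z 0, z 1, z 2] with hM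
  have hdet : M.det ≠ 0 := by
    rw [hM, Matrix.det_fin_three]
    simp only [Matrix.of_apply, Matrix.cons_val', Matrix.cons_val_zero, Matrix.cons_val_one,
      Matrix.cons_val_two, Matrix.head_cons, Matrix.tail_cons]
    intro h0
    apply h
    rw [← h0, det3]; ring
  have hu : IsUnit M.det := isUnit_iff_ne_zero.2 hdet
  set w := M⁻¹.mulVec ![a, b, c] with hw
  have hMw : M.mulVec w = ![a, b, c] := by
    rw [hw, Matrix.mulVec_mulVec, Matrix.mul_nonsing_inv _ hu, Matrix.one_mulVec]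
  refine ⟨WithLp.toLp 2 w, ?_, ?_, ?_⟩
  · have := congrFun hMw 0
    simp only [Matrix.mulVec, dotProduct, Fin.sum_univ_three] at this
    rw [inner3]
    simpa [hM] using this
  · have := congrFun hMw 1
    simp only [Matrix.mulVec, dotProduct, Fin.sum_univ_three] at this
    rw [inner3]
    simpa [hM] using this
  · have := congrFun hMw 2
    simp only [Matrix.mulVec, dotProduct, Fin.sum_univ_three] at this
    rw [inner3]
    simpa [hM] using this

/-- the open region of three vectors -/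
def Reg (x y z : E3) : Set E3 := {p | 0 < ⟪x, p⟫ ∧ 0 < ⟪y, p⟫ ∧ 0 < ⟪z, p⟫}

theorem Reg_nonempty {x y z : E3} (h : det3 x y z ≠ 0) : (Reg x y z).Nonempty := by
  obtain ⟨p, h1, h2, h3⟩ := exists_point h 1 1 1
  exact ⟨p, by rw [h1]; norm_num, by rw [h2]; norm_num, by rw [h3]; norm_num⟩

theorem Reg_swap12 (x y z : E3) : Reg y x z = Reg x y z := by
  ext p; simp only [Reg, Set.mem_ofPred_eq]; tauto

theorem Reg_swap23 (x y z : E3) : Reg x z y = Reg x y z := by
  ext p; simp only [Reg, Set.mem_ofPred_eq]; tauto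

/-- `d` cuts the region -/
def Cuts (d x y z : E3) : Prop := (∃ p ∈ Reg x y z, 0 < ⟪d, p⟫) ∧ ∃ p ∈ Reg x y z, ⟪d, p⟫ < 0

theorem Cuts.mono {d x y z x' y' z' : E3} (h : Cuts d x' y' z') (hsub : Reg x' y' z' ⊆ Reg x y z) :
    Cuts d x y z := by
  obtain ⟨⟨p, hp, h1⟩, ⟨q, hq, h2⟩⟩ := h
  exact ⟨⟨p, hsub hp, h1⟩, ⟨q, hsub hq, h2⟩⟩

theorem Cuts.congr {d x y z x' y' z' : E3} (hsub : Reg x' y' z' = Reg x y z) :
    Cuts d x' y' z' ↔ Cuts d x y z := by
  unfold Cuts; rw [hsub]

/-- signs of the coefficients of a cutting vector -/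
theorem Cuts.coeff {d x y z : E3} (hdet : det3 x y z ≠ 0) (h : Cuts d x y z) :
    (0 < det3 d y z * det3 x y z ∨ 0 < det3 x d z * det3 x y z ∨ 0 < det3 x y d * det3 x y z) ∧
    (det3 d y z * det3 x y z < 0 ∨ det3 x d z * det3 x y z < 0 ∨ det3 x y d * det3 x y z < 0) := by
  have key : ∀ p, det3 x y z * det3 x y z * ⟪d, p⟫ = det3 d y z * det3 x y z * ⟪x, p⟫ +
      det3 x d z * det3 x y z * ⟪y, p⟫ + det3 x y d * det3 x y z * ⟪z, p⟫ := by
    intro p
    have := congrArg (fun v => det3 x y z * ⟪v, p⟫) (cramer x y z d)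
    simp only [inner_add_left, inner_smul_left, RCLike.conj_to_real] at this
    linarith
  have hsq : 0 < det3 x y z * det3 x y z := mul_self_pos.2 hdet
  obtain ⟨⟨p, hp, h1⟩, ⟨q, hq, h2⟩⟩ := h
  constructor
  · by_contra hcon
    push Not at hcon
    have h3 := key p
    have h4 := mul_pos hsq h1
    have e1 := mul_nonpos_of_nonpos_of_nonneg hcon.1 hp.1.le
    have e2 := mul_nonpos_of_nonpos_of_nonneg hcon.2.1 hp.2.1.le
    have e3 := mul_nonpos_of_nonpos_of_nonneg hcon.2.2 hp.2.2.le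
    linarith
  · by_contra hcon
    push Not at hcon
    have h3 := key q
    have h4 := mul_neg_of_pos_of_neg hsq h2
    have e1 := mul_nonneg hcon.1 hq.1.le
    have e2 := mul_nonneg hcon.2.1 hq.2.1.le
    have e3 := mul_nonneg hcon.2.2 hq.2.2.le
    linarith

/-- the small triangle cut off by `d` at the vertex opposite to `x` -/
theorem Reg_sub {d x y z : E3} (h1 : 0 < det3 d y z * det3 x y z)
    (h2 : det3 x d z * det3 x y z ≤ 0) (h3 : det3 x y d * det3 x y z ≤ 0) :
    Reg d y z ⊆ Reg x y z := by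
  intro p hp
  refine ⟨?_, hp.2.1, hp.2.2⟩
  have hsq : 0 ≤ det3 x y z * det3 x y z := mul_self_nonneg _
  have key : det3 x y z * det3 x y z * ⟪d, p⟫ = det3 d y z * det3 x y z * ⟪x, p⟫ +
      det3 x d z * det3 x y z * ⟪y, p⟫ + det3 x y d * det3 x y z * ⟪z, p⟫ := by
    have := congrArg (fun v => det3 x y z * ⟪v, p⟫) (cramer x y z d)
    simp only [inner_add_left, inner_smul_left, RCLike.conj_to_real] at this
    linarith
  have hne : det3 x y z ≠ 0 := by
    intro h0; rw [h0, mul_zero] at h1; exact lt_irrefl _ h1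
  have hsq' : 0 < det3 x y z * det3 x y z := mul_self_pos.2 hne
  have e1 := mul_pos hsq' hp.1
  have e2 := mul_nonpos_of_nonpos_of_nonneg h2 hp.2.1.le
  have e3 := mul_nonpos_of_nonpos_of_nonneg h3 hp.2.2.le
  have : 0 < det3 d y z * det3 x y z * ⟪x, p⟫ := by linarith
  exact (pos_iff_pos_of_mul_pos this).1 h1

/-- limits of regions -/
theorem Reg_limit {x y z : ℝ → E3} (hx : Continuous x) {d : ℝ → E3} (hd : Continuous d)
    (hy : Continuous y) (hz : Continuous z) {T : ℝ} (hxT : x T ≠ 0)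
    (hempty : Reg (x T) (y T) (z T) = ∅)
    (hfreq : ∃ᶠ t in nhdsWithin T (Set.Iio T), Reg (d t) (y t) (z t) ⊆ Reg (x t) (y t) (z t)) :
    Reg (d T) (y T) (z T) = ∅ := by
  by_contra hne
  obtain ⟨p, hp1, hp2, hp3⟩ := Set.nonempty_iff_ne_empty.2 hne
  have lim : ∀ w : ℝ → E3, Continuous w → Filter.Tendsto (fun t => ⟪w t, p⟫)
      (nhdsWithin T (Set.Iio T)) (nhds ⟪w T, p⟫) := by
    intro w hw
    have : Continuous fun t => ⟪w t, p⟫ := by fun_prop
    exact (this.tendsto T).mono_left nhdsWithin_le_nhds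
  have ev1 := (lim d hd).eventually (lt_mem_nhds hp1)
  have ev2 := (lim y hy).eventually (lt_mem_nhds hp2)
  have ev3 := (lim z hz).eventually (lt_mem_nhds hp3)
  have hxp : 0 ≤ ⟪x T, p⟫ := by
    by_contra hneg
    push Not at hneg
    have ev4 := (lim x hx).eventually (gt_mem_nhds hneg)
    obtain ⟨t, hsub, h1, h2, h3, h4⟩ := (hfreq.and_eventually
      (ev1.and (ev2.and (ev3.and ev4)))).exists
    have := (hsub ⟨h1, h2, h3⟩).1
    linarith
  -- move `p` slightly in direction `x T`
  have hxx : 0 < ⟪x T, x T⟫ := by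
    rw [real_inner_self_eq_norm_sq]
    have : 0 < ‖x T‖ := norm_pos_iff.2 hxT
    positivity
  have lim2 : ∀ w : E3, Filter.Tendsto (fun ε : ℝ => ⟪w, p + ε • x T⟫)
      (nhdsWithin 0 (Set.Ioi 0)) (nhds ⟪w, p⟫) := by
    intro w
    have : Filter.Tendsto (fun ε : ℝ => ⟪w, p + ε • x T⟫) (nhds 0)
        (nhds ⟪w, p + (0:ℝ) • x T⟫) := by
      apply Continuous.tendsto
      fun_prop
    rw [zero_smul, add_zero] at this
    exact this.mono_left nhdsWithin_le_nhds
  obtain ⟨ε, h1, h2, h3⟩ := (((lim2 (y T)).eventually (lt_mem_nhds hp2)).and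
    (((lim2 (z T)).eventually (lt_mem_nhds hp3)).and self_mem_nhdsWithin)).exists
  have hε : 0 < ε := h3
  have : p + ε • x T ∈ Reg (x T) (y T) (z T) := by
    refine ⟨?_, h1, h2⟩
    rw [inner_add_right, inner_smul_right]
    have := mul_pos hε hxx
    linarith
  rw [hempty] at this
  exact this

variable {ι : Type*} [Fintype ι]

open Classical in
/-- the indices that cut a region at time `0` -/
noncomputable def cutSet (n : ι → ℝ → E3) (x y z : E3) : Finset ι :=
  Finset.univ.filter (fun d => Cuts (n d 0) x y z)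

theorem mem_cutSet {n : ι → ℝ → E3} {x y z : E3} {d : ι} :
    d ∈ cutSet n x y z ↔ Cuts (n d 0) x y z := by
  classical
  simp [cutSet]

/-- signs -/
def Sgn (s : ℝ) : Prop := s = 1 ∨ s = -1

theorem Sgn.ne {s : ℝ} (h : Sgn s) : s ≠ 0 := by
  rcases h with rfl | rfl <;> norm_num

theorem Sgn.neg {s : ℝ} (h : Sgn s) : Sgn (-s) := by
  rcases h with rfl | rfl
  · exact Or.inr rfl
  · exact Or.inl (by norm_num)

theorem neg_Reg_of_cut {d x y z : E3} (h : Cuts d x y z) : Cuts (-d) x y z := by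
  obtain ⟨⟨p, hp, h1⟩, ⟨q, hq, h2⟩⟩ := h
  exact ⟨⟨q, hq, by rw [inner_neg_left]; linarith⟩, ⟨p, hp, by rw [inner_neg_left]; linarith⟩⟩

/-- the data of the kinetic argument: first time `T` -/
structure Kin (n : ι → ℝ → E3) (T : ℝ) : Prop where
  cont : ∀ i, Continuous (n i)
  ne : ∀ i, n i T ≠ 0
  pos : 0 < T
  /-- before `T` no independent triple degenerates -/
  old : ∀ e f g, det3 (n e 0) (n f 0) (n g 0) ≠ 0 → ∀ t, 0 ≤ t → t < T →
    0 < det3 (n e 0) (n f 0) (n g 0) * det3 (n e t) (n f t) (n g t)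
  /-- triangular cells survive -/
  surv : ∀ e f g, ∀ r s u : ℝ, Sgn r → Sgn s → Sgn u →
    det3 (n e 0) (n f 0) (n g 0) ≠ 0 →
    (∀ d, ¬ Cuts (n d 0) (r • n e 0) (s • n f 0) (u • n g 0)) →
    (Reg (r • n e T) (s • n f T) (u • n g T)).Nonempty

/-- the core step: `d` cuts the region with positive coefficient at `e` and negative at `f` -/
theorem Kin.core {n : ι → ℝ → E3} {T : ℝ} (h : Kin n T) {m : ℕ}
    (ih : ∀ e f g, ∀ r s u : ℝ, Sgn r → Sgn s → Sgn u → det3 (n e 0) (n f 0) (n g 0) ≠ 0 →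
      (cutSet n (r • n e 0) (s • n f 0) (u • n g 0)).card < m →
      (Reg (r • n e T) (s • n f T) (u • n g T)).Nonempty)
    {e f g : ι} {r s u : ℝ} (hr : Sgn r) (hs : Sgn s) (hu : Sgn u)
    (hdet : det3 (n e 0) (n f 0) (n g 0) ≠ 0)
    (hm : (cutSet n (r • n e 0) (s • n f 0) (u • n g 0)).card = m) {d : ι} {σ : ℝ} (hσ : Sgn σ)
    (hcut : Cuts (n d 0) (r • n e 0) (s • n f 0) (u • n g 0))
    (hA : 0 < det3 (σ • n d 0) (s • n f 0) (u • n g 0) * det3 (r • n e 0) (s • n f 0) (u • n g 0))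
    (hB : det3 (r • n e 0) (σ • n d 0) (u • n g 0) * det3 (r • n e 0) (s • n f 0) (u • n g 0) < 0) :
    (Reg (r • n e T) (s • n f T) (u • n g T)).Nonempty := by
  classical
  by_contra hemp
  rw [Set.not_nonempty_iff_eq_empty] at hemp
  -- abbreviations
  have hcutσ : Cuts (σ • n d 0) (r • n e 0) (s • n f 0) (u • n g 0) := by
    rcases hσ with rfl | rfl
    · rw [one_smul]; exact hcut
    · rw [neg_one_smul]; exact neg_Reg_of_cut hcut
  have hdetA : det3 (n d 0) (n f 0) (n g 0) ≠ 0 := by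
    intro h0
    rw [det3_smul_left, det3_smul_mid, det3_smul_right, h0] at hA
    simp at hA
  have hdetB : det3 (n e 0) (n d 0) (n g 0) ≠ 0 := by
    intro h0
    rw [det3_smul_left, det3_smul_mid, det3_smul_right, h0] at hB
    simp at hB
  have hold := h.old e f g hdet
  have holdA := h.old d f g hdetA
  have holdB := h.old e d g hdetB
  -- a product formula for signs
  have hprod : ∀ a b a' b' : ℝ, 0 < a * a' → 0 < b * b' → (0 < a * b ↔ 0 < a' * b') := by
    intro a b a' b' h1 h2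
    constructor
    · intro h3
      have h4 : 0 < (a * a') * (b * b') := mul_pos h1 h2
      have h5 : (a * a') * (b * b') = (a * b) * (a' * b') := by ring
      rw [h5] at h4
      exact (pos_iff_pos_of_mul_pos h4).1 h3
    · intro h3
      have h4 : 0 < (a * a') * (b * b') := mul_pos h1 h2
      have h5 : (a * a') * (b * b') = (a' * b') * (a * b) := by ring
      rw [h5] at h4
      exact (pos_iff_pos_of_mul_pos h4).1 h3
  have hAt : ∀ t, 0 ≤ t → t < T →
      0 < det3 (σ • n d t) (s • n f t) (u • n g t) * det3 (r • n e t) (s • n f t) (u • n g t) := by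
    intro t ht0 htT
    refine (hprod _ _ _ _ ?_ ?_).1 hA
    · simp only [det3_smul_left, det3_smul_mid, det3_smul_right]
      have h1 := holdA t ht0 htT
      have h2 : 0 < (σ * s * u) * (σ * s * u) :=
        mul_self_pos.2 (mul_ne_zero (mul_ne_zero hσ.ne hs.ne) hu.ne)
      have h3 := mul_pos h2 h1
      calc 0 < _ := h3
        _ = _ := by ring
    · simp only [det3_smul_left, det3_smul_mid, det3_smul_right]
      have h1 := hold t ht0 htT
      have h2 : 0 < (r * s * u) * (r * s * u) :=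
        mul_self_pos.2 (mul_ne_zero (mul_ne_zero hr.ne hs.ne) hu.ne)
      have h3 := mul_pos h2 h1
      calc 0 < _ := h3
        _ = _ := by ring
  have hBt : ∀ t, 0 ≤ t → t < T →
      det3 (r • n e t) (σ • n d t) (u • n g t) * det3 (r • n e t) (s • n f t) (u • n g t) < 0 := by
    intro t ht0 htT
    have hB' : 0 < (-det3 (r • n e 0) (σ • n d 0) (u • n g 0)) *
        det3 (r • n e 0) (s • n f 0) (u • n g 0) := by linarith
    have := (hprod _ _ (-det3 (r • n e t) (σ • n d t) (u • n g t))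
      (det3 (r • n e t) (s • n f t) (u • n g t)) ?_ ?_).1 hB'
    · linarith
    · simp only [det3_smul_left, det3_smul_mid, det3_smul_right]
      have h1 := holdB t ht0 htT
      have h2 : 0 < (r * σ * u) * (r * σ * u) :=
        mul_self_pos.2 (mul_ne_zero (mul_ne_zero hr.ne hσ.ne) hu.ne)
      have h3 := mul_pos h2 h1
      calc 0 < _ := h3
        _ = _ := by ring
    · simp only [det3_smul_left, det3_smul_mid, det3_smul_right]
      have h1 := hold t ht0 htT
      have h2 : 0 < (r * s * u) * (r * s * u) :=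
        mul_self_pos.2 (mul_ne_zero (mul_ne_zero hr.ne hs.ne) hu.ne)
      have h3 := mul_pos h2 h1
      calc 0 < _ := h3
        _ = _ := by ring
  -- the third coefficient
  set C : ℝ → ℝ := fun t => det3 (r • n e t) (s • n f t) (σ • n d t) *
    det3 (r • n e t) (s • n f t) (u • n g t) with hC
  have hCsign : ∀ t, 0 ≤ t → t < T → det3 (n e 0) (n f 0) (n d 0) ≠ 0 → 0 < C 0 * C t := by
    intro t ht0 htT hne
    have h1 := h.old e f d hne t ht0 htT
    have h2 := hold t ht0 htT
    simp only [hC, det3_smul_left, det3_smul_mid, det3_smul_right]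
    have h3 : 0 < (r * s * σ * r * s * u) * (r * s * σ * r * s * u) := mul_self_pos.2 (by
      have := hr.ne; have := hs.ne; have := hσ.ne; have := hu.ne
      positivity)
    have h4 := mul_pos h3 (mul_pos h1 h2)
    calc 0 < _ := h4
      _ = _ := by ring
  have hC0 : det3 (n e 0) (n f 0) (n d 0) = 0 → C 0 = 0 := by
    intro h0
    simp only [hC, det3_smul_left, det3_smul_mid, det3_smul_right, h0]; ring
  have hcontC : ∀ (w : ι) (c : ℝ), Continuous fun t => c • n w t := fun w c => by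
    have := h.cont w
    fun_prop
  have hev0 : ∀ᶠ t in nhdsWithin T (Set.Iio T), 0 ≤ t ∧ t < T := by
    have h1 : ∀ᶠ t in nhdsWithin T (Set.Iio T), 0 < t :=
      mem_nhdsWithin_of_mem_nhds (lt_mem_nhds h.pos)
    filter_upwards [h1, self_mem_nhdsWithin] with t ht1 ht2 using ⟨ht1.le, ht2⟩
  have hnz : ∀ (w : ι) (c : ℝ), Sgn c → c • n w T ≠ 0 := fun w c hc =>
    smul_ne_zero hc.ne (h.ne w)
  -- lines cutting the smaller triangle
  have hless : ∀ x y z : E3, Reg x y z ⊆ Reg (r • n e 0) (s • n f 0) (u • n g 0) →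
      ¬ Cuts (n d 0) x y z → (cutSet n x y z).card < m := by
    intro x y z hsub hnc
    rw [← hm]
    apply Finset.card_lt_card
    constructor
    · intro j hj
      rw [mem_cutSet] at hj ⊢
      exact hj.mono hsub
    · intro hsub'
      exact hnc (mem_cutSet.1 (hsub' (mem_cutSet.2 hcut)))
  have hnocut1 : ∀ y z : E3, ¬ Cuts (n d 0) (σ • n d 0) y z := by
    intro y z hc
    obtain ⟨⟨p, hp, h1⟩, ⟨q, hq, h2⟩⟩ := hc
    have h3 := hp.1
    have h4 := hq.1
    rw [inner_smul_left] at h3 h4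
    simp only [RCLike.conj_to_real] at h3 h4
    rcases hσ with rfl | rfl
    · linarith
    · linarith
  have hnocut2 : ∀ y z : E3, ¬ Cuts (n d 0) ((-σ) • n d 0) y z := by
    intro y z hc
    obtain ⟨⟨p, hp, h1⟩, ⟨q, hq, h2⟩⟩ := hc
    have h3 := hp.1
    have h4 := hq.1
    rw [inner_smul_left] at h3 h4
    simp only [RCLike.conj_to_real] at h3 h4
    rcases hσ with rfl | rfl
    · linarith
    · linarith
  by_cases hfr : ∃ᶠ t in nhdsWithin T (Set.Iio T), C t ≤ 0
  · -- cut off the vertex opposite to `e`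
    have hC0le : C 0 ≤ 0 := by
      by_contra hpos
      push Not at hpos
      have hne : det3 (n e 0) (n f 0) (n d 0) ≠ 0 := fun h0 => by
        rw [hC0 h0] at hpos; exact lt_irrefl _ hpos
      obtain ⟨t, ht1, ht2, ht3⟩ := (hfr.and_eventually hev0).exists
      have := hCsign t ht2 ht3 hne
      nlinarith
    have hsub0 : Reg (σ • n d 0) (s • n f 0) (u • n g 0) ⊆
        Reg (r • n e 0) (s • n f 0) (u • n g 0) := Reg_sub hA hB.le hC0le
    have hlim := Reg_limit (x := fun t => r • n e t) (y := fun t => s • n f t)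
      (z := fun t => u • n g t) (d := fun t => σ • n d t) (hcontC e r) (hcontC d σ) (hcontC f s)
      (hcontC g u) (T := T) (hnz e r hr) hemp ((hfr.and_eventually hev0).mono fun t ht =>
        Reg_sub (hAt t ht.2.1 ht.2.2) (hBt t ht.2.1 ht.2.2).le ht.1)
    have := ih d f g σ s u hσ hs hu hdetA (hless _ _ _ hsub0 (hnocut1 _ _))
    rw [hlim] at this
    exact Set.not_nonempty_empty this
  · -- cut off the vertex opposite to `f`
    rw [Filter.not_frequently] at hfr
    have hfr' : ∀ᶠ t in nhdsWithin T (Set.Iio T), 0 < C t :=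
      hfr.mono fun t ht => not_le.1 ht
    have hC0ge : 0 ≤ C 0 := by
      by_contra hneg
      push Not at hneg
      have hne : det3 (n e 0) (n f 0) (n d 0) ≠ 0 := fun h0 => by
        rw [hC0 h0] at hneg; exact lt_irrefl _ hneg
      have hne' : (nhdsWithin T (Set.Iio T)).NeBot := inferInstance
      obtain ⟨t, ht1, ht2, ht3⟩ := (hfr'.and hev0).exists
      have := hCsign t ht2 ht3 hne
      nlinarith
    have hsubt : ∀ t, 0 < det3 (σ • n d t) (s • n f t) (u • n g t) *
        det3 (r • n e t) (s • n f t) (u • n g t) →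
        det3 (r • n e t) (σ • n d t) (u • n g t) *
          det3 (r • n e t) (s • n f t) (u • n g t) < 0 → 0 ≤ C t →
        Reg ((-σ) • n d t) (r • n e t) (u • n g t) ⊆
          Reg (s • n f t) (r • n e t) (u • n g t) := by
      intro t h1 h2 h3
      have e0 : det3 (s • n f t) (r • n e t) (u • n g t) =
          -det3 (r • n e t) (s • n f t) (u • n g t) := det3_swap12 _ _ _
      apply Reg_sub
      · have e1 : det3 ((-σ) • n d t) (r • n e t) (u • n g t) =
            det3 (r • n e t) (σ • n d t) (u • n g t) := by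
          rw [det3_swap12, neg_smul, ← neg_one_smul ℝ (σ • n d t), det3_smul_mid]; ring
        rw [e0, e1]; linarith
      · have e1 : det3 (s • n f t) ((-σ) • n d t) (u • n g t) =
            det3 (σ • n d t) (s • n f t) (u • n g t) := by
          rw [det3_swap12, neg_smul, ← neg_one_smul ℝ (σ • n d t), det3_smul_left]; ring
        rw [e0, e1]; linarith
      · have e1 : det3 (s • n f t) (r • n e t) ((-σ) • n d t) =
            det3 (r • n e t) (s • n f t) (σ • n d t) := by
          rw [det3_swap12, neg_smul, ← neg_one_smul ℝ (σ • n d t), det3_smul_right]; ring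
        rw [e0, e1]
        have : C t = det3 (r • n e t) (s • n f t) (σ • n d t) *
          det3 (r • n e t) (s • n f t) (u • n g t) := rfl
        linarith
    have hsub0 : Reg ((-σ) • n d 0) (r • n e 0) (u • n g 0) ⊆
        Reg (r • n e 0) (s • n f 0) (u • n g 0) := by
      rw [← Reg_swap12 (r • n e 0)]
      exact hsubt 0 hA hB hC0ge
    have hemp' : Reg (s • n f T) (r • n e T) (u • n g T) = ∅ := by
      rw [Reg_swap12]; exact hemp
    have hne' : (nhdsWithin T (Set.Iio T)).NeBot := inferInstance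
    have hlim := Reg_limit (x := fun t => s • n f t) (y := fun t => r • n e t)
      (z := fun t => u • n g t) (d := fun t => (-σ) • n d t) (hcontC f s) (hcontC d (-σ))
      (hcontC e r) (hcontC g u) (T := T) (hnz f s hs) hemp' ((hfr'.and hev0).mono fun t ht =>
        hsubt t (hAt t ht.2.1 ht.2.2) (hBt t ht.2.1 ht.2.2) ht.1.le).frequently
    have hdetB' : det3 (n d 0) (n e 0) (n g 0) ≠ 0 := by
      rw [det3_swap12]; exact neg_ne_zero.2 hdetB
    have := ih d e g (-σ) r u hσ.neg hr hu hdetB' (hless _ _ _ hsub0 (hnocut2 _ _))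
    rw [hlim] at this
    exact Set.not_nonempty_empty this

theorem cutSet_congr {n : ι → ℝ → E3} {x y z x' y' z' : E3} (h : Reg x y z = Reg x' y' z') :
    cutSet n x y z = cutSet n x' y' z' := by
  ext d
  rw [mem_cutSet, mem_cutSet, Cuts.congr h]

theorem Kin.nonempty {n : ι → ℝ → E3} {T : ℝ} (h : Kin n T) (m : ℕ) :
    ∀ e f g, ∀ r s u : ℝ, Sgn r → Sgn s → Sgn u → det3 (n e 0) (n f 0) (n g 0) ≠ 0 →
      (cutSet n (r • n e 0) (s • n f 0) (u • n g 0)).card = m →
      (Reg (r • n e T) (s • n f T) (u • n g T)).Nonempty := by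
  induction m using Nat.strong_induction_on with
  | _ m IH =>
  intro e f g r s u hr hs hu hdet hm
  have ih : ∀ e f g, ∀ r s u : ℝ, Sgn r → Sgn s → Sgn u → det3 (n e 0) (n f 0) (n g 0) ≠ 0 →
      (cutSet n (r • n e 0) (s • n f 0) (u • n g 0)).card < m →
      (Reg (r • n e T) (s • n f T) (u • n g T)).Nonempty :=
    fun e f g r s u hr hs hu hd hlt => IH _ hlt e f g r s u hr hs hu hd rfl
  by_cases hno : ∀ d, ¬ Cuts (n d 0) (r • n e 0) (s • n f 0) (u • n g 0)
  · exact h.surv e f g r s u hr hs hu hdet hno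
  push Not at hno
  obtain ⟨d, hd⟩ := hno
  have hdet' : det3 (r • n e 0) (s • n f 0) (u • n g 0) ≠ 0 := by
    rw [det3_smul_left, det3_smul_mid, det3_smul_right]
    exact mul_ne_zero hr.ne (mul_ne_zero hs.ne (mul_ne_zero hu.ne hdet))
  -- the statement for two indices with coefficients of opposite signs
  have two : ∀ e f g r s u, Sgn r → Sgn s → Sgn u → det3 (n e 0) (n f 0) (n g 0) ≠ 0 →
      (cutSet n (r • n e 0) (s • n f 0) (u • n g 0)).card = m →
      Cuts (n d 0) (r • n e 0) (s • n f 0) (u • n g 0) →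
      (det3 (n d 0) (s • n f 0) (u • n g 0) * det3 (r • n e 0) (s • n f 0) (u • n g 0)) *
        (det3 (r • n e 0) (n d 0) (u • n g 0) * det3 (r • n e 0) (s • n f 0) (u • n g 0)) < 0 →
      (Reg (r • n e T) (s • n f T) (u • n g T)).Nonempty := by
    intro e f g r s u hr hs hu hdet hm hd hneg
    rcases lt_or_gt_of_ne (show det3 (n d 0) (s • n f 0) (u • n g 0) *
      det3 (r • n e 0) (s • n f 0) (u • n g 0) ≠ 0 from fun h0 => by
        rw [h0, zero_mul] at hneg; exact lt_irrefl _ hneg) with h1 | h1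
    · have h2 : 0 < det3 (r • n e 0) (n d 0) (u • n g 0) *
          det3 (r • n e 0) (s • n f 0) (u • n g 0) := by nlinarith
      refine h.core ih hr hs hu hdet hm (d := d) (σ := -1) (Or.inr rfl) hd ?_ ?_
      · rw [det3_smul_left]; linarith
      · rw [det3_smul_mid]; linarith
    · have h2 : det3 (r • n e 0) (n d 0) (u • n g 0) *
          det3 (r • n e 0) (s • n f 0) (u • n g 0) < 0 := by nlinarith
      refine h.core ih hr hs hu hdet hm (d := d) (σ := 1) (Or.inl rfl) hd ?_ ?_
      · rw [det3_smul_left]; linarith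
      · rw [det3_smul_mid]; linarith
  obtain ⟨hpos, hneg⟩ := hd.coeff hdet'
  have main12 : (det3 (n d 0) (s • n f 0) (u • n g 0) * det3 (r • n e 0) (s • n f 0) (u • n g 0)) *
        (det3 (r • n e 0) (n d 0) (u • n g 0) * det3 (r • n e 0) (s • n f 0) (u • n g 0)) < 0 →
      (Reg (r • n e T) (s • n f T) (u • n g T)).Nonempty :=
    two e f g r s u hr hs hu hdet hm hd
  have main13 : (det3 (n d 0) (s • n f 0) (u • n g 0) * det3 (r • n e 0) (s • n f 0) (u • n g 0)) *
        (det3 (r • n e 0) (s • n f 0) (n d 0) * det3 (r • n e 0) (s • n f 0) (u • n g 0)) < 0 →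
      (Reg (r • n e T) (s • n f T) (u • n g T)).Nonempty := by
    intro h1
    rw [← Reg_swap23]
    refine two e g f r u s hr hu hs (by rw [det3_swap23]; exact neg_ne_zero.2 hdet) ?_
      ((Cuts.congr (Reg_swap23 _ _ _)).2 hd) ?_
    · rw [← hm, cutSet_congr (Reg_swap23 _ _ _)]
    · have e1 : det3 (r • n e 0) (u • n g 0) (s • n f 0) =
          -det3 (r • n e 0) (s • n f 0) (u • n g 0) := by simp only [det3]; ring
      have e2 : det3 (r • n e 0) (n d 0) (s • n f 0) =
          -det3 (r • n e 0) (s • n f 0) (n d 0) := by simp only [det3]; ring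
      have e3 : det3 (n d 0) (u • n g 0) (s • n f 0) =
          -det3 (n d 0) (s • n f 0) (u • n g 0) := by simp only [det3]; ring
      rw [e1, e2, e3]
      have e4 : ∀ x y z : ℝ, (-x * -y) * (-z * -y) = (x * y) * (z * y) := fun x y z => by ring
      rw [e4]
      exact h1
  have main23 : (det3 (r • n e 0) (n d 0) (u • n g 0) * det3 (r • n e 0) (s • n f 0) (u • n g 0)) *
        (det3 (r • n e 0) (s • n f 0) (n d 0) * det3 (r • n e 0) (s • n f 0) (u • n g 0)) < 0 →
      (Reg (r • n e T) (s • n f T) (u • n g T)).Nonempty := by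
    intro h1
    have hR : ∀ x y z : E3, Reg y z x = Reg x y z := fun x y z => by
      ext p; simp only [Reg, Set.mem_ofPred_eq]; tauto
    have hD : ∀ x y z : E3, det3 y z x = det3 x y z := fun x y z => by
      simp only [det3]; ring
    rw [← hR]
    refine two f g e s u r hs hu hr (by rw [hD]; exact hdet) ?_
      ((Cuts.congr (hR _ _ _)).2 hd) ?_
    · rw [← hm, cutSet_congr (hR _ _ _)]
    · rw [hD (r • n e 0) (n d 0) (u • n g 0), hD (r • n e 0) (s • n f 0) (u • n g 0),
        hD (r • n e 0) (s • n f 0) (n d 0)]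
      exact h1
  rcases hpos with h1 | h1 | h1 <;> rcases hneg with h2 | h2 | h2
  · linarith
  · exact main12 (mul_neg_of_pos_of_neg h1 h2)
  · exact main13 (mul_neg_of_pos_of_neg h1 h2)
  · exact main12 (mul_neg_of_neg_of_pos h2 h1)
  · linarith
  · exact main23 (mul_neg_of_pos_of_neg h1 h2)
  · exact main13 (mul_neg_of_neg_of_pos h2 h1)
  · exact main23 (mul_neg_of_neg_of_pos h2 h1)
  · linarith

theorem exists_empty_of_det {x y z : E3} (h : det3 x y z = 0) :
    ∃ r s u : ℝ, Sgn r ∧ Sgn s ∧ Sgn u ∧ Reg (r • x) (s • y) (u • z) = ∅ := by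
  obtain ⟨a, b, c, hne, hsum⟩ := exists_dep h
  have key : ∀ a : ℝ, ∃ r, Sgn r ∧ a = |a| * r := by
    intro a
    rcases le_or_gt 0 a with h | h
    · exact ⟨1, Or.inl rfl, by rw [abs_of_nonneg h, mul_one]⟩
    · exact ⟨-1, Or.inr rfl, by rw [abs_of_neg h]; ring⟩
  obtain ⟨r, hr, har⟩ := key a
  obtain ⟨s, hs, hbs⟩ := key b
  obtain ⟨u, hu, hcu⟩ := key c
  refine ⟨r, s, u, hr, hs, hu, ?_⟩
  rw [Set.eq_empty_iff_forall_notMem]
  rintro p ⟨h1, h2, h3⟩
  have h4 : ⟪a • x + b • y + c • z, p⟫ = 0 := by rw [hsum, inner_zero_left]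
  simp only [inner_add_left, inner_smul_left, RCLike.conj_to_real] at h1 h2 h3 h4
  have h5 : |a| * (r * ⟪x, p⟫) + |b| * (s * ⟪y, p⟫) + |c| * (u * ⟪z, p⟫) = 0 := by
    rw [har, hbs, hcu] at h4
    linarith
  have e1 := mul_nonneg (abs_nonneg a) h1.le
  have e2 := mul_nonneg (abs_nonneg b) h2.le
  have e3 := mul_nonneg (abs_nonneg c) h3.le
  rcases hne with h0 | h0 | h0
  · have := mul_pos (abs_pos.2 h0) h1
    linarith
  · have := mul_pos (abs_pos.2 h0) h2
    linarith
  · have := mul_pos (abs_pos.2 h0) h3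
    linarith

/-- **The kinetic lemma.** -/
theorem kinetic {n : ι → ℝ → E3} (cont : ∀ i, Continuous (n i))
    (ne : ∀ i t, 0 ≤ t → t ≤ 1 → n i t ≠ 0)
    (surv : ∀ e f g, ∀ r s u : ℝ, Sgn r → Sgn s → Sgn u →
      det3 (n e 0) (n f 0) (n g 0) ≠ 0 →
      (∀ d, ¬ Cuts (n d 0) (r • n e 0) (s • n f 0) (u • n g 0)) →
      ∀ t, 0 ≤ t → t ≤ 1 → (Reg (r • n e t) (s • n f t) (u • n g t)).Nonempty) :
    ∀ e f g, det3 (n e 0) (n f 0) (n g 0) ≠ 0 → ∀ t, 0 ≤ t → t ≤ 1 →
      det3 (n e t) (n f t) (n g t) ≠ 0 := by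
  have contdet : ∀ e f g, Continuous fun t => det3 (n e t) (n f t) (n g t) := by
    intro e f g
    have hc : ∀ (i : ι) (j : Fin 3), Continuous fun t => n i t j := fun i j => by
      have := cont i
      fun_prop
    unfold det3
    have h1 := hc e 0
    have h2 := hc e 1
    have h3 := hc e 2
    have h4 := hc f 0
    have h5 := hc f 1
    have h6 := hc f 2
    have h7 := hc g 0
    have h8 := hc g 1
    have h9 := hc g 2
    fun_prop
  by_contra hcon
  push Not at hcon
  obtain ⟨e₀, f₀, g₀, hd₀, t₀, ht₀, ht₀', hz₀⟩ := hcon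
  set Z : Set ℝ := ⋃ e, ⋃ f, ⋃ g, {t | t ∈ Set.Icc (0:ℝ) 1 ∧ det3 (n e 0) (n f 0) (n g 0) ≠ 0 ∧
    det3 (n e t) (n f t) (n g t) = 0} with hZ
  have hmemZ : ∀ t, t ∈ Z ↔ ∃ e f g, t ∈ Set.Icc (0:ℝ) 1 ∧ det3 (n e 0) (n f 0) (n g 0) ≠ 0 ∧
      det3 (n e t) (n f t) (n g t) = 0 := by
    intro t
    rw [hZ]
    simp only [Set.mem_iUnion, Set.mem_ofPred_eq]
  have hZcl : IsClosed Z := by
    refine isClosed_iUnion_of_finite fun e => isClosed_iUnion_of_finite fun f =>
      isClosed_iUnion_of_finite fun g => ?_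
    by_cases hd : det3 (n e 0) (n f 0) (n g 0) ≠ 0
    · have : {t | t ∈ Set.Icc (0:ℝ) 1 ∧ det3 (n e 0) (n f 0) (n g 0) ≠ 0 ∧
          det3 (n e t) (n f t) (n g t) = 0} =
          Set.Icc (0:ℝ) 1 ∩ {t | det3 (n e t) (n f t) (n g t) = 0} := by
        ext t
        simp only [Set.mem_ofPred_eq, Set.mem_inter_iff]
        tauto
      rw [this]
      exact isClosed_Icc.inter (isClosed_eq (contdet e f g) continuous_const)
    · have : {t | t ∈ Set.Icc (0:ℝ) 1 ∧ det3 (n e 0) (n f 0) (n g 0) ≠ 0 ∧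
          det3 (n e t) (n f t) (n g t) = 0} = ∅ := by
        ext t
        simp only [Set.mem_ofPred_eq, Set.mem_empty_iff_false]
        tauto
      rw [this]
      exact isClosed_empty
  have hZne : Z.Nonempty := ⟨t₀, (hmemZ _).2 ⟨e₀, f₀, g₀, ⟨ht₀, ht₀'⟩, hd₀, hz₀⟩⟩
  have hZbdd : BddBelow Z := ⟨0, fun t ht => by
    obtain ⟨_, _, _, h, _⟩ := (hmemZ t).1 ht
    exact h.1⟩
  set T := sInf Z with hT
  have hTZ : T ∈ Z := hZcl.csInf_mem hZne hZbdd
  obtain ⟨e, f, g, ⟨hT0, hT1⟩, hd, hz⟩ := (hmemZ T).1 hTZ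
  have hTpos : 0 < T := by
    rcases hT0.eq_or_lt with h | h
    · rw [← h] at hz; exact absurd hz hd
    · exact h
  have hbefore : ∀ t, 0 ≤ t → t < T → t ∉ Z := fun t _ htT htZ =>
    absurd (csInf_le hZbdd htZ) (not_le.2 htT)
  have hkin : Kin n T := by
    refine ⟨cont, fun i => ne i T hT0 hT1, hTpos, ?_, fun e f g r s u hr hs hu hd hno =>
      surv e f g r s u hr hs hu hd hno T hT0 hT1⟩
    intro e f g hd t ht0 htT
    by_contra hle
    push Not at hle
    have hφ : Continuous fun x => det3 (n e 0) (n f 0) (n g 0) * det3 (n e x) (n f x) (n g x) :=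
      continuous_const.mul (contdet e f g)
    have h1 := intermediate_value_Icc' ht0 hφ.continuousOn
    have h2 : (0 : ℝ) ∈ Set.Icc (det3 (n e 0) (n f 0) (n g 0) * det3 (n e t) (n f t) (n g t))
        (det3 (n e 0) (n f 0) (n g 0) * det3 (n e 0) (n f 0) (n g 0)) :=
      ⟨hle, (mul_self_pos.2 hd).le⟩
    obtain ⟨x, ⟨hx0, hxt⟩, hx⟩ := h1 h2
    have hx' : det3 (n e x) (n f x) (n g x) = 0 := (mul_eq_zero.1 hx).resolve_left hd
    exact hbefore x hx0 (lt_of_le_of_lt hxt htT)
      ((hmemZ x).2 ⟨e, f, g, ⟨hx0, (hxt.trans htT.le).trans hT1⟩, hd, hx'⟩)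
  obtain ⟨r, s, u, hr, hs, hu, hemp⟩ := exists_empty_of_det hz
  have := hkin.nonempty _ e f g r s u hr hs hu hd rfl
  rw [hemp] at this
  exact Set.not_nonempty_empty this

end Pool.Agent.helper50.Zono
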