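import Pool.Agent.helper50.Zono.Scale

/-!
# Lower bounds for the number of triangular cells
-/

open scoped RealInnerProductSpace

set_option linter.unusedSectionVars false

namespace Pool.Agent.helper50.Zono

variable {ι : Type*} [DecidableEq ι] [Fintype ι]

theorem IsArr.mult_lt {a : ι → E3} (h : IsArr a) {q : Submodule ℝ E3}
    (hq : q ∈ planes a Finset.univ) : mult a Finset.univ q < Fintype.card ι := by
  classical
  by_contra hcon
  push Not at hcon
  have h1 : onq a q = Finset.univ := by
    apply Finset.eq_univ_of_card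
    have : (onq a q).card ≤ Fintype.card ι := Finset.card_le_univ _
    rw [card_onq] at this ⊢
    omega
  have h2 : Submodule.span ℝ (Set.range a) ≤ q := by
    rw [Submodule.span_le]
    rintro _ ⟨i, rfl⟩
    exact mem_onq.1 (by rw [h1]; exact Finset.mem_univ i)
  rw [h.span, top_le_iff] at h2
  have h3 := finrank_planes h.indep hq
  rw [h2, finrank_top, finrank_euclideanSpace, Fintype.card_fin] at h3
  omega

theorem IsArr.three_le {a : ι → E3} (h : IsArr a) : 3 ≤ Fintype.card ι := by
  classical
  have h1 := finrank_range_le_card (R := ℝ) a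
  rw [Set.finrank, h.span, finrank_top, finrank_euclideanSpace, Fintype.card_fin] at h1
  exact h1

theorem tri_ge_euler {a : ι → E3} (h : IsArr a) :
    8 + 4 * ∑ q ∈ planes a Finset.univ, (mult a Finset.univ q - 2) ≤ tri a := by
  have h1 := tri_euler h (by have := h.three_le; omega)
  have h2 : (0:ℤ) ≤ ∑ S ∈ topes a, (((walls a S).card - 4 : ℕ) : ℤ) :=
    Finset.sum_nonneg fun S _ => by positivity
  have h3 : ((∑ q ∈ planes a Finset.univ, (mult a Finset.univ q - 2) : ℕ) : ℤ) =
      ∑ q ∈ planes a Finset.univ, ((mult a Finset.univ q : ℤ) - 2) := by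
    push_cast
    refine Finset.sum_congr rfl fun q hq => ?_
    have := two_le_mult hq
    push_cast [Nat.cast_sub this]
    ring
  have h4 : ((8 + 4 * ∑ q ∈ planes a Finset.univ, (mult a Finset.univ q - 2) : ℕ) : ℤ) ≤
      (tri a : ℤ) := by
    push_cast at h3 ⊢
    rw [h3, h1]
    linarith
  exact_mod_cast h4

/-- **(C1)** without restriction. -/
theorem c1' {a : ι → E3} (h : IsArr a) {q : Submodule ℝ E3} (hq : q ∈ planes a Finset.univ)
    (hk : 3 ≤ mult a Finset.univ q) :
    2 * (Fintype.card ι + mult a Finset.univ q) ≤ tri a + 4 := by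
  have h1 := h.mult_lt hq
  rcases lt_or_ge (mult a Finset.univ q + 1) (Fintype.card ι) with h2 | h2
  · exact c1 h hq hk (by omega)
  · have h3 := tri_ge_euler h
    have h4 : mult a Finset.univ q - 2 ≤
        ∑ q ∈ planes a Finset.univ, (mult a Finset.univ q - 2) :=
      Finset.single_le_sum (f := fun q => mult a Finset.univ q - 2) (fun _ _ => Nat.zero_le _) hq
    omega

/-- **Levi's theorem**: at least `N` triangles. -/
theorem levi {a : ι → E3} (h : IsArr a) : 2 * Fintype.card ι ≤ tri a := by
  classical
  by_cases hs : ∃ q ∈ planes a Finset.univ, 3 ≤ mult a Finset.univ q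
  · obtain ⟨q, hq, hk⟩ := hs
    have := c1' h hq hk
    omega
  push Not at hs
  have hN := h.three_le
  have h2 : ∀ q ∈ planes a Finset.univ, mult a Finset.univ q = 2 := fun q hq => by
    have h1 := hs q hq
    have h2 := two_le_mult hq
    omega
  have hpair : ∀ i j : ι, i ≠ j → 12 ≤ tw a i + tw a j := by
    intro i j hij
    have hq : pl a i j ∈ planes a Finset.univ :=
      mem_planes.2 ⟨i, Finset.mem_univ _, j, Finset.mem_univ _, hij, rfl⟩
    have h3 := sum_tw_vertex h hq (by rw [h2 _ hq]; omega)
    have h4 : onq a (pl a i j) = {i, j} := by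
      symm
      apply Finset.eq_of_subset_of_card_le
      · intro x hx
        rw [Finset.mem_insert, Finset.mem_singleton] at hx
        rcases hx with rfl | rfl
        · exact mem_onq.2 (mem_pl_left _ _ _)
        · exact mem_onq.2 (mem_pl_right _ _ _)
      · rw [card_onq, h2 _ hq, Finset.card_pair hij]
    rw [h2 _ hq, h4, Finset.sum_pair hij] at h3
    omega
  have hsum := sum_tw a
  obtain ⟨i, -, hmin⟩ := (Finset.univ : Finset ι).exists_min_image (tw a)
    (Finset.card_pos.1 (by rw [Finset.card_univ]; omega))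
  rcases le_or_gt 6 (tw a i) with h6 | h6
  · have h7 : ∑ j : ι, 6 ≤ ∑ j, tw a j := Finset.sum_le_sum fun j _ =>
      h6.trans (hmin j (Finset.mem_univ _))
    rw [Finset.sum_const, smul_eq_mul, Finset.card_univ, hsum] at h7
    omega
  · have h7 : ∀ j ∈ Finset.univ.erase i, 12 - tw a i ≤ tw a j := by
      intro j hj
      have := hpair i j (Ne.symm (Finset.mem_erase.1 hj).1)
      omega
    have h8 := Finset.sum_le_sum h7
    rw [Finset.sum_const, smul_eq_mul, Finset.card_erase_of_mem (Finset.mem_univ _),
      Finset.card_univ] at h8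
    have h9 : tw a i + ∑ j ∈ Finset.univ.erase i, tw a j = 3 * tri a := by
      rw [Finset.add_sum_erase _ _ (Finset.mem_univ i), hsum]
    obtain ⟨N', hN'⟩ : ∃ N', Fintype.card ι = N' + 3 := ⟨Fintype.card ι - 3, by omega⟩
    rw [hN'] at h8 ⊢
    have h10 : N' + 3 - 1 = N' + 2 := by omega
    rw [h10] at h8
    -- (N'+2)(12 - t) ≤ 3 tri - t
    interval_cases (tw a i) <;> omega

/-- deficiency of the number of cells -/
theorem card_topes_choose {a : ι → E3} (h : IsArr a) :
    (topes a).card + 2 * ∑ q ∈ planes a Finset.univ, (mult a Finset.univ q - 1).choose 2 =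
      2 * (1 + (Fintype.card ι).choose 2) := by
  have h1 := card_topes h.indep (by have := h.three_le; omega)
  have h2 := sum_choose_two (a := a) h.indep
  have h3 : ∀ q ∈ planes a Finset.univ, mult a Finset.univ q * (mult a Finset.univ q - 1) =
      2 * (mult a Finset.univ q - 1) + 2 * (mult a Finset.univ q - 1).choose 2 := by
    intro q hq
    obtain ⟨k, hk⟩ : ∃ k, mult a Finset.univ q = k + 2 := ⟨mult a Finset.univ q - 2, by
      have := two_le_mult hq; omega⟩
    rw [hk, Nat.choose_two_right]
    have h4 : k + 2 - 1 = k + 1 := by omega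
    have h5 : k + 1 - 1 = k := by omega
    rw [h4, h5]
    have h6 : 2 ∣ (k + 1) * k := by
      rw [mul_comm]; exact (Nat.even_mul_succ_self k).two_dvd
    obtain ⟨r, hr⟩ := h6
    rw [hr, Nat.mul_div_cancel_left _ (by norm_num : 0 < 2)]
    nlinarith
  rw [Finset.sum_congr rfl h3, Finset.sum_add_distrib, ← Finset.mul_sum, ← Finset.mul_sum] at h2
  have h7 : Fintype.card ι * (Fintype.card ι - 1) = 2 * (Fintype.card ι).choose 2 := by
    rw [Nat.choose_two_right]
    have h8 : 2 ∣ Fintype.card ι * (Fintype.card ι - 1) := by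
      rcases Nat.eq_zero_or_pos (Fintype.card ι) with h0 | h0
      · rw [h0]; simp
      · obtain ⟨r, hr⟩ : ∃ r, Fintype.card ι = r + 1 := ⟨Fintype.card ι - 1, by omega⟩
        rw [hr, Nat.add_sub_cancel, mul_comm]
        exact (Nat.even_mul_succ_self r).two_dvd
    rw [Nat.mul_div_cancel' h8]
  rw [h7] at h2
  omega

end Pool.Agent.helper50.Zono
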