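import Pool.Agent.helper50.Zono.Tri

/-!
# Motions fixing the planes through a line: survival of the triangular cells
-/

open scoped RealInnerProductSpace

set_option linter.unusedSectionVars false

namespace Pool.Agent.helper50.Zono

variable {ι : Type*} [DecidableEq ι] [Fintype ι]

/-- `v` is a unit vector and the arrangement is normalized at `v`. -/
structure Cen (a : ι → E3) (v : E3) : Prop where
  arr : IsArr a
  unit : ⟪v, v⟫ = 1
  norm : ∀ i, ⟪a i, v⟫ = 0 ∨ ⟪a i, v⟫ = 1

open Classical in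
/-- the indices of the planes that contain `v` -/
noncomputable def KK (a : ι → E3) (v : E3) : Finset ι := Finset.univ.filter (fun i => ⟪a i, v⟫ = 0)

theorem mem_KK {a : ι → E3} {v : E3} {i : ι} : i ∈ KK a v ↔ ⟪a i, v⟫ = 0 := by
  unfold KK; simp

theorem Cen.inner_one {a : ι → E3} {v : E3} (h : Cen a v) {i : ι} (hi : i ∉ KK a v) :
    ⟪a i, v⟫ = 1 := (h.norm i).resolve_left fun h' => hi (mem_KK.2 h')

/-- cells with three walls -/
noncomputable def T3 (a : ι → E3) : Finset (Finset ι) :=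
  (topes a).filter (fun S => (walls a S).card = 3)

theorem mem_T3 {a : ι → E3} {S : Finset ι} : S ∈ T3 a ↔ IsTope a S ∧ (walls a S).card = 3 := by
  unfold T3; rw [Finset.mem_filter, mem_topes']

theorem tri_eq (a : ι → E3) : tri a = (T3 a).card := rfl

theorem sg_compl (S : Finset ι) (i : ι) : sg Sᶜ i = - sg S i := by
  unfold sg
  by_cases h : i ∈ S
  · rw [if_pos h, if_neg (by simpa using h)]
  · rw [if_neg h, if_pos (by simpa using h)]; norm_num

theorem isTope_compl {a : ι → E3} {S : Finset ι} : IsTope a Sᶜ ↔ IsTope a S := by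
  rw [isTope_iff_sg, isTope_iff_sg]
  constructor
  · rintro ⟨x, hx⟩
    refine ⟨-x, fun i => ?_⟩
    have := hx i
    rw [sg_compl] at this
    rw [inner_neg_right]; linarith
  · rintro ⟨x, hx⟩
    refine ⟨-x, fun i => ?_⟩
    have := hx i
    rw [sg_compl, inner_neg_right]; linarith

theorem walls_compl {a : ι → E3} {S : Finset ι} : walls a Sᶜ = walls a S := by
  ext i
  rw [mem_walls, mem_walls]
  have : symmDiff Sᶜ {i} = (symmDiff S {i})ᶜ := by
    ext j
    simp only [Finset.mem_symmDiff, Finset.mem_compl, Finset.mem_singleton]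
    tauto
  rw [this, isTope_compl]

theorem exists_orth {x y z : E3} (h : det3 x y z = 0) :
    ∃ d : E3, d ≠ 0 ∧ ⟪x, d⟫ = 0 ∧ ⟪y, d⟫ = 0 ∧ ⟪z, d⟫ = 0 := by
  set M : Matrix (Fin 3) (Fin 3) ℝ := !![x 0, x 1, x 2; y 0, y 1, y 2; z 0, z 1, z 2] with hM
  have hdet : M.det = 0 := by
    rw [hM, Matrix.det_fin_three]
    simp only [Matrix.of_apply, Matrix.cons_val', Matrix.cons_val_zero, Matrix.cons_val_one,
      Matrix.cons_val_two, Matrix.head_cons, Matrix.tail_cons]
    rw [← h, det3]; ring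
  obtain ⟨w, hw, hwM⟩ := Matrix.exists_mulVec_eq_zero_iff.2 hdet
  refine ⟨WithLp.toLp 2 w, ?_, ?_, ?_, ?_⟩
  · intro h0
    apply hw
    have := congrArg WithLp.ofLp h0
    simpa using this
  · have := congrFun hwM 0
    simp only [Matrix.mulVec, dotProduct, Fin.sum_univ_three] at this
    rw [inner3]
    simpa [hM] using this
  · have := congrFun hwM 1
    simp only [Matrix.mulVec, dotProduct, Fin.sum_univ_three] at this
    rw [inner3]
    simpa [hM] using this
  · have := congrFun hwM 2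
    simp only [Matrix.mulVec, dotProduct, Fin.sum_univ_three] at this
    rw [inner3]
    simpa [hM] using this

theorem IsArr.exists_inner_ne {a : ι → E3} (h : IsArr a) {d : E3} (hd : d ≠ 0) :
    ∃ k, ⟪a k, d⟫ ≠ 0 := by
  by_contra hcon
  push Not at hcon
  apply hd
  have h1 : d ∈ (Submodule.span ℝ (Set.range a))ᗮ := by
    rw [Submodule.mem_orthogonal]
    intro u hu
    induction hu using Submodule.span_induction with
    | mem x hx => obtain ⟨i, rfl⟩ := hx; exact hcon i
    | zero => simp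
    | add x y _ _ hx hy => rw [inner_add_left, hx, hy, add_zero]
    | smul c x _ hx => rw [inner_smul_left, hx, mul_zero]
  rw [h.span, Submodule.top_orthogonal_eq_bot] at h1
  exact (Submodule.mem_bot ℝ).1 h1

theorem exists_wall_inner_ne {a : ι → E3} (h : IsArr a) {S : Finset ι} (hS : IsTope a S) {d : E3}
    (hd : d ≠ 0) : ∃ i ∈ walls a S, ⟪a i, d⟫ ≠ 0 := by
  obtain ⟨k, hk⟩ := h.exists_inner_ne hd
  have hk' : sg S k * ⟪a k, d⟫ ≠ 0 := mul_ne_zero (sg_ne S k) hk
  rcases lt_or_gt_of_ne hk' with h1 | h1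
  · obtain ⟨i, hi, hneg⟩ := exists_wall_dir h.indep hS ⟨k, h1⟩
    exact ⟨i, hi, fun h0 => by rw [h0, mul_zero] at hneg; exact lt_irrefl _ hneg⟩
  · obtain ⟨i, hi, hneg⟩ := exists_wall_dir h.indep hS (d := -d) ⟨k, by
      rw [inner_neg_right]; linarith⟩
    exact ⟨i, hi, fun h0 => by rw [inner_neg_right, h0, neg_zero, mul_zero] at hneg; exact lt_irrefl _ hneg⟩

theorem walls_det {a : ι → E3} (h : IsArr a) {S : Finset ι} (hS : IsTope a S) {e f g : ι}
    (hw : walls a S = {e, f, g}) : det3 (a e) (a f) (a g) ≠ 0 := by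
  intro h0
  obtain ⟨d, hd, h1, h2, h3⟩ := exists_orth h0
  obtain ⟨i, hi, hne⟩ := exists_wall_inner_ne h hS hd
  rw [hw, Finset.mem_insert, Finset.mem_insert, Finset.mem_singleton] at hi
  rcases hi with rfl | rfl | rfl
  · exact hne h1
  · exact hne h2
  · exact hne h3

/-- the cell `S` survives the motion `a i + T • u i` for all times -/
def Persist (a : ι → E3) (S : Finset ι) (u : ι → E3) : Prop :=
  ∀ T : ℝ, ∃ p, ∀ i ∈ walls a S, 0 < sg S i * ⟪a i + T • u i, p⟫

/-- motions -/
structure Mo (a : ι → E3) (v : E3) (u : ι → E3) : Prop where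
  orth : ∀ i, ⟪u i, v⟫ = 0
  fix : ∀ i ∈ KK a v, u i = 0

theorem Persist.compl {a : ι → E3} {S : Finset ι} {u : ι → E3} (h : Persist a S u) :
    Persist a Sᶜ u := by
  intro T
  obtain ⟨p, hp⟩ := h T
  refine ⟨-p, fun i hi => ?_⟩
  rw [walls_compl] at hi
  have := hp i hi
  rw [sg_compl, inner_neg_right]; linarith

theorem Mo.inner_v {a : ι → E3} {v : E3} {u : ι → E3} (hu : Mo a v u) (i : ι) (T : ℝ) :
    ⟪a i + T • u i, v⟫ = ⟪a i, v⟫ := by
  rw [inner_add_left, inner_smul_left, hu.orth, mul_zero, add_zero]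

theorem persist_same {a : ι → E3} {v : E3} (h : Cen a v) {S : Finset ι} (hS : IsTope a S) {σ : ℝ}
    (hσ : Sgn σ) (hs : ∀ i ∈ walls a S, i ∉ KK a v → sg S i = σ) {u : ι → E3} (hu : Mo a v u) :
    Persist a S u := by
  intro T
  obtain ⟨p0, hp0⟩ := isTope_iff_sg.1 hS
  refine ⟨p0 + ((∑ i, |⟪a i + T • u i, p0⟫| + 1) * σ) • v, fun i hi => ?_⟩
  by_cases hiK : i ∈ KK a v
  · rw [hu.fix i hiK, smul_zero, add_zero, inner_add_right, inner_smul_right, mem_KK.1 hiK,
      mul_zero, add_zero]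
    exact hp0 i
  · rw [hs i hi hiK, inner_add_right, inner_smul_right (a i + T • u i) v, hu.inner_v i T,
      h.inner_one hiK, mul_one]
    have h1 : |⟪a i + T • u i, p0⟫| ≤ ∑ i, |⟪a i + T • u i, p0⟫| :=
      Finset.single_le_sum (f := fun i => |⟪a i + T • u i, p0⟫|) (fun j _ => abs_nonneg _)
        (Finset.mem_univ i)
    have h2 := neg_abs_le ⟪a i + T • u i, p0⟫
    have h3 := le_abs_self ⟪a i + T • u i, p0⟫
    rcases hσ with rfl | rfl
    · linarith
    · linarith

theorem exists_eps (c1 c2 d1 d2 : ℝ) (h1 : 0 < c1) (h2 : 0 < c2) :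
    ∃ ε : ℝ, 0 < ε ∧ 0 < c1 + ε * d1 ∧ 0 < c2 + ε * d2 := by
  have key : ∀ c d : ℝ, 0 < c → ∀ᶠ ε in nhdsWithin (0 : ℝ) (Set.Ioi 0), 0 < c + ε * d := by
    intro c d hc
    have hcont : Filter.Tendsto (fun ε : ℝ => c + ε * d) (nhds 0) (nhds (c + 0 * d)) := by
      apply Continuous.tendsto; fun_prop
    rw [zero_mul, add_zero] at hcont
    exact (hcont.mono_left nhdsWithin_le_nhds).eventually (lt_mem_nhds hc)
  obtain ⟨ε, ⟨e1, e2⟩, e3⟩ := (((key c1 d1 h1).and (key c2 d2 h2)).and
    (self_mem_nhdsWithin : Set.Ioi (0:ℝ) ∈ nhdsWithin (0 : ℝ) (Set.Ioi 0))).exists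
  exact ⟨ε, e3, e1, e2⟩

theorem persist_one {a : ι → E3} {v : E3} (h : Cen a v) {S : Finset ι} (hS : IsTope a S)
    {x b c : ι} (hw : walls a S = {x, b, c}) (hx : x ∈ KK a v) (hb : b ∉ KK a v)
    (hc : c ∉ KK a v) (hbc : sg S c = - sg S b) :
    ∃ q : E3, ∀ u, Mo a v u → ⟪u b - u c, q⟫ = 0 → Persist a S u := by
  have hdet := walls_det h.arr hS hw
  obtain ⟨q, h1, h2, h3⟩ := exists_point hdet 0 (sg S b) (sg S c)
  refine ⟨q, fun u hu hq T => ?_⟩
  have haa : 0 < ⟪a x, a x⟫ := by
    have hne : a x ≠ 0 := by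
      intro h0
      apply hdet
      rw [h0]
      simp [det3]
    rw [real_inner_self_eq_norm_sq]
    have : 0 < ‖a x‖ := norm_pos_iff.2 hne
    positivity
  set τ := sg S b - ⟪a b + T • u b, q⟫ with hτ
  have hxx : ⟪a x + T • u x, q + τ • v⟫ = 0 := by
    rw [hu.fix x hx, smul_zero, add_zero, inner_add_right, h1, inner_smul_right, mem_KK.1 hx]
    ring
  have hbb : ⟪a b + T • u b, q + τ • v⟫ = sg S b := by
    rw [inner_add_right, inner_smul_right, hu.inner_v, h.inner_one hb, hτ]; ring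
  have hcc : ⟪a c + T • u c, q + τ • v⟫ = sg S c := by
    rw [inner_add_right, inner_smul_right, hu.inner_v, h.inner_one hc, hτ]
    rw [inner_sub_left] at hq
    simp only [inner_add_left, inner_smul_left, RCLike.conj_to_real, h2, h3]
    have : ⟪u b, q⟫ = ⟪u c, q⟫ := by linarith
    rw [this]; ring
  obtain ⟨ε, he, he1, he2⟩ := exists_eps 1 1 (sg S b * ⟪a b + T • u b, sg S x • a x⟫)
    (sg S c * ⟪a c + T • u c, sg S x • a x⟫) one_pos one_pos
  refine ⟨q + τ • v + ε • (sg S x • a x), fun i hi => ?_⟩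
  rw [hw, Finset.mem_insert, Finset.mem_insert, Finset.mem_singleton] at hi
  rcases hi with rfl | rfl | rfl
  · rw [inner_add_right, hxx, inner_smul_right, inner_smul_right, hu.fix i hx, smul_zero, add_zero]
    have : sg S i * (0 + ε * (sg S i * ⟪a i, a i⟫)) = (sg S i * sg S i) * (ε * ⟪a i, a i⟫) := by ring
    rw [this, sg_sq, one_mul]
    exact mul_pos he haa
  · rw [inner_add_right, hbb, inner_smul_right _ _ ε, mul_add, sg_sq]
    linarith
  · rw [inner_add_right, hcc, inner_smul_right _ _ ε, mul_add, sg_sq]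
    linarith

theorem persist_two {a : ι → E3} {v : E3} (h : Cen a v) {S : Finset ι} (hS : IsTope a S)
    {e f g : ι} (hw : walls a S = {e, f, g}) (he : e ∉ KK a v) (hf : f ∉ KK a v)
    (hg : g ∉ KK a v) (hfe : sg S f = sg S e) (hge : sg S g = - sg S e) :
    ∃ q : E3, ∀ u, Mo a v u → ⟪u e - u f, q⟫ = 0 → ⟪u e - u g, q⟫ = 0 → Persist a S u := by
  have hdet := walls_det h.arr hS hw
  obtain ⟨q, h1, h2, h3⟩ := exists_point hdet 0 0 (sg S g)
  refine ⟨q, fun u hu hq1 hq2 T => ?_⟩
  rw [inner_sub_left] at hq1 hq2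
  have hsq := sg_sq S e
  refine ⟨q - (T * ⟪u e, q⟫) • v + (1 / 2 * sg S e) • v, fun i hi => ?_⟩
  have hiK : ⟪a i + T • u i, v⟫ = 1 := by
    rw [hu.inner_v]
    rw [hw, Finset.mem_insert, Finset.mem_insert, Finset.mem_singleton] at hi
    rcases hi with rfl | rfl | rfl
    · exact h.inner_one he
    · exact h.inner_one hf
    · exact h.inner_one hg
  rw [inner_add_right, inner_sub_right, inner_smul_right, inner_smul_right, hiK]
  rw [hw, Finset.mem_insert, Finset.mem_insert, Finset.mem_singleton] at hi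
  rcases hi with rfl | rfl | rfl
  · rw [inner_add_left, inner_smul_left, h1, RCLike.conj_to_real]
    have : sg S i * (0 + T * ⟪u i, q⟫ - T * ⟪u i, q⟫ * 1 + 1 / 2 * sg S i * 1) =
      1 / 2 * (sg S i * sg S i) := by ring
    rw [this, hsq]; norm_num
  · rw [inner_add_left, inner_smul_left, h2, RCLike.conj_to_real, hfe]
    have e1 : ⟪u i, q⟫ = ⟪u e, q⟫ := by linarith
    rw [e1]
    have : sg S e * (0 + T * ⟪u e, q⟫ - T * ⟪u e, q⟫ * 1 + 1 / 2 * sg S e * 1) =
      1 / 2 * (sg S e * sg S e) := by ring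
    rw [this, hsq]; norm_num
  · rw [inner_add_left, inner_smul_left, h3, RCLike.conj_to_real, hge]
    have e1 : ⟪u i, q⟫ = ⟪u e, q⟫ := by linarith
    rw [e1]
    have : -sg S e * (-sg S e + T * ⟪u e, q⟫ - T * ⟪u e, q⟫ * 1 + 1 / 2 * sg S e * 1) =
      1 / 2 * (sg S e * sg S e) := by ring
    rw [this, hsq]; norm_num

/-- the functional `u ↦ ⟪u b - u c, q⟫` -/
noncomputable def fq (b c : ι) (q : E3) : (ι → E3) →ₗ[ℝ] ℝ where
  toFun u := ⟪u b - u c, q⟫
  map_add' u w := by
    simp only [Pi.add_apply, inner_sub_left, inner_add_left]; ring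
  map_smul' r u := by
    simp only [Pi.smul_apply, inner_sub_left, inner_smul_left, RCLike.conj_to_real,
      RingHom.id_apply, smul_eq_mul]; ring

theorem exists_functionals {a : ι → E3} {v : E3} (h : Cen a v) {S : Finset ι} (hS : S ∈ T3 a) :
    ∃ φ : Fin (2 - (walls a S ∩ KK a v).card) → ((ι → E3) →ₗ[ℝ] ℝ),
      ∀ u, Mo a v u → (∀ j, φ j u = 0) → Persist a S u := by
  classical
  obtain ⟨hT, hc⟩ := mem_T3.1 hS
  by_cases h1 : ∀ i ∈ walls a S, i ∉ KK a v → sg S i = 1
  · exact ⟨fun _ => 0, fun u hu _ => persist_same h hT (Or.inl rfl) h1 hu⟩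
  by_cases h2 : ∀ i ∈ walls a S, i ∉ KK a v → sg S i = -1
  · exact ⟨fun _ => 0, fun u hu _ => persist_same h hT (Or.inr rfl) h2 hu⟩
  push Not at h1 h2
  obtain ⟨c, hcw, hcK, hc1⟩ := h1
  obtain ⟨b, hbw, hbK, hb1⟩ := h2
  have hc1' : sg S c = -1 := (sg_eq S c).resolve_left hc1
  have hb1' : sg S b = 1 := (sg_eq S b).resolve_right hb1
  have hbc : b ≠ c := by
    rintro rfl; rw [hb1'] at hc1'; norm_num at hc1'
  obtain ⟨x, hx⟩ : ∃ x, ((walls a S).erase b).erase c = {x} := by
    rw [← Finset.card_eq_one, Finset.card_erase_of_mem, Finset.card_erase_of_mem hbw, hc]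
    exact Finset.mem_erase.2 ⟨Ne.symm hbc, hcw⟩
  have hxmem : x ∈ ((walls a S).erase b).erase c := by rw [hx]; exact Finset.mem_singleton_self x
  have hxc : x ≠ c := (Finset.mem_erase.1 hxmem).1
  have hxb : x ≠ b := (Finset.mem_erase.1 (Finset.mem_erase.1 hxmem).2).1
  have hxw : x ∈ walls a S := (Finset.mem_erase.1 (Finset.mem_erase.1 hxmem).2).2
  have hw : walls a S = {x, b, c} := by
    ext i
    rw [Finset.mem_insert, Finset.mem_insert, Finset.mem_singleton]
    constructor
    · intro hi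
      by_cases hib : i = b
      · exact Or.inr (Or.inl hib)
      by_cases hic : i = c
      · exact Or.inr (Or.inr hic)
      have : i ∈ ((walls a S).erase b).erase c :=
        Finset.mem_erase.2 ⟨hic, Finset.mem_erase.2 ⟨hib, hi⟩⟩
      rw [hx, Finset.mem_singleton] at this
      exact Or.inl this
    · rintro (rfl | rfl | rfl)
      · exact hxw
      · exact hbw
      · exact hcw
  by_cases hxK : x ∈ KK a v
  · have hcard : (walls a S ∩ KK a v).card = 1 := by
      have : walls a S ∩ KK a v = {x} := by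
        ext i
        rw [Finset.mem_inter, hw, Finset.mem_insert, Finset.mem_insert, Finset.mem_singleton,
          Finset.mem_singleton]
        constructor
        · rintro ⟨rfl | rfl | rfl, hi⟩
          · rfl
          · exact absurd hi hbK
          · exact absurd hi hcK
        · rintro rfl
          exact ⟨Or.inl rfl, hxK⟩
      rw [this, Finset.card_singleton]
    obtain ⟨q, hq⟩ := persist_one h hT hw hxK hbK hcK (by rw [hb1', hc1'])
    refine ⟨fun _ => fq b c q, fun u hu hj => hq u hu ?_⟩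
    exact hj ⟨0, by rw [hcard]; norm_num⟩
  · have hcard : (walls a S ∩ KK a v).card = 0 := by
      rw [Finset.card_eq_zero]
      ext i
      simp only [Finset.mem_inter, Finset.notMem_empty, iff_false, not_and]
      intro hi
      rw [hw, Finset.mem_insert, Finset.mem_insert, Finset.mem_singleton] at hi
      rcases hi with rfl | rfl | rfl
      · exact hxK
      · exact hbK
      · exact hcK
    obtain ⟨e, f, g, hw', heK, hfK, hgK, hfe, hge⟩ : ∃ e f g, walls a S = {e, f, g} ∧ e ∉ KK a v ∧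
        f ∉ KK a v ∧ g ∉ KK a v ∧ sg S f = sg S e ∧ sg S g = - sg S e := by
      rcases sg_eq S x with h3 | h3
      · refine ⟨b, x, c, ?_, hbK, hxK, hcK, by rw [h3, hb1'], by rw [hc1', hb1']⟩
        rw [hw]; ext i; simp only [Finset.mem_insert, Finset.mem_singleton]; tauto
      · refine ⟨c, x, b, ?_, hcK, hxK, hbK, by rw [h3, hc1'], by rw [hc1', hb1']; norm_num⟩
        rw [hw]; ext i; simp only [Finset.mem_insert, Finset.mem_singleton]; tauto
    obtain ⟨q, hq⟩ := persist_two h hT hw' heK hfK hgK hfe hge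
    refine ⟨fun j => if j.val = 0 then fq e f q else fq e g q, fun u hu hj => hq u hu ?_ ?_⟩
    · have h5 := hj ⟨0, by rw [hcard]; norm_num⟩
      simp only [if_true] at h5
      exact h5
    · have h5 := hj ⟨1, by rw [hcard]; norm_num⟩
      simp only [one_ne_zero, if_false] at h5
      exact h5

end Pool.Agent.helper50.Zono
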