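import Pool.Agent.helper50.Zono.QV1

/-!
# The inequality (Q)
-/

open scoped RealInnerProductSpace

set_option linter.unusedSectionVars false

namespace Pool.Agent.helper50.Zono

variable {ι : Type*} [DecidableEq ι] [Fintype ι]

/-- direction of the plane `x ∋ v` in the orthogonal complement of `v` -/
theorem Cen.exists_dir {a : ι → E3} {v : E3} (_h : Cen a v) (x : ι) :
    ∃ X : E3, X ≠ 0 ∧ ⟪a x, X⟫ = 0 ∧ ⟪v, X⟫ = 0 := by
  obtain ⟨d, h1, h2, h3, _⟩ := exists_orth (det3_self23 (a x) v)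
  exact ⟨d, h1, h2, h3⟩

theorem Cen.v_ne {a : ι → E3} {v : E3} (h : Cen a v) : v ≠ 0 := by
  intro h0
  have := h.unit
  rw [h0, inner_zero_left] at this
  norm_num at this

theorem Cen.parallel {a : ι → E3} {v : E3} (h : Cen a v) {x : ι} (hx : x ∈ KK a v)
    (hax : a x ≠ 0) {X w : E3} (hX : X ≠ 0) (hxX : ⟪a x, X⟫ = 0) (hvX : ⟪v, X⟫ = 0)
    (hw1 : ⟪w, X⟫ = 0) (hw2 : ⟪w, v⟫ = 0) : ∃ c : ℝ, w = c • a x := by
  have hxv := mem_KK.1 hx
  have hD : Dual3 (a x) v X (a x) v X := by
    refine ⟨?_, ?_, ?_, hxv, ?_, ?_, hxX, hvX, ?_⟩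
    · exact fun h0 => hax (inner_self_eq_zero.1 h0)
    · rw [real_inner_comm]; exact hxv
    · rw [real_inner_comm]; exact hxX
    · rw [h.unit]; norm_num
    · rw [real_inner_comm]; exact hvX
    · exact fun h0 => hX (inner_self_eq_zero.1 h0)
  have h1 := hD.expand w
  rw [real_inner_comm w v, real_inner_comm w X, hw1, hw2, zero_div, zero_smul, zero_div,
    zero_smul, add_zero, add_zero] at h1
  exact ⟨_, h1⟩

theorem Cen.final {a : ι → E3} {v : E3} (h : Cen a v) (hc : 2 ≤ Fintype.card ι) {u : ι → E3}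
    (hu : Mo a v u) (hp : ∀ S ∈ T3 a, Persist a S u) {x b c : ι} (hx : x ∈ KK a v)
    (hb : b ∉ KK a v) (hc : c ∉ KK a v) {X : E3} (hX : X ≠ 0) (hxX : ⟪a x, X⟫ = 0)
    (hvX : ⟪v, X⟫ = 0) (hbc : ⟪a b - a c, X⟫ ≠ 0) : ⟪u b - u c, X⟫ = 0 := by
  classical
  have hpi : PI a := h.arr.indep
  have hane : ∀ i, a i ≠ 0 := by
    intro i
    obtain ⟨j, hj⟩ : ∃ j, j ≠ i := by
      by_contra hcon
      push Not at hcon
      have : Fintype.card ι ≤ 1 := Fintype.card_le_one_iff.2 fun p q => by rw [hcon p, hcon q]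
      omega
    exact hpi.ne_zero (Ne.symm hj)
  by_contra hne
  set T : ℝ := - ⟪a b - a c, X⟫ / ⟪u b - u c, X⟫ with hT
  have hzero : ⟪(a b + T • u b) - (a c + T • u c), X⟫ = 0 := by
    have h1 : (a b + T • u b) - (a c + T • u c) = (a b - a c) + T • (u b - u c) := by module
    rw [h1, inner_add_left, inner_smul_left, RCLike.conj_to_real, hT, div_mul_cancel₀ _ hne]
    ring
  have hzero' : ⟪(a b + T • u b) - (a c + T • u c), v⟫ = 0 := by
    rw [inner_sub_left, hu.inner_v, hu.inner_v, h.inner_one hb, h.inner_one hc, sub_self]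
  obtain ⟨lam, hlam⟩ := h.parallel hx (hane x) hX hxX hvX hzero hzero'
  -- the determinant at time 0
  have hd0 : det3 (a x) (a b) (a c) ≠ 0 := by
    intro h0
    obtain ⟨α, β, γ, hn, hsum⟩ := exists_dep h0
    have e1 := congrArg (fun t => ⟪t, v⟫) hsum
    have e2 := congrArg (fun t => ⟪t, X⟫) hsum
    simp only [inner_add_left, inner_smul_left, RCLike.conj_to_real, inner_zero_left,
      mem_KK.1 hx, h.inner_one hb, h.inner_one hc, hxX, mul_zero, mul_one, zero_add] at e1 e2
    have e3 : β * ⟪a b - a c, X⟫ = 0 := by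
      rw [inner_sub_left]
      have : γ = -β := by linarith
      rw [this] at e2
      linarith
    have hβ : β = 0 := (mul_eq_zero.1 e3).resolve_right hbc
    have hγ : γ = 0 := by rw [hβ] at e1; linarith
    rw [hβ, hγ, zero_smul, zero_smul, add_zero, add_zero] at hsum
    have hα : α = 0 := (smul_eq_zero.1 hsum).resolve_right (hane x)
    rcases hn with h1 | h1 | h1
    · exact h1 hα
    · exact h1 hβ
    · exact h1 hγ
  have hkin := kinetic (n := fun i t => a i + (t * T) • u i) (fun i => by fun_prop) ?_ ?_ x b c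
    (by simpa using hd0) 1 zero_le_one le_rfl
  · apply hkin
    simp only [one_mul]
    have h1 : a c + T • u c = (a b + T • u b) - lam • a x := by rw [← hlam]; module
    rw [h1, hu.fix x hx, smul_zero, add_zero]
    simp only [det3, PiLp.sub_apply, PiLp.add_apply, PiLp.smul_apply, smul_eq_mul]
    ring
  · intro i t _ _ h0'
    have h0 : a i + (t * T) • u i = 0 := h0'
    by_cases hi : i ∈ KK a v
    · rw [hu.fix i hi, smul_zero, add_zero] at h0
      exact hane i h0
    · have h1 := hu.inner_v i (t * T)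
      rw [h0, inner_zero_left, h.inner_one hi] at h1
      norm_num at h1
  · intro e f g r s w hr hs hw hdet hno t _ _
    simp only [zero_mul, zero_smul, add_zero] at hdet hno
    obtain ⟨S, hS, hwS, h1, h2, h3⟩ := tope_of_uncut hpi hr hs hw hdet hno
    have hef : e ≠ f := by
      rintro rfl; exact hdet (det3_self12 _ _)
    have heg : e ≠ g := by
      rintro rfl; exact hdet (det3_self13 _ _)
    have hfg : f ≠ g := by
      rintro rfl; exact hdet (det3_self23 _ _)
    have hcard : (walls a S).card = 3 := by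
      rw [hwS, Finset.card_insert_of_notMem (by simp [hef, heg]),
        Finset.card_insert_of_notMem (by simp [hfg]), Finset.card_singleton]
    obtain ⟨p, hp⟩ := hp S (mem_T3.2 ⟨hS, hcard⟩) (t * T)
    refine ⟨p, ?_, ?_, ?_⟩
    · have := hp e (by rw [hwS]; simp)
      rw [h1] at this
      rw [inner_smul_left, RCLike.conj_to_real]
      exact this
    · have := hp f (by rw [hwS]; simp)
      rw [h2] at this
      rw [inner_smul_left, RCLike.conj_to_real]
      exact this
    · have := hp g (by rw [hwS]; simp)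
      rw [h3] at this
      rw [inner_smul_left, RCLike.conj_to_real]
      exact this

/-- A motion under which all triangular cells survive is constant outside `KK`. -/
theorem Cen.rigid {a : ι → E3} {v : E3} (h : Cen a v) (hk : 3 ≤ (KK a v).card) {u : ι → E3}
    (hu : Mo a v u) (hp : ∀ S ∈ T3 a, Persist a S u) {b c : ι} (hb : b ∉ KK a v)
    (hc : c ∉ KK a v) : u b = u c := by
  classical
  have hcard : 2 ≤ Fintype.card ι := by
    have := Finset.card_le_univ (KK a v)
    omega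
  have hpi : PI a := h.arr.indep
  by_cases hbc : b = c
  · rw [hbc]
  have hane : ∀ i, a i ≠ 0 := by
    intro i
    obtain ⟨j, hj⟩ : ∃ j, j ≠ i := by
      by_contra hcon
      push Not at hcon
      have : Fintype.card ι ≤ 1 := Fintype.card_le_one_iff.2 fun p q => by rw [hcon p, hcon q]
      omega
    exact hpi.ne_zero (Ne.symm hj)
  choose X hX hxX hvX using h.exists_dir
  have hpar : ∀ i j, i ≠ j → ∀ w : E3, (∃ c : ℝ, w = c • a i) → (∃ c : ℝ, w = c • a j) → w = 0 := by
    rintro i j hij w ⟨c1, h1⟩ ⟨c2, h2⟩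
    have := hpi i j hij
    rw [LinearIndependent.pair_iff] at this
    have h3 := (this c1 (-c2) (by rw [← h1, neg_smul, ← h2]; simp)).1
    rw [h1, h3, zero_smul]
  -- at most one bad index
  have hbad : ∀ x ∈ KK a v, ∀ y ∈ KK a v, x ≠ y → ⟪a b - a c, X x⟫ = 0 →
      ⟪a b - a c, X y⟫ = 0 → False := by
    intro x hx y hy hxy h1 h2
    have h3 : ⟪a b - a c, v⟫ = 0 := by
      rw [inner_sub_left, h.inner_one hb, h.inner_one hc, sub_self]
    have h4 := h.parallel hx (hane x) (hX x) (hxX x) (hvX x) h1 h3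
    have h5 := h.parallel hy (hane y) (hX y) (hxX y) (hvX y) h2 h3
    have h6 := hpar x y hxy _ h4 h5
    have := hpi b c hbc
    rw [LinearIndependent.pair_iff] at this
    have h7 := (this 1 (-1) (by rw [one_smul, neg_smul, one_smul, ← sub_eq_add_neg]; exact h6)).1
    norm_num at h7
  -- two good indices
  obtain ⟨x, hx, y, hy, hxy, hgx, hgy⟩ : ∃ x ∈ KK a v, ∃ y ∈ KK a v, x ≠ y ∧
      ⟪a b - a c, X x⟫ ≠ 0 ∧ ⟪a b - a c, X y⟫ ≠ 0 := by
    set G := (KK a v).filter (fun x => ⟪a b - a c, X x⟫ ≠ 0) with hG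
    set G' := (KK a v).filter (fun x => ¬ ⟪a b - a c, X x⟫ ≠ 0) with hG'
    have h1 : G'.card ≤ 1 := by
      rw [Finset.card_le_one]
      intro x hx y hy
      by_contra hxy
      obtain ⟨hx1, hx2⟩ := Finset.mem_filter.1 hx
      obtain ⟨hy1, hy2⟩ := Finset.mem_filter.1 hy
      exact hbad x hx1 y hy1 hxy (not_not.1 hx2) (not_not.1 hy2)
    have h2 : G.card + G'.card = (KK a v).card :=
      Finset.card_filter_add_card_filter_not _
    have h3 : 1 < G.card := by omega
    obtain ⟨x, hx, y, hy, hxy⟩ := Finset.one_lt_card.1 h3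
    obtain ⟨hx1, hx2⟩ := Finset.mem_filter.1 hx
    obtain ⟨hy1, hy2⟩ := Finset.mem_filter.1 hy
    exact ⟨x, hx1, y, hy1, hxy, hx2, hy2⟩
  have h1 := h.final hcard hu hp hx hb hc (hX x) (hxX x) (hvX x) hgx
  have h2 := h.final hcard hu hp hy hb hc (hX y) (hxX y) (hvX y) hgy
  have h3 : ⟪u b - u c, v⟫ = 0 := by rw [inner_sub_left, hu.orth, hu.orth, sub_self]
  have h4 := h.parallel hx (hane x) (hX x) (hxX x) (hvX x) h1 h3
  have h5 := h.parallel hy (hane y) (hX y) (hxX y) (hvX y) h2 h3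
  exact sub_eq_zero.1 (hpar x y hxy _ h4 h5)

/-- the number of conditions of the cell `S` -/
noncomputable def cq (a : ι → E3) (v : E3) (S : Finset ι) : ℕ := 2 - (walls a S ∩ KK a v).card

theorem finrank_orth_v {v : E3} (hv : v ≠ 0) : Module.finrank ℝ (ℝ ∙ v)ᗮ = 2 := by
  have h1 := (ℝ ∙ v).finrank_add_finrank_orthogonal
  rw [finrank_span_singleton hv] at h1
  simp only [finrank_euclideanSpace, Fintype.card_fin] at h1
  omega

/-- **The inequality (Q).** -/
theorem Cen.sumQ {a : ι → E3} {v : E3} (h : Cen a v) (hk : 3 ≤ (KK a v).card)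
    (hM : 2 ≤ ((KK a v)ᶜ).card) :
    4 * ((KK a v)ᶜ).card ≤ (∑ S ∈ T3 a, cq a v S) + 4 := by
  classical
  by_contra hlt
  push Not at hlt
  obtain ⟨b0, hb0⟩ : ∃ b0, b0 ∉ KK a v := by
    obtain ⟨b, hb⟩ := Finset.card_pos.1 (by omega : 0 < ((KK a v)ᶜ).card)
    exact ⟨b, Finset.mem_compl.1 hb⟩
  set Rp := (T3 a).filter (fun S => b0 ∈ S) with hRp
  -- symmetry
  have hcqc : ∀ S, cq a v Sᶜ = cq a v S := by
    intro S; unfold cq; rw [walls_compl]
  have hT3c : ∀ S, S ∈ T3 a → Sᶜ ∈ T3 a := by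
    intro S hS
    rw [mem_T3] at hS ⊢
    rw [isTope_compl, walls_compl]; exact hS
  have hsym : ∑ S ∈ T3 a, cq a v S = 2 * ∑ S ∈ Rp, cq a v S := by
    rw [← Finset.sum_filter_add_sum_filter_not (T3 a) (fun S => b0 ∈ S), two_mul]
    congr 1
    refine Finset.sum_bij' (fun S _ => Sᶜ) (fun S _ => Sᶜ) ?_ ?_ ?_ ?_ ?_
    · intro S hS
      obtain ⟨h1, h2⟩ := Finset.mem_filter.1 hS
      exact Finset.mem_filter.2 ⟨hT3c S h1, Finset.mem_compl.2 h2⟩
    · intro S hS
      obtain ⟨h1, h2⟩ := Finset.mem_filter.1 hS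
      exact Finset.mem_filter.2 ⟨hT3c S h1, by simpa using h2⟩
    · intro S _; exact compl_compl S
    · intro S _; exact compl_compl S
    · intro S _; exact (hcqc S).symm
  have hcount : ∑ S ∈ Rp, cq a v S < 2 * (((KK a v)ᶜ).card - 1) := by omega
  -- the functionals
  have hex : ∀ S : {S // S ∈ Rp}, ∃ φ : Fin (cq a v S) → ((ι → E3) →ₗ[ℝ] ℝ),
      ∀ u, Mo a v u → (∀ j, φ j u = 0) → Persist a S u := fun S =>
    exists_functionals h (Finset.mem_filter.1 S.2).1
  choose φ hφ using hex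
  set W : Submodule ℝ E3 := (ℝ ∙ v)ᗮ with hW
  let Bx := {b : ι // b ∉ KK a v ∧ b ≠ b0}
  let J := Σ S : {S // S ∈ Rp}, Fin (cq a v S)
  let ext : (Bx → W) →ₗ[ℝ] (ι → E3) :=
    { toFun := fun w i => if hi : i ∉ KK a v ∧ i ≠ b0 then (w ⟨i, hi⟩ : E3) else 0
      map_add' := by
        intro w w'
        funext i
        simp only [Pi.add_apply]
        split_ifs with hi
        · rfl
        · rw [add_zero]
      map_smul' := by
        intro r w
        funext i
        simp only [Pi.smul_apply, RingHom.id_apply]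
        split_ifs with hi
        · rfl
        · rw [smul_zero] }
  let Φ : (Bx → W) →ₗ[ℝ] (J → ℝ) := LinearMap.pi (fun j => (φ j.1 j.2).comp ext)
  have hdim1 : Module.finrank ℝ (Bx → W) = 2 * (((KK a v)ᶜ).card - 1) := by
    rw [Module.finrank_pi_fintype, Finset.sum_const, Finset.card_univ, smul_eq_mul,
      finrank_orth_v h.v_ne, mul_comm]
    congr 1
    have : Fintype.card Bx = ((KK a v)ᶜ.erase b0).card := by
      rw [Fintype.card_subtype]
      congr 1
      ext i
      simp only [Finset.mem_filter, Finset.mem_univ, true_and, Finset.mem_erase,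
        Finset.mem_compl]
      tauto
    rw [this, Finset.card_erase_of_mem (Finset.mem_compl.2 hb0)]
  have hdim2 : Module.finrank ℝ (J → ℝ) = ∑ S ∈ Rp, cq a v S := by
    rw [Module.finrank_fintype_fun_eq_card, Fintype.card_sigma]
    simp only [Fintype.card_fin]
    rw [Finset.sum_coe_sort Rp (fun S => cq a v S)]
  have hker : LinearMap.ker Φ ≠ ⊥ := LinearMap.ker_ne_bot_of_finrank_lt (by
    rw [hdim1, hdim2]; exact hcount)
  obtain ⟨w, hwker, hw0⟩ := Submodule.exists_mem_ne_zero_of_ne_bot hker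
  rw [LinearMap.mem_ker] at hwker
  have hmo : Mo a v (ext w) := by
    constructor
    · intro i
      show ⟪(if hi : i ∉ KK a v ∧ i ≠ b0 then (w ⟨i, hi⟩ : E3) else 0), v⟫ = 0
      split_ifs with hi
      · exact Submodule.mem_orthogonal_singleton_iff_inner_left.1 (w ⟨i, hi⟩).2
      · exact inner_zero_left _
    · intro i hi
      show (if hi : i ∉ KK a v ∧ i ≠ b0 then (w ⟨i, hi⟩ : E3) else 0) = 0
      rw [dif_neg (by tauto)]
  have hpers : ∀ S ∈ T3 a, Persist a S (ext w) := by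
    have hR : ∀ S ∈ Rp, Persist a S (ext w) := by
      intro S hS
      refine hφ ⟨S, hS⟩ _ hmo fun j => ?_
      have := congrFun hwker ⟨⟨S, hS⟩, j⟩
      exact this
    intro S hS
    by_cases hbS : b0 ∈ S
    · exact hR S (Finset.mem_filter.2 ⟨hS, hbS⟩)
    · have h1 := (hR Sᶜ (Finset.mem_filter.2 ⟨hT3c S hS, Finset.mem_compl.2 hbS⟩)).compl
      rwa [compl_compl] at h1
  apply hw0
  funext i
  have h1 := h.rigid hk hmo hpers i.2.1 hb0
  have h2 : ext w b0 = 0 := by
    show (if hi : b0 ∉ KK a v ∧ b0 ≠ b0 then (w ⟨b0, hi⟩ : E3) else 0) = 0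
    rw [dif_neg (by simp)]
  have h3 : ext w i = (w i : E3) := by
    show (if hi : (i : ι) ∉ KK a v ∧ (i : ι) ≠ b0 then (w ⟨i, hi⟩ : E3) else 0) = w i
    rw [dif_pos i.2]
  rw [h2, h3] at h1
  exact Subtype.ext h1

end Pool.Agent.helper50.Zono
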