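import Pool.Agent.helper50.Zono.VV3

/-!
# Rescaling the vectors; (C1) for all arrangements
-/

open scoped RealInnerProductSpace

set_option linter.unusedSectionVars false

namespace Pool.Agent.helper50.Zono

variable {ι : Type*} [DecidableEq ι] [Fintype ι]

/-- the indices with negative factor -/
noncomputable def negs (c : ι → ℝ) : Finset ι := Finset.univ.filter (fun i => c i < 0)

theorem isTope_scale {a : ι → E3} {c : ι → ℝ} (hc : ∀ i, c i ≠ 0) {S : Finset ι} :
    IsTope (fun i => c i • a i) S ↔ IsTope a (symmDiff S (negs c)) := by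
  rw [isTope_iff_sg, isTope_iff_sg]
  have key : ∀ (x : E3) (i : ι), sg S i * ⟪c i • a i, x⟫ =
      |c i| * (sg (symmDiff S (negs c)) i * ⟪a i, x⟫) := by
    intro x i
    rw [inner_smul_left, RCLike.conj_to_real]
    by_cases hi : c i < 0
    · have h1 : i ∈ negs c := Finset.mem_filter.2 ⟨Finset.mem_univ _, hi⟩
      have h2 : sg (symmDiff S (negs c)) i = - sg S i := by
        unfold sg
        by_cases hS : i ∈ S
        · rw [if_pos hS, if_neg (by rw [Finset.mem_symmDiff]; tauto)]
        · rw [if_neg hS, if_pos (by rw [Finset.mem_symmDiff]; tauto)]; norm_num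
      rw [h2, abs_of_neg hi]; ring
    · have h1 : i ∉ negs c := fun h => hi (Finset.mem_filter.1 h).2
      have h2 : sg (symmDiff S (negs c)) i = sg S i := by
        unfold sg
        by_cases hS : i ∈ S
        · rw [if_pos hS, if_pos (by rw [Finset.mem_symmDiff]; tauto)]
        · rw [if_neg hS, if_neg (by rw [Finset.mem_symmDiff]; tauto)]
      rw [h2, abs_of_nonneg (not_lt.1 hi)]; ring
  refine exists_congr fun x => forall_congr' fun i => ?_
  rw [key]
  have hpos : 0 < |c i| := abs_pos.2 (hc i)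
  exact ⟨fun h => (pos_iff_pos_of_mul_pos h).1 hpos, fun h => mul_pos hpos h⟩

theorem walls_scale {a : ι → E3} {c : ι → ℝ} (hc : ∀ i, c i ≠ 0) {S : Finset ι} :
    walls (fun i => c i • a i) S = walls a (symmDiff S (negs c)) := by
  ext i
  rw [mem_walls, mem_walls, isTope_scale hc]
  rw [symmDiff_right_comm]

theorem tri_scale {a : ι → E3} {c : ι → ℝ} (hc : ∀ i, c i ≠ 0) :
    tri (fun i => c i • a i) = tri a := by
  classical
  rw [tri_eq, tri_eq]
  refine Finset.card_bij (fun S _ => symmDiff S (negs c)) ?_ ?_ ?_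
  · intro S hS
    rw [mem_T3] at hS ⊢
    rw [isTope_scale hc, walls_scale hc] at hS
    exact hS
  · intro S _ S' _ h
    exact symmDiff_left_injective _ h
  · intro S hS
    refine ⟨symmDiff S (negs c), ?_, ?_⟩
    · rw [mem_T3] at hS ⊢
      rw [isTope_scale hc, walls_scale hc, symmDiff_symmDiff_cancel_right]
      exact hS
    · rw [symmDiff_symmDiff_cancel_right]

theorem IsArr.scale {a : ι → E3} (h : IsArr a) {c : ι → ℝ} (hc : ∀ i, c i ≠ 0) :
    IsArr (fun i => c i • a i) := by
  refine ⟨fun i j hij => ?_, ?_⟩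
  · have h1 := h.indep i j hij
    rw [LinearIndependent.pair_iff] at h1 ⊢
    intro s t hst
    have h2 := h1 (s * c i) (t * c j) (by rw [mul_smul, mul_smul]; exact hst)
    exact ⟨(mul_eq_zero.1 h2.1).resolve_right (hc i), (mul_eq_zero.1 h2.2).resolve_right (hc j)⟩
  · rw [eq_top_iff, ← h.span, Submodule.span_le]
    rintro _ ⟨i, rfl⟩
    have h1 : a i = (c i)⁻¹ • (c i • a i) := by
      rw [smul_smul, inv_mul_cancel₀ (hc i), one_smul]
    rw [h1]
    exact Submodule.smul_mem _ _ (Submodule.subset_span ⟨i, rfl⟩)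

open Classical in
/-- normalization at `v` -/
noncomputable def nrm (a : ι → E3) (v : E3) : ι → ℝ :=
  fun i => if ⟪a i, v⟫ = 0 then 1 else (⟪a i, v⟫)⁻¹

theorem nrm_ne (a : ι → E3) (v : E3) (i : ι) : nrm a v i ≠ 0 := by
  unfold nrm
  split_ifs with h
  · exact one_ne_zero
  · exact inv_ne_zero h

theorem cen_nrm {a : ι → E3} (h : IsArr a) {v : E3} (hv : ⟪v, v⟫ = 1) :
    Cen (fun i => nrm a v i • a i) v := by
  refine ⟨h.scale (nrm_ne a v), hv, fun i => ?_⟩
  rw [inner_smul_left, RCLike.conj_to_real]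
  unfold nrm
  split_ifs with h1
  · left; rw [h1, mul_zero]
  · right; exact inv_mul_cancel₀ h1

theorem KK_nrm {a : ι → E3} {v : E3} : KK (fun i => nrm a v i • a i) v = KK a v := by
  ext i
  rw [mem_KK, mem_KK, inner_smul_left, RCLike.conj_to_real]
  exact ⟨fun h => (mul_eq_zero.1 h).resolve_left (nrm_ne a v i), fun h => by rw [h, mul_zero]⟩

/-- unit normal of a plane -/
theorem exists_normal {q : Submodule ℝ E3} (hq : Module.finrank ℝ q = 2) :
    ∃ v : E3, ⟪v, v⟫ = 1 ∧ ∀ w, w ∈ q ↔ ⟪w, v⟫ = 0 := by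
  have h1 := q.finrank_add_finrank_orthogonal
  rw [hq] at h1
  simp only [finrank_euclideanSpace, Fintype.card_fin] at h1
  have h2 : qᗮ ≠ ⊥ := by
    intro h0
    rw [h0, finrank_bot] at h1
    omega
  obtain ⟨d, hd, hd0⟩ := Submodule.exists_mem_ne_zero_of_ne_bot h2
  have hn : ‖d‖ ≠ 0 := norm_ne_zero_iff.2 hd0
  set v : E3 := ‖d‖⁻¹ • d with hv
  have hvq : v ∈ qᗮ := Submodule.smul_mem _ _ hd
  have hvv : ⟪v, v⟫ = 1 := by
    rw [hv, inner_smul_left, inner_smul_right, real_inner_self_eq_norm_sq, RCLike.conj_to_real]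
    field_simp
  have hv0 : v ≠ 0 := by
    intro h0; rw [h0, inner_zero_left] at hvv; norm_num at hvv
  have hle : q ≤ (ℝ ∙ v)ᗮ := by
    intro w hw
    rw [Submodule.mem_orthogonal_singleton_iff_inner_left]
    exact (Submodule.mem_orthogonal _ _).1 hvq w hw
  have heq : q = (ℝ ∙ v)ᗮ :=
    Submodule.eq_of_le_of_finrank_eq hle (by rw [hq, finrank_orth_v hv0])
  refine ⟨v, hvv, fun w => ?_⟩
  rw [heq, Submodule.mem_orthogonal_singleton_iff_inner_left]

theorem finrank_planes {a : ι → E3} (h : PI a) {I : Finset ι} {q : Submodule ℝ E3}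
    (hq : q ∈ planes a I) : Module.finrank ℝ q = 2 := by
  obtain ⟨i, -, j, -, hij, rfl⟩ := mem_planes.1 hq
  exact finrank_pl h hij

theorem card_KK_eq_mult {a : ι → E3} {v : E3} {q : Submodule ℝ E3}
    (hv : ∀ w, w ∈ q ↔ ⟪w, v⟫ = 0) : (KK a v).card = mult a Finset.univ q := by
  classical
  unfold mult
  congr 1
  ext i
  rw [mem_KK, Finset.mem_filter]
  simp [hv]

/-- **(C1)**: a vertex of multiplicity `k` forces many triangles. -/
theorem c1 {a : ι → E3} (h : IsArr a) {q : Submodule ℝ E3} (hq : q ∈ planes a Finset.univ)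
    (hk : 3 ≤ mult a Finset.univ q) (hM : mult a Finset.univ q + 2 ≤ Fintype.card ι) :
    2 * (Fintype.card ι + mult a Finset.univ q) ≤ tri a + 4 := by
  classical
  obtain ⟨v, hvv, hv⟩ := exists_normal (finrank_planes h.indep hq)
  have hK := card_KK_eq_mult (a := a) hv
  have h1 := (cen_nrm h hvv).c1 (by rw [KK_nrm, hK]; exact hk) (by
    rw [KK_nrm, Finset.card_compl, hK]; omega)
  rw [KK_nrm, hK, tri_scale (nrm_ne a v)] at h1
  exact h1

theorem T3_filter_scale {a : ι → E3} {c : ι → ℝ} (hc : ∀ i, c i ≠ 0) (i : ι) :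
    ((T3 (fun i => c i • a i)).filter (fun S => i ∈ walls (fun i => c i • a i) S)).card =
      ((T3 a).filter (fun S => i ∈ walls a S)).card := by
  classical
  refine Finset.card_bij (fun S _ => symmDiff S (negs c)) ?_ ?_ ?_
  · intro S hS
    rw [Finset.mem_filter, mem_T3] at hS ⊢
    rw [isTope_scale hc, walls_scale hc] at hS
    exact hS
  · intro S _ S' _ h
    exact symmDiff_left_injective _ h
  · intro S hS
    refine ⟨symmDiff S (negs c), ?_, ?_⟩
    · rw [Finset.mem_filter, mem_T3] at hS ⊢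
      rw [isTope_scale hc, walls_scale hc, symmDiff_symmDiff_cancel_right]
      exact hS
    · rw [symmDiff_symmDiff_cancel_right]

/-- number of triangular cells with wall `i` -/
noncomputable def tw (a : ι → E3) (i : ι) : ℕ := ((T3 a).filter (fun S => i ∈ walls a S)).card

theorem sum_tw (a : ι → E3) : ∑ i, tw a i = 3 * tri a := by
  classical
  unfold tw
  simp only [Finset.card_filter]
  rw [Finset.sum_comm, tri_eq, mul_comm, ← smul_eq_mul, ← Finset.sum_const]
  refine Finset.sum_congr rfl fun S hS => ?_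
  rw [← Finset.card_filter]
  have h1 : Finset.univ.filter (fun i => i ∈ walls a S) = walls a S := by ext i; simp
  rw [h1, (mem_T3.1 hS).2]

open Classical in
/-- the indices of the lines through the vertex `q` -/
noncomputable def onq (a : ι → E3) (q : Submodule ℝ E3) : Finset ι :=
  Finset.univ.filter (fun i => a i ∈ q)

theorem mem_onq {a : ι → E3} {q : Submodule ℝ E3} {i : ι} : i ∈ onq a q ↔ a i ∈ q := by
  unfold onq; simp

theorem card_onq (a : ι → E3) (q : Submodule ℝ E3) : (onq a q).card = mult a Finset.univ q := rfl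

/-- **(V)** for all arrangements. -/
theorem sum_tw_vertex {a : ι → E3} (h : IsArr a) {q : Submodule ℝ E3}
    (hq : q ∈ planes a Finset.univ) (hM : mult a Finset.univ q < Fintype.card ι) :
    8 * mult a Finset.univ q ≤ (∑ i ∈ onq a q, tw a i) + 4 := by
  classical
  obtain ⟨v, hvv, hv⟩ := exists_normal (finrank_planes h.indep hq)
  have hK := card_KK_eq_mult (a := a) hv
  have hex : ∃ b, b ∉ KK a v := by
    by_contra hcon
    push Not at hcon
    have : KK a v = Finset.univ := by ext i; simp [hcon i]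
    rw [this, Finset.card_univ] at hK
    omega
  have h1 := (cen_nrm h hvv).sumV (by rw [KK_nrm, hK]; exact two_le_mult hq)
    (by rw [KK_nrm]; exact hex)
  rw [KK_nrm, hK] at h1
  have h2 : ∑ S ∈ T3 (fun i => nrm a v i • a i),
      (walls (fun i => nrm a v i • a i) S ∩ KK a v).card = ∑ i ∈ KK a v, tw a i := by
    have h3 : ∀ i ∈ KK a v, tw a i = ((T3 (fun i => nrm a v i • a i)).filter
        (fun S => i ∈ walls (fun i => nrm a v i • a i) S)).card := fun i _ =>
      (T3_filter_scale (nrm_ne a v) i).symm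
    rw [Finset.sum_congr rfl h3]
    simp only [Finset.card_filter]
    rw [Finset.sum_comm]
    refine Finset.sum_congr rfl fun S _ => ?_
    rw [← Finset.card_filter]
    congr 1
    ext z
    rw [Finset.mem_filter, Finset.mem_inter]
    tauto
  rw [h2] at h1
  have h4 : KK a v = onq a q := by
    ext i
    rw [mem_KK, mem_onq, hv]
  rw [← h4]
  exact h1

end Pool.Agent.helper50.Zono
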