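import Pool.Agent.helper50.Zono.Belt

/-!
# From polyhedra with centrally symmetric faces to arrangements
-/

open scoped RealInnerProductSpace

namespace Pool.Agent.helper50.Zono

/-- representatives of directions -/
theorem exists_reps (T : Finset E3) (hT : ∀ x ∈ T, x ≠ 0) :
    ∃ T' ⊆ T, (∀ x ∈ T, ∃ y ∈ T', ∃ t : ℝ, t ≠ 0 ∧ x = t • y) ∧
      ∀ x ∈ T', ∀ y ∈ T', x ≠ y → LinearIndependent ℝ ![x, y] := by
  classical
  induction T using Finset.induction_on with
  | empty => exact ⟨∅, by simp, by simp, by simp⟩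
  | insert x T hx ih =>
    obtain ⟨T', hsub, h1, h2⟩ := ih (fun y hy => hT y (Finset.mem_insert_of_mem hy))
    by_cases hpar : ∃ y ∈ T', ∃ t : ℝ, t ≠ 0 ∧ x = t • y
    · refine ⟨T', hsub.trans (Finset.subset_insert _ _), ?_, h2⟩
      intro z hz
      rcases Finset.mem_insert.1 hz with rfl | hz
      · exact hpar
      · exact h1 z hz
    · refine ⟨insert x T', Finset.insert_subset_insert _ hsub, ?_, ?_⟩
      · intro z hz
        rcases Finset.mem_insert.1 hz with rfl | hz
        · exact ⟨z, Finset.mem_insert_self _ _, 1, one_ne_zero, by rw [one_smul]⟩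
        · obtain ⟨y, hy, ht⟩ := h1 z hz
          exact ⟨y, Finset.mem_insert_of_mem hy, ht⟩
      · have hx0 : x ≠ 0 := hT x (Finset.mem_insert_self _ _)
        have key : ∀ y ∈ T', LinearIndependent ℝ ![x, y] := by
          intro y hy
          have hy0 : y ≠ 0 := hT y (Finset.mem_insert_of_mem (hsub hy))
          rw [LinearIndependent.pair_iff' hx0]
          intro t ht
          apply hpar
          have ht0 : t ≠ 0 := by
            rintro rfl
            rw [zero_smul] at ht
            exact hy0 ht.symm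
          exact ⟨y, hy, t⁻¹, inv_ne_zero ht0, by rw [← ht, smul_smul, inv_mul_cancel₀ ht0, one_smul]⟩
        intro y hy z hz hne
        rcases Finset.mem_insert.1 hy with h3 | hy'
        · rcases Finset.mem_insert.1 hz with h4 | hz'
          · exact absurd (h3.trans h4.symm) hne
          · rw [h3]; exact key z hz'
        · rcases Finset.mem_insert.1 hz with h4 | hz'
          · rw [h4]
            have := key y hy'
            rw [LinearIndependent.pair_symm_iff] at this
            exact this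
          · exact h2 y hy' z hz' hne

theorem exists_dirs (V : Finset E3) : ∃ (N : ℕ) (a : Fin N → E3),
    (∀ k, ∃ v w, Edge V v w ∧ v ∈ V ∧ w ∈ V ∧ a k = v - w) ∧
    (∀ v w, Edge V v w → ∃ k, ∃ t : ℝ, t ≠ 0 ∧ v - w = t • a k) ∧
    ∀ j k, j ≠ k → LinearIndependent ℝ ![a j, a k] := by
  classical
  set T : Finset E3 := ((V ×ˢ V).filter (fun x => Edge V x.1 x.2)).image (fun x => x.1 - x.2)
    with hT
  have hT0 : ∀ x ∈ T, x ≠ 0 := by
    intro x hx
    rw [hT, Finset.mem_image] at hx
    obtain ⟨⟨v, w⟩, hvw, rfl⟩ := hx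
    rw [Finset.mem_filter] at hvw
    exact sub_ne_zero.2 hvw.2.1
  obtain ⟨T', hsub, h1, h2⟩ := exists_reps T hT0
  refine ⟨T'.card, fun k => (T'.equivFin.symm k : E3), ?_, ?_, ?_⟩
  · intro k
    have hk : ((T'.equivFin.symm k : T') : E3) ∈ T := hsub (T'.equivFin.symm k).2
    rw [hT, Finset.mem_image] at hk
    obtain ⟨⟨v, w⟩, hvw, hk⟩ := hk
    rw [Finset.mem_filter, Finset.mem_product] at hvw
    exact ⟨v, w, hvw.2, hvw.1.1, hvw.1.2, hk.symm⟩
  · intro v w hE
    obtain ⟨hne, u, hu⟩ := hE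
    have hv : v ∈ V := M_subset V u (by rw [hu]; simp)
    have hw : w ∈ V := M_subset V u (by rw [hu]; simp)
    have hmem : v - w ∈ T := by
      rw [hT, Finset.mem_image]
      exact ⟨(v, w), Finset.mem_filter.2 ⟨Finset.mem_product.2 ⟨hv, hw⟩, hne, u, hu⟩, rfl⟩
    obtain ⟨y, hy, t, ht, hxy⟩ := h1 _ hmem
    refine ⟨T'.equivFin ⟨y, hy⟩, t, ht, ?_⟩
    simpa using hxy
  · intro j k hjk
    refine h2 _ (T'.equivFin.symm j).2 _ (T'.equivFin.symm k).2 ?_
    intro h
    exact hjk (T'.equivFin.symm.injective (Subtype.ext h))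

/-- the standing assumptions -/
structure Setup (V : Finset E3) {N : ℕ} (a : Fin N → E3) : Prop where
  conv : ConvPos V
  symm : FacetSymm V
  full : Module.finrank ℝ (vectorSpan ℝ (V : Set E3)) = 3
  dir : ∀ k, ∃ v w, Edge V v w ∧ ∃ t : ℝ, t ≠ 0 ∧ a k = t • (v - w)
  edge : ∀ v w, Edge V v w → ∃ k, ∃ t : ℝ, t ≠ 0 ∧ v - w = t • a k
  indep : ∀ j k, j ≠ k → LinearIndependent ℝ ![a j, a k]

namespace Setup

variable {V : Finset E3} {N : ℕ} {a : Fin N → E3} (h : Setup V a)
include h

theorem ne : V.Nonempty := by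
  have hfull := h.full
  rcases V.eq_empty_or_nonempty with h | h
  · rw [h, Finset.coe_empty, vectorSpan_empty, finrank_bot] at hfull
    omega
  · exact h

theorem generic {u : E3} (hu : ∀ k, ⟪a k, u⟫ ≠ 0) : ∃ v, M V u = {v} := by
  by_contra hns
  have hcard2 : 2 ≤ (M V u).card := by
    by_contra hlt2
    push Not at hlt2
    have h1 : 0 < (M V u).card := Finset.card_pos.2 (M_nonempty h.ne u)
    have : (M V u).card = 1 := by omega
    exact hns (Finset.card_eq_one.1 this)
  obtain ⟨u', v, w, hE, hM, hsub⟩ := exists_edge h.conv u hcard2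
  obtain ⟨k, t, ht, hk⟩ := h.edge v w hE
  have h1 := M_eq_val (hsub (show v ∈ M V u' by rw [hM]; simp))
    (hsub (show w ∈ M V u' by rw [hM]; simp))
  have h2 : ⟪u, v - w⟫ = 0 := by rw [inner_sub_right]; linarith
  rw [hk, inner_smul_right, real_inner_comm] at h2
  exact hu k ((mul_eq_zero.1 h2).resolve_left ht)

theorem ne_zero_of_singleton {u v : E3} (hM : M V u = {v}) : u ≠ 0 := by
  rintro rfl
  have h1 : M V 0 = V := by
    ext x
    rw [mem_M]
    simp
  have hfull := h.full
  rw [← h1, hM, Finset.coe_singleton, vectorSpan_singleton, finrank_bot] at hfull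
  omega

theorem exists_of_perp {u : E3} (hu : u ≠ 0) {k : Fin N} (hk : ⟪a k, u⟫ = 0) :
    ∃ p q, Edge V p q ∧ p ∈ M V u ∧ q ∈ M V u ∧ ∃ t : ℝ, p - q = t • a k := by
  obtain ⟨v, w, hE, t, ht, hak⟩ := h.dir k
  have hperp : ⟪u, v - w⟫ = 0 := by
    rw [hak, inner_smul_left, real_inner_comm] at hk
    exact (mul_eq_zero.1 hk).resolve_left (by simpa using ht)
  obtain ⟨p, q, h1, h2, h3, s, hs⟩ := belt h.conv h.symm h.full hE hu hperp
  refine ⟨p, q, h1, h2, h3, s * t⁻¹, ?_⟩
  rw [hs, hak, smul_smul, mul_assoc, inv_mul_cancel₀ ht, mul_one]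

theorem generic_of_singleton {u v : E3} (hM : M V u = {v}) (k : Fin N) : ⟪a k, u⟫ ≠ 0 := by
  intro hk
  obtain ⟨p, q, hE, hp, hq, -⟩ := h.exists_of_perp (h.ne_zero_of_singleton hM) hk
  rw [hM, Finset.mem_singleton] at hp hq
  exact hE.1 (hp.trans hq.symm)

theorem sign_of_singleton {u u' v : E3} (hM : M V u = {v}) (hM' : M V u' = {v}) (k : Fin N) :
    0 < ⟪a k, u⟫ ↔ 0 < ⟪a k, u'⟫ := by
  have key : ∀ u u' : E3, M V u = {v} → M V u' = {v} → 0 < ⟪a k, u⟫ → 0 < ⟪a k, u'⟫ := by
    intro u u' hM hM' hpos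
    by_contra hneg
    have hneg' : ⟪a k, u'⟫ < 0 :=
      lt_of_le_of_ne (not_lt.1 hneg) (h.generic_of_singleton hM' k)
    have h1 := M_singleton_combo hM hM' (s := -⟪a k, u'⟫) (t := ⟪a k, u⟫) (by linarith)
      hpos.le (by linarith)
    refine h.generic_of_singleton h1 k ?_
    rw [inner_add_right, inner_smul_right, inner_smul_right]; ring
  exact ⟨key u u' hM hM', key u' u hM' hM⟩

/-- generic vectors with the same signs have the same maximizer -/
theorem same_of_sign {u u' : E3} (hu : ∀ k, ⟪a k, u⟫ ≠ 0)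
    (hs : ∀ k, 0 < ⟪a k, u⟫ * ⟪a k, u'⟫) {v : E3} (hM : M V u = {v}) : M V u' = {v} := by
  set S : Set E3 := {x | ∀ k, 0 < ⟪a k, u⟫ * ⟪a k, x⟫} with hS
  have hconv : Convex ℝ S := by
    intro x hx y hy s t hs ht hst k
    have h1 := hx k
    have h2 := hy k
    simp only [inner_add_right, inner_smul_right]
    rcases hs.eq_or_lt with h0 | h0
    · rw [← h0] at hst ⊢
      have : t = 1 := by linarith
      rw [this]; simpa using h2
    · have h3 : 0 ≤ t * (⟪a k, u⟫ * ⟪a k, y⟫) := mul_nonneg ht h2.le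
      have h4 : 0 < s * (⟪a k, u⟫ * ⟪a k, x⟫) := mul_pos h0 h1
      nlinarith
  refine const_of_singletons h.ne hconv.isPreconnected (fun w hw => ?_) (w := u) ?_ hM u' hs
  · refine h.generic fun k hk => ?_
    have := hw k
    rw [hk, mul_zero] at this
    exact lt_irrefl _ this
  · intro k
    exact mul_self_pos.2 (hu k)

/-- a functional with unique maximizer `v` -/
theorem exU {v : E3} (hv : v ∈ V) : ∃ u, M V u = {v} := exists_M_eq_singleton h.conv hv

omit h in
open Classical in
/-- positive indices of a vector -/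
noncomputable def pos {N : ℕ} (a : Fin N → E3) (u : E3) : Finset (Fin N) :=
  Finset.univ.filter (fun k => 0 < ⟪a k, u⟫)

omit h in
theorem mem_pos {u : E3} {k : Fin N} : k ∈ pos a u ↔ 0 < ⟪a k, u⟫ := by
  classical
  simp [pos]

theorem pos_eq_of_singleton {u u' v : E3} (hM : M V u = {v}) (hM' : M V u' = {v}) :
    pos a u = pos a u' := by
  ext k
  rw [mem_pos, mem_pos]
  exact h.sign_of_singleton hM hM' k

theorem isTope_pos {u v : E3} (hM : M V u = {v}) : IsTope a (pos a u) := by
  refine ⟨u, fun i hi => mem_pos.1 hi, fun i hi => ?_⟩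
  rw [mem_pos, not_lt] at hi
  exact lt_of_le_of_ne hi (h.generic_of_singleton hM i)

omit h in
theorem tope_generic {S : Finset (Fin N)} {x : E3} (h1 : ∀ i ∈ S, 0 < ⟪a i, x⟫)
    (h2 : ∀ i ∉ S, ⟪a i, x⟫ < 0) : (∀ k, ⟪a k, x⟫ ≠ 0) ∧ pos a x = S := by
  constructor
  · intro k
    by_cases hk : k ∈ S
    · exact (h1 k hk).ne'
    · exact (h2 k hk).ne
  · ext k
    rw [mem_pos]
    constructor
    · intro hk
      by_contra hn
      exact absurd hk (not_lt.2 (h2 k hn).le)
    · exact h1 k

theorem eq_of_pos_eq {u u' v v' : E3} (hM : M V u = {v}) (hM' : M V u' = {v'})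
    (hp : pos a u = pos a u') : v = v' := by
  have h1 : M V u' = {v} := by
    refine h.same_of_sign (h.generic_of_singleton hM) (fun k => ?_) hM
    have g1 := h.generic_of_singleton hM k
    have g2 := h.generic_of_singleton hM' k
    have h3 : 0 < ⟪a k, u⟫ ↔ 0 < ⟪a k, u'⟫ := by rw [← mem_pos, ← mem_pos, hp]
    rcases lt_or_gt_of_ne g1 with h4 | h4
    · have h5 : ⟪a k, u'⟫ < 0 := by
        refine lt_of_le_of_ne (not_lt.1 fun h6 => ?_) g2
        exact absurd (h3.2 h6) (not_lt.2 h4.le)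
      exact mul_pos_of_neg_of_neg h4 h5
    · exact mul_pos h4 (h3.1 h4)
  rw [hM'] at h1
  exact (Finset.singleton_injective h1).symm

/-- the tope of a vertex -/
noncomputable def Phi (v : E3) : Finset (Fin N) :=
  open Classical in if hv : v ∈ V then pos a (h.exU hv).choose else ∅

theorem Phi_eq {v u : E3} (hM : M V u = {v}) : h.Phi v = pos a u := by
  have hv : v ∈ V := M_subset V u (by rw [hM]; simp)
  unfold Phi
  rw [dif_pos hv]
  exact h.pos_eq_of_singleton (h.exU hv).choose_spec hM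

theorem Phi_tope {v : E3} (hv : v ∈ V) : IsTope a (h.Phi v) := by
  obtain ⟨u, hu⟩ := h.exU hv
  rw [h.Phi_eq hu]
  exact h.isTope_pos hu

theorem Phi_inj {v w : E3} (hv : v ∈ V) (hw : w ∈ V) (he : h.Phi v = h.Phi w) : v = w := by
  obtain ⟨u, hu⟩ := h.exU hv
  obtain ⟨u', hu'⟩ := h.exU hw
  rw [h.Phi_eq hu, h.Phi_eq hu'] at he
  exact h.eq_of_pos_eq hu hu' he

theorem Phi_surj {S : Finset (Fin N)} (hS : IsTope a S) : ∃ v ∈ V, h.Phi v = S := by
  obtain ⟨x, h1, h2⟩ := hS
  obtain ⟨hg, hp⟩ := tope_generic h1 h2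
  obtain ⟨v, hv⟩ := h.generic hg
  exact ⟨v, M_subset V x (by rw [hv]; simp), by rw [h.Phi_eq hv, hp]⟩

theorem card_topes : (topes a).card = V.card := by
  classical
  symm
  refine Finset.card_bij (fun v _ => h.Phi v) ?_ ?_ ?_
  · intro v hv
    rw [topes, Finset.mem_filter]
    exact ⟨Finset.mem_univ _, h.Phi_tope hv⟩
  · intro v hv w hw he
    exact h.Phi_inj hv hw he
  · intro S hS
    rw [topes, Finset.mem_filter] at hS
    obtain ⟨v, hv, he⟩ := h.Phi_surj hS.2
    exact ⟨v, hv, he⟩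

/-- an edge gives a wall -/
theorem wall_of_edge {v w : E3} (hE : Edge V v w) : ∃ k, h.Phi w = symmDiff (h.Phi v) {k} := by
  obtain ⟨k, t, ht, hk⟩ := h.edge v w hE
  obtain ⟨hvw, u, hM⟩ := hE
  have hu0 : u ≠ 0 := by
    rintro rfl
    have h1 : M V 0 = V := by
      ext x
      rw [mem_M]
      simp
    have hfull := h.full
    have h2 : (V : Set E3) = {v, w} := by rw [← h1, hM]; simp
    rw [h2, finrank_pair hvw] at hfull
    omega
  have hvM : v ∈ M V u := by rw [hM]; simp
  have hwM : w ∈ M V u := by rw [hM]; simp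
  have hgen : ∀ j, j ≠ k → ⟪a j, u⟫ ≠ 0 := by
    intro j hj hju
    obtain ⟨p, q, hE', hp, hq, s, hs⟩ := h.exists_of_perp hu0 hju
    have hs0 : s ≠ 0 := by
      rintro rfl
      rw [zero_smul, sub_eq_zero] at hs
      exact hE'.1 hs
    have hpar : ∃ r : ℝ, p - q = r • a k := by
      rw [hM, Finset.mem_insert, Finset.mem_singleton] at hp hq
      rcases hp with rfl | rfl
      · rcases hq with rfl | rfl
        · exact absurd rfl hE'.1
        · exact ⟨t, hk⟩
      · rcases hq with rfl | rfl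
        · exact ⟨-t, by rw [neg_smul, ← hk]; abel⟩
        · exact absurd rfl hE'.1
    obtain ⟨r, hr⟩ := hpar
    have hli := h.indep j k hj
    rw [LinearIndependent.pair_iff] at hli
    have h5 : s • a j + (-r) • a k = 0 := by rw [neg_smul, ← hs, ← hr]; abel
    exact hs0 (hli s (-r) h5).1
  have hku : ⟪a k, u⟫ = 0 := by
    have h1 := M_eq_val hvM hwM
    have h2 : ⟪u, v - w⟫ = 0 := by rw [inner_sub_right]; linarith
    rw [hk, inner_smul_right, real_inner_comm] at h2
    exact (mul_eq_zero.1 h2).resolve_left ht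
  have hvw2 : 0 < ⟪v - w, v - w⟫ := by
    rw [real_inner_self_eq_norm_sq]
    have : 0 < ‖v - w‖ := norm_pos_iff.2 (sub_ne_zero.2 hvw)
    positivity
  have hMv : M (M V u) (v - w) = {v} := by
    ext x
    rw [hM, mem_M, Finset.mem_insert, Finset.mem_singleton, Finset.mem_singleton]
    rw [inner_sub_right] at hvw2
    constructor
    · rintro ⟨rfl | rfl, h2⟩
      · rfl
      · have := h2 v (by simp)
        linarith
    · rintro rfl
      refine ⟨Or.inl rfl, fun z hz => ?_⟩
      rw [Finset.mem_insert, Finset.mem_singleton] at hz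
      rcases hz with rfl | rfl
      · exact le_refl _
      · linarith
  have hMw : M (M V u) (w - v) = {w} := by
    ext x
    rw [hM, mem_M, Finset.mem_insert, Finset.mem_singleton]
    have hwv2 : 0 < ⟪w - v, w - v⟫ := by
      have : w - v = -(v - w) := by abel
      rw [this, inner_neg_neg]; exact hvw2
    rw [inner_sub_right] at hwv2
    constructor
    · rintro ⟨rfl | rfl, h2⟩
      · have := h2 w (by simp)
        linarith
      · rfl
    · rintro rfl
      refine ⟨Or.inr rfl, fun z hz => ?_⟩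
      rw [Finset.mem_insert, Finset.mem_singleton] at hz
      rcases hz with rfl | rfl
      · linarith
      · exact le_refl _
  -- signs of the perturbed vectors
  have hsign : ∀ z : E3, ∀ᶠ ε in nhdsWithin (0 : ℝ) (Set.Ioi 0), ∀ j, j ≠ k →
      (0 < ⟪a j, u + ε • z⟫ ↔ 0 < ⟪a j, u⟫) := by
    intro z
    rw [Filter.eventually_all]
    intro j
    by_cases hj : j = k
    · simp [hj]
    · have hcont : Filter.Tendsto (fun ε : ℝ => ⟪a j, u + ε • z⟫) (nhdsWithin 0 (Set.Ioi 0))
          (nhds ⟪a j, u⟫) := by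
        have : Filter.Tendsto (fun ε : ℝ => ⟪a j, u + ε • z⟫) (nhds 0)
            (nhds ⟪a j, u + (0:ℝ) • z⟫) := by
          apply Continuous.tendsto
          fun_prop
        rw [zero_smul, add_zero] at this
        exact this.mono_left nhdsWithin_le_nhds
      rcases lt_or_gt_of_ne (hgen j hj) with h3 | h3
      · filter_upwards [hcont.eventually (gt_mem_nhds h3)] with ε hε _
        exact ⟨fun h4 => absurd h4 (not_lt.2 hε.le), fun h4 => absurd h4 (not_lt.2 h3.le)⟩
      · filter_upwards [hcont.eventually (lt_mem_nhds h3)] with ε hε _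
        exact ⟨fun _ => h3, fun _ => hε⟩
  obtain ⟨ε, ⟨⟨hε1, hε2⟩, hε3⟩⟩ := (((eventually_perturb h.ne u (v - w)).and (hsign (v - w))).and
    self_mem_nhdsWithin).exists
  obtain ⟨δ, ⟨⟨hδ1, hδ2⟩, hδ3⟩⟩ := (((eventually_perturb h.ne u (w - v)).and (hsign (w - v))).and
    self_mem_nhdsWithin).exists
  have hε3 : 0 < ε := hε3
  have hδ3 : 0 < δ := hδ3
  rw [hMv] at hε1
  rw [hMw] at hδ1
  refine ⟨k, ?_⟩
  rw [h.Phi_eq hε1, h.Phi_eq hδ1]
  have hakak : 0 < ⟪a k, a k⟫ := by
    rw [real_inner_self_eq_norm_sq]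
    have : 0 < ‖a k‖ := by
      rw [norm_pos_iff]
      intro h0
      rw [h0, smul_zero, sub_eq_zero] at hk
      exact hvw hk
    positivity
  have e1 : ⟪a k, u + ε • (v - w)⟫ = ε * (t * ⟪a k, a k⟫) := by
    rw [hk, inner_add_right, hku, inner_smul_right, inner_smul_right, zero_add]
  have e2 : ⟪a k, u + δ • (w - v)⟫ = - (δ * (t * ⟪a k, a k⟫)) := by
    have : w - v = -(t • a k) := by rw [← hk]; abel
    rw [this, inner_add_right, hku, inner_smul_right, inner_neg_right, inner_smul_right, zero_add]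
    ring
  ext j
  rw [Finset.mem_symmDiff, Finset.mem_singleton, mem_pos, mem_pos]
  by_cases hj : j = k
  · subst hj
    rw [e1, e2]
    have hprod : 0 < ⟪a j, a j⟫ := hakak
    rcases lt_or_gt_of_ne ht with h3 | h3
    · have h4 : ε * (t * ⟪a j, a j⟫) < 0 :=
        mul_neg_of_pos_of_neg hε3 (mul_neg_of_neg_of_pos h3 hprod)
      have h5 : δ * (t * ⟪a j, a j⟫) < 0 :=
        mul_neg_of_pos_of_neg hδ3 (mul_neg_of_neg_of_pos h3 hprod)
      constructor
      · intro _; exact Or.inr ⟨rfl, not_lt.2 h4.le⟩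
      · intro _; linarith
    · have h4 : 0 < ε * (t * ⟪a j, a j⟫) := mul_pos hε3 (mul_pos h3 hprod)
      have h5 : 0 < δ * (t * ⟪a j, a j⟫) := mul_pos hδ3 (mul_pos h3 hprod)
      constructor
      · intro h6; linarith
      · rintro (⟨_, h7⟩ | ⟨_, h7⟩)
        · exact absurd rfl h7
        · exact absurd h4 h7
  · rw [hε2 j hj, hδ2 j hj]
    simp [hj]

/-- a wall gives an edge -/
theorem edge_of_wall {v w : E3} (hv : v ∈ V) (hw : w ∈ V) {k : Fin N}
    (hk : h.Phi w = symmDiff (h.Phi v) {k}) : Edge V v w := by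
  obtain ⟨u, hu⟩ := h.exU hv
  obtain ⟨u', hu'⟩ := h.exU hw
  rw [h.Phi_eq hu, h.Phi_eq hu'] at hk
  have hvw : v ≠ w := by
    rintro rfl
    have h1 := h.pos_eq_of_singleton hu hu'
    rw [h1] at hk
    have : ({k} : Finset (Fin N)) = ∅ := by
      have h2 : symmDiff (pos a u') (symmDiff (pos a u') {k}) = symmDiff (pos a u') (pos a u') := by
        rw [← hk]
      rw [symmDiff_symmDiff_cancel_left, symmDiff_self] at h2
      exact h2
    exact absurd this (Finset.singleton_ne_empty k)
  have g1 := h.generic_of_singleton hu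
  have g2 := h.generic_of_singleton hu'
  have hkk : ⟪a k, u⟫ * ⟪a k, u'⟫ < 0 := by
    have h3 : (0 < ⟪a k, u'⟫) ↔ ¬ (0 < ⟪a k, u⟫) := by
      rw [← mem_pos, ← mem_pos, hk, Finset.mem_symmDiff, Finset.mem_singleton]
      tauto
    rcases lt_or_gt_of_ne (g1 k) with h4 | h4
    · exact mul_neg_of_neg_of_pos h4 (h3.2 (not_lt.2 h4.le))
    · have : ⟪a k, u'⟫ < 0 := lt_of_le_of_ne (not_lt.1 fun h5 => (h3.1 h5) h4) (g2 k)
      exact mul_neg_of_pos_of_neg h4 this
  have hjj : ∀ j, j ≠ k → 0 < ⟪a j, u⟫ * ⟪a j, u'⟫ := by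
    intro j hj
    have h3 : (0 < ⟪a j, u'⟫) ↔ (0 < ⟪a j, u⟫) := by
      rw [← mem_pos, ← mem_pos, hk, Finset.mem_symmDiff, Finset.mem_singleton]
      tauto
    rcases lt_or_gt_of_ne (g1 j) with h4 | h4
    · have : ⟪a j, u'⟫ < 0 :=
        lt_of_le_of_ne (not_lt.1 fun h5 => absurd (h3.1 h5) (not_lt.2 h4.le)) (g2 j)
      exact mul_pos_of_neg_of_neg h4 this
    · exact mul_pos h4 (h3.2 h4)
  -- the point on the wall
  set α := |⟪a k, u'⟫| with hα
  set β := |⟪a k, u⟫| with hβ
  have hα0 : 0 < α := abs_pos.2 (g2 k)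
  have hβ0 : 0 < β := abs_pos.2 (g1 k)
  set z := α • u + β • u' with hz
  have hzk : ⟪a k, z⟫ = 0 := by
    rw [hz, inner_add_right, inner_smul_right, inner_smul_right, hα, hβ]
    rcases lt_or_gt_of_ne (g1 k) with h4 | h4
    · have h5 : 0 < ⟪a k, u'⟫ := by nlinarith
      rw [abs_of_neg h4, abs_of_pos h5]; ring
    · have h5 : ⟪a k, u'⟫ < 0 := by nlinarith
      rw [abs_of_pos h4, abs_of_neg h5]; ring
  have hzj : ∀ j, j ≠ k → 0 < ⟪a j, u⟫ * ⟪a j, z⟫ ∧ 0 < ⟪a j, u'⟫ * ⟪a j, z⟫ := by
    intro j hj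
    have h1 := hjj j hj
    have h2 : 0 < ⟪a j, u⟫ * ⟪a j, u⟫ := mul_self_pos.2 (g1 j)
    have h3 : 0 < ⟪a j, u'⟫ * ⟪a j, u'⟫ := mul_self_pos.2 (g2 j)
    rw [hz, inner_add_right, inner_smul_right, inner_smul_right]
    constructor
    · have h4 := mul_pos hα0 h2
      have h5 := mul_pos hβ0 h1
      nlinarith
    · have h4 := mul_pos hα0 h1
      have h5 := mul_pos hβ0 h3
      nlinarith
  have hlim : ∀ x y : E3, M V x = {y} → (∀ j, j ≠ k → 0 < ⟪a j, x⟫ * ⟪a j, z⟫) → y ∈ M V z := by
    intro x y hx hpos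
    have gx := h.generic_of_singleton hx
    have hcl := isClosed_mem_M V y
    have ht : Filter.Tendsto (fun ε : ℝ => z + ε • x) (nhdsWithin 0 (Set.Ioi 0)) (nhds z) := by
      have : Filter.Tendsto (fun ε : ℝ => z + ε • x) (nhds 0) (nhds (z + (0:ℝ) • x)) := by
        apply Continuous.tendsto
        fun_prop
      rw [zero_smul, add_zero] at this
      exact this.mono_left nhdsWithin_le_nhds
    refine hcl.mem_of_tendsto ht ?_
    filter_upwards [self_mem_nhdsWithin] with ε hε
    have hε : 0 < ε := hε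
    have : M V (z + ε • x) = {y} := by
      refine h.same_of_sign gx (fun j => ?_) hx
      rw [inner_add_right, inner_smul_right]
      have hxx : 0 < ⟪a j, x⟫ * ⟪a j, x⟫ := mul_self_pos.2 (gx j)
      by_cases hj : j = k
      · subst hj
        rw [hzk]
        have := mul_pos hε hxx
        nlinarith
      · have h1 := hpos j hj
        have := mul_pos hε hxx
        nlinarith
    simp only [this]
    simp
  have hvM : v ∈ M V z := hlim u v hu fun j hj => (hzj j hj).1
  have hwM : w ∈ M V z := hlim u' w hu' fun j hj => (hzj j hj).2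
  have hcard2 : 2 ≤ (M V z).card := by
    have : ({v, w} : Finset E3) ⊆ M V z := by
      intro x hx
      rw [Finset.mem_insert, Finset.mem_singleton] at hx
      rcases hx with rfl | rfl
      · exact hvM
      · exact hwM
    calc 2 = ({v, w} : Finset E3).card := (Finset.card_pair hvw).symm
      _ ≤ _ := Finset.card_le_card this
  have hcard := card_eq_two_of_edges_parallel h.conv z (a k) hcard2 (by
    intro p q hE hp hq
    obtain ⟨j, t, ht, hpq⟩ := h.edge p q hE
    have h1 := M_eq_val hp hq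
    have h2 : ⟪z, p - q⟫ = 0 := by rw [inner_sub_right]; linarith
    rw [hpq, inner_smul_right, real_inner_comm] at h2
    have h3 := (mul_eq_zero.1 h2).resolve_left ht
    by_cases hj : j = k
    · exact ⟨t, by rw [hpq, hj]⟩
    · have := (hzj j hj).1
      rw [h3, mul_zero] at this
      exact absurd this (lt_irrefl _))
  refine ⟨hvw, z, ?_⟩
  symm
  apply Finset.eq_of_subset_of_card_le
  · intro x hx
    rw [Finset.mem_insert, Finset.mem_singleton] at hx
    rcases hx with rfl | rfl
    · exact hvM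
    · exact hwM
  · rw [hcard, Finset.card_pair hvw]

open Classical in
theorem card_walls {v : E3} (hv : v ∈ V) :
    (walls a (h.Phi v)).card = (V.filter (fun w => Edge V v w)).card := by
  symm
  refine Finset.card_bij (fun w hw => (h.wall_of_edge (Finset.mem_filter.1 hw).2).choose) ?_ ?_ ?_
  · intro w hw
    have hs := (h.wall_of_edge (Finset.mem_filter.1 hw).2).choose_spec
    rw [walls, Finset.mem_filter]
    refine ⟨Finset.mem_univ _, ?_⟩
    have := h.Phi_tope (Finset.mem_filter.1 hw).1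
    rw [hs] at this
    convert this
  · intro w hw w' hw' heq
    have hs := (h.wall_of_edge (Finset.mem_filter.1 hw).2).choose_spec
    have hs' := (h.wall_of_edge (Finset.mem_filter.1 hw').2).choose_spec
    refine h.Phi_inj (Finset.mem_filter.1 hw).1 (Finset.mem_filter.1 hw').1 ?_
    rw [hs, hs', heq]
  · intro k hk
    rw [walls, Finset.mem_filter] at hk
    obtain ⟨w, hw, hPhi⟩ := h.Phi_surj hk.2
    have hPhi' : h.Phi w = symmDiff (h.Phi v) {k} := by convert hPhi
    have hE := h.edge_of_wall hv hw hPhi'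
    have hmem : w ∈ V.filter (fun w => Edge V v w) := Finset.mem_filter.2 ⟨hw, hE⟩
    refine ⟨w, hmem, ?_⟩
    have hs := (h.wall_of_edge (Finset.mem_filter.1 hmem).2).choose_spec
    have := symmDiff_right_injective _ (hPhi'.symm.trans hs)
    exact (Finset.singleton_injective this).symm

theorem tri_eq : tri a = (deg3 (convexHull ℝ (V : Set E3))) := by
  classical
  unfold deg3
  have hset : {v | v ∈ (convexHull ℝ (V : Set E3)).extremePoints ℝ ∧
      degree (convexHull ℝ (V : Set E3)) v = 3} =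
      ((V.filter (fun v => (walls a (h.Phi v)).card = 3) : Finset E3) : Set E3) := by
    ext v
    rw [Set.mem_ofPred_eq, extremePoints_hull h.conv, Finset.mem_coe, Finset.mem_coe,
      Finset.mem_filter]
    refine and_congr_right fun hv => ?_
    rw [degree_eq h.conv hv, h.card_walls hv]
  rw [hset, Set.ncard_coe_finset]
  symm
  unfold tri
  refine Finset.card_bij (fun v _ => h.Phi v) ?_ ?_ ?_
  · intro v hv
    rw [Finset.mem_filter] at hv
    rw [Finset.mem_filter, topes, Finset.mem_filter]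
    exact ⟨⟨Finset.mem_univ _, h.Phi_tope hv.1⟩, hv.2⟩
  · intro v hv w hw he
    rw [Finset.mem_filter] at hv hw
    exact h.Phi_inj hv.1 hw.1 he
  · intro S hS
    rw [Finset.mem_filter, topes, Finset.mem_filter] at hS
    obtain ⟨v, hv, he⟩ := h.Phi_surj hS.1.2
    refine ⟨v, Finset.mem_filter.2 ⟨hv, ?_⟩, he⟩
    rw [he]; exact hS.2

theorem span_top : Submodule.span ℝ (Set.range a) = ⊤ := by
  rw [← Submodule.orthogonal_eq_bot_iff, Submodule.eq_bot_iff]
  intro x hx
  have hx' : ∀ k, ⟪a k, x⟫ = 0 := fun k =>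
    (Submodule.mem_orthogonal _ _).1 hx _ (Submodule.subset_span ⟨k, rfl⟩)
  obtain ⟨v, hv⟩ := h.ne
  obtain ⟨u, hu⟩ := h.exU hv
  have hg := h.generic_of_singleton hu
  have hM : ∀ t : ℝ, M V (u + t • x) = {v} := by
    intro t
    refine h.same_of_sign hg (fun k => ?_) hu
    rw [inner_add_right, inner_smul_right, hx', mul_zero, add_zero]
    exact mul_self_pos.2 (hg k)
  have hle : ∀ w ∈ V, ∀ t : ℝ, ⟪u, w - v⟫ + t * ⟪x, w - v⟫ ≤ 0 := by
    intro w hw t
    have := (mem_M.1 (show v ∈ M V (u + t • x) by rw [hM t]; simp)).2 w hw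
    rw [inner_add_left, inner_add_left, inner_smul_left, inner_smul_left] at this
    simp only [RCLike.conj_to_real] at this
    rw [inner_sub_right, inner_sub_right]
    linarith
  have hzero : ∀ w ∈ V, ⟪x, w⟫ = ⟪x, v⟫ := by
    intro w hw
    by_contra hne
    have hne' : ⟪x, w - v⟫ ≠ 0 := by rw [inner_sub_right]; exact sub_ne_zero.2 hne
    have := hle w hw ((1 - ⟪u, w - v⟫) / ⟪x, w - v⟫)
    rw [div_mul_cancel₀ _ hne'] at this
    linarith
  have hmem : x ∈ (vectorSpan ℝ (V : Set E3))ᗮ := by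
    rw [mem_orth_vectorSpan h.ne]
    intro y hy z hz
    rw [hzero y hy, hzero z hz]
  have htop : vectorSpan ℝ (V : Set E3) = ⊤ := by
    apply Submodule.eq_top_of_finrank_eq
    rw [h.full]; simp
  rw [htop, Submodule.top_orthogonal_eq_bot] at hmem
  exact (Submodule.mem_bot ℝ).1 hmem

end Setup

/-- **Translation, first half.** -/
theorem exists_arr_of_mem {n : ℕ} {P : Set E3} (hP : P ∈ ZClass n) :
    ∃ (N : ℕ) (a : Fin N → E3), IsArr a ∧ (topes a).card = n ∧ tri a = deg3 P := by
  classical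
  obtain ⟨⟨V₀, hP₀, hint⟩, hface, hn⟩ := hP
  have hfin : (P.extremePoints ℝ).Finite := by
    rw [hP₀]
    exact V₀.finite_toSet.subset extremePoints_convexHull_subset
  set V : Finset E3 := hfin.toFinset with hV
  have hVc : (V : Set E3) = P.extremePoints ℝ := by rw [hV]; simp
  have hPconv : Convex ℝ P := by rw [hP₀]; exact convex_convexHull ℝ _
  have hPcomp : IsCompact P := by
    rw [hP₀]; exact Set.Finite.isCompact_convexHull (𝕜 := ℝ) V₀.finite_toSet
  have hPV : P = convexHull ℝ (V : Set E3) := by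
    have h1 := closure_convexHull_extremePoints hPcomp hPconv
    rw [← hVc, (Set.Finite.isCompact_convexHull (𝕜 := ℝ) V.finite_toSet).isClosed.closure_eq] at h1
    exact h1.symm
  have hconv : ConvPos V := by
    intro v hv hmem
    have hext : v ∈ P.extremePoints ℝ := by rw [← hVc]; exact hv
    have hsub : convexHull ℝ ((V : Set E3) \ {v}) ⊆ P := by
      rw [hPV]; exact convexHull_mono Set.sdiff_subset
    have hext' : v ∈ (convexHull ℝ ((V : Set E3) \ {v})).extremePoints ℝ :=
      inter_extremePoints_subset_extremePoints_of_subset hsub ⟨hmem, hext⟩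
    exact (extremePoints_convexHull_subset hext').2 rfl
  have hfull : Module.finrank ℝ (vectorSpan ℝ (V : Set E3)) = 3 := by
    have h1 : affineSpan ℝ (V : Set E3) = ⊤ := by
      rw [← interior_convexHull_nonempty_iff_affineSpan_eq_top, ← hPV]; exact hint
    rw [← direction_affineSpan, h1, AffineSubspace.direction_top]
    simp
  have hne : V.Nonempty := by
    rcases V.eq_empty_or_nonempty with h | h
    · rw [h, Finset.coe_empty, vectorSpan_empty, finrank_bot] at hfull
      omega
    · exact h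
  have hsymm : FacetSymm V := facetSymm_of hconv hne (by rw [← hPV]; exact hface)
  obtain ⟨N, a, h1, h2, h3⟩ := exists_dirs V
  have hS : Setup V a := ⟨hconv, hsymm, hfull, fun k => by
    obtain ⟨v, w, hE, _, _, hvw⟩ := h1 k
    exact ⟨v, w, hE, 1, one_ne_zero, by rw [one_smul, hvw]⟩, h2, h3⟩
  refine ⟨N, a, ⟨h3, hS.span_top⟩, ?_, ?_⟩
  · rw [hS.card_topes, ← hn, ← hVc, Set.ncard_coe_finset]
  · rw [hS.tri_eq, ← hPV]

end Pool.Agent.helper50.Zono
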