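import Pool.Agent.helper50.Zono.Walls
import Pool.Agent.helper50.Zono.Kinetic

/-!
# Triangular cells
-/

open scoped RealInnerProductSpace

set_option linter.unusedSectionVars false

namespace Pool.Agent.helper50.Zono

variable {ι : Type*} [DecidableEq ι] [Fintype ι]

theorem eq_zero_of_inner {x y z w : E3} (h : det3 x y z ≠ 0) (hx : ⟪x, w⟫ = 0) (hy : ⟪y, w⟫ = 0)
    (hz : ⟪z, w⟫ = 0) : w = 0 := by
  have h1 := congrArg (fun t => ⟪t, w⟫) (cramer x y z w)
  simp only [inner_add_left, inner_smul_left, RCLike.conj_to_real, hx, hy, hz, mul_zero,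
    add_zero] at h1
  have h2 := (mul_eq_zero.1 h1).resolve_left h
  exact inner_self_eq_zero.1 h2

/-- `P, Q, R` is a dual system of `x, y, z` (up to scaling) -/
structure Dual3 (x y z P Q R : E3) : Prop where
  xP : ⟪x, P⟫ ≠ 0
  yP : ⟪y, P⟫ = 0
  zP : ⟪z, P⟫ = 0
  xQ : ⟪x, Q⟫ = 0
  yQ : ⟪y, Q⟫ ≠ 0
  zQ : ⟪z, Q⟫ = 0
  xR : ⟪x, R⟫ = 0
  yR : ⟪y, R⟫ = 0
  zR : ⟪z, R⟫ ≠ 0

theorem Dual3.det_ne {x y z P Q R : E3} (h : Dual3 x y z P Q R) : det3 x y z ≠ 0 := by
  intro h0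
  obtain ⟨a, b, c, hne, hsum⟩ := exists_dep h0
  have hP := congrArg (fun t => ⟪t, P⟫) hsum
  have hQ := congrArg (fun t => ⟪t, Q⟫) hsum
  have hR := congrArg (fun t => ⟪t, R⟫) hsum
  simp only [inner_add_left, inner_smul_left, RCLike.conj_to_real, inner_zero_left, h.yP, h.zP,
    h.xQ, h.zQ, h.xR, h.yR, mul_zero, add_zero, zero_add] at hP hQ hR
  rcases hne with h1 | h1 | h1
  · exact h1 ((mul_eq_zero.1 hP).resolve_right h.xP)
  · exact h1 ((mul_eq_zero.1 hQ).resolve_right h.yQ)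
  · exact h1 ((mul_eq_zero.1 hR).resolve_right h.zR)

theorem Dual3.expand {x y z P Q R : E3} (h : Dual3 x y z P Q R) (w : E3) :
    w = (⟪x, w⟫ / ⟪x, P⟫) • P + (⟪y, w⟫ / ⟪y, Q⟫) • Q + (⟪z, w⟫ / ⟪z, R⟫) • R := by
  have h0 : w - ((⟪x, w⟫ / ⟪x, P⟫) • P + (⟪y, w⟫ / ⟪y, Q⟫) • Q + (⟪z, w⟫ / ⟪z, R⟫) • R) = 0 := by
    refine eq_zero_of_inner h.det_ne ?_ ?_ ?_
    · simp only [inner_sub_right, inner_add_right, inner_smul_right, h.xQ, h.xR, mul_zero,
        add_zero]
      rw [div_mul_cancel₀ _ h.xP, sub_self]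
    · simp only [inner_sub_right, inner_add_right, inner_smul_right, h.yP, h.yR, mul_zero,
        add_zero, zero_add]
      rw [div_mul_cancel₀ _ h.yQ, sub_self]
    · simp only [inner_sub_right, inner_add_right, inner_smul_right, h.zP, h.zQ, mul_zero,
        zero_add]
      rw [div_mul_cancel₀ _ h.zR, sub_self]
  exact sub_eq_zero.1 h0

theorem exists_dual {x y z : E3} (h : det3 x y z ≠ 0) {r s u : ℝ} (hr : r ≠ 0) (hs : s ≠ 0)
    (hu : u ≠ 0) : ∃ P Q R, Dual3 x y z P Q R ∧ ⟪x, P⟫ = r ∧ ⟪y, Q⟫ = s ∧ ⟪z, R⟫ = u := by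
  obtain ⟨P, h1, h2, h3⟩ := exists_point h r 0 0
  obtain ⟨Q, h4, h5, h6⟩ := exists_point h 0 s 0
  obtain ⟨R, h7, h8, h9⟩ := exists_point h 0 0 u
  exact ⟨P, Q, R, ⟨by rw [h1]; exact hr, h2, h3, h4, by rw [h5]; exact hs, h6, h7, h8,
    by rw [h9]; exact hu⟩, h1, h5, h9⟩

theorem sg_eq (S : Finset ι) (i : ι) : sg S i = 1 ∨ sg S i = -1 := by
  unfold sg; split_ifs <;> simp

theorem sg_symmDiff_self (S : Finset ι) (j : ι) : sg (symmDiff S {j}) j = - sg S j := by
  unfold sg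
  by_cases hjS : j ∈ S
  · have : j ∉ symmDiff S {j} := by
      rw [Finset.mem_symmDiff, Finset.mem_singleton]; tauto
    rw [if_neg this, if_pos hjS]
  · have : j ∈ symmDiff S {j} := by
      rw [Finset.mem_symmDiff, Finset.mem_singleton]; tauto
    rw [if_pos this, if_neg hjS]; norm_num

theorem sg_symmDiff_ne {S : Finset ι} {i j : ι} (hj : j ≠ i) : sg (symmDiff S {i}) j = sg S j := by
  unfold sg
  have : j ∈ symmDiff S {i} ↔ j ∈ S := by
    rw [Finset.mem_symmDiff, Finset.mem_singleton]; tauto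
  by_cases hjS : j ∈ S
  · rw [if_pos (this.2 hjS), if_pos hjS]
  · rw [if_neg (fun h' => hjS (this.1 h')), if_neg hjS]

/-- **Triangular cells from vertices.** -/
theorem exists_tri {a : ι → E3} (hpi : PI a) {e f g : ι} {P Q R : E3}
    (h : Dual3 (a e) (a f) (a g) P Q R)
    (hsep : ∀ d, (0 ≤ ⟪a d, P⟫ ∧ 0 ≤ ⟪a d, Q⟫ ∧ 0 ≤ ⟪a d, R⟫) ∨
      (⟪a d, P⟫ ≤ 0 ∧ ⟪a d, Q⟫ ≤ 0 ∧ ⟪a d, R⟫ ≤ 0)) :
    ∃ S, IsTope a S ∧ walls a S = {e, f, g} ∧ ∀ i, 0 < sg S i * ⟪a i, P + Q + R⟫ := by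
  classical
  have hef : e ≠ f := by
    rintro rfl; exact h.xP h.yP
  have heg : e ≠ g := by
    rintro rfl; exact h.xP h.zP
  have hfg : f ≠ g := by
    rintro rfl; exact h.yQ h.zQ
  have hne : ∀ d, a d ≠ 0 := by
    intro d
    by_cases hd : d = e
    · rw [hd]; exact hpi.ne_zero hef
    · exact hpi.ne_zero hd
  -- no index vanishes at the interior point
  have hnz : ∀ d, ⟪a d, P + Q + R⟫ ≠ 0 := by
    intro d h0
    rw [inner_add_right, inner_add_right] at h0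
    have h1 : ⟪a d, P⟫ = 0 ∧ ⟪a d, Q⟫ = 0 ∧ ⟪a d, R⟫ = 0 := by
      rcases hsep d with ⟨h1, h2, h3⟩ | ⟨h1, h2, h3⟩
      · exact ⟨by linarith, by linarith, by linarith⟩
      · exact ⟨by linarith, by linarith, by linarith⟩
    apply hne d
    have h2 := h.expand (a d)
    rw [← inner_self_eq_zero (𝕜 := ℝ)]
    nth_rewrite 2 [h2]
    rw [inner_add_right, inner_add_right, inner_smul_right, inner_smul_right, inner_smul_right,
      h1.1, h1.2.1, h1.2.2]
    ring
  set S : Finset ι := Finset.univ.filter (fun d => 0 < ⟪a d, P + Q + R⟫) with hS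
  have hsgpos : ∀ i, 0 < sg S i * ⟪a i, P + Q + R⟫ := by
    intro i
    unfold sg
    split_ifs with hi
    · rw [one_mul]; exact (Finset.mem_filter.1 hi).2
    · have : ¬ 0 < ⟪a i, P + Q + R⟫ := fun h' => hi (Finset.mem_filter.2 ⟨Finset.mem_univ _, h'⟩)
      have := lt_of_le_of_ne (not_lt.1 this) (hnz i)
      linarith
  -- weak signs at the vertices
  have hweak : ∀ i, 0 ≤ sg S i * ⟪a i, P⟫ ∧ 0 ≤ sg S i * ⟪a i, Q⟫ ∧ 0 ≤ sg S i * ⟪a i, R⟫ := by
    intro i
    have h1 := hsgpos i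
    rw [inner_add_right, inner_add_right] at h1
    rcases sg_eq S i with h2 | h2 <;> rw [h2] at h1 ⊢ <;>
      rcases hsep i with ⟨h3, h4, h5⟩ | ⟨h3, h4, h5⟩
    · exact ⟨by linarith, by linarith, by linarith⟩
    · exfalso; linarith
    · exfalso; linarith
    · exact ⟨by linarith, by linarith, by linarith⟩
  refine ⟨S, isTope_iff_sg.2 ⟨_, hsgpos⟩, ?_, hsgpos⟩
  -- the parallel criterion
  have hpar : ∀ i j, i ≠ j → ∀ c : ℝ, a j ≠ c • a i := by
    intro i j hij c h0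
    have := hpi i j hij
    rw [LinearIndependent.pair_iff] at this
    have := (this c (-1) (by rw [h0]; module)).2
    norm_num at this
  have hwall : ∀ {x y z : ι} {P Q R : E3}, Dual3 (a x) (a y) (a z) P Q R →
      (∀ i, 0 ≤ sg S i * ⟪a i, Q⟫) → (∀ i, 0 ≤ sg S i * ⟪a i, R⟫) → x ∈ walls a S := by
    intro x y z P Q R hD hQ hR
    refine wall_of_point (hne x) (p := Q + R) (by rw [inner_add_right, hD.xQ, hD.xR, add_zero]) ?_
    intro j hj
    rw [inner_add_right, mul_add]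
    rcases (hQ j).eq_or_lt with h1 | h1
    · rcases (hR j).eq_or_lt with h2 | h2
      · exfalso
        have e1 : ⟪a j, Q⟫ = 0 := (mul_eq_zero.1 h1.symm).resolve_left (sg_ne S j)
        have e2 : ⟪a j, R⟫ = 0 := (mul_eq_zero.1 h2.symm).resolve_left (sg_ne S j)
        -- then a j is a multiple of a x
        refine hpar x j (Ne.symm hj) (⟪a j, P⟫ / ⟪a x, P⟫) ?_
        have h3 : a j - (⟪a j, P⟫ / ⟪a x, P⟫) • a x = 0 := by
          have h4 := hD.expand (a j - (⟪a j, P⟫ / ⟪a x, P⟫) • a x)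
          rw [← inner_self_eq_zero (𝕜 := ℝ)]
          nth_rewrite 2 [h4]
          simp only [inner_add_right, inner_smul_right, inner_sub_left, inner_smul_left,
            RCLike.conj_to_real, e1, e2, hD.xQ, hD.xR]
          rw [div_mul_cancel₀ _ hD.xP]
          ring
        exact sub_eq_zero.1 h3
      · linarith
    · have := hR j; linarith
  ext i
  rw [Finset.mem_insert, Finset.mem_insert, Finset.mem_singleton]
  constructor
  · intro hi
    by_contra hcon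
    push Not at hcon
    rw [mem_walls, isTope_iff_sg] at hi
    obtain ⟨y, hy⟩ := hi
    have he := hy e
    have hf := hy f
    have hg := hy g
    have hi' := hy i
    rw [sg_symmDiff_ne (Ne.symm hcon.1)] at he
    rw [sg_symmDiff_ne (Ne.symm hcon.2.1)] at hf
    rw [sg_symmDiff_ne (Ne.symm hcon.2.2)] at hg
    rw [sg_symmDiff_self] at hi'
    have h1 := h.expand y
    have hp : ∀ {x : ι} {P : E3}, 0 ≤ sg S x * ⟪a x, P⟫ → ⟪a x, P⟫ ≠ 0 → 0 < sg S x * ⟪a x, y⟫ →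
        0 < ⟪a x, y⟫ / ⟪a x, P⟫ := by
      intro x P hx1 hx2 hx3
      have hx4 : 0 < sg S x * ⟪a x, P⟫ :=
        lt_of_le_of_ne hx1 (Ne.symm (mul_ne_zero (sg_ne S x) hx2))
      have : ⟪a x, y⟫ / ⟪a x, P⟫ = (sg S x * ⟪a x, y⟫) / (sg S x * ⟪a x, P⟫) := by
        rw [mul_div_mul_left _ _ (sg_ne S x)]
      rw [this]
      exact div_pos hx3 hx4
    have c1 := hp (hweak e).1 h.xP he
    have c2 := hp (hweak f).2.1 h.yQ hf
    have c3 := hp (hweak g).2.2 h.zR hg
    have h2 : 0 ≤ sg S i * ⟪a i, y⟫ := by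
      rw [h1, inner_add_right, inner_add_right, inner_smul_right, inner_smul_right,
        inner_smul_right]
      have e1 := mul_nonneg c1.le (hweak i).1
      have e2 := mul_nonneg c2.le (hweak i).2.1
      have e3 := mul_nonneg c3.le (hweak i).2.2
      linarith
    linarith
  · rintro (rfl | rfl | rfl)
    · exact hwall h (fun i => (hweak i).2.1) (fun i => (hweak i).2.2)
    · exact hwall (P := Q) (Q := P) (R := R) ⟨h.yQ, h.xQ, h.zQ, h.yP, h.xP, h.zP, h.yR, h.xR, h.zR⟩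
        (fun i => (hweak i).1) (fun i => (hweak i).2.2)
    · exact hwall (P := R) (Q := P) (R := Q) ⟨h.zR, h.xR, h.yR, h.zP, h.xP, h.yP, h.zQ, h.xQ, h.yQ⟩
        (fun i => (hweak i).1) (fun i => (hweak i).2.1)

/-- An uncut region is a triangular cell. -/
theorem tope_of_uncut {a : ι → E3} (hpi : PI a) {e f g : ι} {r s u : ℝ} (hr : Sgn r) (hs : Sgn s)
    (hu : Sgn u) (hdet : det3 (a e) (a f) (a g) ≠ 0)
    (h : ∀ d, ¬ Cuts (a d) (r • a e) (s • a f) (u • a g)) :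
    ∃ S, IsTope a S ∧ walls a S = {e, f, g} ∧ sg S e = r ∧ sg S f = s ∧ sg S g = u := by
  obtain ⟨P, Q, R, hD, hP, hQ, hR⟩ := exists_dual hdet hr.ne hs.ne hu.ne
  have hsq : ∀ {r : ℝ}, Sgn r → r * r = 1 := by
    rintro r (rfl | rfl) <;> norm_num
  have hin : ∀ α β γ : ℝ, 0 < α → 0 < β → 0 < γ →
      α • P + β • Q + γ • R ∈ Reg (r • a e) (s • a f) (u • a g) := by
    intro α β γ hα hβ hγ
    refine ⟨?_, ?_, ?_⟩
    · simp only [inner_smul_left, RCLike.conj_to_real, inner_add_right, inner_smul_right, hD.xQ,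
        hD.xR, hP, mul_zero, add_zero]
      rw [hsq hr]; linarith
    · simp only [inner_smul_left, RCLike.conj_to_real, inner_add_right, inner_smul_right, hD.yP,
        hD.yR, hQ, mul_zero, add_zero, zero_add]
      rw [hsq hs]; linarith
    · simp only [inner_smul_left, RCLike.conj_to_real, inner_add_right, inner_smul_right, hD.zP,
        hD.zQ, hR, mul_zero, zero_add]
      rw [hsq hu]; linarith
  -- weak signs at the vertices
  have hsep : ∀ d, (0 ≤ ⟪a d, P⟫ ∧ 0 ≤ ⟪a d, Q⟫ ∧ 0 ≤ ⟪a d, R⟫) ∨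
      (⟪a d, P⟫ ≤ 0 ∧ ⟪a d, Q⟫ ≤ 0 ∧ ⟪a d, R⟫ ≤ 0) := by
    intro d
    have hnn : ∀ w : E3, (∀ α β γ : ℝ, 0 < α → 0 < β → 0 < γ →
        0 ≤ ⟪w, α • P + β • Q + γ • R⟫) → 0 ≤ ⟪w, P⟫ ∧ 0 ≤ ⟪w, Q⟫ ∧ 0 ≤ ⟪w, R⟫ := by
      intro w hw
      have aux : ∀ p q : ℝ, (∀ ε : ℝ, 0 < ε → 0 ≤ p + ε * q) → 0 ≤ p := by
        intro p q hpq
        by_contra hp
        push Not at hp
        have h1 := hpq (-p / (2 * (|q| + 1))) (div_pos (by linarith) (by positivity))
        have h2 : -p / (2 * (|q| + 1)) * q ≤ -p / 2 := by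
          have h3 : q ≤ |q| + 1 := (le_abs_self q).trans (by linarith)
          have h4 : 0 < |q| + 1 := by positivity
          calc -p / (2 * (|q| + 1)) * q ≤ -p / (2 * (|q| + 1)) * (|q| + 1) :=
                mul_le_mul_of_nonneg_left h3 (div_pos (by linarith) (by positivity)).le
            _ = -p / 2 := by field_simp
        linarith
      refine ⟨aux _ (⟪w, Q⟫ + ⟪w, R⟫) fun ε hε => ?_, aux _ (⟪w, P⟫ + ⟪w, R⟫) fun ε hε => ?_,
        aux _ (⟪w, P⟫ + ⟪w, Q⟫) fun ε hε => ?_⟩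
      · have := hw 1 ε ε one_pos hε hε
        simp only [inner_add_right, inner_smul_right] at this
        linarith
      · have := hw ε 1 ε hε one_pos hε
        simp only [inner_add_right, inner_smul_right] at this
        linarith
      · have := hw ε ε 1 hε hε one_pos
        simp only [inner_add_right, inner_smul_right] at this
        linarith
    by_cases hpos : ∃ p ∈ Reg (r • a e) (s • a f) (u • a g), 0 < ⟪a d, p⟫
    · left
      have hno : ∀ p ∈ Reg (r • a e) (s • a f) (u • a g), 0 ≤ ⟪a d, p⟫ := by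
        intro p hp
        by_contra hlt
        push Not at hlt
        exact h d ⟨hpos, p, hp, hlt⟩
      exact hnn _ fun α β γ hα hβ hγ => hno _ (hin α β γ hα hβ hγ)
    · right
      push Not at hpos
      have := hnn (-a d) fun α β γ hα hβ hγ => by
        rw [inner_neg_left]
        have := hpos _ (hin α β γ hα hβ hγ)
        linarith
      simp only [inner_neg_left] at this
      exact ⟨by linarith [this.1], by linarith [this.2.1], by linarith [this.2.2]⟩
  obtain ⟨S, h1, h2, h3⟩ := exists_tri hpi hD hsep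
  have hsgn : ∀ {i : ι} {t : ℝ}, Sgn t → ⟪a i, P + Q + R⟫ = t → sg S i = t := by
    intro i t ht hit
    have h4 := h3 i
    rw [hit] at h4
    rcases sg_eq S i with h5 | h5 <;> rcases ht with rfl | rfl <;> rw [h5] at h4 ⊢ <;>
      norm_num at h4
  refine ⟨S, h1, h2, hsgn hr ?_, hsgn hs ?_, hsgn hu ?_⟩
  · rw [inner_add_right, inner_add_right, hP, hD.xQ, hD.xR]; ring
  · rw [inner_add_right, inner_add_right, hQ, hD.yP, hD.yR]; ring
  · rw [inner_add_right, inner_add_right, hR, hD.zP, hD.zQ]; ring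

end Pool.Agent.helper50.Zono
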