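import Pool.Agent.helper50.Zono.QV2

/-!
# Triangular cells in a gap between two neighbouring planes through `v`
-/

open scoped RealInnerProductSpace

set_option linter.unusedSectionVars false

namespace Pool.Agent.helper50.Zono

variable {ι : Type*} [DecidableEq ι] [Fintype ι]

/-- `X` and `Y` are directions of the neighbouring planes `x` and `y` through `v`. -/
structure Gap (a : ι → E3) (v : E3) (x y : ι) (X Y : E3) : Prop where
  hx : x ∈ KK a v
  hy : y ∈ KK a v
  xX : ⟪a x, X⟫ = 0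
  vX : ⟪v, X⟫ = 0
  yY : ⟪a y, Y⟫ = 0
  vY : ⟪v, Y⟫ = 0
  xY : ⟪a x, Y⟫ ≠ 0
  yX : ⟪a y, X⟫ ≠ 0
  gap : ∀ z ∈ KK a v, 0 ≤ ⟪a z, X⟫ * ⟪a z, Y⟫

theorem mul_nonneg_cases {p q : ℝ} (h : 0 ≤ p * q) : (0 ≤ p ∧ 0 ≤ q) ∨ (p ≤ 0 ∧ q ≤ 0) :=
  mul_nonneg_iff.1 h

theorem div_lt_helper {p q r : ℝ} (hp : 0 < p) (h : r * p < q) : r < q / p := by
  rw [lt_div_iff₀ hp]; exact h

theorem Gap.exists_cell {a : ι → E3} {v : E3} (h : Cen a v) {x y : ι} {X Y : E3}
    (g : Gap a v x y X Y) {e : ι} (he : e ∉ KK a v)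
    (hmin : ∀ b, b ∉ KK a v → ⟪a e, Y⟫ ≤ ⟪a b, Y⟫) :
    ∃ S ∈ T3 a, x ∈ walls a S ∧ (∀ z ∈ KK a v, 0 < sg S z * ⟪a z, X + Y⟫) ∧
      ∀ f, f ∉ KK a v → ⟪a e, X⟫ ≤ ⟪a f, X⟫ → sg S f = 1 := by
  classical
  have hpi : PI a := h.arr.indep
  have card3 : ∀ {S : Finset ι} {i j k : ι} {P Q R : E3}, Dual3 (a i) (a j) (a k) P Q R →
      walls a S = {i, j, k} → (walls a S).card = 3 := by
    intro S i j k P Q R hD hw
    have hij : i ≠ j := by rintro rfl; exact hD.xP hD.yP
    have hik : i ≠ k := by rintro rfl; exact hD.xP hD.zP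
    have hjk : j ≠ k := by rintro rfl; exact hD.yQ hD.zQ
    rw [hw, Finset.card_insert_of_notMem (by simp [hij, hik]),
      Finset.card_insert_of_notMem (by simp [hjk]), Finset.card_singleton]
  have sgone : ∀ {S : Finset ι} {i : ι} {t : ℝ}, 0 < sg S i * t → 0 < t → sg S i = 1 := by
    intro S i t h1 h2
    rcases sg_eq S i with h3 | h3
    · exact h3
    · rw [h3] at h1; linarith
  have hxv := mem_KK.1 g.hx
  have hyv := mem_KK.1 g.hy
  by_cases hcase : ∀ b, b ∉ KK a v → ⟪a e, X⟫ ≤ ⟪a b, X⟫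
  · -- the top cell
    have hD : Dual3 (a x) (a y) (a e) (Y - ⟪a e, Y⟫ • v) (X - ⟪a e, X⟫ • v) v := by
      constructor
      · rw [inner_sub_right, inner_smul_right, hxv, mul_zero, sub_zero]; exact g.xY
      · rw [inner_sub_right, inner_smul_right, hyv, mul_zero, sub_zero]; exact g.yY
      · rw [inner_sub_right, inner_smul_right, h.inner_one he, mul_one, sub_self]
      · rw [inner_sub_right, inner_smul_right, hxv, mul_zero, sub_zero]; exact g.xX
      · rw [inner_sub_right, inner_smul_right, hyv, mul_zero, sub_zero]; exact g.yX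
      · rw [inner_sub_right, inner_smul_right, h.inner_one he, mul_one, sub_self]
      · exact hxv
      · exact hyv
      · rw [h.inner_one he]; norm_num
    obtain ⟨S, hS, hw, hpos⟩ := exists_tri hpi hD (by
      intro d
      by_cases hd : d ∈ KK a v
      · have hdv := mem_KK.1 hd
        simp only [inner_sub_right, inner_smul_right, hdv, mul_zero, sub_zero]
        rcases mul_nonneg_cases (g.gap d hd) with ⟨h1, h2⟩ | ⟨h1, h2⟩
        · left; exact ⟨h2, h1, le_rfl⟩
        · right; exact ⟨h2, h1, le_rfl⟩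
      · left
        simp only [inner_sub_right, inner_smul_right, h.inner_one hd, mul_one]
        exact ⟨by linarith [hmin d hd], by linarith [hcase d hd], zero_le_one⟩)
    refine ⟨S, mem_T3.2 ⟨hS, card3 hD hw⟩, by rw [hw]; simp, ?_, ?_⟩
    · intro z hz
      have := hpos z
      simp only [inner_add_right, inner_sub_right, inner_smul_right, mem_KK.1 hz, mul_zero,
        sub_zero, add_zero] at this
      rw [inner_add_right, add_comm]; exact this
    · intro f hf hef
      refine sgone (hpos f) ?_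
      simp only [inner_add_right, inner_sub_right, inner_smul_right, h.inner_one hf, mul_one]
      linarith [hmin f hf, hcase f hf]
  · -- a crossing pair
    push Not at hcase
    obtain ⟨d, hdK, hdX⟩ := hcase
    set Q : Finset (ι × ι) := Finset.univ.filter (fun p => p.1 ∉ KK a v ∧ p.2 ∉ KK a v ∧
      ⟪a p.1, X⟫ < ⟪a p.2, X⟫ ∧ ⟪a p.2, X⟫ ≤ ⟪a e, X⟫ ∧ ⟪a p.2, Y⟫ ≤ ⟪a p.1, Y⟫) with hQ
    have hQmem : ∀ b c, (b, c) ∈ Q ↔ b ∉ KK a v ∧ c ∉ KK a v ∧
      ⟪a b, X⟫ < ⟪a c, X⟫ ∧ ⟪a c, X⟫ ≤ ⟪a e, X⟫ ∧ ⟪a c, Y⟫ ≤ ⟪a b, Y⟫ := by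
      intro b c
      rw [hQ, Finset.mem_filter]
      simp
    have hQne : Q.Nonempty := ⟨(d, e), (hQmem d e).2 ⟨hdK, he, hdX, le_rfl, hmin d hdK⟩⟩
    set rr : ι × ι → ℝ := fun p => (⟪a p.1, Y⟫ - ⟪a p.2, Y⟫) / (⟪a p.2, X⟫ - ⟪a p.1, X⟫) with hrr
    obtain ⟨p0, hp0, hmax0⟩ := Q.exists_max_image rr hQne
    set Q' : Finset (ι × ι) := Q.filter (fun p => rr p = rr p0) with hQ'
    obtain ⟨⟨b, c⟩, hbc', hmin'⟩ := Q'.exists_min_image (fun p => ⟪a p.2, X⟫ - ⟪a p.1, X⟫)
      ⟨p0, Finset.mem_filter.2 ⟨hp0, rfl⟩⟩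
    obtain ⟨hbcQ, hbcr⟩ := Finset.mem_filter.1 hbc'
    obtain ⟨hbK, hcK, hbcX, hceX, hbcY⟩ := (hQmem b c).1 hbcQ
    -- set up the numbers
    set r := rr p0 with hr
    have hrbc : r * (⟪a c, X⟫ - ⟪a b, X⟫) = ⟪a b, Y⟫ - ⟪a c, Y⟫ := by
      rw [← hbcr, hrr]
      exact div_mul_cancel₀ _ (by linarith)
    have hr0 : 0 ≤ r := by
      rw [← hbcr, hrr]
      exact div_nonneg (by linarith) (by linarith)
    -- maximality, in product form
    have hmax : ∀ b' c', b' ∉ KK a v → c' ∉ KK a v → ⟪a b', X⟫ < ⟪a c', X⟫ →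
        ⟪a c', X⟫ ≤ ⟪a e, X⟫ →
        ⟪a b', Y⟫ - ⟪a c', Y⟫ ≤ r * (⟪a c', X⟫ - ⟪a b', X⟫) := by
      intro b' c' h1 h2 h3 h4
      by_contra hlt
      push Not at hlt
      have h5 : 0 ≤ r * (⟪a c', X⟫ - ⟪a b', X⟫) := mul_nonneg hr0 (by linarith)
      have h6 := hmax0 (b', c') ((hQmem b' c').2 ⟨h1, h2, h3, h4, by linarith⟩)
      have h7 : r < rr (b', c') := div_lt_helper (by linarith) hlt
      linarith
    have hmin2 : ∀ b' c', b' ∉ KK a v → c' ∉ KK a v → ⟪a b', X⟫ < ⟪a c', X⟫ →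
        ⟪a c', X⟫ ≤ ⟪a e, X⟫ → r * (⟪a c', X⟫ - ⟪a b', X⟫) ≤ ⟪a b', Y⟫ - ⟪a c', Y⟫ →
        ⟪a c, X⟫ - ⟪a b, X⟫ ≤ ⟪a c', X⟫ - ⟪a b', X⟫ := by
      intro b' c' h1 h2 h3 h4 h5
      have h6 := hmax b' c' h1 h2 h3 h4
      have h7 : 0 ≤ r * (⟪a c', X⟫ - ⟪a b', X⟫) := mul_nonneg hr0 (by linarith)
      have h8 : rr (b', c') = r := by
        rw [hrr]
        simp only
        rw [div_eq_iff (by linarith)]
        linarith
      exact hmin' (b', c') (Finset.mem_filter.2 ⟨(hQmem b' c').2 ⟨h1, h2, h3, h4, by linarith⟩, h8⟩)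
    -- the vertices
    have hD : Dual3 (a x) (a b) (a c) ((r • X + Y) - ⟪a b, r • X + Y⟫ • v) (X - ⟪a c, X⟫ • v)
        (X - ⟪a b, X⟫ • v) := by
      constructor
      · rw [inner_sub_right, inner_smul_right, hxv, mul_zero, sub_zero, inner_add_right,
          inner_smul_right, g.xX, mul_zero, zero_add]
        exact g.xY
      · rw [inner_sub_right, inner_smul_right, h.inner_one hbK, mul_one, sub_self]
      · rw [inner_sub_right, inner_smul_right, h.inner_one hcK, mul_one]
        simp only [inner_add_right, inner_smul_right]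
        linarith
      · rw [inner_sub_right, inner_smul_right, hxv, mul_zero, sub_zero]; exact g.xX
      · rw [inner_sub_right, inner_smul_right, h.inner_one hbK, mul_one]
        linarith
      · rw [inner_sub_right, inner_smul_right, h.inner_one hcK, mul_one, sub_self]
      · rw [inner_sub_right, inner_smul_right, hxv, mul_zero, sub_zero]; exact g.xX
      · rw [inner_sub_right, inner_smul_right, h.inner_one hbK, mul_one, sub_self]
      · rw [inner_sub_right, inner_smul_right, h.inner_one hcK, mul_one]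
        linarith
    -- lines above
    have habove : ∀ f, f ∉ KK a v → ⟪a c, X⟫ ≤ ⟪a f, X⟫ →
        r * ⟪a b, X⟫ + ⟪a b, Y⟫ ≤ r * ⟪a f, X⟫ + ⟪a f, Y⟫ := by
      intro f hf hcf
      by_contra hlt
      push Not at hlt
      rcases le_or_gt ⟪a f, X⟫ ⟪a e, X⟫ with h1 | h1
      · rcases hcf.eq_or_lt with h2 | h2
        · have h3 := hmax b f hbK hf (by linarith) h1
          rw [← h2] at h3 hlt
          linarith
        · have h3 := hmax c f hcK hf h2 h1
          linarith
      · have h2 := hmin f hf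
        have h3 : r * ⟪a e, X⟫ ≤ r * ⟪a f, X⟫ := mul_le_mul_of_nonneg_left h1.le hr0
        rcases hceX.eq_or_lt with h4 | h4
        · have h5 := hmax b e hbK he (by linarith) le_rfl
          rw [← h4] at h5 h3
          linarith
        · have h5 := hmax c e hcK he h4 le_rfl
          linarith
    have hbelow : ∀ f, f ∉ KK a v → ⟪a f, X⟫ ≤ ⟪a b, X⟫ →
        r * ⟪a f, X⟫ + ⟪a f, Y⟫ ≤ r * ⟪a b, X⟫ + ⟪a b, Y⟫ := by
      intro f hf hfb
      by_contra hlt
      push Not at hlt
      rcases hfb.eq_or_lt with h2 | h2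
      · have h3 := hmax f c hf hcK (by linarith) hceX
        rw [h2] at h3 hlt
        linarith
      · have h3 := hmax f b hf hbK h2 (by linarith)
        linarith
    have hmid : ∀ f, f ∉ KK a v → ⟪a b, X⟫ < ⟪a f, X⟫ → ⟪a f, X⟫ < ⟪a c, X⟫ → False := by
      intro f hf h1 h2
      rcases le_total (r * ⟪a f, X⟫ + ⟪a f, Y⟫) (r * ⟪a b, X⟫ + ⟪a b, Y⟫) with h3 | h3
      · have := hmin2 b f hbK hf h1 (by linarith) (by linarith)
        linarith
      · have := hmin2 f c hf hcK h2 hceX (by linarith)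
        linarith
    obtain ⟨S, hS, hw, hpos⟩ := exists_tri hpi hD (by
      intro d
      by_cases hd : d ∈ KK a v
      · have hdv := mem_KK.1 hd
        simp only [inner_sub_right, inner_smul_right, inner_add_right, hdv, mul_zero, sub_zero]
        rcases mul_nonneg_cases (g.gap d hd) with ⟨h1, h2⟩ | ⟨h1, h2⟩
        · left; exact ⟨add_nonneg (mul_nonneg hr0 h1) h2, h1, h1⟩
        · right
          exact ⟨add_nonpos (mul_nonpos_of_nonneg_of_nonpos hr0 h1) h2, h1, h1⟩
      · simp only [inner_sub_right, inner_smul_right, inner_add_right, h.inner_one hd, mul_one]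
        rcases le_or_gt ⟪a c, X⟫ ⟪a d, X⟫ with h1 | h1
        · left
          have := habove d hd h1
          exact ⟨by linarith, by linarith, by linarith⟩
        · rcases le_or_gt ⟪a d, X⟫ ⟪a b, X⟫ with h2 | h2
          · right
            have := hbelow d hd h2
            exact ⟨by linarith, by linarith, by linarith⟩
          · exact absurd (hmid d hd h2 h1) id)
    refine ⟨S, mem_T3.2 ⟨hS, card3 hD hw⟩, by rw [hw]; simp, ?_, ?_⟩
    · intro z hz
      have h1 := hpos z
      simp only [inner_add_right, inner_sub_right, inner_smul_right, mem_KK.1 hz, mul_zero,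
        sub_zero] at h1
      rw [inner_add_right]
      -- same sign
      rcases mul_nonneg_cases (g.gap z hz) with ⟨h2, h3⟩ | ⟨h2, h3⟩
      · have h4 : sg S z = 1 := by
          rcases sg_eq S z with h5 | h5
          · exact h5
          · rw [h5] at h1
            have := mul_nonneg hr0 h2
            exfalso; linarith
        rw [h4] at h1 ⊢
        by_contra hcon
        push Not at hcon
        have e1 : ⟪a z, X⟫ = 0 := by linarith
        have e2 : ⟪a z, Y⟫ = 0 := by linarith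
        rw [e1, e2] at h1
        linarith
      · have h4 : sg S z = -1 := by
          rcases sg_eq S z with h5 | h5
          · rw [h5] at h1
            have := mul_nonpos_of_nonneg_of_nonpos hr0 h2
            exfalso; linarith
          · exact h5
        rw [h4] at h1 ⊢
        by_contra hcon
        push Not at hcon
        have e1 : ⟪a z, X⟫ = 0 := by linarith
        have e2 : ⟪a z, Y⟫ = 0 := by linarith
        rw [e1, e2] at h1
        linarith
    · intro f hf hef
      refine sgone (hpos f) ?_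
      simp only [inner_add_right, inner_sub_right, inner_smul_right, h.inner_one hf, mul_one]
      have := habove f hf (hceX.trans hef)
      linarith

/-- the reflected arrangement -/
noncomputable def refl (a : ι → E3) (v : E3) : ι → E3 := fun i => (2 * ⟪a i, v⟫) • v - a i

theorem refl_inner (a : ι → E3) (v : E3) (i : ι) (p : E3) :
    ⟪refl a v i, p⟫ = ⟪a i, (2 * ⟪v, p⟫) • v - p⟫ := by
  unfold refl
  rw [inner_sub_left, inner_smul_left, inner_sub_right, inner_smul_right, RCLike.conj_to_real]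
  ring

theorem refl_invol {v : E3} (hv : ⟪v, v⟫ = 1) (p : E3) :
    (2 * ⟪v, (2 * ⟪v, p⟫) • v - p⟫) • v - ((2 * ⟪v, p⟫) • v - p) = p := by
  rw [inner_sub_right, inner_smul_right, hv]
  have : 2 * (2 * ⟪v, p⟫ * 1 - ⟪v, p⟫) = 2 * ⟪v, p⟫ := by ring
  rw [this]
  abel

theorem isTope_refl {a : ι → E3} {v : E3} (hv : ⟪v, v⟫ = 1) {S : Finset ι} :
    IsTope (refl a v) S ↔ IsTope a S := by
  rw [isTope_iff_sg, isTope_iff_sg]
  constructor
  · rintro ⟨p, hp⟩
    exact ⟨_, fun i => by rw [← refl_inner]; exact hp i⟩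
  · rintro ⟨p, hp⟩
    refine ⟨(2 * ⟪v, p⟫) • v - p, fun i => ?_⟩
    rw [refl_inner, refl_invol hv]
    exact hp i

theorem walls_refl {a : ι → E3} {v : E3} (hv : ⟪v, v⟫ = 1) {S : Finset ι} :
    walls (refl a v) S = walls a S := by
  ext i; rw [mem_walls, mem_walls, isTope_refl hv]

theorem T3_refl {a : ι → E3} {v : E3} (hv : ⟪v, v⟫ = 1) : T3 (refl a v) = T3 a := by
  ext S; rw [mem_T3, mem_T3, isTope_refl hv, walls_refl hv]

theorem refl_inner_v {a : ι → E3} {v : E3} (hv : ⟪v, v⟫ = 1) (i : ι) :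
    ⟪refl a v i, v⟫ = ⟪a i, v⟫ := by
  unfold refl
  rw [inner_sub_left, inner_smul_left, hv, RCLike.conj_to_real]; ring

theorem refl_inner_orth {a : ι → E3} {v Z : E3} (hZ : ⟪v, Z⟫ = 0) (i : ι) :
    ⟪refl a v i, Z⟫ = - ⟪a i, Z⟫ := by
  rw [refl_inner, hZ, mul_zero, zero_smul, zero_sub, inner_neg_right]

theorem KK_refl {a : ι → E3} {v : E3} (hv : ⟪v, v⟫ = 1) : KK (refl a v) v = KK a v := by
  ext i; rw [mem_KK, mem_KK, refl_inner_v hv]

theorem Cen.refl {a : ι → E3} {v : E3} (h : Cen a v) : Cen (refl a v) v := by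
  refine ⟨⟨?_, ?_⟩, h.unit, fun i => ?_⟩
  · intro i j hij
    have h1 := h.arr.indep i j hij
    rw [LinearIndependent.pair_iff] at h1 ⊢
    intro s t hst
    apply h1 s t
    -- inner with everything
    rw [← inner_self_eq_zero (𝕜 := ℝ)]
    have key : ∀ p : E3, ⟪s • a i + t • a j, p⟫ = 0 := by
      intro p
      have h2 := congrArg (fun w => ⟪w, (2 * ⟪v, p⟫) • v - p⟫) hst
      simp only [inner_add_left, inner_smul_left, RCLike.conj_to_real, inner_zero_left] at h2
      rw [refl_inner, refl_inner, refl_invol h.unit] at h2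
      rw [inner_add_left, inner_smul_left, inner_smul_left, RCLike.conj_to_real,
        RCLike.conj_to_real]
      exact h2
    exact key _
  · rw [Submodule.eq_top_iff']
    intro w
    -- orthogonal complement is zero
    have h1 : (Submodule.span ℝ (Set.range (Zono.refl a v)))ᗮ = ⊥ := by
      rw [Submodule.eq_bot_iff]
      intro d hd
      by_contra hne
      have hd' : (2 * ⟪v, d⟫) • v - d ≠ 0 := by
        intro h0
        have := refl_invol h.unit d
        rw [h0] at this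
        simp only [inner_zero_right, mul_zero, zero_smul, sub_zero] at this
        exact hne this.symm
      obtain ⟨k, hk⟩ := h.arr.exists_inner_ne hd'
      apply hk
      rw [← refl_inner]
      exact (Submodule.mem_orthogonal _ _).1 hd _ (Submodule.subset_span ⟨k, rfl⟩)
    have h2 : Submodule.span ℝ (Set.range (Zono.refl a v)) = ⊤ := by
      rw [← Submodule.orthogonal_eq_bot_iff]
      exact h1
    rw [h2]
    trivial
  · rw [refl_inner_v h.unit]; exact h.norm i

/-- The mirror image of `Gap.exists_cell`. -/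
theorem Gap.exists_cell' {a : ι → E3} {v : E3} (h : Cen a v) {x y : ι} {X Y : E3}
    (g : Gap a v x y X Y) {f : ι} (hf : f ∉ KK a v)
    (hmax : ∀ b, b ∉ KK a v → ⟪a b, Y⟫ ≤ ⟪a f, Y⟫) :
    ∃ S ∈ T3 a, x ∈ walls a S ∧ (∀ z ∈ KK a v, 0 < sg S z * ⟪a z, X + Y⟫) ∧
      ∀ e, e ∉ KK a v → ⟪a e, X⟫ ≤ ⟪a f, X⟫ → sg S e = -1 := by
  have g' : Gap (Zono.refl a v) v x y X Y := by
    refine ⟨by rw [KK_refl h.unit]; exact g.hx, by rw [KK_refl h.unit]; exact g.hy, ?_, g.vX, ?_,
      g.vY, ?_, ?_, ?_⟩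
    · rw [refl_inner_orth g.vX, g.xX, neg_zero]
    · rw [refl_inner_orth g.vY, g.yY, neg_zero]
    · rw [refl_inner_orth g.vY]; exact neg_ne_zero.2 g.xY
    · rw [refl_inner_orth g.vX]; exact neg_ne_zero.2 g.yX
    · intro z hz
      rw [KK_refl h.unit] at hz
      rw [refl_inner_orth g.vX, refl_inner_orth g.vY, neg_mul_neg]
      exact g.gap z hz
  obtain ⟨S, hS, h1, h2, h3⟩ := g'.exists_cell h.refl (e := f) (by rw [KK_refl h.unit]; exact hf) (by
    intro b hb
    rw [KK_refl h.unit] at hb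
    rw [refl_inner_orth g.vY, refl_inner_orth g.vY]
    linarith [hmax b hb])
  rw [T3_refl h.unit] at hS
  rw [walls_refl h.unit] at h1
  refine ⟨Sᶜ, ?_, ?_, ?_, ?_⟩
  · rw [mem_T3] at hS ⊢
    rw [isTope_compl, walls_compl]; exact hS
  · rw [walls_compl]; exact h1
  · intro z hz
    have := h2 z (by rw [KK_refl h.unit]; exact hz)
    rw [refl_inner_orth (by rw [inner_add_right, g.vX, g.vY, add_zero])] at this
    rw [sg_compl]; linarith
  · intro e he hef
    have := h3 e (by rw [KK_refl h.unit]; exact he) (by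
      rw [refl_inner_orth g.vX, refl_inner_orth g.vX]; linarith)
    rw [sg_compl, this]

end Pool.Agent.helper50.Zono
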