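import Pool.Agent.helper50.Zono.VV1

/-!
# Reversed gaps
-/

open scoped RealInnerProductSpace

set_option linter.unusedSectionVars false

namespace Pool.Agent.helper50.Zono

variable {ι : Type*} [DecidableEq ι] [Fintype ι]

theorem plane_rel {v Z1 Z2 Z3 : E3} (hv : ⟪v, v⟫ = 1) (h1 : ⟪v, Z1⟫ = 0) (h2 : ⟪v, Z2⟫ = 0)
    (h3 : ⟪v, Z3⟫ = 0) :
    det3 v Z1 Z2 • Z3 = det3 v Z3 Z2 • Z1 + det3 v Z1 Z3 • Z2 := by
  have h := cramer v Z1 Z2 Z3
  have h4 := congrArg (fun w => ⟪v, w⟫) h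
  simp only [inner_add_right, inner_smul_right, h1, h2, h3, hv, mul_zero, mul_one, add_zero] at h4
  rw [← h4, zero_smul, zero_add] at h
  exact h

theorem det3_v_swap (v Z1 Z2 : E3) : det3 v Z2 Z1 = - det3 v Z1 Z2 := det3_swap23 _ _ _

theorem det3_v_neg_left (v Z1 Z2 : E3) : det3 v (-Z1) Z2 = - det3 v Z1 Z2 := by
  simp only [det3, PiLp.neg_apply]; ring

theorem det3_v_neg_right (v Z1 Z2 : E3) : det3 v Z1 (-Z2) = - det3 v Z1 Z2 := by
  simp only [det3, PiLp.neg_apply]; ring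

theorem par_of_det {v Z Z' : E3} (hv : ⟪v, v⟫ = 1) (h1 : ⟪v, Z⟫ = 0) (h2 : ⟪v, Z'⟫ = 0)
    (hZ : Z ≠ 0) (h : det3 v Z Z' = 0) : ∃ c : ℝ, Z' = c • Z := by
  obtain ⟨α, β, γ, hne, hsum⟩ := exists_dep h
  have h3 := congrArg (fun w => ⟪v, w⟫) hsum
  simp only [inner_add_right, inner_smul_right, h1, h2, hv, mul_zero, mul_one, add_zero,
    inner_zero_right] at h3
  rw [h3, zero_smul, zero_add] at hsum
  have hγ : γ ≠ 0 := by
    intro h0
    rw [h0, zero_smul, add_zero] at hsum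
    have hβ := (smul_eq_zero.1 hsum).resolve_right hZ
    rcases hne with h' | h' | h'
    · exact h' h3
    · exact h' hβ
    · exact h' h0
  refine ⟨-β / γ, ?_⟩
  have h4 : γ • Z' = -β • Z := by
    rw [neg_smul, eq_neg_iff_add_eq_zero, add_comm]; exact hsum
  rw [div_eq_inv_mul, mul_smul, ← h4, smul_smul, inv_mul_cancel₀ hγ, one_smul]

/-- `Z` is a direction of the plane `z` through `v`. -/
structure Dir (a : ι → E3) (v : E3) (z : ι) (Z : E3) : Prop where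
  mem : z ∈ KK a v
  ne : Z ≠ 0
  az : ⟪a z, Z⟫ = 0
  v0 : ⟪v, Z⟫ = 0

theorem Dir.neg {a : ι → E3} {v : E3} {z : ι} {Z : E3} (h : Dir a v z Z) : Dir a v z (-Z) :=
  ⟨h.mem, neg_ne_zero.2 h.ne, by rw [inner_neg_right, h.az, neg_zero],
    by rw [inner_neg_right, h.v0, neg_zero]⟩

theorem Cen.a_ne {a : ι → E3} {v : E3} (h : Cen a v) (hc : 2 ≤ Fintype.card ι) (i : ι) :
    a i ≠ 0 := by
  obtain ⟨j, hj⟩ : ∃ j, j ≠ i := by
    by_contra hcon
    push Not at hcon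
    have : Fintype.card ι ≤ 1 := Fintype.card_le_one_iff.2 fun p q => by rw [hcon p, hcon q]
    omega
  have hpi : PI a := h.arr.indep
  exact hpi.ne_zero (Ne.symm hj)

theorem Dir.inner_ne {a : ι → E3} {v : E3} (h : Cen a v) {x z : ι} {Z : E3} (hZ : Dir a v z Z)
    (hx : x ∈ KK a v) (hxz : x ≠ z) : ⟪a x, Z⟫ ≠ 0 := by
  intro h0
  have hpi : PI a := h.arr.indep
  have hx0 : a x ≠ 0 := hpi.ne_zero hxz
  have hz0 : a z ≠ 0 := hpi.ne_zero (Ne.symm hxz)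
  obtain ⟨c, hc⟩ := h.parallel hZ.mem hz0 hZ.ne hZ.az hZ.v0 (w := a x) h0 (mem_KK.1 hx)
  have := hpi x z hxz
  rw [LinearIndependent.pair_iff] at this
  have h1 := (this 1 (-c) (by rw [hc]; module)).1
  norm_num at h1

theorem Dir.det_ne {a : ι → E3} {v : E3} (h : Cen a v) {x z : ι} {X Z : E3} (hX : Dir a v x X)
    (hZ : Dir a v z Z) (hxz : x ≠ z) : det3 v X Z ≠ 0 := by
  intro h0
  obtain ⟨c, hc⟩ := par_of_det h.unit hX.v0 hZ.v0 hX.ne h0
  refine hZ.inner_ne h hX.mem hxz ?_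
  rw [hc, inner_smul_right, hX.az, mul_zero]

/-- existence of the neighbouring plane on each side -/
theorem exists_gap {a : ι → E3} {v : E3} (h : Cen a v) (hk : 2 ≤ (KK a v).card) {x : ι} {X : E3}
    (hX : Dir a v x X) {σ : ℝ} (hσ : Sgn σ) :
    ∃ y Y, Gap a v x y X Y ∧ Dir a v y Y ∧ 0 < σ * det3 v X Y := by
  classical
  choose D hD1 hD2 hD3 using h.exists_dir
  have hDd : ∀ z ∈ KK a v, Dir a v z (D z) := fun z hz => ⟨hz, hD1 z, hD2 z, hD3 z⟩
  set E := (KK a v).erase x with hE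
  have hEne : E.Nonempty := by
    rw [← Finset.card_pos, hE, Finset.card_erase_of_mem hX.mem]; omega
  set Z : ι → E3 := fun z => (σ / det3 v X (D z)) • D z with hZ
  obtain ⟨y, hy, hmax⟩ := E.exists_max_image (fun z => ⟪X, Z z⟫) hEne
  have hmem : ∀ z, z ∈ E ↔ z ≠ x ∧ z ∈ KK a v := fun z => by rw [hE, Finset.mem_erase]
  have hdet : ∀ z ∈ E, det3 v X (D z) ≠ 0 := fun z hz =>
    hX.det_ne h (hDd z ((hmem z).1 hz).2) (Ne.symm ((hmem z).1 hz).1)
  have hZdir : ∀ z ∈ E, Dir a v z (Z z) := by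
    intro z hz
    have hd := hDd z ((hmem z).1 hz).2
    refine ⟨hd.mem, smul_ne_zero (div_ne_zero hσ.ne (hdet z hz)) hd.ne, ?_, ?_⟩
    · rw [hZ]; simp only; rw [inner_smul_right, hd.az, mul_zero]
    · rw [hZ]; simp only; rw [inner_smul_right, hd.v0, mul_zero]
  have hZdet : ∀ z ∈ E, det3 v X (Z z) = σ := by
    intro z hz
    rw [hZ]; simp only
    rw [det3_smul_right, div_mul_cancel₀ _ (hdet z hz)]
  have hYd := hZdir y hy
  have hyx : y ≠ x := ((hmem y).1 hy).1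
  refine ⟨y, Z y, ⟨hX.mem, hYd.mem, hX.az, hX.v0, hYd.az, hYd.v0,
    hYd.inner_ne h hX.mem (Ne.symm hyx), hX.inner_ne h hYd.mem hyx, ?_⟩, hYd, ?_⟩
  · intro z hz
    by_cases hzx : z = x
    · rw [hzx, hX.az, zero_mul]
    have hzE : z ∈ E := (hmem z).2 ⟨hzx, hz⟩
    have h1 : det3 v X (Z y - Z z) = 0 := by
      have : det3 v X (Z y - Z z) = det3 v X (Z y) - det3 v X (Z z) := by
        simp only [det3, PiLp.sub_apply]; ring
      rw [this, hZdet y hy, hZdet z hzE, sub_self]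
    obtain ⟨τ, hτ⟩ := par_of_det h.unit hX.v0
      (by rw [inner_sub_right, hYd.v0, (hZdir z hzE).v0, sub_zero]) hX.ne h1
    have hXX : 0 < ⟪X, X⟫ := by
      rw [real_inner_self_eq_norm_sq]
      have : 0 < ‖X‖ := norm_pos_iff.2 hX.ne
      positivity
    have hτ0 : 0 ≤ τ := by
      have h2 := hmax z hzE
      have h3 := congrArg (fun w => ⟪X, w⟫) hτ
      simp only [inner_sub_right, inner_smul_right] at h3
      by_contra hneg
      push Not at hneg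
      have := mul_neg_of_neg_of_pos hneg hXX
      linarith
    have h4 : ⟪a z, Z y⟫ = τ * ⟪a z, X⟫ := by
      have h3 := congrArg (fun w => ⟪a z, w⟫) hτ
      simp only [inner_sub_right, inner_smul_right, (hZdir z hzE).az, sub_zero] at h3
      exact h3
    rw [h4]
    have : ⟪a z, X⟫ * (τ * ⟪a z, X⟫) = τ * (⟪a z, X⟫ * ⟪a z, X⟫) := by ring
    rw [this]
    exact mul_nonneg hτ0 (mul_self_nonneg _)
  · rw [hZdet y hy]
    exact mul_self_pos.2 hσ.ne

/-- `e` is minimal at `Y` -/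
def Mn (a : ι → E3) (v Y : E3) (e : ι) : Prop := e ∉ KK a v ∧ ∀ b, b ∉ KK a v → ⟪a e, Y⟫ ≤ ⟪a b, Y⟫

/-- `f` is maximal at `Y` -/
def Mx (a : ι → E3) (v Y : E3) (f : ι) : Prop := f ∉ KK a v ∧ ∀ b, b ∉ KK a v → ⟪a b, Y⟫ ≤ ⟪a f, Y⟫

/-- reversed gap -/
def Rev (a : ι → E3) (v X Y : E3) : Prop :=
  ∀ e f, Mn a v Y e → Mx a v Y f → ⟪a f, X⟫ < ⟪a e, X⟫

/-- what is used of a reversed gap -/
structure RI (a : ι → E3) (v : E3) (σ : ℝ) (y : ι) (Y : E3) : Prop where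
  dir : Dir a v y Y
  pos : ∀ e f, Mn a v Y e → Mx a v Y f → ⟪a e, Y⟫ < ⟪a f, Y⟫
  star : ∀ e f, Mn a v Y e → Mx a v Y f → ∀ z Z, Dir a v z Z → 0 < σ * det3 v Y Z →
    ⟪a e, Z⟫ < ⟪a f, Z⟫

theorem Mn.neg {a : ι → E3} {v Y : E3} {e : ι} (h : Mn a v Y e) : Mx a v (-Y) e :=
  ⟨h.1, fun b hb => by rw [inner_neg_right, inner_neg_right]; linarith [h.2 b hb]⟩

theorem Mx.neg {a : ι → E3} {v Y : E3} {e : ι} (h : Mx a v Y e) : Mn a v (-Y) e :=
  ⟨h.1, fun b hb => by rw [inner_neg_right, inner_neg_right]; linarith [h.2 b hb]⟩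

theorem RI.flip {a : ι → E3} {v : E3} {σ : ℝ} {y : ι} {Y : E3} (h : RI a v σ y Y) :
    RI a v σ y (-Y) := by
  refine ⟨h.dir.neg, ?_, ?_⟩
  · intro e f he hf
    have h1 := he.neg
    have h2 := hf.neg
    rw [neg_neg] at h1 h2
    have := h.pos f e h2 h1
    rw [inner_neg_right, inner_neg_right]; linarith
  · intro e f he hf z Z hZ hpos
    have h1 := he.neg
    have h2 := hf.neg
    rw [neg_neg] at h1 h2
    have := h.star f e h2 h1 z (-Z) hZ.neg (by rw [det3_v_neg_right, ← det3_v_neg_left]; exact hpos)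
    rw [inner_neg_right, inner_neg_right] at this
    linarith

theorem exists_Mn {a : ι → E3} {v : E3} (hM : ∃ b, b ∉ KK a v) (Y : E3) : ∃ e, Mn a v Y e := by
  classical
  obtain ⟨e, he, hmin⟩ := ((KK a v)ᶜ).exists_min_image (fun b => ⟪a b, Y⟫)
    (by obtain ⟨b, hb⟩ := hM; exact ⟨b, Finset.mem_compl.2 hb⟩)
  exact ⟨e, Finset.mem_compl.1 he, fun b hb => hmin b (Finset.mem_compl.2 hb)⟩

theorem exists_Mx {a : ι → E3} {v : E3} (hM : ∃ b, b ∉ KK a v) (Y : E3) : ∃ e, Mx a v Y e := by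
  obtain ⟨e, he⟩ := exists_Mn hM (-Y)
  have := he.neg
  rw [neg_neg] at this
  exact ⟨e, this⟩

theorem RI.of_rev {a : ι → E3} {v : E3} (h : Cen a v) {σ : ℝ} {x y : ι}
    {X Y : E3} (g : Gap a v x y X Y) (hY : Dir a v y Y) (hσ : 0 < σ * det3 v X Y)
    (hrev : Rev a v X Y) : RI a v σ y Y := by
  have hpos : ∀ e f, Mn a v Y e → Mx a v Y f → ⟪a e, Y⟫ < ⟪a f, Y⟫ := by
    intro e f he hf
    rcases (he.2 f hf.1).eq_or_lt with h1 | h1
    · exfalso
      have h2 : Mx a v Y e := ⟨he.1, fun b hb => by rw [h1]; exact hf.2 b hb⟩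
      exact lt_irrefl _ (hrev e e he h2)
    · exact h1
  refine ⟨hY, hpos, ?_⟩
  intro e f he hf z Z hZ hYZ
  have hzy : z ≠ y := by
    rintro rfl
    have h1 : det3 v Y Z = 0 := by
      by_contra hne
      -- both directions of the same plane
      have h2 := plane_rel (Z1 := Y) (Z2 := Z) (Z3 := X) h.unit hY.v0 hZ.v0 g.vX
      have h3 := congrArg (fun w => ⟪a z, w⟫) h2
      simp only [inner_add_right, inner_smul_right, hY.az, hZ.az, mul_zero, add_zero] at h3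
      rcases mul_eq_zero.1 h3 with h4 | h4
      · exact hne h4
      · exact g.yX h4
    rw [h1, mul_zero] at hYZ
    exact lt_irrefl _ hYZ
  have hrel := plane_rel (Z1 := X) (Z2 := Y) (Z3 := Z) h.unit g.vX g.vY hZ.v0
  have hq : ⟪a z, Y⟫ ≠ 0 := hY.inner_ne h hZ.mem hzy
  have h1 := congrArg (fun w => ⟪a z, w⟫) hrel
  simp only [inner_add_right, inner_smul_right, hZ.az, mul_zero] at h1
  have hgap := g.gap z hZ.mem
  have hsw : det3 v Z Y = - det3 v Y Z := det3_v_swap _ _ _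
  rw [hsw] at h1
  -- σ D(X,Z) ≥ 0
  have h2 : 0 ≤ σ * det3 v X Z := by
    have h3 : σ * det3 v X Z * (⟪a z, Y⟫ * ⟪a z, Y⟫) =
        σ * det3 v Y Z * (⟪a z, X⟫ * ⟪a z, Y⟫) := by
      linear_combination (-(σ * ⟪a z, Y⟫)) * h1
    have h4 : 0 ≤ σ * det3 v X Z * (⟪a z, Y⟫ * ⟪a z, Y⟫) := by
      rw [h3]; exact mul_nonneg hYZ.le hgap
    by_contra hneg
    push Not at hneg
    have := mul_neg_of_neg_of_pos hneg (mul_self_pos.2 hq)
    linarith
  have hX := hrev e f he hf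
  have hY' := hpos e f he hf
  have h5 := congrArg (fun w => ⟪a f - a e, w⟫) hrel
  simp only [inner_add_right, inner_smul_right, hsw] at h5
  have h6 : σ * det3 v X Y * ⟪a f - a e, Z⟫ =
      (σ * det3 v Y Z) * ⟪a e - a f, X⟫ + (σ * det3 v X Z) * ⟪a f - a e, Y⟫ := by
    have h7 : ⟪a e - a f, X⟫ = - ⟪a f - a e, X⟫ := by
      rw [← inner_neg_left, neg_sub]
    rw [h7]
    linear_combination σ * h5
  have h8 : 0 < ⟪a e - a f, X⟫ := by rw [inner_sub_left]; linarith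
  have h9 : 0 < ⟪a f - a e, Y⟫ := by rw [inner_sub_left]; linarith
  have h10 : 0 < σ * det3 v X Y * ⟪a f - a e, Z⟫ := by
    rw [h6]
    have e1 := mul_pos hYZ h8
    have e2 := mul_nonneg h2 h9.le
    linarith
  have h11 : 0 < ⟪a f - a e, Z⟫ := (pos_iff_pos_of_mul_pos h10).1 hσ
  rw [inner_sub_left] at h11
  linarith

/-- three reversed gaps of the same type, well ordered -/
theorem RI.core3 {a : ι → E3} {v : E3} (h : Cen a v) (hM : ∃ b, b ∉ KK a v) {σ : ℝ}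
    {y1 y2 y3 : ι} {Y1 Y2 Y3 : E3} (r1 : RI a v σ y1 Y1) (r2 : RI a v σ y2 Y2)
    (r3 : RI a v σ y3 Y3) (d12 : 0 < σ * det3 v Y1 Y2) (d23 : 0 < σ * det3 v Y2 Y3)
    (d13 : 0 < σ * det3 v Y1 Y3) : False := by
  obtain ⟨e1, he1⟩ := exists_Mn hM Y1
  obtain ⟨f1, hf1⟩ := exists_Mx hM Y1
  obtain ⟨e2, he2⟩ := exists_Mn hM Y2
  obtain ⟨f2, hf2⟩ := exists_Mx hM Y2
  obtain ⟨e3, he3⟩ := exists_Mn hM Y3
  obtain ⟨f3, hf3⟩ := exists_Mx hM Y3
  have hrel := plane_rel (Z1 := Y1) (Z2 := Y3) (Z3 := Y2) h.unit r1.dir.v0 r3.dir.v0 r2.dir.v0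
  -- signs
  have s21 := r2.star e2 f2 he2 hf2 y1 (-Y1) r1.dir.neg (by
    rw [det3_v_neg_right, det3_v_swap v Y1 Y2, neg_neg]; exact d12)
  have s13 := r1.star e1 f1 he1 hf1 y3 Y3 r3.dir d13
  have s32 := r3.star e3 f3 he3 hf3 y2 (-Y2) r2.dir.neg (by
    rw [det3_v_neg_right, det3_v_swap v Y2 Y3, neg_neg]; exact d23)
  simp only [inner_neg_right] at s21 s32
  set F : E3 := (a f2 - a e2) - (a f1 - a e1) - (a f3 - a e3) with hF
  have F1 : ⟪F, Y1⟫ < 0 := by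
    simp only [hF, inner_sub_left]
    have b1 := he1.2 f3 hf3.1
    have b2 := hf1.2 e3 he3.1
    linarith
  have F3 : ⟪F, Y3⟫ < 0 := by
    simp only [hF, inner_sub_left]
    have b1 := he3.2 e2 he2.1
    have b2 := hf3.2 f2 hf2.1
    linarith
  have F2 : 0 < ⟪F, Y2⟫ := by
    simp only [hF, inner_sub_left]
    have b1 := he2.2 e1 he1.1
    have b2 := hf2.2 f1 hf1.1
    linarith
  have h1 := congrArg (fun w => ⟪F, w⟫) hrel
  simp only [inner_add_right, inner_smul_right] at h1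
  have h2 : σ * det3 v Y1 Y3 * ⟪F, Y2⟫ = σ * det3 v Y2 Y3 * ⟪F, Y1⟫ +
      σ * det3 v Y1 Y2 * ⟪F, Y3⟫ := by linear_combination σ * h1
  have e1 := mul_pos d13 F2
  have e2 := mul_neg_of_pos_of_neg d23 F1
  have e3 := mul_neg_of_pos_of_neg d12 F3
  linarith

/-- three reversed gaps of the same type -/
theorem RI.three {a : ι → E3} {v : E3} (h : Cen a v) (hM : ∃ b, b ∉ KK a v) {σ : ℝ}
    (hσ : Sgn σ) {y1 y2 y3 : ι} {Y1 Y2 Y3 : E3} (r1 : RI a v σ y1 Y1) (r2 : RI a v σ y2 Y2)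
    (r3 : RI a v σ y3 Y3) (h12 : y1 ≠ y2) (h23 : y2 ≠ y3) (h13 : y1 ≠ y3) : False := by
  -- make `0 < σ D(Y1,Y2)` and `0 < σ D(Y2,Y3)`
  have key : ∀ {Y1 Y3 : E3}, RI a v σ y1 Y1 → RI a v σ y3 Y3 → 0 < σ * det3 v Y1 Y2 →
      0 < σ * det3 v Y2 Y3 → False := by
    intro Y1 Y3 r1 r3 d12 d23
    have hne : σ * det3 v Y1 Y3 ≠ 0 := mul_ne_zero hσ.ne (r1.dir.det_ne h r3.dir h13)
    rcases lt_or_gt_of_ne hne with h1 | h1
    · -- flip Y3; order 1, 3, 2
      refine RI.core3 h hM r1 r3.flip r2 ?_ ?_ d12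
      · rw [det3_v_neg_right]; linarith
      · rw [det3_v_neg_left, det3_v_swap v Y2 Y3]; linarith
    · exact RI.core3 h hM r1 r2 r3 d12 d23 h1
  have n12 : σ * det3 v Y1 Y2 ≠ 0 := mul_ne_zero hσ.ne (r1.dir.det_ne h r2.dir h12)
  have n23 : σ * det3 v Y2 Y3 ≠ 0 := mul_ne_zero hσ.ne (r2.dir.det_ne h r3.dir h23)
  rcases lt_or_gt_of_ne n12 with h1 | h1 <;> rcases lt_or_gt_of_ne n23 with h2 | h2
  · exact key r1.flip r3.flip (by rw [det3_v_neg_left]; linarith)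
      (by rw [det3_v_neg_right]; linarith)
  · exact key r1.flip r3 (by rw [det3_v_neg_left]; linarith) h2
  · exact key r1 r3.flip h1 (by rw [det3_v_neg_right]; linarith)
  · exact key r1 r3 h1 h2

/-- a left gap and a right gap with a direction in between -/
theorem RI.coreLR {a : ι → E3} {v : E3} (h : Cen a v) (hM : ∃ b, b ∉ KK a v)
    {yl yr z : ι} {L R Z : E3} (rl : RI a v (-1) yl L) (rr : RI a v 1 yr R) (hZ : Dir a v z Z)
    (dLR : 0 < det3 v L R) (dLZ : 0 < det3 v L Z) (dZR : 0 < det3 v Z R) : False := by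
  obtain ⟨e1, he1⟩ := exists_Mn hM L
  obtain ⟨f1, hf1⟩ := exists_Mx hM L
  obtain ⟨e2, he2⟩ := exists_Mn hM R
  obtain ⟨f2, hf2⟩ := exists_Mx hM R
  have hrel := plane_rel (Z1 := L) (Z2 := R) (Z3 := Z) h.unit rl.dir.v0 rr.dir.v0 hZ.v0
  have s1 := rl.star e1 f1 he1 hf1 z (-Z) hZ.neg (by
    rw [det3_v_neg_right]; linarith)
  have s2 := rr.star e2 f2 he2 hf2 z (-Z) hZ.neg (by
    rw [det3_v_neg_right, det3_v_swap v Z R]; linarith)
  simp only [inner_neg_right] at s1 s2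
  have g1 := congrArg (fun w => ⟪a f1 - a e1, w⟫) hrel
  have g2 := congrArg (fun w => ⟪a f2 - a e2, w⟫) hrel
  simp only [inner_add_right, inner_smul_right, inner_sub_left] at g1 g2
  -- bounds
  have b1 := he1.2 f2 hf2.1
  have b2 := hf1.2 e2 he2.1
  have b3 := he2.2 f1 hf1.1
  have b4 := hf2.2 e1 he1.1
  have t1 : det3 v L R * (⟪a f1, Z⟫ - ⟪a e1, Z⟫) < 0 := mul_neg_of_pos_of_neg dLR (by linarith)
  have t2 : det3 v L R * (⟪a f2, Z⟫ - ⟪a e2, Z⟫) < 0 := mul_neg_of_pos_of_neg dLR (by linarith)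
  have u1 : det3 v L Z * (-(⟪a f1, R⟫ - ⟪a e1, R⟫)) ≤ det3 v L Z * (⟪a f2, R⟫ - ⟪a e2, R⟫) :=
    mul_le_mul_of_nonneg_left (by linarith) dLZ.le
  have u2 : det3 v Z R * (-(⟪a f2, L⟫ - ⟪a e2, L⟫)) ≤ det3 v Z R * (⟪a f1, L⟫ - ⟪a e1, L⟫) :=
    mul_le_mul_of_nonneg_left (by linarith) dZR.le
  linarith

theorem Mn.smul {a : ι → E3} {v Y : E3} {e : ι} (h : Mn a v Y e) {c : ℝ} (hc : 0 < c) :
    Mn a v (c • Y) e :=
  ⟨h.1, fun b hb => by
    rw [inner_smul_right, inner_smul_right]; exact mul_le_mul_of_nonneg_left (h.2 b hb) hc.le⟩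

theorem Mx.smul {a : ι → E3} {v Y : E3} {e : ι} (h : Mx a v Y e) {c : ℝ} (hc : 0 < c) :
    Mx a v (c • Y) e :=
  ⟨h.1, fun b hb => by
    rw [inner_smul_right, inner_smul_right]; exact mul_le_mul_of_nonneg_left (h.2 b hb) hc.le⟩

/-- left and right gap with the same target -/
theorem RI.sameLR {a : ι → E3} {v : E3} (h : Cen a v) (hk : 2 ≤ (KK a v).card)
    (hM : ∃ b, b ∉ KK a v) {y : ι} {L R : E3} (rl : RI a v (-1) y L) (rr : RI a v 1 y R) :
    False := by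
  classical
  -- L = c R, and we may assume c > 0
  have hpar : det3 v R L = 0 := by
    by_contra hne
    obtain ⟨z, hz, hzy⟩ : ∃ z ∈ KK a v, z ≠ y := by
      by_contra hcon
      push Not at hcon
      have : KK a v ⊆ {y} := fun z hz => Finset.mem_singleton.2 (hcon z hz)
      have := Finset.card_le_card this
      rw [Finset.card_singleton] at this
      omega
    obtain ⟨X, hX1, hX2, hX3⟩ := h.exists_dir z
    have hrel := plane_rel (Z1 := R) (Z2 := L) (Z3 := X) h.unit rr.dir.v0 rl.dir.v0 hX3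
    have h3 := congrArg (fun w => ⟪a y, w⟫) hrel
    simp only [inner_add_right, inner_smul_right, rl.dir.az, rr.dir.az, mul_zero, add_zero] at h3
    rcases mul_eq_zero.1 h3 with h4 | h4
    · exact hne h4
    · exact Dir.inner_ne h ⟨hz, hX1, hX2, hX3⟩ rr.dir.mem (Ne.symm hzy) h4
  obtain ⟨c, hc⟩ := par_of_det h.unit rr.dir.v0 rl.dir.v0 rr.dir.ne hpar
  have hc0 : c ≠ 0 := by
    rintro rfl
    rw [zero_smul] at hc
    exact rl.dir.ne hc
  have key : ∀ {L : E3} {c : ℝ}, RI a v (-1) y L → L = c • R → 0 < c → False := by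
    intro L c rl hc hpos
    obtain ⟨e, he⟩ := exists_Mn hM R
    obtain ⟨f, hf⟩ := exists_Mx hM R
    have he' := he.smul hpos
    have hf' := hf.smul hpos
    rw [← hc] at he' hf'
    obtain ⟨z, hz, hzy⟩ : ∃ z ∈ KK a v, z ≠ y := by
      by_contra hcon
      push Not at hcon
      have : KK a v ⊆ {y} := fun z hz => Finset.mem_singleton.2 (hcon z hz)
      have := Finset.card_le_card this
      rw [Finset.card_singleton] at this
      omega
    obtain ⟨X, hX1, hX2, hX3⟩ := h.exists_dir z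
    have hXd : Dir a v z X := ⟨hz, hX1, hX2, hX3⟩
    have hdne : det3 v R X ≠ 0 := rr.dir.det_ne h hXd (Ne.symm hzy)
    have hfin : ∀ Z, Dir a v z Z → 0 < det3 v R Z → False := by
      intro Z hZ hpos'
      have s1 := rr.star e f he hf z Z hZ (by rw [one_mul]; exact hpos')
      have s2 := rl.star e f he' hf' z (-Z) hZ.neg (by
        rw [hc, det3_v_neg_right, det3_smul_mid]
        have := mul_pos hpos hpos'
        linarith)
      rw [inner_neg_right, inner_neg_right] at s2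
      linarith
    rcases lt_or_gt_of_ne hdne with h1 | h1
    · exact hfin (-X) hXd.neg (by rw [det3_v_neg_right]; linarith)
    · exact hfin X hXd h1
  rcases lt_or_gt_of_ne hc0 with h1 | h1
  · exact key (c := -c) rl.flip (by rw [hc, neg_smul]) (by linarith)
  · exact key rl hc h1

theorem RI.orient {a : ι → E3} {v : E3} (h : Cen a v) {σ τ : ℝ} {y z : ι} {Y Z : E3}
    (r : RI a v σ y Y) (s : RI a v τ z Z) (hyz : y ≠ z) :
    ∃ Z', RI a v τ z Z' ∧ 0 < det3 v Y Z' := by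
  rcases lt_or_gt_of_ne (r.dir.det_ne h s.dir hyz) with h1 | h1
  · exact ⟨-Z, s.flip, by rw [det3_v_neg_right]; linarith⟩
  · exact ⟨Z, s, h1⟩

theorem RI.lrr {a : ι → E3} {v : E3} (h : Cen a v) (hk : 2 ≤ (KK a v).card)
    (hM : ∃ b, b ∉ KK a v) {yl y1 y2 : ι} {L R1 R2 : E3} (rl : RI a v (-1) yl L)
    (r1 : RI a v 1 y1 R1) (r2 : RI a v 1 y2 R2) (h12 : y1 ≠ y2) : False := by
  have n1 : yl ≠ y1 := by rintro rfl; exact RI.sameLR h hk hM rl r1
  have n2 : yl ≠ y2 := by rintro rfl; exact RI.sameLR h hk hM rl r2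
  obtain ⟨R1', r1', d1⟩ := rl.orient h r1 n1
  obtain ⟨R2', r2', d2⟩ := rl.orient h r2 n2
  rcases lt_or_gt_of_ne (r1'.dir.det_ne h r2'.dir h12) with h1 | h1
  · exact RI.coreLR h hM rl r1' r2'.dir d1 d2 (by rw [det3_v_swap v R1' R2']; linarith)
  · exact RI.coreLR h hM rl r2' r1'.dir d2 d1 h1

theorem RI.llr {a : ι → E3} {v : E3} (h : Cen a v) (hk : 2 ≤ (KK a v).card)
    (hM : ∃ b, b ∉ KK a v) {yr y1 y2 : ι} {R L1 L2 : E3} (rr : RI a v 1 yr R)
    (l1 : RI a v (-1) y1 L1) (l2 : RI a v (-1) y2 L2) (h12 : y1 ≠ y2) : False := by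
  have n1 : yr ≠ y1 := by rintro rfl; exact RI.sameLR h hk hM l1 rr
  have n2 : yr ≠ y2 := by rintro rfl; exact RI.sameLR h hk hM l2 rr
  obtain ⟨L1', l1', d1⟩ := rr.orient h l1 n1
  obtain ⟨L2', l2', d2⟩ := rr.orient h l2 n2
  -- now 0 < D(R, L_i); flip R to get 0 < D(L_i, -R)
  have e1 : 0 < det3 v L1' (-R) := by
    rw [det3_v_neg_right, det3_v_swap v R L1', neg_neg]; exact d1
  have e2 : 0 < det3 v L2' (-R) := by
    rw [det3_v_neg_right, det3_v_swap v R L2', neg_neg]; exact d2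
  rcases lt_or_gt_of_ne (l1'.dir.det_ne h l2'.dir h12) with h1 | h1
  · exact RI.coreLR h hM l2' rr.flip l1'.dir e2 (by rw [det3_v_swap v L1' L2']; linarith) e1
  · exact RI.coreLR h hM l1' rr.flip l2'.dir e1 h1 e2

theorem Gap.neg {a : ι → E3} {v : E3} {x y : ι} {X Y : E3} (g : Gap a v x y X Y) :
    Gap a v x y (-X) (-Y) := by
  refine ⟨g.hx, g.hy, ?_, ?_, ?_, ?_, ?_, ?_, ?_⟩
  · rw [inner_neg_right, g.xX, neg_zero]
  · rw [inner_neg_right, g.vX, neg_zero]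
  · rw [inner_neg_right, g.yY, neg_zero]
  · rw [inner_neg_right, g.vY, neg_zero]
  · rw [inner_neg_right]; exact neg_ne_zero.2 g.xY
  · rw [inner_neg_right]; exact neg_ne_zero.2 g.yX
  · intro z hz
    rw [inner_neg_right, inner_neg_right, neg_mul_neg]; exact g.gap z hz

/-- the neighbour on a given side determines the plane -/
theorem Gap.inj {a : ι → E3} {v : E3} (h : Cen a v) {σ : ℝ} {x1 x2 y : ι} {X1 X2 Y1 Y2 : E3}
    (g1 : Gap a v x1 y X1 Y1) (g2 : Gap a v x2 y X2 Y2) (hY1 : Dir a v y Y1)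
    (hY2 : Dir a v y Y2) (hX1 : Dir a v x1 X1) (hX2 : Dir a v x2 X2)
    (s1 : 0 < σ * det3 v X1 Y1) (s2 : 0 < σ * det3 v X2 Y2) : x1 = x2 := by
  by_contra hne
  have hσ : σ ≠ 0 := by rintro rfl; rw [zero_mul] at s1; exact lt_irrefl _ s1
  have hpar : det3 v Y1 Y2 = 0 := by
    by_contra hne'
    have hrel := plane_rel (Z1 := Y1) (Z2 := Y2) (Z3 := X1) h.unit g1.vY g2.vY g1.vX
    have h3 := congrArg (fun w => ⟪a y, w⟫) hrel
    simp only [inner_add_right, inner_smul_right, g1.yY, g2.yY, mul_zero, add_zero] at h3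
    rcases mul_eq_zero.1 h3 with h4 | h4
    · exact hne' h4
    · exact g1.yX h4
  obtain ⟨c, hc⟩ := par_of_det h.unit hY1.v0 hY2.v0 hY1.ne hpar
  have hc0 : c ≠ 0 := by
    rintro rfl
    rw [zero_smul] at hc
    exact hY2.ne hc
  have key : ∀ {X2 Y2 : E3} {c : ℝ}, Gap a v x2 y X2 Y2 → Dir a v x2 X2 → 0 < σ * det3 v X2 Y2 →
      Y2 = c • Y1 → 0 < c → False := by
    intro X2 Y2 c g2 hX2 s2 hc hpos
    have hrel := plane_rel (Z1 := X1) (Z2 := Y1) (Z3 := X2) h.unit g1.vX g1.vY g2.vX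
    have s2' : 0 < σ * det3 v X2 Y1 := by
      rw [hc, det3_smul_right] at s2
      have h5 : 0 < c * (σ * det3 v X2 Y1) := by linarith
      exact (pos_iff_pos_of_mul_pos h5).1 hpos
    have e1 := congrArg (fun w => ⟪a x2, w⟫) hrel
    have e2 := congrArg (fun w => ⟪a x1, w⟫) hrel
    simp only [inner_add_right, inner_smul_right, g1.xX, g2.xX, mul_zero, zero_add] at e1 e2
    have q1 := g1.gap x2 g2.hx
    have q2 := g2.gap x1 g1.hx
    rw [hc, inner_smul_right] at q2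
    have q2' : 0 ≤ ⟪a x1, X2⟫ * ⟪a x1, Y1⟫ := by
      by_contra hneg
      push Not at hneg
      have := mul_neg_of_pos_of_neg hpos hneg
      linarith
    have n1 : ⟪a x2, Y1⟫ ≠ 0 := by
      have h1 := g2.xY
      rw [hc, inner_smul_right] at h1
      exact right_ne_zero_of_mul h1
    have n2 : ⟪a x1, Y1⟫ ≠ 0 := g1.xY
    have t1 : σ * det3 v X1 X2 * (⟪a x2, Y1⟫ * ⟪a x2, Y1⟫) ≤ 0 := by
      have : σ * det3 v X1 X2 * (⟪a x2, Y1⟫ * ⟪a x2, Y1⟫) =
          -(σ * det3 v X2 Y1 * (⟪a x2, X1⟫ * ⟪a x2, Y1⟫)) := by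
        linear_combination (-(σ * ⟪a x2, Y1⟫)) * e1
      rw [this]
      have := mul_nonneg s2'.le q1
      linarith
    have t2 : 0 ≤ σ * det3 v X1 X2 * (⟪a x1, Y1⟫ * ⟪a x1, Y1⟫) := by
      have : σ * det3 v X1 X2 * (⟪a x1, Y1⟫ * ⟪a x1, Y1⟫) =
          σ * det3 v X1 Y1 * (⟪a x1, X2⟫ * ⟪a x1, Y1⟫) := by
        linear_combination (-(σ * ⟪a x1, Y1⟫)) * e2
      rw [this]
      exact mul_nonneg s1.le q2'
    have hD : σ * det3 v X1 X2 ≠ 0 := mul_ne_zero hσ (hX1.det_ne h hX2 hne)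
    rcases lt_or_gt_of_ne hD with h1 | h1
    · have := mul_neg_of_neg_of_pos h1 (mul_self_pos.2 n2)
      linarith
    · have := mul_pos h1 (mul_self_pos.2 n1)
      linarith
  rcases lt_or_gt_of_ne hc0 with h1 | h1
  · refine key (c := -c) g2.neg hX2.neg ?_ (by rw [hc, neg_smul]) (by linarith)
    rw [det3_v_neg_left, det3_v_neg_right, neg_neg]; exact s2
  · exact key g2 hX2 s2 hc h1

end Pool.Agent.helper50.Zono
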