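import Pool.Agent.helper50.Zono.VV2

/-!
# The inequality (V) and the bound (C1)
-/

open scoped RealInnerProductSpace

set_option linter.unusedSectionVars false

namespace Pool.Agent.helper50.Zono

variable {ι : Type*} [DecidableEq ι] [Fintype ι]

open Classical in
/-- triangular cells with wall `x` that lie in the double wedge spanned by `X, Y` -/
noncomputable def NG (a : ι → E3) (v : E3) (x : ι) (X Y : E3) : Finset (Finset ι) :=
  (T3 a).filter (fun S => x ∈ walls a S ∧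
    ∃ τ : ℝ, Sgn τ ∧ ∀ z ∈ KK a v, 0 < τ * (sg S z * ⟪a z, X + Y⟫))

theorem mem_NG {a : ι → E3} {v : E3} {x : ι} {X Y : E3} {S : Finset ι} :
    S ∈ NG a v x X Y ↔ S ∈ T3 a ∧ x ∈ walls a S ∧
      ∃ τ : ℝ, Sgn τ ∧ ∀ z ∈ KK a v, 0 < τ * (sg S z * ⟪a z, X + Y⟫) := by
  classical
  unfold NG
  exact Finset.mem_filter

theorem NG_compl {a : ι → E3} {v : E3} {x : ι} {X Y : E3} {S : Finset ι}
    (hS : S ∈ NG a v x X Y) : Sᶜ ∈ NG a v x X Y := by
  rw [mem_NG] at hS ⊢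
  obtain ⟨h1, h2, τ, h3, h4⟩ := hS
  refine ⟨?_, by rw [walls_compl]; exact h2, -τ, h3.neg, fun z hz => ?_⟩
  · rw [mem_T3] at h1 ⊢
    rw [isTope_compl, walls_compl]; exact h1
  · rw [sg_compl]
    have := h4 z hz
    linarith

theorem ne_compl_of_sg {S S' : Finset ι} {z : ι} {t : ℝ} (h1 : 0 < sg S z * t)
    (h2 : 0 < sg S' z * t) : S ≠ S'ᶜ := by
  rintro rfl
  rw [sg_compl] at h1
  linarith

theorem Gap.two_le {a : ι → E3} {v : E3} (h : Cen a v) (hM : ∃ b, b ∉ KK a v) {x y : ι}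
    {X Y : E3} (g : Gap a v x y X Y) : 2 ≤ (NG a v x X Y).card := by
  classical
  obtain ⟨e, he⟩ := exists_Mn hM Y
  obtain ⟨S, hS, hw, hp, _⟩ := g.exists_cell h he.1 he.2
  have h1 : S ∈ NG a v x X Y := mem_NG.2 ⟨hS, hw, 1, Or.inl rfl, fun z hz => by
    rw [one_mul]; exact hp z hz⟩
  have h2 := NG_compl h1
  have hne : S ≠ Sᶜ := ne_compl_of_sg (hp x g.hx) (hp x g.hx)
  calc 2 = ({S, Sᶜ} : Finset (Finset ι)).card := (Finset.card_pair hne).symm
    _ ≤ _ := Finset.card_le_card (by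
      intro T hT
      rw [Finset.mem_insert, Finset.mem_singleton] at hT
      rcases hT with rfl | rfl
      · exact h1
      · exact h2)

theorem Gap.four_le {a : ι → E3} {v : E3} (h : Cen a v) {x y : ι}
    {X Y : E3} (g : Gap a v x y X Y) (hr : ¬ Rev a v X Y) : 4 ≤ (NG a v x X Y).card := by
  classical
  unfold Rev at hr
  push Not at hr
  obtain ⟨e, f, he, hf, hef⟩ := hr
  obtain ⟨S1, hS1, hw1, hp1, hq1⟩ := g.exists_cell h he.1 he.2
  obtain ⟨S2, hS2, hw2, hp2, hq2⟩ := g.exists_cell' h hf.1 hf.2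
  have m1 : S1 ∈ NG a v x X Y := mem_NG.2 ⟨hS1, hw1, 1, Or.inl rfl, fun z hz => by
    rw [one_mul]; exact hp1 z hz⟩
  have m2 : S2 ∈ NG a v x X Y := mem_NG.2 ⟨hS2, hw2, 1, Or.inl rfl, fun z hz => by
    rw [one_mul]; exact hp2 z hz⟩
  have m1' := NG_compl m1
  have m2' := NG_compl m2
  have h12 : S1 ≠ S2 := by
    rintro rfl
    have e1 := hq1 e he.1 le_rfl
    have e2 := hq2 e he.1 hef
    rw [e1] at e2
    norm_num at e2
  have h11' : S1 ≠ S1ᶜ := ne_compl_of_sg (hp1 x g.hx) (hp1 x g.hx)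
  have h12' : S1 ≠ S2ᶜ := ne_compl_of_sg (hp1 x g.hx) (hp2 x g.hx)
  have h21' : S2 ≠ S1ᶜ := ne_compl_of_sg (hp2 x g.hx) (hp1 x g.hx)
  have h22' : S2 ≠ S2ᶜ := ne_compl_of_sg (hp2 x g.hx) (hp2 x g.hx)
  have h1'2' : S1ᶜ ≠ S2ᶜ := fun h' => h12 (compl_injective h')
  have hcard : ({S1, S2, S1ᶜ, S2ᶜ} : Finset (Finset ι)).card = 4 := by
    rw [Finset.card_insert_of_notMem, Finset.card_insert_of_notMem, Finset.card_pair h1'2']
    · simp only [Finset.mem_insert, Finset.mem_singleton]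
      rintro (h' | h')
      · exact h21' h'
      · exact h22' h'
    · simp only [Finset.mem_insert, Finset.mem_singleton]
      rintro (h' | h' | h')
      · exact h12 h'
      · exact h11' h'
      · exact h12' h'
  rw [← hcard]
  refine Finset.card_le_card ?_
  intro T hT
  simp only [Finset.mem_insert, Finset.mem_singleton] at hT
  rcases hT with rfl | rfl | rfl | rfl
  · exact m1
  · exact m2
  · exact m1'
  · exact m2'

theorem NG_disjoint {a : ι → E3} {v : E3} (h : Cen a v) (hk : 2 ≤ (KK a v).card) {x y y' : ι}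
    {X Y Y' : E3} (g : Gap a v x y X Y) (g' : Gap a v x y' X Y') (hX : Dir a v x X)
    (h1 : 0 < 1 * det3 v X Y) (h2 : 0 < -1 * det3 v X Y') :
    Disjoint (NG a v x X Y) (NG a v x X Y') := by
  classical
  rw [Finset.disjoint_left]
  intro S hS hS'
  obtain ⟨_, _, τ, hτ, hp⟩ := mem_NG.1 hS
  obtain ⟨_, _, τ', hτ', hp'⟩ := mem_NG.1 hS'
  obtain ⟨z, hz, hzx⟩ : ∃ z ∈ KK a v, z ≠ x := by
    by_contra hcon
    push Not at hcon
    have : KK a v ⊆ {x} := fun z hz => Finset.mem_singleton.2 (hcon z hz)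
    have := Finset.card_le_card this
    rw [Finset.card_singleton] at this
    omega
  -- from z: τ τ' > 0
  have hzX : ⟪a z, X⟫ ≠ 0 := hX.inner_ne h hz hzx
  have hsq := mul_self_pos.2 hzX
  have e1 : 0 < ⟪a z, X⟫ * ⟪a z, X + Y⟫ := by
    rw [inner_add_right, mul_add]
    have := g.gap z hz
    linarith
  have e2 : 0 < ⟪a z, X⟫ * ⟪a z, X + Y'⟫ := by
    rw [inner_add_right, mul_add]
    have := g'.gap z hz
    linarith
  have e3 := hp z hz
  have e4 := hp' z hz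
  have hττ : 0 < τ * τ' := by
    have e5 := mul_pos e3 e4
    have e6 := mul_pos e1 e2
    have e7 : τ * (sg S z * ⟪a z, X + Y⟫) * (τ' * (sg S z * ⟪a z, X + Y'⟫)) =
        (τ * τ') * ((sg S z * sg S z) * (⟪a z, X + Y⟫ * ⟪a z, X + Y'⟫)) := by ring
    rw [e7, sg_sq, one_mul] at e5
    have e8 : ⟪a z, X⟫ * ⟪a z, X + Y⟫ * (⟪a z, X⟫ * ⟪a z, X + Y'⟫) =
        (⟪a z, X⟫ * ⟪a z, X⟫) * (⟪a z, X + Y⟫ * ⟪a z, X + Y'⟫) := by ring
    rw [e8] at e6
    have e9 : 0 < ⟪a z, X + Y⟫ * ⟪a z, X + Y'⟫ := (pos_iff_pos_of_mul_pos e6).1 hsq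
    exact (pos_iff_pos_of_mul_pos e5).2 e9
  -- from x: opposite
  have hrel := plane_rel (Z1 := X) (Z2 := Y) (Z3 := Y') h.unit g.vX g.vY g'.vY
  have f1 := congrArg (fun w => ⟪a x, w⟫) hrel
  simp only [inner_add_right, inner_smul_right, g.xX, mul_zero, zero_add] at f1
  have f2 := hp x g.hx
  have f3 := hp' x g.hx
  rw [inner_add_right, g.xX, zero_add] at f2 f3
  have f4 := mul_pos f2 f3
  have f5 : τ * (sg S x * ⟪a x, Y⟫) * (τ' * (sg S x * ⟪a x, Y'⟫)) =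
      (τ * τ') * ((sg S x * sg S x) * (⟪a x, Y⟫ * ⟪a x, Y'⟫)) := by ring
  rw [f5, sg_sq, one_mul] at f4
  have f6 : 0 < ⟪a x, Y⟫ * ⟪a x, Y'⟫ := (pos_iff_pos_of_mul_pos f4).1 hττ
  have f7 : det3 v X Y * (⟪a x, Y⟫ * ⟪a x, Y'⟫) =
      det3 v X Y' * (⟪a x, Y⟫ * ⟪a x, Y⟫) := by linear_combination ⟪a x, Y⟫ * f1
  have f8 : 0 < det3 v X Y * (⟪a x, Y⟫ * ⟪a x, Y'⟫) := mul_pos (by linarith) f6
  have f9 : det3 v X Y' * (⟪a x, Y⟫ * ⟪a x, Y⟫) < 0 :=
    mul_neg_of_neg_of_pos (by linarith) (mul_self_pos.2 g.xY)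
  linarith

theorem exists_three {s : Finset ι} (h : 3 ≤ s.card) :
    ∃ a ∈ s, ∃ b ∈ s, ∃ c ∈ s, a ≠ b ∧ b ≠ c ∧ a ≠ c := by
  obtain ⟨t, ht, hc⟩ := Finset.exists_subset_card_eq h
  obtain ⟨a, b, c, hab, hac, hbc, rfl⟩ := Finset.card_eq_three.1 hc
  exact ⟨a, ht (by simp), b, ht (by simp), c, ht (by simp), hab, hbc, hac⟩

/-- there are at most two reversed gaps -/
theorem Cen.coreV {a : ι → E3} {v : E3} (h : Cen a v) (hk : 2 ≤ (KK a v).card)
    (hM : ∃ b, b ∉ KK a v) : ∃ Rp Rm : Finset ι, Rp ⊆ KK a v ∧ Rm ⊆ KK a v ∧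
      Rp.card + Rm.card ≤ 2 ∧
      ∀ x ∈ KK a v, 8 ≤ ((T3 a).filter (fun S => x ∈ walls a S)).card +
        2 * (if x ∈ Rp then 1 else 0) + 2 * (if x ∈ Rm then 1 else 0) := by
  classical
  choose D hD1 hD2 hD3 using h.exists_dir
  have hDd : ∀ z ∈ KK a v, Dir a v z (D z) := fun z hz => ⟨hz, hD1 z, hD2 z, hD3 z⟩
  have hgp : ∀ x, ∃ y Y, x ∈ KK a v → Gap a v x y (D x) Y ∧ Dir a v y Y ∧
      0 < 1 * det3 v (D x) Y := by
    intro x
    by_cases hx : x ∈ KK a v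
    · obtain ⟨y, Y, h1, h2, h3⟩ := exists_gap h hk (hDd x hx) (Or.inl rfl : Sgn 1)
      exact ⟨y, Y, fun _ => ⟨h1, h2, h3⟩⟩
    · exact ⟨x, 0, fun h' => absurd h' hx⟩
  have hgm : ∀ x, ∃ y Y, x ∈ KK a v → Gap a v x y (D x) Y ∧ Dir a v y Y ∧
      0 < -1 * det3 v (D x) Y := by
    intro x
    by_cases hx : x ∈ KK a v
    · obtain ⟨y, Y, h1, h2, h3⟩ := exists_gap h hk (hDd x hx) (Or.inr rfl : Sgn (-1))
      exact ⟨y, Y, fun _ => ⟨h1, h2, h3⟩⟩
    · exact ⟨x, 0, fun h' => absurd h' hx⟩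
  choose yp Yp hp using hgp
  choose ym Ym hm using hgm
  set Rp := (KK a v).filter (fun x => Rev a v (D x) (Yp x)) with hRp
  set Rm := (KK a v).filter (fun x => Rev a v (D x) (Ym x)) with hRm
  have hRIp : ∀ x ∈ Rp, RI a v 1 (yp x) (Yp x) := by
    intro x hx
    obtain ⟨hxK, hrev⟩ := Finset.mem_filter.1 hx
    obtain ⟨g, hd, hs⟩ := hp x hxK
    exact RI.of_rev h g hd hs hrev
  have hRIm : ∀ x ∈ Rm, RI a v (-1) (ym x) (Ym x) := by
    intro x hx
    obtain ⟨hxK, hrev⟩ := Finset.mem_filter.1 hx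
    obtain ⟨g, hd, hs⟩ := hm x hxK
    exact RI.of_rev h g hd hs hrev
  have injp : ∀ x1 ∈ KK a v, ∀ x2 ∈ KK a v, x1 ≠ x2 → yp x1 ≠ yp x2 := by
    intro x1 h1 x2 h2 hne heq
    obtain ⟨g1, d1, s1⟩ := hp x1 h1
    obtain ⟨g2, d2, s2⟩ := hp x2 h2
    rw [← heq] at g2 d2
    exact hne (Gap.inj h g1 g2 d1 d2 (hDd x1 h1) (hDd x2 h2) s1 s2)
  have injm : ∀ x1 ∈ KK a v, ∀ x2 ∈ KK a v, x1 ≠ x2 → ym x1 ≠ ym x2 := by
    intro x1 h1 x2 h2 hne heq
    obtain ⟨g1, d1, s1⟩ := hm x1 h1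
    obtain ⟨g2, d2, s2⟩ := hm x2 h2
    rw [← heq] at g2 d2
    exact hne (Gap.inj h g1 g2 d1 d2 (hDd x1 h1) (hDd x2 h2) s1 s2)
  have hRpK : ∀ x ∈ Rp, x ∈ KK a v := fun x hx => (Finset.mem_filter.1 hx).1
  have hRmK : ∀ x ∈ Rm, x ∈ KK a v := fun x hx => (Finset.mem_filter.1 hx).1
  have hRp2 : Rp.card ≤ 2 := by
    by_contra hcon
    push Not at hcon
    obtain ⟨x1, h1, x2, h2, x3, h3, h12, h23, h13⟩ := exists_three hcon
    exact RI.three h hM (Or.inl rfl) (hRIp x1 h1) (hRIp x2 h2) (hRIp x3 h3)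
      (injp x1 (hRpK x1 h1) x2 (hRpK x2 h2) h12) (injp x2 (hRpK x2 h2) x3 (hRpK x3 h3) h23)
      (injp x1 (hRpK x1 h1) x3 (hRpK x3 h3) h13)
  have hRm2 : Rm.card ≤ 2 := by
    by_contra hcon
    push Not at hcon
    obtain ⟨x1, h1, x2, h2, x3, h3, h12, h23, h13⟩ := exists_three hcon
    exact RI.three h hM (Or.inr rfl) (hRIm x1 h1) (hRIm x2 h2) (hRIm x3 h3)
      (injm x1 (hRmK x1 h1) x2 (hRmK x2 h2) h12) (injm x2 (hRmK x2 h2) x3 (hRmK x3 h3) h23)
      (injm x1 (hRmK x1 h1) x3 (hRmK x3 h3) h13)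
  have hsum : Rp.card + Rm.card ≤ 2 := by
    by_cases hRm0 : Rm = ∅
    · rw [hRm0, Finset.card_empty]; omega
    by_cases hRp0 : Rp = ∅
    · rw [hRp0, Finset.card_empty]; omega
    obtain ⟨l, hl⟩ := Finset.nonempty_iff_ne_empty.2 hRm0
    obtain ⟨r, hr⟩ := Finset.nonempty_iff_ne_empty.2 hRp0
    have h1 : Rp.card ≤ 1 := by
      rw [Finset.card_le_one]
      intro x1 h1 x2 h2
      by_contra hne
      exact RI.lrr h hk hM (hRIm l hl) (hRIp x1 h1) (hRIp x2 h2)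
        (injp x1 (hRpK x1 h1) x2 (hRpK x2 h2) hne)
    have h2 : Rm.card ≤ 1 := by
      rw [Finset.card_le_one]
      intro x1 h1 x2 h2
      by_contra hne
      exact RI.llr h hk hM (hRIp r hr) (hRIm x1 h1) (hRIm x2 h2)
        (injm x1 (hRmK x1 h1) x2 (hRmK x2 h2) hne)
    omega
  -- the count at each plane
  have hA : ∀ x ∈ KK a v, 8 ≤ ((T3 a).filter (fun S => x ∈ walls a S)).card +
      2 * (if x ∈ Rp then 1 else 0) + 2 * (if x ∈ Rm then 1 else 0) := by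
    intro x hx
    obtain ⟨g, d, s⟩ := hp x hx
    obtain ⟨g', d', s'⟩ := hm x hx
    have hdis := NG_disjoint h hk g g' (hDd x hx) s s'
    have hsub : NG a v x (D x) (Yp x) ∪ NG a v x (D x) (Ym x) ⊆
        (T3 a).filter (fun S => x ∈ walls a S) := by
      intro S hS
      rw [Finset.mem_union] at hS
      rcases hS with hS | hS
      · exact Finset.mem_filter.2 ⟨(mem_NG.1 hS).1, (mem_NG.1 hS).2.1⟩
      · exact Finset.mem_filter.2 ⟨(mem_NG.1 hS).1, (mem_NG.1 hS).2.1⟩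
    have hcard := Finset.card_le_card hsub
    rw [Finset.card_union_of_disjoint hdis] at hcard
    have h1 : 4 ≤ (NG a v x (D x) (Yp x)).card + 2 * (if x ∈ Rp then 1 else 0) := by
      by_cases hr : x ∈ Rp
      · rw [if_pos hr]
        have := g.two_le h hM
        omega
      · have := g.four_le h (fun h' => hr (Finset.mem_filter.2 ⟨hx, h'⟩))
        omega
    have h2 : 4 ≤ (NG a v x (D x) (Ym x)).card + 2 * (if x ∈ Rm then 1 else 0) := by
      by_cases hr : x ∈ Rm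
      · rw [if_pos hr]
        have := g'.two_le h hM
        omega
      · have := g'.four_le h (fun h' => hr (Finset.mem_filter.2 ⟨hx, h'⟩))
        omega
    omega
  exact ⟨Rp, Rm, hRpK, hRmK, hsum, hA⟩

/-- **The inequality (V).** -/
theorem Cen.sumV {a : ι → E3} {v : E3} (h : Cen a v) (hk : 2 ≤ (KK a v).card)
    (hM : ∃ b, b ∉ KK a v) :
    8 * (KK a v).card ≤ (∑ S ∈ T3 a, (walls a S ∩ KK a v).card) + 4 := by
  classical
  obtain ⟨Rp, Rm, hRpK, hRmK, hsum, hA⟩ := h.coreV hk hM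
  have hdouble : ∑ x ∈ KK a v, ((T3 a).filter (fun S => x ∈ walls a S)).card =
      ∑ S ∈ T3 a, (walls a S ∩ KK a v).card := by
    simp only [Finset.card_filter]
    rw [Finset.sum_comm]
    refine Finset.sum_congr rfl fun S _ => ?_
    rw [← Finset.card_filter]
    congr 1
    ext z
    rw [Finset.mem_filter, Finset.mem_inter]
    tauto
  have hsumA := Finset.sum_le_sum hA
  rw [Finset.sum_const, smul_eq_mul, Finset.sum_add_distrib, Finset.sum_add_distrib, hdouble,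
    ← Finset.mul_sum, ← Finset.mul_sum] at hsumA
  have hp' : ∑ x ∈ KK a v, (if x ∈ Rp then 1 else 0) = Rp.card := by
    rw [← Finset.card_filter]
    congr 1
    ext z
    rw [Finset.mem_filter]
    exact ⟨fun h' => h'.2, fun h' => ⟨hRpK h', h'⟩⟩
  have hm' : ∑ x ∈ KK a v, (if x ∈ Rm then 1 else 0) = Rm.card := by
    rw [← Finset.card_filter]
    congr 1
    ext z
    rw [Finset.mem_filter]
    exact ⟨fun h' => h'.2, fun h' => ⟨hRmK h', h'⟩⟩
  rw [hp', hm'] at hsumA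
  omega

/-- a triangular cell has at most two walls through `v` -/
theorem Cen.walls_inter_le {a : ι → E3} {v : E3} (h : Cen a v) {S : Finset ι} (hS : S ∈ T3 a) :
    (walls a S ∩ KK a v).card ≤ 2 := by
  classical
  obtain ⟨hT, hc⟩ := mem_T3.1 hS
  by_contra hcon
  push Not at hcon
  have hsub : walls a S ∩ KK a v = walls a S :=
    Finset.eq_of_subset_of_card_le Finset.inter_subset_left (by omega)
  obtain ⟨i, hi, hne⟩ := exists_wall_inner_ne h.arr hT h.v_ne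
  rw [← hsub] at hi
  exact hne (mem_KK.1 (Finset.mem_inter.1 hi).2)

/-- **(C1)** for normalized arrangements. -/
theorem Cen.c1 {a : ι → E3} {v : E3} (h : Cen a v) (hk : 3 ≤ (KK a v).card)
    (hM : 2 ≤ ((KK a v)ᶜ).card) :
    2 * (Fintype.card ι + (KK a v).card) ≤ tri a + 4 := by
  classical
  have hQ := h.sumQ hk hM
  have hV := h.sumV (by omega) (by
    obtain ⟨b, hb⟩ := Finset.card_pos.1 (by omega : 0 < ((KK a v)ᶜ).card)
    exact ⟨b, Finset.mem_compl.1 hb⟩)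
  have hsum : ∑ S ∈ T3 a, cq a v S + ∑ S ∈ T3 a, (walls a S ∩ KK a v).card = 2 * tri a := by
    rw [← Finset.sum_add_distrib, tri_eq, mul_comm, ← smul_eq_mul, ← Finset.sum_const]
    refine Finset.sum_congr rfl fun S hS => ?_
    have := h.walls_inter_le hS
    unfold cq
    omega
  have hN : ((KK a v)ᶜ).card + (KK a v).card = Fintype.card ι := by
    rw [Finset.card_compl]
    have := Finset.card_le_univ (KK a v)
    omega
  omega

end Pool.Agent.helper50.Zono
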