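import Pool.Agent.helper50.Zono.Lower

/-!
# Lines with at least four adjacent triangles and the two-sided bound
-/

open scoped RealInnerProductSpace

set_option linter.unusedSectionVars false

namespace Pool.Agent.helper50.Zono

variable {ι : Type*} [DecidableEq ι] [Fintype ι]

/-- (V) line by line -/
theorem tw_core {a : ι → E3} (h : IsArr a) {q : Submodule ℝ E3}
    (hq : q ∈ planes a Finset.univ) : ∃ Rp Rm : Finset ι, Rp.card + Rm.card ≤ 2 ∧
      ∀ x ∈ onq a q, 8 ≤ tw a x + 2 * (if x ∈ Rp then 1 else 0) +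
        2 * (if x ∈ Rm then 1 else 0) := by
  classical
  have hM := h.mult_lt hq
  obtain ⟨v, hvv, hv⟩ := exists_normal (finrank_planes h.indep hq)
  have hK := card_KK_eq_mult (a := a) hv
  have hex : ∃ b, b ∉ KK a v := by
    by_contra hcon
    push Not at hcon
    have : KK a v = Finset.univ := by ext i; simp [hcon i]
    rw [this, Finset.card_univ] at hK
    omega
  obtain ⟨Rp, Rm, -, -, h3, h4⟩ := (cen_nrm h hvv).coreV
    (by rw [KK_nrm, hK]; exact two_le_mult hq) (by rw [KK_nrm]; exact hex)
  refine ⟨Rp, Rm, h3, fun x hx => ?_⟩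
  have h5 : KK a v = onq a q := by
    ext i
    rw [mem_KK, mem_onq, hv]
  have h6 := h4 x (by rw [KK_nrm, h5]; exact hx)
  rw [T3_filter_scale (nrm_ne a v) x] at h6
  exact h6

/-- the lines with at least four adjacent triangles -/
noncomputable def heavy (a : ι → E3) : Finset ι := Finset.univ.filter (fun i => 8 ≤ tw a i)

theorem mem_heavy {a : ι → E3} {i : ι} : i ∈ heavy a ↔ 8 ≤ tw a i := by
  unfold heavy; simp

/-- all but at most two lines through a vertex are heavy -/
theorem mult_le_heavy {a : ι → E3} (h : IsArr a) {q : Submodule ℝ E3}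
    (hq : q ∈ planes a Finset.univ) :
    mult a Finset.univ q ≤ (onq a q ∩ heavy a).card + 2 := by
  classical
  obtain ⟨Rp, Rm, h1, h2⟩ := tw_core h hq
  have h3 : onq a q ⊆ (onq a q ∩ heavy a) ∪ (Rp ∪ Rm) := by
    intro x hx
    by_cases hp : x ∈ Rp
    · exact Finset.mem_union_right _ (Finset.mem_union_left _ hp)
    by_cases hm : x ∈ Rm
    · exact Finset.mem_union_right _ (Finset.mem_union_right _ hm)
    · have h4 := h2 x hx
      rw [if_neg hp, if_neg hm] at h4
      exact Finset.mem_union_left _ (Finset.mem_inter.2 ⟨hx, mem_heavy.2 (by omega)⟩)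
  have h4 := Finset.card_le_card h3
  have h5 := Finset.card_union_le (onq a q ∩ heavy a) (Rp ∪ Rm)
  have h6 := Finset.card_union_le Rp Rm
  rw [card_onq] at h4
  omega

/-- if a line has fewer than three adjacent triangles, then it has exactly two and all the other
lines are heavy -/
theorem all_heavy {a : ι → E3} (h : IsArr a) {x : ι} (hx : tw a x < 6) :
    4 ≤ tw a x ∧ ∀ y, y ≠ x → 8 ≤ tw a y := by
  classical
  have key : ∀ y, y ≠ x → 4 ≤ tw a x ∧ 8 ≤ tw a y := by
    intro y hyx
    have hq : pl a x y ∈ planes a Finset.univ :=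
      mem_planes.2 ⟨x, Finset.mem_univ _, y, Finset.mem_univ _, Ne.symm hyx, rfl⟩
    obtain ⟨Rp, Rm, h1, h2⟩ := tw_core h hq
    have hxq := h2 x (mem_onq.2 (mem_pl_left _ _ _))
    have hyq := h2 y (mem_onq.2 (mem_pl_right _ _ _))
    have hp : x ∈ Rp := by
      by_contra hp
      rw [if_neg hp] at hxq
      split_ifs at hxq <;> omega
    have hm : x ∈ Rm := by
      by_contra hm
      rw [if_neg hm] at hxq
      split_ifs at hxq <;> omega
    have hp1 : 1 ≤ Rp.card := Finset.card_pos.2 ⟨x, hp⟩
    have hm1 : 1 ≤ Rm.card := Finset.card_pos.2 ⟨x, hm⟩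
    have hyp : y ∉ Rp := fun hy => hyx (Finset.card_le_one.1 (by omega : Rp.card ≤ 1) y hy x hp)
    have hym : y ∉ Rm := fun hy => hyx (Finset.card_le_one.1 (by omega : Rm.card ≤ 1) y hy x hm)
    rw [if_pos hp, if_pos hm] at hxq
    rw [if_neg hyp, if_neg hym] at hyq
    omega
  have hN := h.three_le
  obtain ⟨y, hy⟩ : ∃ y, y ≠ x := by
    obtain ⟨y, hy⟩ := Finset.card_pos.1
      (by rw [Finset.card_erase_of_mem (Finset.mem_univ x), Finset.card_univ]; omega :
        0 < (Finset.univ.erase x).card)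
    exact ⟨y, (Finset.mem_erase.1 hy).1⟩
  exact ⟨(key y hy).1, fun y hy => (key y hy).2⟩

/-- pairs of heavy lines -/
theorem sum_heavy {a : ι → E3} (h : IsArr a) :
    ∑ q ∈ planes a Finset.univ, (mult a Finset.univ q - 2) * (mult a Finset.univ q - 3) ≤
      (heavy a).card * ((heavy a).card - 1) := by
  classical
  have h1 : (heavy a).offDiag.card = (heavy a).card * ((heavy a).card - 1) := by
    rw [Finset.offDiag_card, Nat.mul_sub_one]
  rw [← h1]
  rw [Finset.card_eq_sum_card_fiberwise (f := fun p : ι × ι => pl a p.1 p.2)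
    (t := planes a Finset.univ) (s := (heavy a).offDiag)
    (fun p hp => Finset.mem_image_of_mem _ (by
      obtain ⟨-, -, hne⟩ := Finset.mem_offDiag.1 hp
      exact Finset.mem_offDiag.2 ⟨Finset.mem_univ _, Finset.mem_univ _, hne⟩))]
  refine Finset.sum_le_sum fun q hq => ?_
  have h2 : (onq a q ∩ heavy a).offDiag ⊆
      (heavy a).offDiag.filter (fun p => pl a p.1 p.2 = q) := by
    rintro ⟨k, l⟩ hkl
    rw [Finset.mem_offDiag, Finset.mem_inter, Finset.mem_inter, mem_onq, mem_onq] at hkl
    obtain ⟨⟨hkq, hk⟩, ⟨hlq, hl⟩, hne⟩ := hkl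
    rw [Finset.mem_filter, Finset.mem_offDiag]
    refine ⟨⟨hk, hl, hne⟩, ?_⟩
    obtain ⟨i, -, j, -, hij, rfl⟩ := mem_planes.1 hq
    exact pl_eq h.indep hij hne hkq hlq
  refine le_trans ?_ (Finset.card_le_card h2)
  rw [Finset.offDiag_card]
  have h3 := mult_le_heavy h hq
  have h4 : mult a Finset.univ q - 2 ≤ (onq a q ∩ heavy a).card := by omega
  calc (mult a Finset.univ q - 2) * (mult a Finset.univ q - 3)
      ≤ (onq a q ∩ heavy a).card * ((onq a q ∩ heavy a).card - 1) :=
        Nat.mul_le_mul h4 (by omega)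
    _ = _ := by rw [Nat.mul_sub_one]

/-- the number of triangular cells is even -/
theorem even_tri (a : ι → E3) (hc : 0 < Fintype.card ι) : Even (tri a) := by
  classical
  have h1 : ∑ S ∈ T3 a, (1 : ZMod 2) = 0 := by
    refine Finset.sum_involution (fun S _ => Sᶜ) (fun S _ => ?_) (fun S _ _ hS => ?_)
      (fun S hS => ?_) (fun S _ => compl_compl S)
    · decide
    · obtain ⟨i⟩ := Fintype.card_pos_iff.1 hc
      by_cases hi : i ∈ S
      · have : i ∈ Sᶜ := by rw [hS]; exact hi
        exact Finset.mem_compl.1 this hi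
      · have : i ∈ Sᶜ := Finset.mem_compl.2 hi
        rw [hS] at this
        exact hi this
    · rw [mem_T3] at hS ⊢
      rw [isTope_compl, walls_compl]
      exact hS
  rw [Finset.sum_const, nsmul_eq_mul, mul_one, ← tri_eq] at h1
  rwa [ZMod.natCast_eq_zero_iff_even] at h1

/-- the number of heavy lines -/
theorem heavy_le {a : ι → E3} (h : IsArr a) :
    (6 * Fintype.card ι + 2 * (heavy a).card ≤ 3 * tri a) ∨
    (8 * Fintype.card ι ≤ 3 * tri a + 4 ∧ (heavy a).card + 1 = Fintype.card ι) := by
  classical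
  have hsum := sum_tw a
  have hN := h.three_le
  by_cases hx : ∃ x, tw a x < 6
  · right
    obtain ⟨x, hx⟩ := hx
    obtain ⟨h4, hall⟩ := all_heavy h hx
    have h7 : ∀ j ∈ Finset.univ.erase x, 8 ≤ tw a j := fun j hj =>
      hall j (Finset.mem_erase.1 hj).1
    have h8 := Finset.sum_le_sum h7
    rw [Finset.sum_const, smul_eq_mul, Finset.card_erase_of_mem (Finset.mem_univ _),
      Finset.card_univ] at h8
    have h9 : tw a x + ∑ j ∈ Finset.univ.erase x, tw a j = 3 * tri a := by
      rw [Finset.add_sum_erase _ _ (Finset.mem_univ x), hsum]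
    refine ⟨by omega, ?_⟩
    have h10 : heavy a = Finset.univ.erase x := by
      ext y
      rw [mem_heavy, Finset.mem_erase]
      constructor
      · intro hy
        refine ⟨?_, Finset.mem_univ _⟩
        rintro rfl
        omega
      · rintro ⟨hy, -⟩
        exact hall y hy
    rw [h10, Finset.card_erase_of_mem (Finset.mem_univ _), Finset.card_univ]
    omega
  · left
    push Not at hx
    have h1 : ∀ x, 6 + 2 * (if 8 ≤ tw a x then 1 else 0) ≤ tw a x := by
      intro x
      have := hx x
      split_ifs <;> omega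
    have h2 : ∑ x, (6 + 2 * (if 8 ≤ tw a x then 1 else 0)) ≤ ∑ x, tw a x :=
      Finset.sum_le_sum fun x _ => h1 x
    rw [Finset.sum_add_distrib, Finset.sum_const, smul_eq_mul, Finset.card_univ,
      ← Finset.mul_sum, hsum, ← Finset.card_filter] at h2
    have h3 : Finset.univ.filter (fun x => 8 ≤ tw a x) = heavy a := rfl
    rw [h3] at h2
    omega

end Pool.Agent.helper50.Zono
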