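import Pool.Agent.helper50.Zono.Count2

/-!
# Every cell has at least three walls
-/

open scoped RealInnerProductSpace

set_option linter.unusedSectionVars false

namespace Pool.Agent.helper50.Zono

variable {ι : Type*} [DecidableEq ι] [Fintype ι]

theorem mem_walls {a : ι → E3} {S : Finset ι} {i : ι} :
    i ∈ walls a S ↔ IsTope a (symmDiff S {i}) := by
  classical
  unfold walls
  rw [Finset.mem_filter]
  simp

/-- the sign of the index `i` in `S` -/
def sg (S : Finset ι) (i : ι) : ℝ := if i ∈ S then 1 else -1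

theorem sg_sq (S : Finset ι) (i : ι) : sg S i * sg S i = 1 := by
  unfold sg; split_ifs <;> norm_num

theorem sg_ne (S : Finset ι) (i : ι) : sg S i ≠ 0 := by
  unfold sg; split_ifs <;> norm_num

theorem isTope_iff_sg {a : ι → E3} {S : Finset ι} :
    IsTope a S ↔ ∃ x, ∀ i, 0 < sg S i * ⟪a i, x⟫ := by
  constructor
  · rintro ⟨x, h1, h2⟩
    refine ⟨x, fun i => ?_⟩
    unfold sg
    split_ifs with hi
    · rw [one_mul]; exact h1 i hi
    · have := h2 i hi; linarith
  · rintro ⟨x, h⟩
    refine ⟨x, fun i hi => ?_, fun i hi => ?_⟩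
    · have := h i
      rw [sg, if_pos hi, one_mul] at this
      exact this
    · have := h i
      rw [sg, if_neg hi] at this
      linarith

/-- A point of the hyperplane `i` which lies strictly on the right side of all the others shows
that `i` is a wall. -/
theorem wall_of_point {a : ι → E3} {S : Finset ι} {i : ι} (hai : a i ≠ 0) {p : E3}
    (h0 : ⟪a i, p⟫ = 0) (h : ∀ j, j ≠ i → 0 < sg S j * ⟪a j, p⟫) : i ∈ walls a S := by
  classical
  have haa : 0 < ⟪a i, a i⟫ := by
    rw [real_inner_self_eq_norm_sq]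
    have : 0 < ‖a i‖ := norm_pos_iff.2 hai
    positivity
  rw [mem_walls, isTope_iff_sg]
  have hev : ∀ᶠ ε in nhdsWithin (0 : ℝ) (Set.Ioi 0), ∀ j, j ≠ i →
      0 < sg S j * ⟪a j, p + ε • (-(sg S i) • a i)⟫ := by
    rw [Filter.eventually_all]
    intro j
    by_cases hj : j = i
    · simp [hj]
    · have hcont : Filter.Tendsto (fun ε : ℝ => sg S j * ⟪a j, p + ε • (-(sg S i) • a i)⟫)
          (nhdsWithin 0 (Set.Ioi 0)) (nhds (sg S j * ⟪a j, p⟫)) := by
        have : Filter.Tendsto (fun ε : ℝ => sg S j * ⟪a j, p + ε • (-(sg S i) • a i)⟫) (nhds 0)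
            (nhds (sg S j * ⟪a j, p + (0:ℝ) • (-(sg S i) • a i)⟫)) := by
          apply Continuous.tendsto
          fun_prop
        rw [zero_smul, add_zero] at this
        exact this.mono_left nhdsWithin_le_nhds
      filter_upwards [hcont.eventually (lt_mem_nhds (h j hj))] with ε hε _ using hε
  obtain ⟨ε, h1, h2⟩ := (hev.and self_mem_nhdsWithin).exists
  have hε : 0 < ε := h2
  refine ⟨p + ε • (-(sg S i) • a i), fun j => ?_⟩
  by_cases hj : j = i
  · subst hj
    have hs : sg (symmDiff S {j}) j = - sg S j := by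
      unfold sg
      by_cases hjS : j ∈ S
      · have : j ∉ symmDiff S {j} := by
          rw [Finset.mem_symmDiff, Finset.mem_singleton]; tauto
        rw [if_neg this, if_pos hjS]
      · have : j ∈ symmDiff S {j} := by
          rw [Finset.mem_symmDiff, Finset.mem_singleton]; tauto
        rw [if_pos this, if_neg hjS]; norm_num
    rw [hs, inner_add_right, h0, inner_smul_right, inner_smul_right, zero_add]
    have : -sg S j * (ε * (-sg S j * ⟪a j, a j⟫)) = (sg S j * sg S j) * (ε * ⟪a j, a j⟫) := by ring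
    rw [this, sg_sq, one_mul]
    exact mul_pos hε haa
  · have hs : sg (symmDiff S {i}) j = sg S j := by
      unfold sg
      have : j ∈ symmDiff S {i} ↔ j ∈ S := by
        rw [Finset.mem_symmDiff, Finset.mem_singleton]; tauto
      by_cases hjS : j ∈ S
      · rw [if_pos (this.2 hjS), if_pos hjS]
      · rw [if_neg (fun h' => hjS (this.1 h')), if_neg hjS]
    rw [hs]
    exact h1 j hj

/-- If the ray from a point of the cell in direction `d` leaves the cell, it can be started at a
generic point and leaves the cell through a wall `i` with `sg S i * ⟪a i, d⟫ < 0`. -/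
theorem exists_wall_dir {a : ι → E3} (hpi : PI a) {S : Finset ι} (hS : IsTope a S) {d : E3}
    (hd : ∃ k, sg S k * ⟪a k, d⟫ < 0) : ∃ i ∈ walls a S, sg S i * ⟪a i, d⟫ < 0 := by
  classical
  rw [isTope_iff_sg] at hS
  obtain ⟨x₀, hx₀⟩ := hS
  -- generic perturbation
  set B : Finset ι := Finset.univ.filter (fun i => sg S i * ⟪a i, d⟫ < 0) with hB
  have hBne : B.Nonempty := by
    obtain ⟨k, hk⟩ := hd
    exact ⟨k, Finset.mem_filter.2 ⟨Finset.mem_univ _, hk⟩⟩
  have hBmem : ∀ i, i ∈ B ↔ sg S i * ⟪a i, d⟫ < 0 := by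
    intro i; rw [hB, Finset.mem_filter]; simp
  let g : ι → ι → E3 := fun i j =>
    (sg S j * ⟪a j, d⟫) • (sg S i • a i) - (sg S i * ⟪a i, d⟫) • (sg S j • a j)
  have hg : ∀ i ∈ B, ∀ j ∈ B, i ≠ j → g i j ≠ 0 := by
    intro i hi j hj hij h0
    have hli := hpi i j hij
    rw [LinearIndependent.pair_iff] at hli
    have h1 := hli ((sg S j * ⟪a j, d⟫) * sg S i) (-((sg S i * ⟪a i, d⟫) * sg S j)) (by
      have : g i j = 0 := h0
      simp only [g] at this
      rw [← this]; module)
    have h2 := (hBmem j).1 hj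
    have h3 := h1.1
    rcases mul_eq_zero.1 h3 with h4 | h4
    · linarith
    · exact sg_ne S i h4
  obtain ⟨y, hy⟩ : ∃ y : E3, ∀ i ∈ B, ∀ j ∈ B, i ≠ j → ⟪g i j, y⟫ ≠ 0 := by
    obtain ⟨y, hy⟩ := Module.Dual.exists_forall_ne_zero_of_forall_exists
      (fun p : {p : ι × ι // p.1 ∈ B ∧ p.2 ∈ B ∧ p.1 ≠ p.2} => (innerₗ E3 (g p.1.1 p.1.2)))
      (fun p => ⟨g p.1.1 p.1.2, by
        have := hg _ p.2.1 _ p.2.2.1 p.2.2.2
        simpa using this⟩)
    exact ⟨y, fun i hi j hj hij => by simpa using hy ⟨(i, j), hi, hj, hij⟩⟩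
  have hev1 : ∀ᶠ ε in nhdsWithin (0 : ℝ) (Set.Ioi 0), ∀ j, 0 < sg S j * ⟪a j, x₀ + ε • y⟫ := by
    rw [Filter.eventually_all]
    intro j
    have hcont : Filter.Tendsto (fun ε : ℝ => sg S j * ⟪a j, x₀ + ε • y⟫)
        (nhdsWithin 0 (Set.Ioi 0)) (nhds (sg S j * ⟪a j, x₀⟫)) := by
      have : Filter.Tendsto (fun ε : ℝ => sg S j * ⟪a j, x₀ + ε • y⟫) (nhds 0)
          (nhds (sg S j * ⟪a j, x₀ + (0:ℝ) • y⟫)) := by
        apply Continuous.tendsto
        fun_prop
      rw [zero_smul, add_zero] at this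
      exact this.mono_left nhdsWithin_le_nhds
    exact hcont.eventually (lt_mem_nhds (hx₀ j))
  have hev2 : ∀ᶠ ε in nhdsWithin (0 : ℝ) (Set.Ioi 0), ∀ i, ∀ j, i ∈ B → j ∈ B → i ≠ j →
      ⟪g i j, x₀ + ε • y⟫ ≠ 0 := by
    rw [Filter.eventually_all]
    intro i
    rw [Filter.eventually_all]
    intro j
    by_cases hij : i ∈ B ∧ j ∈ B ∧ i ≠ j
    · have hne := hy i hij.1 j hij.2.1 hij.2.2
      set c := -⟪g i j, x₀⟫ / ⟪g i j, y⟫ with hc
      have : ∀ᶠ ε in nhdsWithin (0 : ℝ) (Set.Ioi 0), ε ≠ c := by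
        rcases lt_or_ge 0 c with h | h
        · have : ∀ᶠ ε in nhds (0 : ℝ), ε < c := gt_mem_nhds h
          filter_upwards [mem_nhdsWithin_of_mem_nhds this] with ε hε using ne_of_lt hε
        · filter_upwards [self_mem_nhdsWithin] with ε hε
          have : 0 < ε := hε
          exact ne_of_gt (lt_of_le_of_lt h this)
      filter_upwards [this] with ε hε _ _ _ h0
      apply hε
      rw [inner_add_right, inner_smul_right] at h0
      rw [hc]
      field_simp
      linarith
    · exact Filter.Eventually.of_forall fun ε h1 h2 h3 => absurd ⟨h1, h2, h3⟩ hij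
  obtain ⟨ε, h1, h2⟩ := (hev1.and hev2).exists
  set x := x₀ + ε • y with hx
  -- the first crossing
  obtain ⟨i, hi, hmin⟩ := B.exists_min_image
    (fun i => (sg S i * ⟪a i, x⟫) / (-(sg S i * ⟪a i, d⟫))) hBne
  have hdi := (hBmem i).1 hi
  set t := (sg S i * ⟪a i, x⟫) / (-(sg S i * ⟪a i, d⟫)) with ht
  have htpos : 0 < t := div_pos (h1 i) (by linarith)
  have hzero : sg S i * ⟪a i, x + t • d⟫ = 0 := by
    rw [inner_add_right, inner_smul_right, mul_add]
    have : t * -(sg S i * ⟪a i, d⟫) = sg S i * ⟪a i, x⟫ := by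
      rw [ht]; exact div_mul_cancel₀ _ (by linarith)
    linarith
  have hzero' : ⟪a i, x + t • d⟫ = 0 := (mul_eq_zero.1 hzero).resolve_left (sg_ne S i)
  refine ⟨i, ?_, hdi⟩
  have hai : a i ≠ 0 := by
    intro h0
    rw [h0, inner_zero_left, mul_zero] at hdi
    exact lt_irrefl _ hdi
  refine wall_of_point hai hzero' fun j hj => ?_
  rw [inner_add_right, inner_smul_right, mul_add]
  by_cases hjB : j ∈ B
  · have hdj := (hBmem j).1 hjB
    have hle := hmin j hjB
    have hne := h2 i j hi hjB (Ne.symm hj)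
    have hlt : t < (sg S j * ⟪a j, x⟫) / (-(sg S j * ⟪a j, d⟫)) := by
      refine lt_of_le_of_ne hle fun heq => hne ?_
      have h3 : t * (-(sg S j * ⟪a j, d⟫)) = sg S j * ⟪a j, x⟫ := by
        rw [heq]; exact div_mul_cancel₀ _ (by linarith)
      have h4 : t * -(sg S i * ⟪a i, d⟫) = sg S i * ⟪a i, x⟫ := by
        rw [ht]; exact div_mul_cancel₀ _ (by linarith)
      simp only [g, inner_sub_left, inner_smul_left, RCLike.conj_to_real]
      linear_combination (-(sg S j * ⟪a j, d⟫)) * h4 + (sg S i * ⟪a i, d⟫) * h3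
    rw [lt_div_iff₀ (by linarith)] at hlt
    linarith
  · have hdj : 0 ≤ sg S j * ⟪a j, d⟫ := not_lt.1 fun h' => hjB ((hBmem j).2 h')
    have h3 := h1 j
    have h4 := mul_nonneg htpos.le hdj
    linarith

theorem three_le_walls {a : ι → E3} (h : IsArr a) {S : Finset ι} (hS : IsTope a S) :
    3 ≤ (walls a S).card := by
  classical
  by_contra hlt
  push Not at hlt
  set U := Submodule.span ℝ (a '' (walls a S : Set ι)) with hU
  have hfin : Module.finrank ℝ U ≤ 2 := by
    have h1 : U = Submodule.span ℝ (((walls a S).image a : Finset E3) : Set E3) := by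
      rw [hU, Finset.coe_image]
    have h2 := finrank_span_finset_le_card (R := ℝ) ((walls a S).image a)
    have h3 : ((walls a S).image a).card ≤ (walls a S).card := Finset.card_image_le
    rw [h1]
    exact h2.trans (by omega)
  have hne : Uᗮ ≠ ⊥ := by
    intro hbot
    have h1 := U.finrank_add_finrank_orthogonal
    rw [hbot, finrank_bot] at h1
    simp only [finrank_euclideanSpace, Fintype.card_fin] at h1
    omega
  obtain ⟨d, hdU, hd0⟩ := Submodule.exists_mem_ne_zero_of_ne_bot hne
  have hdw : ∀ i ∈ walls a S, ⟪a i, d⟫ = 0 := fun i hi =>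
    (Submodule.mem_orthogonal _ _).1 hdU _ (Submodule.subset_span ⟨i, hi, rfl⟩)
  obtain ⟨k, hk⟩ : ∃ k, ⟪a k, d⟫ ≠ 0 := by
    by_contra hcon
    push Not at hcon
    apply hd0
    have h1 : d ∈ (Submodule.span ℝ (Set.range a))ᗮ := by
      rw [Submodule.mem_orthogonal]
      intro u hu
      induction hu using Submodule.span_induction with
      | mem x hx => obtain ⟨i, rfl⟩ := hx; exact hcon i
      | zero => simp
      | add x y _ _ hx hy => rw [inner_add_left, hx, hy, add_zero]
      | smul c x _ hx => rw [inner_smul_left, hx, mul_zero]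
    rw [h.span, Submodule.top_orthogonal_eq_bot] at h1
    exact (Submodule.mem_bot ℝ).1 h1
  have hk' : sg S k * ⟪a k, d⟫ ≠ 0 := mul_ne_zero (sg_ne S k) hk
  rcases lt_or_gt_of_ne hk' with h1 | h1
  · obtain ⟨i, hi, hneg⟩ := exists_wall_dir h.indep hS ⟨k, h1⟩
    rw [hdw i hi, mul_zero] at hneg
    exact lt_irrefl _ hneg
  · obtain ⟨i, hi, hneg⟩ := exists_wall_dir h.indep hS (d := -d) ⟨k, by
      rw [inner_neg_right]; linarith⟩
    rw [inner_neg_right, hdw i hi, neg_zero, mul_zero] at hneg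
    exact lt_irrefl _ hneg

/-- **Euler's relation**: the number of cells with exactly three walls. -/
theorem tri_euler {a : ι → E3} (h : IsArr a) (hc : 2 ≤ Fintype.card ι) :
    (tri a : ℤ) = 8 + 4 * ∑ q ∈ planes a Finset.univ, ((mult a Finset.univ q : ℤ) - 2) +
      ∑ S ∈ topes a, (((walls a S).card - 4 : ℕ) : ℤ) := by
  classical
  have h1 := sum_walls (a := a) h.indep hc
  have h2 := card_topes (a := a) h.indep hc
  have h3 : ∀ S ∈ topes a, ((walls a S).card : ℤ) =
      4 - (if (walls a S).card = 3 then 1 else 0) + (((walls a S).card - 4 : ℕ) : ℤ) := by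
    intro S hS
    have := three_le_walls h (mem_topes'.1 hS)
    split_ifs with h4
    · rw [h4]; norm_num
    · have : 4 ≤ (walls a S).card := by omega
      push_cast [Nat.cast_sub this]; ring
  have h4 : (∑ S ∈ topes a, ((walls a S).card : ℤ)) =
      4 * (topes a).card - tri a + ∑ S ∈ topes a, (((walls a S).card - 4 : ℕ) : ℤ) := by
    rw [Finset.sum_congr rfl h3, Finset.sum_add_distrib, Finset.sum_sub_distrib]
    congr 1
    congr 1
    · simp; ring
    · unfold tri
      rw [Finset.card_filter]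
      push_cast
      rfl
  have h5 : (∑ S ∈ topes a, ((walls a S).card : ℤ)) =
      4 * ∑ q ∈ planes a Finset.univ, (mult a Finset.univ q : ℤ) := by
    exact_mod_cast h1
  have h6 : ((topes a).card : ℤ) =
      2 * (1 + ∑ q ∈ planes a Finset.univ, ((mult a Finset.univ q : ℤ) - 1)) := by
    rw [h2]
    push_cast
    congr 2
    refine Finset.sum_congr rfl fun q hq => ?_
    have := two_le_mult hq
    push_cast [Nat.cast_sub (by omega : 1 ≤ mult a Finset.univ q)]
    ring
  have h7 : ∑ q ∈ planes a Finset.univ, ((mult a Finset.univ q : ℤ) - 2) =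
      2 * (∑ q ∈ planes a Finset.univ, ((mult a Finset.univ q : ℤ) - 1)) -
        ∑ q ∈ planes a Finset.univ, (mult a Finset.univ q : ℤ) := by
    rw [Finset.mul_sum, ← Finset.sum_sub_distrib]
    refine Finset.sum_congr rfl fun q _ => ?_
    ring
  rw [h7]
  linarith

end Pool.Agent.helper50.Zono
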